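import Mathlib

/-!
# Counting fundamental discriminants with local weights: definitions
-/

set_option autoImplicit false

open Filter Topology

namespace Pool.Agent.Lib.H60M

noncomputable section

/-- The sum of `G d` over the integers `d` with `|d| < x` and `A d`. -/
def sm (A : ℤ → Prop) (G : ℤ → ℝ) (x : ℝ) : ℝ :=
  open Classical in ∑ d ∈ (Finset.Icc (-⌈x⌉) ⌈x⌉).filter (fun d : ℤ => |(d : ℝ)| < x ∧ A d), G d

/-- `d ≠ 0` and no square of a prime `q ∤ M` divides `d`. -/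
def sf (M : ℕ) (d : ℤ) : Prop := d ≠ 0 ∧ ∀ q : ℕ, q.Prime → ¬ q ∣ M → ¬ (q : ℤ) ^ 2 ∣ d

/-- The mean of a function over `0, …, M - 1`. -/
def mean (M : ℕ) (G : ℤ → ℝ) : ℝ := (∑ i ∈ Finset.range M, G i) / M

/-- The local condition at `2` for a fundamental discriminant. -/
def ch2 (d : ℤ) : Prop := d % 4 = 1 ∨ d % 16 = 8 ∨ d % 16 = 12

end

end Pool.Agent.Lib.H60M
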