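import Pool.Agent.Lib.Maass.Exists
import Pool.Agent.Lib.Maass.Twist
import Pool.Agent.Lib.Maass.QuadField
import Pool.Agent.Lib.Maass.Count

/-!
# Maass newforms of level `N` with trivial character and their quadratic twists: definitions
-/

set_option autoImplicit false

open UpperHalfPlane Complex CongruenceSubgroup Filter Topology
open scoped MatrixGroups ContDiff Real
open Pool.Agent.Lib.Maass

namespace Pool.Agent.Lib.H60M

noncomputable section

/-- `R` is a system of representatives of the cosets `H γ`, `γ` in `G`. -/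
def IsReps (H G : Subgroup SL(2, ℤ)) (R : Finset SL(2, ℤ)) : Prop :=
  (∀ γ ∈ R, γ ∈ G) ∧ ∀ δ ∈ G, ∃! γ, γ ∈ R ∧ δ * γ⁻¹ ∈ H

/-- A Maass newform of level `N` (trivial character, weight `0`; used for squarefree `N`): a smooth, bounded, nonzero function on the upper half-plane,
invariant under `Γ₀(N)`, an eigenfunction of the hyperbolic Laplacian, with vanishing constant term at every cusp, even or odd under
`J : z ↦ - conj z`, an eigenfunction of the Hecke operators `T_q`, `q ∤ N`, and of the Atkin-Lehner operators `W_p`, `p ∣ N` (eigenvalue `al p = ± 1`),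
and new: for every prime `p ∣ N` the trace of `F` to level `N / p` vanishes (with the `W_p`-eigenvalue this is orthogonality to all forms
`g(z)` and `g(p z)`, `g` of level `N / p`). -/
structure MaassNewform (N : ℕ) where
  /-- the underlying function -/
  toFun : ℍ → ℂ
  /-- the eigenvalue of the hyperbolic Laplacian -/
  lam : ℂ
  /-- the parity: `1` for an even form, `-1` for an odd form -/
  parity : ℤˣ
  /-- the eigenvalue of `T_q`, `q` a prime not dividing `N` (the other values are irrelevant) -/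
  hecke : ℕ → ℂ
  /-- the eigenvalue of the Atkin-Lehner operator `W_p`, `p` a prime dividing `N` (the other values are irrelevant) -/
  al : ℕ → ℤˣ
  smooth' : ContDiffOn ℝ ∞ (toFun ∘ ofComplex) {z : ℂ | 0 < z.im}
  bounded' : ∃ C : ℝ, ∀ z : ℍ, ‖toFun z‖ ≤ C
  ne_zero' : ∃ z : ℍ, toFun z ≠ 0
  map_smul' : ∀ γ ∈ Gamma0 N, ∀ z : ℍ, toFun (γ • z) = toFun z
  laplace' : ∀ z : ℍ,
    -(z.im : ℂ) ^ 2 * Laplacian.laplacian (toFun ∘ ofComplex) (z : ℂ) = lam * toFun z
  cuspidal' : ∀ (δ : SL(2, ℤ)) (y : ℝ), 0 < y → ∫ x in (0 : ℝ)..N, toFun (δ • ofComplex (x + y * Complex.I)) = 0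
  map_J' : ∀ z : ℍ, toFun (J • z) = ((parity : ℤ) : ℂ) * toFun z
  hecke' : ∀ q : ℕ, q.Prime → ¬ q ∣ N → ∀ z : ℍ, heckeOp q toFun z = hecke q * toFun z
  al' : ∀ p : ℕ, p.Prime → p ∣ N → ∀ a b c d : ℤ, (p * a) * (p * d) - b * (N * c) = p →
    ∀ z : ℍ, toFun (ofComplex ((p * a * z + b) / (N * c * z + p * d))) = ((al p : ℤ) : ℂ) * toFun z
  new' : ∀ p : ℕ, p.Prime → p ∣ N → ∀ R : Finset SL(2, ℤ), IsReps (Gamma0 N) (Gamma0 (N / p)) R →
    ∀ z : ℍ, ∑ γ ∈ R, toFun (γ • z) = 0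

variable {N : ℕ}

/-- The Hecke eigenvalue `λ_q` of the newform at a prime `q`: the eigenvalue of `T_q` for `q ∤ N`, and `- w_q / √q` for `q ∣ N`. -/
def MaassNewform.ev (F : MaassNewform N) (q : ℕ) : ℂ :=
  if q ∣ N then -((F.al q : ℤ) : ℂ) / ((Real.sqrt q : ℝ) : ℂ) else F.hecke q

/-- The Euler factor at `q` of the standard `L`-function of `π_F ⊗ η_E`; here `etaQ E q = η_E(q)` is `0`, `1`, `-1` according as `q` is ramified, split,
inert in `E`. For `q ∣ N` the local component of `π_F` is an unramified twist of the Steinberg representation. -/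
def eulerFactor (F : MaassNewform N) (E : QuadExt) (s : ℂ) (q : Nat.Primes) : ℂ :=
  if (q : ℕ) ∣ N then (1 - F.ev q * (etaQ E.1 q : ℂ) * ((q : ℕ) : ℂ) ^ (-s))⁻¹
  else (1 - F.ev q * (etaQ E.1 q : ℂ) * ((q : ℕ) : ℂ) ^ (-s) + (etaQ E.1 q : ℂ) ^ 2 * (((q : ℕ) : ℂ) ^ (-s)) ^ 2)⁻¹

/-- `L` is the standard `L`-function `s ↦ L(s, π_F ⊗ η_E)`: it is entire, and it is the (unconditionally convergent) Euler product for `Re s > 3/2`. -/
def IsLFunction (F : MaassNewform N) (E : QuadExt) (L : ℂ → ℂ) : Prop :=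
  Differentiable ℂ L ∧ ∀ s : ℂ, 3 / 2 < s.re → HasProd (eulerFactor F E s) (L s)

/-- The number `- ∏_{q ∣ N} ε_q`, where `ε_q = 1` if `q` ramifies in `E` and `ε_q = w_q η_E(q)` otherwise. By `HasRootNumber` below it is
the root number of `L(s, π_F ⊗ η_E)` for odd `F` of squarefree level. -/
def MaassNewform.rootNumber (F : MaassNewform N) (E : QuadExt) : ℤ :=
  -∏ q ∈ N.primeFactors, (if (q : ℤ) ∣ E.disc then 1 else (F.al q : ℤ) * etaQ E.1 q)

/-- `ε` is the root number of `L(s, π_F ⊗ η_E)`, `F` odd: with the conductor `M = |Δ_E|² N / gcd(N, Δ_E)`, `δ = 1` for real and `δ = 0` for imaginary `E`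
and `ν² = 1/4 - λ`, the completed function `Λ(s) = M^(s/2) π^(-s) Γ((s+δ+ν)/2) Γ((s+δ-ν)/2) L(s)` is entire and `Λ(1 - s) = ε Λ(s)`. -/
def HasRootNumber (F : MaassNewform N) (E : QuadExt) (ε : ℤ) : Prop :=
  ∃ (L Λ : ℂ → ℂ) (ν : ℂ), IsLFunction F E L ∧ Differentiable ℂ Λ ∧ ν ^ 2 = 1 / 4 - F.lam ∧
    (∀ s : ℂ, L s = Λ s * (((E.disc.natAbs ^ 2 * (N / Nat.gcd N E.disc.natAbs) : ℕ) : ℝ) : ℂ) ^ (-(s / 2)) * (π : ℂ) ^ s *
      (Complex.Gamma ((s + (if 0 < E.disc then 1 else 0) + ν) / 2))⁻¹ * (Complex.Gamma ((s + (if 0 < E.disc then 1 else 0) - ν) / 2))⁻¹) ∧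
    ∀ s : ℂ, Λ (1 - s) = ε * Λ s

/-- `N(x)`: the number of quadratic extensions `E` with `|Δ_E| < x`. -/
def NN (x : ℝ) : ℕ := Nat.card {E : QuadExt // |(E.disc : ℝ)| < x}

/-- `N_π(x)`: the number of quadratic extensions `E` with `|Δ_E| < x` and `L(1/2, π_F ⊗ η_E) ≠ 0`. -/
def NF (F : MaassNewform N) (x : ℝ) : ℕ :=
  Nat.card {E : QuadExt // |(E.disc : ℝ)| < x ∧ ∃ L : ℂ → ℂ, IsLFunction F E L ∧ L (1 / 2) ≠ 0}

/-- The number of quadratic extensions `E` with `|Δ_E| < x` and root number `+1`. -/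
def Nplus (F : MaassNewform N) (x : ℝ) : ℕ :=
  Nat.card {E : QuadExt // |(E.disc : ℝ)| < x ∧ F.rootNumber E = 1}

/-- The density of the fields with root number `+1`: `(1 - ∏_{q ∣ N} 1/(q+1)) / 2`. -/
def dplus (N : ℕ) : ℝ := (1 - ∏ q ∈ N.primeFactors, (1 / ((q : ℝ) + 1))) / 2

end

end Pool.Agent.Lib.H60M
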