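import Pool.Agent.Lib.H60M.Defs

/-!
# Maass newforms of level `N`, even or odd: root numbers of their quadratic twists
-/

set_option autoImplicit false

open UpperHalfPlane Complex CongruenceSubgroup Filter Topology
open scoped MatrixGroups ContDiff Real
open Pool.Agent.Lib.Maass

namespace Pool.Agent.Lib.H60M

noncomputable section

variable {N : ℕ}

/-- The number `parity · ∏_{q ∣ N} ε_q`, where `ε_q = 1` if `q` ramifies in `E` and `ε_q = w_q η_E(q)` otherwise. By `IsRootNumber` below it is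
the root number of `L(s, π_F ⊗ η_E)` for `F` of squarefree level. -/
def MaassNewform.eps (F : MaassNewform N) (E : QuadExt) : ℤ :=
  (F.parity : ℤ) * ∏ q ∈ N.primeFactors, (if (q : ℤ) ∣ E.disc then 1 else (F.al q : ℤ) * etaQ E.1 q)

/-- The shift `δ` in the Gamma factors of `L(s, π_F ⊗ η_E)`: `0` if `F` is even and `E` is real or `F` is odd and `E` is imaginary, `1` otherwise. -/
def MaassNewform.shift (F : MaassNewform N) (E : QuadExt) : ℂ :=
  if (F.parity = 1 ↔ 0 < E.disc) then 0 else 1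

/-- `ε` is the root number of `L(s, π_F ⊗ η_E)`: with the conductor `M = |Δ_E|² N / gcd(N, Δ_E)`, `δ = F.shift E` and `ν² = 1/4 - λ`, the completed
function `Λ(s) = M^(s/2) π^(-s) Γ((s+δ+ν)/2) Γ((s+δ-ν)/2) L(s)` is entire and `Λ(1 - s) = ε Λ(s)`. -/
def IsRootNumber (F : MaassNewform N) (E : QuadExt) (ε : ℤ) : Prop :=
  ∃ (L Λ : ℂ → ℂ) (ν : ℂ), IsLFunction F E L ∧ Differentiable ℂ Λ ∧ ν ^ 2 = 1 / 4 - F.lam ∧
    (∀ s : ℂ, L s = Λ s * (((E.disc.natAbs ^ 2 * (N / Nat.gcd N E.disc.natAbs) : ℕ) : ℝ) : ℂ) ^ (-(s / 2)) * (π : ℂ) ^ s *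
      (Complex.Gamma ((s + F.shift E + ν) / 2))⁻¹ * (Complex.Gamma ((s + F.shift E - ν) / 2))⁻¹) ∧
    ∀ s : ℂ, Λ (1 - s) = ε * Λ s

/-- The number of quadratic extensions `E` with `|Δ_E| < x` and root number `+1`. -/
def Npos (F : MaassNewform N) (x : ℝ) : ℕ :=
  Nat.card {E : QuadExt // |(E.disc : ℝ)| < x ∧ F.eps E = 1}

/-- The number of quadratic extensions `E` with `|Δ_E| < x`, root number `+1` and `L(1/2, π_F ⊗ η_E) = 0`. -/
def Nvan (F : MaassNewform N) (x : ℝ) : ℕ :=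
  Nat.card {E : QuadExt // |(E.disc : ℝ)| < x ∧ F.eps E = 1 ∧ ∃ L : ℂ → ℂ, IsLFunction F E L ∧ L (1 / 2) = 0}

/-- The density of the fields with root number `+1`: `(1 + parity · ∏_{q ∣ N} 1/(q+1)) / 2`. -/
def dpos (F : MaassNewform N) : ℝ := (1 + ((F.parity : ℤ) : ℝ) * ∏ q ∈ N.primeFactors, (1 / ((q : ℝ) + 1))) / 2

end

end Pool.Agent.Lib.H60M
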