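import Pool.Agent.Lib.H60M.EDefs

/-!
# H60M E01 (S/M): the Fricke involution

PROOF. `-1/(p z)` has positive imaginary part (Maass.fricke_im_pos is the model). `wf p` is the action of the matrix `(0, -1; p, 0) ∈ GL₂⁺(ℝ)` (model: gInf_smul, gFin_smul in HeckeOp.lean), so `upt_smul`.
`(0 -1; p 0)(a b; p c d)(0 -1; p 0)⁻¹ = (d, -c; -p b, a)`.
-/

set_option autoImplicit false

open UpperHalfPlane Complex CongruenceSubgroup Filter Topology MeasureTheory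
open scoped MatrixGroups ContDiff Real Modular
open Pool.Agent.Lib.Maass

namespace Pool.Agent.Lib.H60M

variable (p : ℕ) [Fact p.Prime]

lemma e01_pos : (0 : ℝ) < p := by exact_mod_cast (Fact.out : p.Prime).pos

lemma e01_ne : (p : ℂ) ≠ 0 := by exact_mod_cast (Fact.out : p.Prime).ne_zero

lemma e01_im_pos (z : ℍ) : 0 < (-1 / ((p : ℂ) * z)).im := by
  have hp := e01_pos p
  have hz : 0 < Complex.normSq (z : ℂ) := Complex.normSq_pos.mpr (UpperHalfPlane.ne_zero z)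
  have e : (-1 / ((p : ℂ) * z)) = ((1 / (p : ℝ) : ℝ) : ℂ) * (-(z : ℂ)⁻¹) := by
    push_cast
    field_simp
  rw [e, Complex.im_ofReal_mul, Complex.neg_im, Complex.inv_im]
  have := z.im_pos
  have h2 : (z : ℂ).im = z.im := rfl
  rw [h2, neg_div, neg_neg]
  positivity

theorem wf_coe (z : ℍ) : ((wf p z : ℍ) : ℂ) = -1 / ((p : ℂ) * z) := by
  unfold wf
  rw [ofComplex_apply_of_im_pos (e01_im_pos p z)]

lemma e01_det : Matrix.det !![(0 : ℝ), -1; p, 0] ≠ 0 := by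
  rw [Matrix.det_fin_two_of]
  have := e01_pos p
  simp only [mul_zero, neg_mul, one_mul, zero_sub, neg_neg]
  exact this.ne'

/-- The Fricke matrix. -/
noncomputable def e01W : GL (Fin 2) ℝ := Matrix.GeneralLinearGroup.mkOfDetNeZero !![(0 : ℝ), -1; p, 0] (e01_det p)

lemma e01W_smul (z : ℍ) : wf p z = e01W p • z := by
  have hdet : 0 < (e01W p).det.val := by
    have h : (e01W p).det.val = Matrix.det !![(0 : ℝ), -1; p, 0] := rfl
    rw [h, Matrix.det_fin_two_of]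
    have := e01_pos p
    simpa using this
  have h1 : ((e01W p • z : ℍ) : ℂ) = -1 / ((p : ℂ) * z) := by
    rw [coe_smul_of_det_pos hdet]
    simp [num, denom, e01W, Matrix.GeneralLinearGroup.mkOfDetNeZero]
  apply UpperHalfPlane.ext
  rw [h1, wf_coe]

theorem wf_gl : ∃ g : GL (Fin 2) ℝ, ∀ z : ℍ, wf p z = g • z := ⟨e01W p, e01W_smul p⟩

theorem wf_wf (z : ℍ) : wf p (wf p z) = z := by
  apply UpperHalfPlane.ext
  rw [wf_coe, wf_coe]
  have h1 := e01_ne p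
  have h2 := UpperHalfPlane.ne_zero z
  field_simp

theorem wf_J (z : ℍ) : wf p (J • z) = J • wf p z := by
  apply UpperHalfPlane.ext
  rw [wf_coe, coe_J_smul, coe_J_smul, wf_coe]
  have h1 := e01_ne p
  have h2 := UpperHalfPlane.ne_zero z
  have h3 : (starRingEnd ℂ) (z : ℂ) ≠ 0 := by
    rwa [Ne, map_eq_zero]
  rw [map_div₀, map_mul, map_neg, map_one, Complex.conj_natCast]
  field_simp

theorem upt_wf (z w : ℍ) : upt (wf p z) (wf p w) = upt z w := by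
  rw [e01W_smul, e01W_smul, upt_smul]

omit [Fact p.Prime] in
lemma e01_dvd (γ : Gamma0 p) : (p : ℤ) ∣ (γ : SL(2, ℤ)) 1 0 := by
  have h := γ.2
  rw [Gamma0_mem] at h
  exact (ZMod.intCast_zmod_eq_zero_iff_dvd _ _).mp h

/-- Conjugation by the Fricke matrix. -/
def e01C (γ : Gamma0 p) : Gamma0 p :=
  ⟨⟨!![(γ : SL(2, ℤ)) 1 1, -((γ : SL(2, ℤ)) 1 0 / p); -(p * (γ : SL(2, ℤ)) 0 1), (γ : SL(2, ℤ)) 0 0], by
    have h := (γ : SL(2, ℤ)).det_coe
    rw [Matrix.det_fin_two] at h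
    obtain ⟨k, hk⟩ := e01_dvd p γ
    have hp : (p : ℤ) ≠ 0 := by exact_mod_cast (Fact.out : p.Prime).ne_zero
    rw [Matrix.det_fin_two_of, hk, Int.mul_ediv_cancel_left _ hp]
    rw [hk] at h
    linarith⟩, by
    rw [Gamma0_mem]
    simp⟩

lemma e01C_00 (γ : Gamma0 p) : (e01C p γ : SL(2, ℤ)) 0 0 = (γ : SL(2, ℤ)) 1 1 := rfl
lemma e01C_01 (γ : Gamma0 p) : (e01C p γ : SL(2, ℤ)) 0 1 = -((γ : SL(2, ℤ)) 1 0 / p) := rfl
lemma e01C_10 (γ : Gamma0 p) : (e01C p γ : SL(2, ℤ)) 1 0 = -(p * (γ : SL(2, ℤ)) 0 1) := rfl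
lemma e01C_11 (γ : Gamma0 p) : (e01C p γ : SL(2, ℤ)) 1 1 = (γ : SL(2, ℤ)) 0 0 := rfl

lemma e01C_e01C (γ : Gamma0 p) : e01C p (e01C p γ) = γ := by
  have hp : (p : ℤ) ≠ 0 := by exact_mod_cast (Fact.out : p.Prime).ne_zero
  apply Subtype.ext
  ext i j
  obtain ⟨k, hk⟩ := e01_dvd p γ
  fin_cases i <;> fin_cases j
  · show (e01C p (e01C p γ) : SL(2, ℤ)) 0 0 = (γ : SL(2, ℤ)) 0 0
    rw [e01C_00, e01C_11]
  · show (e01C p (e01C p γ) : SL(2, ℤ)) 0 1 = (γ : SL(2, ℤ)) 0 1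
    rw [e01C_01, e01C_10, ← mul_neg, Int.mul_ediv_cancel_left _ hp, neg_neg]
  · show (e01C p (e01C p γ) : SL(2, ℤ)) 1 0 = (γ : SL(2, ℤ)) 1 0
    rw [e01C_10, e01C_01, hk, Int.mul_ediv_cancel_left _ hp]
    ring
  · show (e01C p (e01C p γ) : SL(2, ℤ)) 1 1 = (γ : SL(2, ℤ)) 1 1
    rw [e01C_11, e01C_00]

lemma e01C_smul (γ : Gamma0 p) (z : ℍ) :
    wf p ((γ : SL(2, ℤ)) • z) = ((e01C p γ : Gamma0 p) : SL(2, ℤ)) • wf p z := by
  have hp : (p : ℝ) ≠ 0 := (e01_pos p).ne'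
  have hp' : (p : ℤ) ≠ 0 := by exact_mod_cast (Fact.out : p.Prime).ne_zero
  obtain ⟨k, hk⟩ := e01_dvd p γ
  have h : e01W p * (Matrix.SpecialLinearGroup.mapGL ℝ (γ : SL(2, ℤ))) =
      (Matrix.SpecialLinearGroup.mapGL ℝ (e01C p γ : SL(2, ℤ))) * e01W p := by
    have h00 := e01C_00 p γ
    have h01 := e01C_01 p γ
    have h10 := e01C_10 p γ
    have h11 := e01C_11 p γ
    rw [hk, Int.mul_ediv_cancel_left _ hp'] at h01
    ext i j
    fin_cases i <;> fin_cases j <;>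
      simp [Matrix.mul_apply, Fin.sum_univ_two, h00, h01, h10, h11, hk, e01W, Matrix.GeneralLinearGroup.mkOfDetNeZero, mul_comm]
  rw [e01W_smul, e01W_smul]
  change e01W p • ((Matrix.SpecialLinearGroup.mapGL ℝ (γ : SL(2, ℤ))) • z) =
    (Matrix.SpecialLinearGroup.mapGL ℝ (e01C p γ : SL(2, ℤ))) • (e01W p • z)
  rw [← mul_smul, h, mul_smul]

/-- Conjugation by the Fricke matrix as a permutation of `Γ₀(p)`. -/
theorem wf_conj : ∃ e : Gamma0 p ≃ Gamma0 p, ∀ (γ : Gamma0 p) (z : ℍ), wf p ((γ : SL(2, ℤ)) • z) = ((e γ : Gamma0 p) : SL(2, ℤ)) • wf p z :=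
  ⟨⟨e01C p, e01C p, e01C_e01C p, e01C_e01C p⟩, e01C_smul p⟩

end Pool.Agent.Lib.H60M
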