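import Pool.Agent.Lib.H60M.E01

/-!
# H60M E02 (S/M): the automorphic kernel of Γ₀(p)

PROOF. As for `autS` in Maass/AutKernel.lean (finite_support_upt, summable_upt: injectivity of the inclusion of the subgroup; autS_symm: `γ ↦ γ⁻¹`; autS_smul_left; autS_J_J: conjJ preserves `Gamma0 p`:
the lower left entry changes sign). aS_wf: wf_conj, upt_wf.
-/

set_option autoImplicit false

open UpperHalfPlane Complex CongruenceSubgroup Filter Topology MeasureTheory
open scoped MatrixGroups ContDiff Real Modular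
open Pool.Agent.Lib.Maass

namespace Pool.Agent.Lib.H60M

variable (p : ℕ) [Fact p.Prime] {φ : ℝ → ℝ}

theorem finite_aS (hφ : IsTest φ) (z w : ℍ) : (Function.support fun γ : Gamma0 p => φ (upt z ((γ : SL(2, ℤ)) • w))).Finite := by
  have h := finite_support_upt hφ z w
  exact h.preimage (f := fun γ : Gamma0 p => (γ : SL(2, ℤ))) Subtype.val_injective.injOn

theorem aS_symm (φ : ℝ → ℝ) (z w : ℍ) : aS p φ z w = aS p φ w z := by
  unfold aS
  rw [← (Equiv.inv (Gamma0 p)).tsum_eq]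
  congr 1
  ext γ
  have := upt_smul_SL (γ : SL(2, ℤ)) z ((γ : SL(2, ℤ))⁻¹ • w)
  rw [smul_inv_smul] at this
  simp only [Equiv.inv_apply, InvMemClass.coe_inv]
  rw [← this, upt_symm]

theorem aS_smul_left (φ : ℝ → ℝ) {γ : SL(2, ℤ)} (hγ : γ ∈ Gamma0 p) (z w : ℍ) : aS p φ (γ • z) w = aS p φ z w := by
  unfold aS
  rw [← (Equiv.mulLeft (⟨γ, hγ⟩ : Gamma0 p)).tsum_eq]
  congr 1
  ext δ
  simp only [Equiv.coe_mulLeft, Subgroup.coe_mul]
  rw [mul_smul, upt_smul_SL]

theorem e02_conjJ {γ : SL(2, ℤ)} (hγ : γ ∈ Gamma0 p) : conjJ γ ∈ Gamma0 p := by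
  rw [Gamma0_mem] at hγ ⊢
  rw [conjJ_10]
  simp [hγ]

/-- Conjugation by `J` on `Γ₀(p)`. -/
def e02_equiv : Gamma0 p ≃ Gamma0 p where
  toFun γ := ⟨conjJ γ, e02_conjJ p γ.2⟩
  invFun γ := ⟨conjJ γ, e02_conjJ p γ.2⟩
  left_inv γ := Subtype.ext (conjJ_conjJ _)
  right_inv γ := Subtype.ext (conjJ_conjJ _)

theorem aS_J (φ : ℝ → ℝ) (z w : ℍ) : aS p φ (J • z) (J • w) = aS p φ z w := by
  unfold aS
  rw [← (e02_equiv p).tsum_eq]
  congr 1
  ext γ
  change φ (upt (J • z) (conjJ (γ : SL(2, ℤ)) • J • w)) = _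
  rw [← J_conj, upt_smul]

theorem aS_wf (φ : ℝ → ℝ) (z w : ℍ) : aS p φ (wf p z) (wf p w) = aS p φ z w := by
  obtain ⟨e, he⟩ := wf_conj p
  unfold aS
  rw [← e.tsum_eq]
  congr 1
  ext γ
  rw [← he, upt_wf]

theorem e02_J_left (φ : ℝ → ℝ) (z w : ℍ) : aS p φ (J • z) w = aS p φ z (J • w) := by
  rw [← aS_J p φ (J • z) w, J_smul_J_smul]

theorem aK_symm (φ : ℝ → ℝ) (z w : ℍ) : aK p φ z w = aK p φ w z := by
  unfold aK
  rw [aS_symm p φ z w, aS_symm p φ z (J • w), e02_J_left]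

theorem aK_smul_left (φ : ℝ → ℝ) {γ : SL(2, ℤ)} (hγ : γ ∈ Gamma0 p) (z w : ℍ) : aK p φ (γ • z) w = aK p φ z w := by
  unfold aK
  rw [aS_smul_left p φ hγ, aS_smul_left p φ hγ]

theorem aK_J_left (φ : ℝ → ℝ) (z w : ℍ) : aK p φ (J • z) w = -aK p φ z w := by
  unfold aK
  rw [e02_J_left, aS_J]
  ring

theorem aK_wf (φ : ℝ → ℝ) (z w : ℍ) : aK p φ (wf p z) (wf p w) = aK p φ z w := by
  unfold aK
  rw [← wf_J, aS_wf, aS_wf]

theorem e02_cont (hφ : IsTest φ) : Continuous (Function.uncurry (aS p φ)) := by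
  have h : (Function.uncurry (aS p φ)) =
      fun q : ℍ × ℍ => ∑ᶠ γ : Gamma0 p, φ (upt q.1 ((γ : SL(2, ℤ)) • q.2)) := by
    ext q
    exact tsum_eq_finsum (finite_aS p hφ q.1 q.2)
  rw [h]
  refine continuous_finsum (fun γ => ?_) ?_
  · have h1 : Continuous (fun q : ℍ × ℍ => (q.1, (γ : SL(2, ℤ)) • q.2)) :=
      continuous_fst.prodMk ((continuous_const_smul
        (Matrix.SpecialLinearGroup.mapGL ℝ (γ : SL(2, ℤ)))).comp continuous_snd)
    exact (continuous_test_upt hφ).comp h1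
  · intro q
    refine ⟨Metric.closedBall q.1 1 ×ˢ Metric.closedBall q.2 1,
      prod_mem_nhds (Metric.closedBall_mem_nhds _ one_pos)
        (Metric.closedBall_mem_nhds _ one_pos), ?_⟩
    refine ((finite_upt_lt (isCompact_closedBall q.1 1) (isCompact_closedBall q.2 1)).preimage
      (f := fun γ : Gamma0 p => (γ : SL(2, ℤ))) Subtype.val_injective.injOn).subset ?_
    rintro γ ⟨r, hr, hr'⟩
    refine ⟨r.1, hr'.1, r.2, hr'.2, ?_⟩
    by_contra h
    exact hr (hφ.supp _ (not_lt.mp h))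

/-- PROOF. Port of autS_continuous (locally finite sum; the subgroup sum is a subsum). -/
theorem aK_continuous (hφ : IsTest φ) : Continuous (Function.uncurry (aK p φ)) := by
  have h : (Function.uncurry (aK p φ)) =
      fun q : ℍ × ℍ => (Function.uncurry (aS p φ)) q -
        (Function.uncurry (aS p φ)) (q.1, J • q.2) := rfl
  rw [h]
  refine (e02_cont p hφ).sub ((e02_cont p hφ).comp ?_)
  exact continuous_fst.prodMk ((continuous_const_smul J).comp continuous_snd)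

end Pool.Agent.Lib.H60M
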