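import Pool.Agent.Lib.Maass.AutKernel

/-!
# H60M E03 (M): the difference of two Riemann sums

PROOF. Write `z = x + iy`, `w = x' + iy'`, `s² = y y'`. `upt z (n +ᵥ w) = ((x - x' - n)² + (y - y')²)/(4 s²)`, `upt (J z) (n +ᵥ w) = ((-x - x' - n)² + (y - y')²)/(4 s²)` (upt_coord). If some term is nonzero then
`upt < 1`, so `y' > y/6 ≥ c/6` (im_lt_of_upt_lt) and `s ≥ c/3`. Shift the second sum by the integer `m` nearest to `2x`: the difference becomes `∑_n [φ(u_n) - φ(u'_n)]`, `u_n = ((t - n)² + (y-y')²)/(4s²)`,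
`u'_n = ((t - n + r)² + ...)/(4s²)`, `|r| ≤ 1/2`. Terms vanish unless `|t - n| ≤ 2s + 1`, and then `|u_n - u'_n| ≤ (2|t-n| |r| + r²)/(4s²) ≤ (2s + 2)/(4 s²)`. By IsTest.lipschitz every term is `≤ L (s+1)/(2s²)` and there are at most
`4s + 5` nonzero terms: total `≤ L (s+1)(4s+5)/(2s²)`, bounded for `s ≥ c/3`.
-/

set_option autoImplicit false

open UpperHalfPlane Complex CongruenceSubgroup Filter Topology MeasureTheory
open scoped MatrixGroups ContDiff Real Modular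
open Pool.Agent.Lib.Maass

namespace Pool.Agent.Lib.H60M

lemma e03_real {φ : ℝ → ℝ} (hφ : IsTest φ) {L : ℝ} (hL0 : 0 ≤ L)
    (hL : ∀ u v : ℝ, 0 ≤ u → 0 ≤ v → |φ u - φ v| ≤ L * |u - v|) {σ : ℝ} (hσ : 0 < σ)
    (τ r D s : ℝ) (hr : |r| ≤ 1 / 2) (hD : 0 ≤ D) (hs : σ ≤ s) :
    |∑' n : ℤ, (φ (((τ - n) ^ 2 + D) / (4 * s ^ 2)) - φ (((τ + r - n) ^ 2 + D) / (4 * s ^ 2)))| ≤
      L * (2 + 7 / (4 * σ) + 3 / (8 * σ ^ 2)) := by
  have hspos : 0 < s := hσ.trans_le hs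
  have hterm : ∀ n : ℤ, φ (((τ - n) ^ 2 + D) / (4 * s ^ 2)) - φ (((τ + r - n) ^ 2 + D) / (4 * s ^ 2)) ≠ 0 →
      |τ - n| ≤ 2 * s + 1 / 2 := by
    intro n hn
    have hor : ((τ - n) ^ 2 + D) / (4 * s ^ 2) < 1 ∨ ((τ + r - n) ^ 2 + D) / (4 * s ^ 2) < 1 := by
      by_contra hcon
      push Not at hcon
      exact hn (by rw [hφ.supp _ hcon.1, hφ.supp _ hcon.2, sub_zero])
    rw [abs_le] at hr
    rcases hor with h | h
    · rw [div_lt_one (by positivity)] at h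
      have h1 : |τ - n| < 2 * s := by
        rw [← abs_of_pos (show 0 < 2 * s by positivity), ← sq_lt_sq]
        nlinarith
      linarith
    · rw [div_lt_one (by positivity)] at h
      have h1 : |τ + r - n| < 2 * s := by
        rw [← abs_of_pos (show 0 < 2 * s by positivity), ← sq_lt_sq]
        nlinarith
      rw [abs_lt] at h1
      rw [abs_le]
      constructor <;> linarith
  set S : Finset ℤ := Finset.Icc ⌈τ - (2 * s + 1 / 2)⌉ ⌊τ + (2 * s + 1 / 2)⌋ with hS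
  have hmem : ∀ n : ℤ, n ∈ S ↔ |τ - n| ≤ 2 * s + 1 / 2 := by
    intro n
    rw [hS, Finset.mem_Icc, Int.ceil_le, Int.le_floor, abs_le]
    constructor
    · rintro ⟨h1, h2⟩
      constructor <;> linarith
    · rintro ⟨h1, h2⟩
      constructor <;> linarith
  rw [tsum_eq_sum (s := S) (fun n hn => by
    by_contra hne
    exact hn ((hmem n).mpr (hterm n hne)))]
  refine (Finset.abs_sum_le_sum_abs _ _).trans ?_
  refine (Finset.sum_le_card_nsmul S _ (L * ((2 * s + 3 / 4) / (4 * s ^ 2))) ?_).trans ?_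
  · intro n hn
    rw [hmem] at hn
    refine (hL _ _ (by positivity) (by positivity)).trans (mul_le_mul_of_nonneg_left ?_ hL0)
    have hdiff : ((τ - n) ^ 2 + D) / (4 * s ^ 2) - ((τ + r - n) ^ 2 + D) / (4 * s ^ 2) =
        -(2 * (τ - n) * r + r ^ 2) / (4 * s ^ 2) := by
      field_simp
      ring
    rw [hdiff, abs_div, abs_neg, abs_of_pos (show 0 < 4 * s ^ 2 by positivity)]
    refine div_le_div_of_nonneg_right ?_ (by positivity)
    have h1 : |2 * (τ - n) * r| ≤ 2 * ((2 * s + 1 / 2) * (1 / 2)) := by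
      rw [abs_mul, abs_mul, abs_of_pos (show (0 : ℝ) < 2 by norm_num), mul_assoc]
      exact mul_le_mul_of_nonneg_left (mul_le_mul hn hr (abs_nonneg _) (by positivity)) (by norm_num)
    have h2 : |r ^ 2| ≤ 1 / 4 := by
      rw [abs_pow]
      nlinarith [abs_nonneg r]
    calc |2 * (τ - n) * r + r ^ 2| ≤ |2 * (τ - n) * r| + |r ^ 2| := abs_add_le _ _
      _ ≤ 2 * ((2 * s + 1 / 2) * (1 / 2)) + 1 / 4 := add_le_add h1 h2
      _ = 2 * s + 3 / 4 := by ring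
  · rw [nsmul_eq_mul]
    have hcard : (S.card : ℝ) ≤ 4 * s + 2 := by
      rw [hS, Int.card_Icc]
      have h1 : ((⌊τ + (2 * s + 1 / 2)⌋ : ℤ) : ℝ) ≤ τ + (2 * s + 1 / 2) := Int.floor_le _
      have h2 : τ - (2 * s + 1 / 2) ≤ ((⌈τ - (2 * s + 1 / 2)⌉ : ℤ) : ℝ) := Int.le_ceil _
      have h3 : (((⌊τ + (2 * s + 1 / 2)⌋ + 1 - ⌈τ - (2 * s + 1 / 2)⌉).toNat : ℕ) : ℝ) =
          ((((⌊τ + (2 * s + 1 / 2)⌋ + 1 - ⌈τ - (2 * s + 1 / 2)⌉).toNat : ℕ) : ℤ) : ℝ) := by norm_cast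
      rw [h3, Int.toNat_eq_max]
      push_cast
      refine max_le ?_ (by positivity)
      linarith
    have h4 : (S.card : ℝ) * (L * ((2 * s + 3 / 4) / (4 * s ^ 2))) ≤
        (4 * s + 2) * (L * ((2 * s + 3 / 4) / (4 * s ^ 2))) :=
      mul_le_mul_of_nonneg_right hcard (by positivity)
    refine h4.trans ?_
    have h5 : (4 * s + 2) * (L * ((2 * s + 3 / 4) / (4 * s ^ 2))) = L * (2 + 7 / (4 * s) + 3 / (8 * s ^ 2)) := by
      field_simp
      ring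
    rw [h5]
    refine mul_le_mul_of_nonneg_left ?_ hL0
    have h6 : 7 / (4 * s) ≤ 7 / (4 * σ) := by
      apply div_le_div_of_nonneg_left <;> linarith
    have h7 : 3 / (8 * s ^ 2) ≤ 3 / (8 * σ ^ 2) := by
      apply div_le_div_of_nonneg_left
      · norm_num
      · positivity
      · nlinarith
    linarith

lemma e03_summable {φ : ℝ → ℝ} (hφ : IsTest φ) (τ D s : ℝ) (hs : 0 < s) (hD : 0 ≤ D) :
    Summable (fun n : ℤ => φ (((τ - n) ^ 2 + D) / (4 * s ^ 2))) := by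
  refine summable_of_ne_finset_zero (s := Finset.Icc ⌈τ - 2 * s⌉ ⌊τ + 2 * s⌋) ?_
  intro n hn
  by_contra hne
  apply hn
  have h : ((τ - n) ^ 2 + D) / (4 * s ^ 2) < 1 := by
    by_contra hcon
    exact hne (hφ.supp _ (not_lt.mp hcon))
  rw [div_lt_one (by positivity)] at h
  have h1 : |τ - n| < 2 * s := by
    rw [← abs_of_pos (show 0 < 2 * s by positivity), ← sq_lt_sq]
    nlinarith
  rw [abs_lt] at h1
  rw [Finset.mem_Icc, Int.ceil_le, Int.le_floor]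
  constructor <;> linarith

theorem riemann_diff {φ : ℝ → ℝ} (hφ : IsTest φ) (c : ℝ) (hc : 0 < c) : ∃ C : ℝ, ∀ z w : ℍ, c ≤ z.im →
    |∑' n : ℤ, (φ (upt z ((n : ℝ) +ᵥ w)) - φ (upt (J • z) ((n : ℝ) +ᵥ w)))| ≤ C := by
  obtain ⟨L, hL0, hL⟩ := hφ.lipschitz
  have hσ : 0 < c / 3 := by positivity
  refine ⟨L * (2 + 7 / (4 * (c / 3)) + 3 / (8 * (c / 3) ^ 2)), fun z w hz => ?_⟩
  have hC0 : 0 ≤ L * (2 + 7 / (4 * (c / 3)) + 3 / (8 * (c / 3) ^ 2)) := by positivity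
  have hzp := z.im_pos
  have hwp := w.im_pos
  obtain ⟨s, hs⟩ : ∃ s : ℝ, s = Real.sqrt (z.im * w.im) := ⟨_, rfl⟩
  have hspos : 0 < s := by rw [hs]; exact Real.sqrt_pos.mpr (by positivity)
  have hs2 : s ^ 2 = z.im * w.im := by rw [hs, Real.sq_sqrt (by positivity)]
  have e1 : ∀ n : ℤ, upt z ((n : ℝ) +ᵥ w) = ((z.re - w.re - n) ^ 2 + (z.im - w.im) ^ 2) / (4 * s ^ 2) := by
    intro n
    rw [upt_coord, hs2]
    simp only [UpperHalfPlane.vadd_re, UpperHalfPlane.vadd_im]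
    ring_nf
  have e2 : ∀ n : ℤ, upt (J • z) ((n : ℝ) +ᵥ w) = ((-z.re - w.re - n) ^ 2 + (z.im - w.im) ^ 2) / (4 * s ^ 2) := by
    intro n
    rw [upt_coord, J_smul_re, J_smul_im, hs2]
    simp only [UpperHalfPlane.vadd_re, UpperHalfPlane.vadd_im]
    ring_nf
  by_cases hex : ∃ n : ℤ, φ (upt z ((n : ℝ) +ᵥ w)) ≠ 0 ∨ φ (upt (J • z) ((n : ℝ) +ᵥ w)) ≠ 0
  · have hyw : z.im < 6 * w.im := by
      obtain ⟨n, hn | hn⟩ := hex
      · have h1 : upt z ((n : ℝ) +ᵥ w) < 1 := by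
          by_contra hcon
          exact hn (hφ.supp _ (not_lt.mp hcon))
        have h2 := im_lt_of_upt_lt h1
        rwa [UpperHalfPlane.vadd_im] at h2
      · have h1 : upt (J • z) ((n : ℝ) +ᵥ w) < 1 := by
          by_contra hcon
          exact hn (hφ.supp _ (not_lt.mp hcon))
        have h2 := im_lt_of_upt_lt h1
        rwa [UpperHalfPlane.vadd_im, J_smul_im] at h2
    have hcs : c / 3 ≤ s := by
      have h1 : (c / 3) ^ 2 ≤ s ^ 2 := by
        rw [hs2]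
        nlinarith
      exact abs_le_of_sq_le_sq' h1 hspos.le |>.2
    have hsum1 : Summable (fun n : ℤ => φ (upt z ((n : ℝ) +ᵥ w))) := by
      simp only [e1]
      exact e03_summable hφ _ _ s hspos (sq_nonneg _)
    have hsum2 : Summable (fun n : ℤ => φ (upt (J • z) ((n : ℝ) +ᵥ w))) := by
      simp only [e2]
      exact e03_summable hφ _ _ s hspos (sq_nonneg _)
    set m : ℤ := round (2 * z.re) with hm
    have hsum3 : Summable (fun n : ℤ => φ (upt (J • z) (((n - m : ℤ) : ℝ) +ᵥ w))) :=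
      (Equiv.subRight m).summable_iff.mpr hsum2
    have hshift : ∑' n : ℤ, φ (upt (J • z) ((n : ℝ) +ᵥ w)) = ∑' n : ℤ, φ (upt (J • z) (((n - m : ℤ) : ℝ) +ᵥ w)) :=
      ((Equiv.subRight m).tsum_eq (fun n : ℤ => φ (upt (J • z) ((n : ℝ) +ᵥ w)))).symm
    rw [hsum1.tsum_sub hsum2, hshift, ← hsum1.tsum_sub hsum3]
    have hfun : ∀ n : ℤ, φ (upt z ((n : ℝ) +ᵥ w)) - φ (upt (J • z) (((n - m : ℤ) : ℝ) +ᵥ w)) =
        φ (((z.re - w.re - n) ^ 2 + (z.im - w.im) ^ 2) / (4 * s ^ 2)) -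
          φ (((z.re - w.re + (m - 2 * z.re) - n) ^ 2 + (z.im - w.im) ^ 2) / (4 * s ^ 2)) := by
      intro n
      rw [e1, e2]
      push_cast
      have h1 : -z.re - w.re - ((n : ℝ) - m) = z.re - w.re + (m - 2 * z.re) - n := by ring
      rw [h1]
    simp only [hfun]
    refine e03_real hφ hL0 hL hσ _ _ _ s ?_ (sq_nonneg _) hcs
    rw [abs_sub_comm]
    exact abs_sub_round (2 * z.re)
  · push Not at hex
    have h0 : ∀ n : ℤ, φ (upt z ((n : ℝ) +ᵥ w)) - φ (upt (J • z) ((n : ℝ) +ᵥ w)) = 0 := by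
      intro n
      rw [(hex n).1, (hex n).2, sub_zero]
    simp only [h0, tsum_zero, abs_zero]
    exact hC0

end Pool.Agent.Lib.H60M
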