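import Pool.Agent.Lib.Maass.AutKernel

/-!
# H60M E04 (M): the number of cosets Γ_∞ γ with large imaginary part

PROOF. `Im (γ w) = Im w / |c w + d|²`, `(c, d)` the bottom row. The set for `w` and the set for `δ w`, `δ ∈ SL₂(ℤ)`, are in bijection (`γ ↦ γ δ⁻¹`, bottom row `(c, d) ↦ (c, d) δ⁻¹`), so we may assume `w ∈ 𝒟`
(ModularGroup.exists_smul_mem_fd), `y = Im w ≥ 4/5` (fd_im_gt). `c₀ ≤ y/|c w + d|²`: `c² y² ≤ y/c₀`, so `c² ≤ 1/(c₀ y) ≤ 5/(4 c₀)`; if `c = 0` then `d = ± 1`; if `c ≠ 0` then `y ≤ 1/c₀` and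
`(c x + d)² ≤ y/c₀ ≤ 1/c₀²`, `|x| ≤ 1/2`, so `|d| ≤ 1/c₀ + |c|`: the pairs lie in a fixed finite set.
-/

set_option autoImplicit false

open UpperHalfPlane Complex CongruenceSubgroup Filter Topology MeasureTheory
open scoped MatrixGroups ContDiff Real Modular
open Pool.Agent.Lib.Maass

namespace Pool.Agent.Lib.H60M

/-- The bottom row of `γ`, `Im (γ w) = Im w / |c w + d|²`. -/
lemma e04_im (γ : SL(2, ℤ)) (w : ℍ) :
    (γ • w).im * (((γ 1 0 : ℤ) * w.re + (γ 1 1 : ℤ)) ^ 2 + ((γ 1 0 : ℤ) * w.im) ^ 2) = w.im := by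
  have h1 : (γ • w).im = w.im / Complex.normSq (denom (Matrix.SpecialLinearGroup.mapGL ℝ γ) w) := by
    have := im_smul_eq_div_normSq (Matrix.SpecialLinearGroup.mapGL ℝ γ) w
    rw [Matrix.SpecialLinearGroup.det_mapGL] at this
    simp only [Units.val_one, abs_one, one_mul] at this
    exact this
  have h2 : Complex.normSq (denom (Matrix.SpecialLinearGroup.mapGL ℝ γ) w) =
      ((γ 1 0 : ℤ) * w.re + (γ 1 1 : ℤ)) ^ 2 + ((γ 1 0 : ℤ) * w.im) ^ 2 := by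
    rw [Complex.normSq_apply]
    simp [denom]
    ring
  have h3 : 0 < Complex.normSq (denom (Matrix.SpecialLinearGroup.mapGL ℝ γ) w) := normSq_denom_pos _ w.im_ne_zero
  rw [h1, ← h2]
  field_simp

/-- The set for points of the fundamental domain. -/
lemma e04_fd (c₀ : ℝ) (hc : 0 < c₀) (N : ℤ) (hN1 : 5 / (4 * c₀) ≤ N) (hN2 : 1 / c₀ + N ≤ (2 * N : ℤ)) (hN3 : 1 ≤ N)
    (w : ℍ) (hw : w ∈ 𝒟) (γ : SL(2, ℤ)) (h : c₀ ≤ (γ • w).im) :
    (γ 1 0, γ 1 1) ∈ Finset.Icc (-N) N ×ˢ Finset.Icc (-(2 * N)) (2 * N) := by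
  have hy : 4 / 5 < w.im := fd_im_gt hw
  have hx : |w.re| ≤ 1 / 2 := hw.2
  have him := e04_im γ w
  set c : ℤ := γ 1 0 with hcdef
  set d : ℤ := γ 1 1 with hddef
  have hQ : c₀ * (((c : ℝ) * w.re + d) ^ 2 + ((c : ℝ) * w.im) ^ 2) ≤ w.im :=
    (mul_le_mul_of_nonneg_right h (by positivity)).trans him.le
  have h1 : c₀ * ((c : ℝ) ^ 2 * w.im) ≤ 1 := by
    have h2 : c₀ * ((c : ℝ) ^ 2 * w.im) * w.im ≤ 1 * w.im := by
      nlinarith [mul_nonneg hc.le (sq_nonneg ((c : ℝ) * w.re + d))]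
    exact le_of_mul_le_mul_right h2 (by linarith)
  have hc2 : (c : ℝ) ^ 2 ≤ N := by
    refine le_trans ?_ hN1
    rw [le_div_iff₀ (by positivity)]
    nlinarith [mul_nonneg hc.le (sq_nonneg (c : ℝ))]
  have hcN : |c| ≤ N := by
    have h3 : c ^ 2 ≤ N := by exact_mod_cast hc2
    by_contra hcon
    push Not at hcon
    have h4 : N ^ 2 < c ^ 2 := by
      rw [← sq_abs c]
      nlinarith
    nlinarith
  have hd : |d| ≤ 2 * N := by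
    by_cases hc0 : c = 0
    · have hdet := γ.det_coe
      rw [Matrix.det_fin_two, ← hcdef, hc0] at hdet
      have hdet' : γ 0 0 * d = 1 := by rw [hddef]; linarith
      have h5 : (γ 0 0 = 1 ∧ d = 1) ∨ (γ 0 0 = -1 ∧ d = -1) := Int.eq_one_or_neg_one_of_mul_eq_one' hdet'
      rcases h5 with ⟨-, h5⟩ | ⟨-, h5⟩ <;> rw [h5] <;> simp <;> linarith
    · have hc1 : (1 : ℝ) ≤ (c : ℝ) ^ 2 := by
        have h6 : 1 ≤ c ^ 2 := by
          have := sq_pos_of_ne_zero hc0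
          omega
        exact_mod_cast h6
      have hyc : c₀ * w.im ≤ 1 := by nlinarith [mul_pos hc w.im_pos]
      have h7 : (c₀ * ((c : ℝ) * w.re + d)) ^ 2 ≤ 1 ^ 2 := by
        have h8 : c₀ * ((c : ℝ) * w.re + d) ^ 2 ≤ w.im := by
          nlinarith [mul_nonneg hc.le (sq_nonneg ((c : ℝ) * w.im))]
        nlinarith
      have h9 : |c₀ * ((c : ℝ) * w.re + d)| ≤ 1 := abs_le_of_sq_le_sq h7 (by norm_num)
      have h10 : |(c : ℝ) * w.re + d| ≤ 1 / c₀ := by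
        rw [abs_mul, abs_of_pos hc] at h9
        rw [le_div_iff₀ hc]
        linarith
      have h11 : |(d : ℝ)| ≤ 1 / c₀ + N := by
        have h12 : |(c : ℝ) * w.re| ≤ N := by
          rw [abs_mul]
          have h13 : |(c : ℝ)| ≤ N := by exact_mod_cast hcN
          have h14 : (0 : ℝ) ≤ N := by exact_mod_cast (by linarith : (0 : ℤ) ≤ N)
          nlinarith [abs_nonneg (c : ℝ), abs_nonneg w.re]
        have h15 : (d : ℝ) = ((c : ℝ) * w.re + d) - (c : ℝ) * w.re := by ring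
        rw [h15]
        refine (abs_sub _ _).trans ?_
        linarith
      have h16 : (|d| : ℝ) ≤ (2 * N : ℤ) := h11.trans hN2
      exact_mod_cast h16
  rw [abs_le] at hcN hd
  simp only [Finset.mem_product, Finset.mem_Icc]
  exact ⟨hcN, hd⟩

theorem coset_count (c₀ : ℝ) (hc : 0 < c₀) : ∃ K : ℕ, ∀ w : ℍ,
    {r : ℤ × ℤ | ∃ γ : SL(2, ℤ), c₀ ≤ (γ • w).im ∧ r = (γ 1 0, γ 1 1)}.Finite ∧
      {r : ℤ × ℤ | ∃ γ : SL(2, ℤ), c₀ ≤ (γ • w).im ∧ r = (γ 1 0, γ 1 1)}.ncard ≤ K := by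
  obtain ⟨N, hN⟩ : ∃ N : ℤ, 1 + 2 / c₀ ≤ (N : ℝ) := ⟨⌈1 + 2 / c₀⌉, Int.le_ceil _⟩
  have hcp : 0 < 1 / c₀ := by positivity
  have e2 : 2 / c₀ = 2 * (1 / c₀) := by ring
  have hN1 : 5 / (4 * c₀) ≤ N := by
    have e1 : 5 / (4 * c₀) = 5 / 4 * (1 / c₀) := by field_simp
    rw [e1]
    linarith
  have hN2 : 1 / c₀ + N ≤ ((2 * N : ℤ) : ℝ) := by
    push_cast
    linarith
  have hN3 : 1 ≤ N := by
    have : (1 : ℝ) ≤ N := by linarith
    exact_mod_cast this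
  set B : Finset (ℤ × ℤ) := Finset.Icc (-N) N ×ˢ Finset.Icc (-(2 * N)) (2 * N) with hB
  refine ⟨B.card, fun w => ?_⟩
  obtain ⟨δ, hδ⟩ := ModularGroup.exists_smul_mem_fd w
  -- the map `r ↦ r δ`
  let F : ℤ × ℤ → ℤ × ℤ := fun r => (r.1 * δ 0 0 + r.2 * δ 1 0, r.1 * δ 0 1 + r.2 * δ 1 1)
  have hsub : {r : ℤ × ℤ | ∃ γ : SL(2, ℤ), c₀ ≤ (γ • w).im ∧ r = (γ 1 0, γ 1 1)} ⊆ F '' (B : Set (ℤ × ℤ)) := by
    rintro r ⟨γ, hγ, rfl⟩
    have h1 : c₀ ≤ ((γ * δ⁻¹) • (δ • w)).im := by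
      rw [← mul_smul, inv_mul_cancel_right]
      exact hγ
    have h2 := e04_fd c₀ hc N hN1 hN2 hN3 (δ • w) hδ (γ * δ⁻¹) h1
    refine ⟨((γ * δ⁻¹) 1 0, (γ * δ⁻¹) 1 1), h2, ?_⟩
    have h3 : γ = (γ * δ⁻¹) * δ := by simp
    have h4 : (γ 1 0 : ℤ) = (γ * δ⁻¹) 1 0 * δ 0 0 + (γ * δ⁻¹) 1 1 * δ 1 0 := by
      conv_lhs => rw [h3]
      rw [Matrix.SpecialLinearGroup.coe_mul (γ * δ⁻¹) δ, Matrix.mul_apply, Fin.sum_univ_two]
    have h5 : (γ 1 1 : ℤ) = (γ * δ⁻¹) 1 0 * δ 0 1 + (γ * δ⁻¹) 1 1 * δ 1 1 := by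
      conv_lhs => rw [h3]
      rw [Matrix.SpecialLinearGroup.coe_mul (γ * δ⁻¹) δ, Matrix.mul_apply, Fin.sum_univ_two]
    simp only [F, Prod.mk.injEq]
    exact ⟨h4.symm, h5.symm⟩
  have hfin : (F '' (B : Set (ℤ × ℤ))).Finite := B.finite_toSet.image F
  refine ⟨hfin.subset hsub, ?_⟩
  refine (Set.ncard_le_ncard hsub hfin).trans ?_
  refine (Set.ncard_image_le B.finite_toSet).trans ?_
  rw [Set.ncard_coe_finset]

end Pool.Agent.Lib.H60M
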