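import Pool.Agent.Lib.H60M.E01

/-!
# H60M E05 (S/M): coset representatives and reduction to large imaginary part

PROOF. `rep_exu`: `δ = (a b; c d)`. `p ∣ c`: `i = p` (and `δ (S T^i)⁻¹ = (*, *; c i - d, c)`-type lower left entry `± (c i - d)`, not divisible by `p` as `gcd(c, d) = 1`). `p ∤ c`: the lower left entry of
`δ (S T^i)⁻¹ = δ T^(-i) S⁻¹` is `± (d - i c)`: exactly one `i < p`.
`red_im`: choose `δ` with `δ • z ∈ 𝒟`, so `Im > 4/5` (fd_im_gt). `δ⁻¹ = γ⁻¹ (rep i)`-decomposition: by rep_exu applied to `δ⁻¹`: `δ⁻¹ = γ (rep i)` with `γ ∈ Γ₀(p)`. `i = p`: `γ⁻¹ z = δ z`.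
`i < p`: `γ⁻¹ z = S T^i (δ z)`, `wf p (S w) = w/p` (`S w = -1/w`), so `wf p (γ⁻¹ z) = (δ z + i)/p` has imaginary part `> 4/(5p)`.
-/

set_option autoImplicit false

open UpperHalfPlane Complex CongruenceSubgroup Filter Topology MeasureTheory
open scoped MatrixGroups ContDiff Real Modular
open Pool.Agent.Lib.Maass

namespace Pool.Agent.Lib.H60M

variable (p : ℕ) [Fact p.Prime]

omit [Fact p.Prime] in
theorem e05_rep_lt {i : Fin (p + 1)} (h : (i : ℕ) ≠ p) : rep p i = ModularGroup.S * ModularGroup.T ^ (i : ℕ) := by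
  unfold rep
  rw [if_neg h]

omit [Fact p.Prime] in
theorem e05_rep_eq {i : Fin (p + 1)} (h : (i : ℕ) = p) : rep p i = 1 := by
  unfold rep
  rw [if_pos h]

theorem e05_entry (δ : SL(2, ℤ)) (n : ℕ) :
    (δ * (ModularGroup.S * ModularGroup.T ^ n)⁻¹ : SL(2, ℤ)) 1 0 = δ 1 0 * n - δ 1 1 := by
  have h1 : ((ModularGroup.S * ModularGroup.T ^ n : SL(2, ℤ)) : Matrix (Fin 2) (Fin 2) ℤ) = !![0, -1; 1, (n : ℤ)] := by
    rw [← zpow_natCast ModularGroup.T n, Matrix.SpecialLinearGroup.coe_mul, ModularGroup.coe_S, ModularGroup.coe_T_zpow]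
    ext i j
    fin_cases i <;> fin_cases j <;> simp [Matrix.mul_apply, Fin.sum_univ_two]
  change ((δ * (ModularGroup.S * ModularGroup.T ^ n)⁻¹ : SL(2, ℤ)) : Matrix (Fin 2) (Fin 2) ℤ) 1 0 = _
  rw [Matrix.SpecialLinearGroup.coe_mul, Matrix.SpecialLinearGroup.coe_inv, h1, Matrix.adjugate_fin_two_of,
    Matrix.mul_apply, Fin.sum_univ_two]
  simp
  ring

theorem e05_mem (δ : SL(2, ℤ)) (i : Fin (p + 1)) : δ * (rep p i)⁻¹ ∈ Gamma0 p ↔
    (((i : ℕ) = p ∧ ((δ 1 0 : ℤ) : ZMod p) = 0) ∨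
      ((i : ℕ) ≠ p ∧ ((δ 1 0 : ℤ) : ZMod p) * ((i : ℕ) : ZMod p) = ((δ 1 1 : ℤ) : ZMod p))) := by
  by_cases h : (i : ℕ) = p
  · rw [e05_rep_eq p h, inv_one, mul_one, Gamma0_mem]
    simp [h]
  · rw [e05_rep_lt p h, Gamma0_mem, e05_entry]
    push_cast
    rw [sub_eq_zero]
    simp [h]

theorem rep_exu (δ : SL(2, ℤ)) : ∃! i : Fin (p + 1), δ * (rep p i)⁻¹ ∈ Gamma0 p := by
  have hp : p.Prime := Fact.out
  have hdet : ((δ 0 0 : ℤ) : ZMod p) * ((δ 1 1 : ℤ) : ZMod p) - ((δ 0 1 : ℤ) : ZMod p) * ((δ 1 0 : ℤ) : ZMod p) = 1 := by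
    have h1 := Matrix.det_fin_two (δ : Matrix (Fin 2) (Fin 2) ℤ)
    rw [δ.det_coe] at h1
    have h2 := congrArg (fun t : ℤ => (t : ZMod p)) h1
    push_cast at h2
    exact h2.symm
  by_cases hc : ((δ 1 0 : ℤ) : ZMod p) = 0
  · refine ⟨⟨p, Nat.lt_succ_self p⟩, ?_, ?_⟩
    · simp only
      rw [e05_mem]
      exact Or.inl ⟨rfl, hc⟩
    · intro j hj
      rw [e05_mem] at hj
      rcases hj with ⟨h1, -⟩ | ⟨h1, h2⟩
      · exact Fin.ext h1
      · exfalso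
        rw [hc, zero_mul] at h2
        rw [hc, ← h2, mul_zero, mul_zero, sub_zero] at hdet
        exact zero_ne_one hdet
  · have : NeZero p := ⟨hp.ne_zero⟩
    have hlt : (((δ 1 1 : ℤ) : ZMod p) * ((δ 1 0 : ℤ) : ZMod p)⁻¹).val < p := ZMod.val_lt _
    refine ⟨⟨(((δ 1 1 : ℤ) : ZMod p) * ((δ 1 0 : ℤ) : ZMod p)⁻¹).val, by omega⟩, ?_, ?_⟩
    · simp only
      rw [e05_mem]
      refine Or.inr ⟨hlt.ne, ?_⟩
      simp only
      rw [ZMod.natCast_zmod_val, mul_comm, mul_assoc, inv_mul_cancel₀ hc, mul_one]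
    · intro j hj
      rw [e05_mem] at hj
      rcases hj with ⟨-, h2⟩ | ⟨h1, h2⟩
      · exact absurd h2 hc
      · apply Fin.ext
        have hj' : (j : ℕ) < p := by
          have := j.2
          omega
        have h3 : ((j : ℕ) : ZMod p) = ((δ 1 1 : ℤ) : ZMod p) * ((δ 1 0 : ℤ) : ZMod p)⁻¹ := by
          rw [← h2, mul_comm ((δ 1 0 : ℤ) : ZMod p), mul_assoc, mul_inv_cancel₀ hc, mul_one]
        simp only
        rw [← h3, ZMod.val_cast_of_lt hj']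

/-- PROOF. Injectivity and surjectivity from rep_exu. -/
theorem rep_bij : Function.Bijective (fun x : Gamma0 p × Fin (p + 1) => (x.1 : SL(2, ℤ)) * rep p x.2) := by
  constructor
  · rintro ⟨γ, i⟩ ⟨γ', j⟩ h
    simp only at h
    have h1 : ((γ : SL(2, ℤ)) * rep p i) * (rep p i)⁻¹ ∈ Gamma0 p := by
      rw [mul_inv_cancel_right]
      exact γ.2
    have h2 : ((γ : SL(2, ℤ)) * rep p i) * (rep p j)⁻¹ ∈ Gamma0 p := by
      rw [h, mul_inv_cancel_right]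
      exact γ'.2
    have h3 : i = j := (rep_exu p ((γ : SL(2, ℤ)) * rep p i)).unique h1 h2
    subst h3
    have h4 : (γ : SL(2, ℤ)) = γ' := mul_right_cancel h
    rw [Subtype.ext h4]
  · intro δ
    obtain ⟨i, hi, -⟩ := rep_exu p δ
    exact ⟨(⟨δ * (rep p i)⁻¹, hi⟩, i), inv_mul_cancel_right δ _⟩

theorem red_im (z : ℍ) : ∃ γ ∈ Gamma0 p, 1 / (2 * (p : ℝ)) ≤ (γ • z).im ∨ 1 / (2 * (p : ℝ)) ≤ (wf p (γ • z)).im := by
  have hp : p.Prime := Fact.out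
  have hp1 : (1 : ℝ) ≤ p := by exact_mod_cast hp.one_le
  obtain ⟨δ, hδ⟩ := ModularGroup.exists_smul_mem_fd z
  have him : 1 / 2 ≤ (δ • z).im := by
    have h1 := ModularGroup.three_le_four_mul_im_sq_of_mem_fd hδ
    have h2 := (δ • z).im_pos
    nlinarith
  obtain ⟨i, hi, -⟩ := rep_exu p δ⁻¹
  refine ⟨(δ⁻¹ * (rep p i)⁻¹)⁻¹, inv_mem hi, ?_⟩
  have hz : (δ⁻¹ * (rep p i)⁻¹)⁻¹ • z = rep p i • (δ • z) := by
    rw [mul_inv_rev, inv_inv, inv_inv, mul_smul]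
  rw [hz]
  by_cases h : (i : ℕ) = p
  · left
    rw [e05_rep_eq p h, one_smul]
    refine le_trans ?_ him
    rw [div_le_div_iff₀ (by positivity) (by norm_num)]
    linarith
  · right
    rw [e05_rep_lt p h, mul_smul, ← zpow_natCast ModularGroup.T, UpperHalfPlane.modular_T_zpow_smul]
    have h1 : ((wf p (ModularGroup.S • ((((i : ℕ) : ℤ) : ℝ) +ᵥ (δ • z))) : ℍ) : ℂ) =
        ((((((i : ℕ) : ℤ) : ℝ) +ᵥ (δ • z) : ℍ) : ℂ)) / (p : ℂ) := by
      have h2 : ((((((i : ℕ) : ℤ) : ℝ) +ᵥ (δ • z) : ℍ) : ℂ)) ≠ 0 := UpperHalfPlane.ne_zero _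
      have h3 : (p : ℂ) ≠ 0 := by exact_mod_cast hp.ne_zero
      rw [wf_coe, UpperHalfPlane.modular_S_smul]
      change -1 / ((p : ℂ) * (-((((((i : ℕ) : ℤ) : ℝ) +ᵥ (δ • z) : ℍ) : ℂ)))⁻¹) = _
      field_simp
    have h4 : (wf p (ModularGroup.S • ((((i : ℕ) : ℤ) : ℝ) +ᵥ (δ • z)))).im = (δ • z).im / p := by
      have h5 := congrArg Complex.im h1
      rw [Complex.div_natCast_im] at h5
      have h6 : (((((((i : ℕ) : ℤ) : ℝ) +ᵥ (δ • z) : ℍ) : ℂ))).im = (δ • z).im := by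
        rw [UpperHalfPlane.coe_vadd]
        simp
      rw [h6] at h5
      exact h5
    rw [h4, div_le_div_iff₀ (by positivity) (by positivity)]
    nlinarith

end Pool.Agent.Lib.H60M
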