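import Pool.Agent.Lib.H60M.E02
import Pool.Agent.Lib.H60M.E03
import Pool.Agent.Lib.H60M.E04
import Pool.Agent.Lib.H60M.E05

/-!
# H60M E06 (M): the odd kernel is bounded

PROOF. By aK_smul_left, aK_wf and red_im we may assume `Im z ≥ c := 1/(2p)` (replace `z, w` by `wf p (γ z), wf p w`). `aK z w = ∑_{γ ∈ Γ₀(p)} [φ(upt z (γ w)) - φ(upt (J z) (γ w))]` (aS_J: `aS z (J w) = aS (J z) w`;
both sums finite, finite_aS). Group the `γ ∈ Γ₀(p)` by their bottom row `r` (`γ, γ' ∈ SL₂(ℤ)` have the same bottom row iff `γ' = T^n γ`, and `T ∈ Γ₀(p)`; `T^n • w = n +ᵥ w`): each group contributes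
`∑'_n [φ(upt z (n +ᵥ γ w)) - φ(upt (J z) (n +ᵥ γ w))]`, at most `C` in absolute value (riemann_diff), and `0` unless `Im (γ w) > Im z/6 ≥ c/6` (im_lt_of_upt_lt: `upt < 1` for a nonzero term). There are at most
`K` such rows (coset_count with `c₀ = c/6`). Total `≤ K C`.
-/

set_option autoImplicit false

open UpperHalfPlane Complex CongruenceSubgroup Filter Topology MeasureTheory
open scoped MatrixGroups ContDiff Real Modular
open Pool.Agent.Lib.Maass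

namespace Pool.Agent.Lib.H60M

variable (p : ℕ) [Fact p.Prime] {φ : ℝ → ℝ}

theorem e06_row {γ γ' : SL(2, ℤ)} (h : (γ' 1 0, γ' 1 1) = (γ 1 0, γ 1 1)) :
    ∃ n : ℤ, γ' = ModularGroup.T ^ n * γ := by
  rw [Prod.mk.injEq] at h
  obtain ⟨h1, h2⟩ := h
  have hd := Matrix.det_fin_two (γ : Matrix (Fin 2) (Fin 2) ℤ)
  have hd' := Matrix.det_fin_two (γ' : Matrix (Fin 2) (Fin 2) ℤ)
  rw [γ.det_coe] at hd
  rw [γ'.det_coe] at hd'
  have h1' : (γ' : Matrix (Fin 2) (Fin 2) ℤ) 1 0 = (γ : Matrix (Fin 2) (Fin 2) ℤ) 1 0 := h1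
  have h2' : (γ' : Matrix (Fin 2) (Fin 2) ℤ) 1 1 = (γ : Matrix (Fin 2) (Fin 2) ℤ) 1 1 := h2
  rw [h1', h2'] at hd'
  refine ⟨(γ : Matrix (Fin 2) (Fin 2) ℤ) 0 0 * (γ' : Matrix (Fin 2) (Fin 2) ℤ) 0 1 -
    (γ' : Matrix (Fin 2) (Fin 2) ℤ) 0 0 * (γ : Matrix (Fin 2) (Fin 2) ℤ) 0 1, ?_⟩
  apply Subtype.ext
  rw [Matrix.SpecialLinearGroup.coe_mul, ModularGroup.coe_T_zpow]
  generalize (γ : Matrix (Fin 2) (Fin 2) ℤ) = A at *
  generalize (γ' : Matrix (Fin 2) (Fin 2) ℤ) = B at *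
  ext i j
  fin_cases i <;> fin_cases j
  · simp only [Matrix.mul_apply, Fin.sum_univ_two]
    simp
    linear_combination (-(A 0 0)) * hd' + B 0 0 * hd
  · simp only [Matrix.mul_apply, Fin.sum_univ_two]
    simp
    linear_combination (-(A 0 1)) * hd' + B 0 1 * hd
  · simp only [Matrix.mul_apply, Fin.sum_univ_two]
    simp
    exact h1'
  · simp only [Matrix.mul_apply, Fin.sum_univ_two]
    simp
    exact h2'

theorem e06_T (p : ℕ) (n : ℤ) : ModularGroup.T ^ n ∈ Gamma0 p := by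
  rw [Gamma0_mem]
  have h : ((ModularGroup.T ^ n : SL(2, ℤ)) 1 0 : ℤ) = 0 := by
    rw [ModularGroup.coe_T_zpow]
    simp
  rw [h]
  simp

theorem e06_T_inj {n m : ℤ} (h : ModularGroup.T ^ n = ModularGroup.T ^ m) : n = m := by
  have h1 := congrArg (fun g : SL(2, ℤ) => (g : Matrix (Fin 2) (Fin 2) ℤ) 0 1) h
  simp only [ModularGroup.coe_T_zpow] at h1
  simpa using h1

theorem e06_T_row (n : ℤ) (γ : SL(2, ℤ)) : ((ModularGroup.T ^ n * γ) 1 0, (ModularGroup.T ^ n * γ) 1 1) = (γ 1 0, γ 1 1) := by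
  have h : ∀ j, ((ModularGroup.T ^ n * γ : SL(2, ℤ)) : Matrix (Fin 2) (Fin 2) ℤ) 1 j = (γ : Matrix (Fin 2) (Fin 2) ℤ) 1 j := by
    intro j
    rw [Matrix.SpecialLinearGroup.coe_mul, ModularGroup.coe_T_zpow, Matrix.mul_apply, Fin.sum_univ_two]
    simp
  exact Prod.ext (h 0) (h 1)

/-- The row of an element. -/
def e06_r (γ : Gamma0 p) : ℤ × ℤ := ((γ : SL(2, ℤ)) 1 0, (γ : SL(2, ℤ)) 1 1)

/-- The bijection from the integers to the elements with a given row. -/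
noncomputable def e06_equiv (γ₀ : Gamma0 p) : ℤ ≃ (e06_r p ⁻¹' {e06_r p γ₀}) :=
  Equiv.ofBijective (fun n => ⟨⟨ModularGroup.T ^ n * (γ₀ : SL(2, ℤ)), mul_mem (e06_T p n) γ₀.2⟩, e06_T_row n _⟩) (by
    constructor
    · intro n m h
      have h1 := congrArg (fun x : (e06_r p ⁻¹' {e06_r p γ₀}) => ((x : Gamma0 p) : SL(2, ℤ))) h
      simp only at h1
      exact e06_T_inj (mul_right_cancel h1)
    · rintro ⟨γ, hγ⟩
      obtain ⟨n, hn⟩ := e06_row (γ := (γ₀ : SL(2, ℤ))) (γ' := (γ : SL(2, ℤ))) hγ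
      exact ⟨n, Subtype.ext (Subtype.ext hn.symm)⟩)

theorem e06_large (hφ : IsTest φ) {c : ℝ} (hc : 0 < c) : ∃ C : ℝ, ∀ z w : ℍ, c ≤ z.im → |aK p φ z w| ≤ C := by
  obtain ⟨C, hC⟩ := riemann_diff hφ c hc
  obtain ⟨K, hK⟩ := coset_count (c / 6) (by positivity)
  have hC0 : 0 ≤ C := (abs_nonneg _).trans (hC ⟨⟨0, c⟩, hc⟩ ⟨⟨0, c⟩, hc⟩ le_rfl)
  refine ⟨K * C, fun z w hz => ?_⟩
  obtain ⟨hRfin, hRcard⟩ := hK w
  set R := {r : ℤ × ℤ | ∃ γ : SL(2, ℤ), c / 6 ≤ (γ • w).im ∧ r = (γ 1 0, γ 1 1)} with hR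
  set f : Gamma0 p → ℝ := fun γ => φ (upt z ((γ : SL(2, ℤ)) • w)) - φ (upt (J • z) ((γ : SL(2, ℤ)) • w)) with hf
  have hs1 : Summable fun γ : Gamma0 p => φ (upt z ((γ : SL(2, ℤ)) • w)) :=
    summable_of_hasFiniteSupport (finite_aS p hφ z w)
  have hs2 : Summable fun γ : Gamma0 p => φ (upt (J • z) ((γ : SL(2, ℤ)) • w)) :=
    summable_of_hasFiniteSupport (finite_aS p hφ (J • z) w)
  have hs : Summable f := hs1.sub hs2
  have haK : aK p φ z w = ∑' γ, f γ := by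
    have h1 : aS p φ z (J • w) = aS p φ (J • z) w := by
      rw [← aS_J p φ (J • z) w, J_smul_J_smul]
    unfold aK
    rw [h1]
    exact (hs1.tsum_sub hs2).symm
  have hfib := hs.hasSum.tsum_fiberwise (e06_r p)
  -- the sum over one row
  have hval : ∀ γ₀ : Gamma0 p, ∑' b : (e06_r p ⁻¹' {e06_r p γ₀}), f b =
      ∑' n : ℤ, (φ (upt z ((n : ℝ) +ᵥ ((γ₀ : SL(2, ℤ)) • w))) - φ (upt (J • z) ((n : ℝ) +ᵥ ((γ₀ : SL(2, ℤ)) • w)))) := by
    intro γ₀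
    rw [← (e06_equiv p γ₀).tsum_eq]
    refine tsum_congr fun n => ?_
    change φ (upt z ((ModularGroup.T ^ n * (γ₀ : SL(2, ℤ))) • w)) -
      φ (upt (J • z) ((ModularGroup.T ^ n * (γ₀ : SL(2, ℤ))) • w)) = _
    rw [mul_smul, UpperHalfPlane.modular_T_zpow_smul]
  have hbd : ∀ r : ℤ × ℤ, |∑' b : (e06_r p ⁻¹' {r}), f b| ≤ C := by
    intro r
    by_cases h : ∃ γ₀, e06_r p γ₀ = r
    · obtain ⟨γ₀, rfl⟩ := h
      rw [hval]
      exact hC z _ hz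
    · have : IsEmpty (e06_r p ⁻¹' {r}) := ⟨fun x => h ⟨x.1, x.2⟩⟩
      rw [tsum_empty, abs_zero]
      exact hC0
  have hzero : ∀ r : ℤ × ℤ, r ∉ hRfin.toFinset → ∑' b : (e06_r p ⁻¹' {r}), f b = 0 := by
    intro r hr
    rw [Set.Finite.mem_toFinset] at hr
    by_cases h : ∃ γ₀, e06_r p γ₀ = r
    · obtain ⟨γ₀, rfl⟩ := h
      have him : ((γ₀ : SL(2, ℤ)) • w).im < c / 6 := by
        by_contra hcon
        exact hr ⟨γ₀, not_lt.mp hcon, rfl⟩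
      rw [hval, ← tsum_zero (β := ℤ)]
      refine tsum_congr fun n => ?_
      have h1 : ∀ v : ℍ, v.im = z.im → φ (upt v ((n : ℝ) +ᵥ ((γ₀ : SL(2, ℤ)) • w))) = 0 := by
        intro v hv
        apply hφ.supp
        by_contra hcon
        have h2 := im_lt_of_upt_lt (not_le.mp hcon)
        rw [UpperHalfPlane.vadd_im, hv] at h2
        linarith
      rw [h1 z rfl, h1 (J • z) (J_smul_im z), sub_zero]
    · have : IsEmpty (e06_r p ⁻¹' {r}) := ⟨fun x => h ⟨x.1, x.2⟩⟩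
      rw [tsum_empty]
  rw [haK, ← hfib.tsum_eq, tsum_eq_sum hzero]
  calc |∑ r ∈ hRfin.toFinset, ∑' b : (e06_r p ⁻¹' {r}), f b|
      ≤ ∑ r ∈ hRfin.toFinset, |∑' b : (e06_r p ⁻¹' {r}), f b| := Finset.abs_sum_le_sum_abs _ _
    _ ≤ ∑ _r ∈ hRfin.toFinset, C := Finset.sum_le_sum fun r _ => hbd r
    _ = (R.ncard : ℝ) * C := by
        rw [Finset.sum_const, nsmul_eq_mul, Set.ncard_eq_toFinset_card _ hRfin]
    _ ≤ K * C := mul_le_mul_of_nonneg_right (by exact_mod_cast hRcard) hC0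

theorem aK_bounded (hφ : IsTest φ) : ∃ C : ℝ, ∀ z w : ℍ, |aK p φ z w| ≤ C := by
  have hp : p.Prime := Fact.out
  have hp0 : (0 : ℝ) < p := by exact_mod_cast hp.pos
  obtain ⟨C, hC⟩ := e06_large p hφ (c := 1 / (2 * (p : ℝ))) (by positivity)
  refine ⟨C, fun z w => ?_⟩
  obtain ⟨γ, hγ, h | h⟩ := red_im p z
  · rw [← aK_smul_left p φ hγ z w]
    exact hC _ _ h
  · rw [← aK_smul_left p φ hγ z w, ← aK_wf p φ (γ • z) w]
    exact hC _ _ h

end Pool.Agent.Lib.H60M
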