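import Pool.Agent.Lib.H60M.E02
import Pool.Agent.Lib.H60M.E05

/-!
# H60M E07 (S/M): the trace of the kernel to level one

PROOF. rep_bij: `∑_i ∑'_{γ ∈ Γ₀} φ(upt z (γ rep_i w)) = ∑'_{δ ∈ SL₂(ℤ)} φ(upt z (δ w)) = autS φ z w` (finite supports). For the second sum: `aS z (J (rep_i w)) = aS (J z) (rep_i w)` (aS_J), so it gives `autS φ (J z) w`
`= autS φ z (J w)` (autS_J_left).
-/

set_option autoImplicit false

open UpperHalfPlane Complex CongruenceSubgroup Filter Topology MeasureTheory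
open scoped MatrixGroups ContDiff Real Modular
open Pool.Agent.Lib.Maass

namespace Pool.Agent.Lib.H60M

variable (p : ℕ) [Fact p.Prime] {φ : ℝ → ℝ}

theorem e07_trace (hφ : IsTest φ) (z w : ℍ) : ∑ i : Fin (p + 1), aS p φ z (rep p i • w) = autS φ z w := by
  have hs : Summable fun δ : SL(2, ℤ) => φ (upt z (δ • w)) := summable_upt hφ z w
  have h1 : autS φ z w = ∑' x : Gamma0 p × Fin (p + 1), φ (upt z (((x.1 : SL(2, ℤ)) * rep p x.2) • w)) := by
    unfold autS
    exact ((Equiv.ofBijective _ (rep_bij p)).tsum_eq fun δ : SL(2, ℤ) => φ (upt z (δ • w))).symm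
  have hs2 : Summable fun x : Gamma0 p × Fin (p + 1) => φ (upt z (((x.1 : SL(2, ℤ)) * rep p x.2) • w)) :=
    (Equiv.ofBijective _ (rep_bij p)).summable_iff.mpr hs
  rw [h1, hs2.tsum_prod]
  have h2 : ∀ γ : Gamma0 p, ∑' i : Fin (p + 1), φ (upt z (((γ : SL(2, ℤ)) * rep p i) • w)) =
      ∑ i : Fin (p + 1), φ (upt z ((γ : SL(2, ℤ)) • rep p i • w)) := by
    intro γ
    rw [tsum_fintype]
    exact Finset.sum_congr rfl fun i _ => by rw [mul_smul]
  rw [tsum_congr h2]
  symm
  exact Summable.tsum_finsetSum fun i _ => summable_of_hasFiniteSupport (finite_aS p hφ z (rep p i • w))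

theorem trace_aK (hφ : IsTest φ) (z w : ℍ) : ∑ i : Fin (p + 1), aK p φ z (rep p i • w) = autK φ z w := by
  unfold aK
  rw [Finset.sum_sub_distrib, e07_trace p hφ, autK_eq hφ]
  congr 1
  have h1 : ∀ i : Fin (p + 1), aS p φ z (J • rep p i • w) = aS p φ (J • z) (rep p i • w) := by
    intro i
    rw [← aS_J p φ (J • z) (rep p i • w), J_smul_J_smul]
  rw [Finset.sum_congr rfl fun i _ => h1 i, e07_trace p hφ, autS_J_left]

end Pool.Agent.Lib.H60M
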