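import Pool.Agent.Lib.H60M.E02
import Pool.Agent.Lib.H60M.E05
import Pool.Agent.Lib.H60M.E06

/-!
# H60M E08 (M): unfolding

PROOF. `z` fixed, `G(w) = φ(upt z w) f(w)` integrable (pp_integrable). hasSum_integral_fd (FundDom.lean): `∑_{δ ∈ SL₂(ℤ)} ∫_𝒟 G(δ w) dw = 2 ∫ G = 2 pp φ f z`, absolutely (summable_integral_norm_fd).
Reindex `δ = γ rep_i` (rep_bij), `f(γ rep_i w) = f(rep_i w)`: `∑_i ∫_𝒟 aS z (rep_i w) f(rep_i w) dw = 2 pp φ f z` (exchange sum and integral: integral_tsum / hasSum_integral_of_summable_integral_norm).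
The second part: `aS z (J rep_i w) = aS (J z) (rep_i w)` (aS_J), so it is `2 pp φ f (J z) = 2 pp φ (f ∘ J) z = - 2 pp φ f z` (pp_smul, oddness). Total `4 pp φ f z`.
-/

set_option autoImplicit false

open UpperHalfPlane Complex CongruenceSubgroup Filter Topology MeasureTheory
open scoped MatrixGroups ContDiff Real Modular
open Pool.Agent.Lib.Maass

namespace Pool.Agent.Lib.H60M

variable (p : ℕ) [Fact p.Prime] {φ : ℝ → ℝ}

theorem unfold0 (hφ : IsTest φ) {f : ℍ → ℂ} (hf : IsBM f) (hinv : IsInv0 p f) (hodd : IsOddFn f) (z : ℍ) :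
    ∑ i : Fin (p + 1), ∫ w in (𝒟 : Set ℍ), (aK p φ z (rep p i • w) : ℂ) * f (rep p i • w) = 4 * pp φ f z := by
  have := countable_SL2Z
  have hppJ : pp φ f (J • z) = -pp φ f z := pp_isOdd_fun hodd z
  set H : ℍ → ℂ := fun w => (φ (upt z w) : ℂ) * f w - (φ (upt (J • z) w) : ℂ) * f w with hHdef
  have hH : Integrable H := (pp_integrable hφ hf z).sub (pp_integrable hφ hf (J • z))
  have hI : ∫ w, H w = 2 * pp φ f z := by
    have h0 : ∫ w, H w = pp φ f z - pp φ f (J • z) :=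
      integral_sub (pp_integrable hφ hf z) (pp_integrable hφ hf (J • z))
    rw [h0, hppJ]
    ring
  let e : Gamma0 p × Fin (p + 1) ≃ SL(2, ℤ) := Equiv.ofBijective _ (rep_bij p)
  let e' : Fin (p + 1) × Gamma0 p ≃ SL(2, ℤ) := (Equiv.prodComm (Fin (p + 1)) (Gamma0 p)).trans e
  have he' : ∀ x : Fin (p + 1) × Gamma0 p, e' x = (x.2 : SL(2, ℤ)) * rep p x.1 := fun x => rfl
  have hS : HasSum (fun x : Fin (p + 1) × Gamma0 p => ∫ w in (𝒟 : Set ℍ), H (((x.2 : SL(2, ℤ)) * rep p x.1) • w))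
      (2 * ∫ w, H w) := e'.hasSum_iff.mpr (hasSum_integral_fd hH)
  have hN : Summable (fun x : Fin (p + 1) × Gamma0 p =>
      ∫ w in (𝒟 : Set ℍ), ‖H (((x.2 : SL(2, ℤ)) * rep p x.1) • w)‖) :=
    e'.summable_iff.mpr (summable_integral_norm_fd hH)
  have hi : ∀ i : Fin (p + 1), HasSum
      (fun γ : Gamma0 p => ∫ w in (𝒟 : Set ℍ), H (((γ : SL(2, ℤ)) * rep p i) • w))
      (∫ w in (𝒟 : Set ℍ), ∑' γ : Gamma0 p, H (((γ : SL(2, ℤ)) * rep p i) • w)) := by
    intro i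
    refine hasSum_integral_of_summable_integral_norm (μ := volume.restrict (𝒟 : Set ℍ))
      (F := fun (γ : Gamma0 p) (w : ℍ) => H (((γ : SL(2, ℤ)) * rep p i) • w)) (fun γ => ?_) (hN.prod_factor i)
    exact (integrable_comp_smul hH (Matrix.SpecialLinearGroup.mapGL ℝ ((γ : SL(2, ℤ)) * rep p i))).integrableOn
  have h1 := hS.prod_fiberwise hi
  have h2 := (hasSum_fintype _).unique h1
  rw [hI] at h2
  rw [show (4 : ℂ) * pp φ f z = 2 * (2 * pp φ f z) by ring, ← h2]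
  refine Finset.sum_congr rfl fun i _ => ?_
  refine integral_congr_ae (Filter.Eventually.of_forall fun w => ?_)
  have hterm : ∀ γ : Gamma0 p, H (((γ : SL(2, ℤ)) * rep p i) • w) =
      ((φ (upt z ((γ : SL(2, ℤ)) • (rep p i • w))) - φ (upt (J • z) ((γ : SL(2, ℤ)) • (rep p i • w))) : ℝ) : ℂ) *
        f (rep p i • w) := by
    intro γ
    simp only [hHdef]
    rw [mul_smul, hinv (γ : SL(2, ℤ)) γ.2 (rep p i • w)]
    push_cast
    ring
  simp only [hterm]
  rw [tsum_mul_right, ← Complex.ofReal_tsum]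
  congr 2
  have hs1 : Summable (fun γ : Gamma0 p => φ (upt z ((γ : SL(2, ℤ)) • (rep p i • w)))) :=
    summable_of_hasFiniteSupport (finite_aS p hφ z (rep p i • w))
  have hs2 : Summable (fun γ : Gamma0 p => φ (upt (J • z) ((γ : SL(2, ℤ)) • (rep p i • w)))) :=
    summable_of_hasFiniteSupport (finite_aS p hφ (J • z) (rep p i • w))
  rw [hs1.tsum_sub hs2]
  show aK p φ z (rep p i • w) = aS p φ z (rep p i • w) - aS p φ (J • z) (rep p i • w)
  unfold aK
  have h3 := aS_J p φ (J • z) (rep p i • w)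
  rw [J_smul_J_smul] at h3
  rw [← h3]

end Pool.Agent.Lib.H60M
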