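import Pool.Agent.Lib.Maass.CompactKernel

/-!
# H60M E09 (M): an eigenvector in the closed invariant subspace generated by `T v`

PROOF. `K` = closure of `span {T^(n+1) v}`: closed, `T K ⊆ K`, a Hilbert space. `T|K` is symmetric and compact (IsCompactOperator.restrict or by composition with the inclusion, which is an isometry onto a closed subspace).
`T|K ≠ 0`: `T v ∈ K` and `T (T v) ≠ 0` because `⟪T T v, v⟫ = ‖T v‖² ≠ 0`. A nonzero compact symmetric operator on a Hilbert space has a nonzero eigenvalue: see how exists_eigenfunction_of_kernel does it in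
CompactKernel.lean (the spectral theorem: if all eigenspaces of nonzero eigenvalues are trivial then the operator is `0`).
-/

set_option autoImplicit false

open UpperHalfPlane Complex CongruenceSubgroup Filter Topology MeasureTheory
open scoped MatrixGroups ContDiff Real Modular
open Pool.Agent.Lib.Maass

namespace Pool.Agent.Lib.H60M

theorem eig_closure {H : Type} [NormedAddCommGroup H] [InnerProductSpace ℂ H] [CompleteSpace H] (T : H →L[ℂ] H) (hT : IsCompactOperator T)
    (hs : (T : H →ₗ[ℂ] H).IsSymmetric) (v : H) (hv : T v ≠ 0) :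
    ∃ (c : ℂ) (u : H), c ≠ 0 ∧ u ≠ 0 ∧ T u = c • u ∧ u ∈ (Submodule.span ℂ (Set.range fun n : ℕ => ((T : H →ₗ[ℂ] H) ^ (n + 1)) v)).topologicalClosure := by
  obtain ⟨S₀, hS₀⟩ : ∃ S₀ : Submodule ℂ H, S₀ = Submodule.span ℂ (Set.range fun n : ℕ => ((T : H →ₗ[ℂ] H) ^ (n + 1)) v) := ⟨_, rfl⟩
  rw [← hS₀]
  have hspan : ∀ w ∈ S₀, T w ∈ S₀ := by
    intro w hw
    rw [hS₀] at hw
    refine Submodule.span_induction (p := fun w _ => T w ∈ S₀) ?_ ?_ ?_ ?_ hw
    · rintro _ ⟨n, rfl⟩
      rw [hS₀]
      refine Submodule.subset_span ⟨n + 1, ?_⟩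
      show ((T : H →ₗ[ℂ] H) ^ (n + 1 + 1)) v = T (((T : H →ₗ[ℂ] H) ^ (n + 1)) v)
      rw [pow_succ' _ (n + 1)]
      rfl
    · rw [map_zero]
      exact S₀.zero_mem
    · intro a b _ _ ha hb
      rw [map_add]
      exact S₀.add_mem ha hb
    · intro c a _ ha
      rw [map_smul]
      exact S₀.smul_mem c ha
  have hinv : ∀ w ∈ S₀.topologicalClosure, (T : H →ₗ[ℂ] H) w ∈ S₀.topologicalClosure := by
    intro w hw
    exact map_mem_closure T.continuous hw hspan
  have hcl : IsClosed (S₀.topologicalClosure : Set H) := S₀.isClosed_topologicalClosure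
  have hcomp : CompleteSpace S₀.topologicalClosure := hcl.completeSpace_coe
  let S : S₀.topologicalClosure →L[ℂ] S₀.topologicalClosure := T.restrict hinv
  have hSc : IsCompactOperator S := hT.restrict' hinv
  have hSs : (S : S₀.topologicalClosure →ₗ[ℂ] S₀.topologicalClosure).IsSymmetric := hs.restrict_invariant hinv
  have hTv : T v ∈ S₀.topologicalClosure := by
    refine Submodule.le_topologicalClosure _ ?_
    rw [hS₀]
    refine Submodule.subset_span ⟨0, ?_⟩
    show ((T : H →ₗ[ℂ] H) ^ (0 + 1)) v = T v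
    rw [zero_add, pow_one]
    rfl
  have hS0 : S ≠ 0 := by
    intro h0
    have h1 : (S ⟨T v, hTv⟩ : H) = T (T v) := rfl
    rw [h0] at h1
    have h2 : T (T v) = 0 := h1.symm
    have h3 : inner ℂ (T (T v)) v = inner ℂ (T v) (T v) := hs (T v) v
    rw [h2, inner_zero_left] at h3
    exact hv (inner_self_eq_zero.1 h3.symm)
  have h1 := mt (ContinuousLinearMap.eq_zero_of_forall_hasEigenvalue_eq_zero hSc hSs).1 hS0
  push Not at h1
  obtain ⟨c, hc, hc0⟩ := h1
  obtain ⟨g, hg⟩ := hc.exists_hasEigenvector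
  refine ⟨c, (g : H), hc0, ?_, ?_, g.2⟩
  · intro h
    exact hg.2 (Subtype.ext h)
  · have h2 := congrArg (Subtype.val) hg.apply_eq_smul
    exact h2

end Pool.Agent.Lib.H60M
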