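import Pool.Agent.Lib.H60M.E02

/-!
# H60M E10 (S/M): the CM point

`z = zp p`, `p z² - z + 1 = 0`, `|z|² = 1/p`. PROOFS. `wf p z = -1/(p z) = -conj z = J z` (`z conj z = 1/p`). `J z = (1 0; -1 1) z`: `z/(1 - z) = - conj z` iff `z = -conj z + |z|²·(-1)·(-1)`: `z + conj z = |z|²`·1 ... check:
`z/(1-z) = -conj z ⟺ z = -conj z + z conj z ⟺ z + conj z = |z|² = 1/p`, and `z + conj z = 1/p`. ✓
`stab`: `γ = (a b; p c d)`, `γ z = z`: `p c z² + (d - a) z - b = 0`, subtract `c (p z² - z + 1) = 0`: `(d - a + c) z = b + c`, `z` not real: `d = a - c`, `b = -c`; the determinant: `a² - a c + p c² = 1`, so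
`(2a - c)² + (4p - 1) c² = 4`, `c = 0`, `a = ± 1`. `noJ`: `γ z = - conj z`: `a z + b = - conj z (p c z + d) = - c - d conj z`; imaginary parts: `a = d`; real parts: `(a + d)/(2p) + b + c = 0`, so `a = -p (b + c)`,
`p ∣ a` and `p ∣ p c`: contradiction to `a d - p b c = 1`.
-/

set_option autoImplicit false

open UpperHalfPlane Complex CongruenceSubgroup Filter Topology MeasureTheory
open scoped MatrixGroups ContDiff Real Modular
open Pool.Agent.Lib.Maass

namespace Pool.Agent.Lib.H60M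

variable (p : ℕ) [Fact p.Prime]

lemma e10_re : ((zp p : ℍ) : ℂ).re = 1 / (2 * p) := rfl

lemma e10_im : ((zp p : ℍ) : ℂ).im = Real.sqrt (4 * p - 1) / (2 * p) := rfl

lemma e10_two : (2 : ℝ) ≤ p := by exact_mod_cast (Fact.out : p.Prime).two_le

lemma e10_im_sq : ((zp p : ℍ) : ℂ).im ^ 2 = (4 * p - 1) / (4 * p ^ 2) := by
  have h2 := e10_two p
  rw [e10_im, div_pow, Real.sq_sqrt (by linarith)]
  ring

/-- `z conj z = 1/p`. -/
lemma e10_norm : ((zp p : ℍ) : ℂ) * (starRingEnd ℂ) ((zp p : ℍ) : ℂ) = 1 / (p : ℂ) := by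
  have h2 := e10_two p
  have hp : (p : ℝ) ≠ 0 := by linarith
  rw [Complex.mul_conj]
  have h : Complex.normSq ((zp p : ℍ) : ℂ) = 1 / (p : ℝ) := by
    rw [Complex.normSq_apply]
    have h3 := e10_im_sq p
    have h4 : ((zp p : ℍ) : ℂ).im * ((zp p : ℍ) : ℂ).im = (4 * p - 1) / (4 * p ^ 2) := by rw [← h3]; ring
    rw [h4, e10_re]
    field_simp
    ring
  rw [h]
  push_cast
  ring

/-- `z + conj z = 1/p`. -/
lemma e10_trace : ((zp p : ℍ) : ℂ) + (starRingEnd ℂ) ((zp p : ℍ) : ℂ) = 1 / (p : ℂ) := by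
  have h2 := e10_two p
  have hp : (p : ℝ) ≠ 0 := by linarith
  rw [Complex.add_conj, e10_re]
  push_cast
  have hp' : (p : ℂ) ≠ 0 := by exact_mod_cast hp
  field_simp

theorem zp_wf : wf p (zp p) = J • zp p := by
  apply UpperHalfPlane.ext
  rw [wf_coe, coe_J_smul]
  have h1 := e01_ne p
  have h2 := UpperHalfPlane.ne_zero (zp p)
  have h3 := e10_norm p
  rw [div_eq_iff (mul_ne_zero h1 h2)]
  have h4 : (p : ℂ) * (((zp p : ℍ) : ℂ) * (starRingEnd ℂ) ((zp p : ℍ) : ℂ)) = 1 := by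
    rw [h3]; field_simp
  linear_combination h4

theorem zp_J : ∃ γ : SL(2, ℤ), γ • zp p = J • zp p := by
  obtain ⟨γ, hγ⟩ : ∃ γ : SL(2, ℤ), (γ : Matrix (Fin 2) (Fin 2) ℤ) = !![1, 0; -1, 1] :=
    ⟨⟨!![1, 0; -1, 1], by rw [Matrix.det_fin_two_of]; ring⟩, rfl⟩
  refine ⟨γ, ?_⟩
  apply UpperHalfPlane.ext
  rw [coe_specialLinearGroup_apply, coe_J_smul]
  simp only [hγ, Matrix.of_apply, Matrix.cons_val', Matrix.cons_val_zero, Matrix.cons_val_one,
    algebraMap_int_eq, Int.coe_castRingHom]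
  push_cast
  have h3 := e10_norm p
  have h4 := e10_trace p
  have h5 : -1 * ((zp p : ℍ) : ℂ) + 1 ≠ 0 := by
    intro h
    have h6 := congrArg Complex.im h
    simp only [Complex.add_im, Complex.mul_im, Complex.neg_re, Complex.one_re, Complex.neg_im, Complex.one_im, Complex.zero_im] at h6
    have h7 : 0 < ((zp p : ℍ) : ℂ).im := (zp p).im_pos
    linarith
  rw [one_mul, add_zero, div_eq_iff h5]
  linear_combination h4 - h3

lemma e10_eq {γ : SL(2, ℤ)} {z w : ℍ} (h : γ • z = w) :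
    ((γ 0 0 : ℤ) : ℂ) * z + ((γ 0 1 : ℤ) : ℂ) = w * (((γ 1 0 : ℤ) : ℂ) * z + ((γ 1 1 : ℤ) : ℂ)) := by
  have h1 : ((γ • z : ℍ) : ℂ) = w := by rw [h]
  rw [coe_specialLinearGroup_apply] at h1
  simp only [algebraMap_int_eq, Int.coe_castRingHom] at h1
  push_cast at h1
  have h2 : ((γ 1 0 : ℤ) : ℂ) * z + ((γ 1 1 : ℤ) : ℂ) ≠ 0 := by
    have := denom_ne_zero (Matrix.SpecialLinearGroup.mapGL ℝ γ) z
    simpa [denom] using this
  rw [div_eq_iff h2] at h1
  exact h1

theorem zp_stab {γ : SL(2, ℤ)} (hγ : γ ∈ Gamma0 p) (h : γ • zp p = zp p) : γ = 1 ∨ γ = -1 := by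
  have h2 := e10_two p
  have hp : (p : ℝ) ≠ 0 := by linarith
  have hp' : (p : ℂ) ≠ 0 := by exact_mod_cast hp
  rw [Gamma0_mem] at hγ
  obtain ⟨k, hk⟩ := (ZMod.intCast_zmod_eq_zero_iff_dvd _ _).mp hγ
  have h1 := e10_eq h
  rw [hk] at h1
  have h3 := e10_norm p
  have h4 := e10_trace p
  have hy : 0 < ((zp p : ℍ) : ℂ).im := (zp p).im_pos
  have hdet := γ.det_coe
  rw [Matrix.det_fin_two, hk] at hdet
  set z : ℂ := ((zp p : ℍ) : ℂ) with hz
  set a := γ 0 0 with ha
  set b := γ 0 1 with hb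
  set d := γ 1 1 with hd
  -- `p z² = z - 1`
  have h5 : (p : ℂ) * z ^ 2 = z - 1 := by
    have e1 : (p : ℂ) * (z * (starRingEnd ℂ) z) = 1 := by rw [h3]; field_simp
    have e2 : (p : ℂ) * (z + (starRingEnd ℂ) z) = 1 := by rw [h4]; field_simp
    linear_combination z * e2 - e1
  have h6 : ((a - k - d : ℤ) : ℂ) * z + ((b + k : ℤ) : ℂ) = 0 := by
    push_cast at h1 ⊢
    linear_combination h1 + (k : ℂ) * h5
  have h7 : a - k - d = 0 := by
    have e := congrArg Complex.im h6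
    simp only [Complex.add_im, Complex.mul_im, Complex.intCast_re, Complex.intCast_im, Complex.zero_im, zero_mul, add_zero] at e
    rcases mul_eq_zero.mp e with e | e
    · exact_mod_cast e
    · exact absurd e hy.ne'
  have h8 : b + k = 0 := by
    rw [h7] at h6
    simp only [Int.cast_zero, zero_mul, zero_add] at h6
    exact_mod_cast h6
  have hb' : b = -k := by linarith
  have hd' : d = a - k := by linarith
  rw [hb', hd'] at hdet
  have hpi : (2 : ℤ) ≤ p := by exact_mod_cast (Fact.out : p.Prime).two_le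
  have hk0 : k = 0 := by
    by_contra hne
    have e1 : 1 ≤ k ^ 2 := by
      have := sq_nonneg k
      have h0 : k ^ 2 ≠ 0 := pow_ne_zero 2 hne
      omega
    nlinarith [sq_nonneg (2 * a - k), hdet, e1, hpi]
  rw [hk0] at hdet hb' hd' hk
  have ha1 : a = 1 ∨ a = -1 := by
    have e : a ^ 2 = 1 := by linarith
    have e2 : (a - 1) * (a + 1) = 0 := by linear_combination e
    rcases mul_eq_zero.mp e2 with e3 | e3
    · left; linarith
    · right; linarith
  have hb0 : b = 0 := by linarith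
  have hda : d = a := by linarith
  have hc0 : γ 1 0 = 0 := by rw [hk]; ring
  rcases ha1 with ha1 | ha1
  · left
    ext i j
    fin_cases i <;> fin_cases j
    · show γ 0 0 = 1
      rw [← ha]; exact ha1
    · show γ 0 1 = 0
      exact hb0
    · show γ 1 0 = 0
      exact hc0
    · show γ 1 1 = 1
      rw [← hd, hda, ha1]
  · right
    ext i j
    fin_cases i <;> fin_cases j
    · show γ 0 0 = -1
      rw [← ha]; exact ha1
    · show γ 0 1 = -0
      rw [neg_zero]
      exact hb0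
    · show γ 1 0 = -0
      rw [neg_zero]
      exact hc0
    · show γ 1 1 = -1
      rw [← hd, hda, ha1]

theorem zp_noJ {γ : SL(2, ℤ)} (hγ : γ ∈ Gamma0 p) : γ • (J • zp p) ≠ zp p := by
  intro h
  have h2 := e10_two p
  have hp : (p : ℝ) ≠ 0 := by linarith
  have hp' : (p : ℂ) ≠ 0 := by exact_mod_cast hp
  rw [Gamma0_mem] at hγ
  obtain ⟨k, hk⟩ := (ZMod.intCast_zmod_eq_zero_iff_dvd _ _).mp hγ
  have h1 := e10_eq h
  rw [hk, coe_J_smul] at h1
  have h3 := e10_norm p
  have hre : ((zp p : ℍ) : ℂ).re = 1 / (2 * p) := e10_re p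
  have hy : 0 < ((zp p : ℍ) : ℂ).im := (zp p).im_pos
  have hdet := γ.det_coe
  rw [Matrix.det_fin_two, hk] at hdet
  set z : ℂ := ((zp p : ℍ) : ℂ) with hz
  set a := γ 0 0 with ha
  set b := γ 0 1 with hb
  set d := γ 1 1 with hd
  have e1 : (p : ℂ) * (z * (starRingEnd ℂ) z) = 1 := by rw [h3]; field_simp
  have h5 : -(a : ℂ) * (starRingEnd ℂ) z + (b : ℂ) = -(k : ℂ) + (d : ℂ) * z := by
    push_cast at h1
    linear_combination h1 - (k : ℂ) * e1
  have him := congrArg Complex.im h5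
  have hreq := congrArg Complex.re h5
  simp only [Complex.add_im, Complex.mul_im, Complex.neg_im, Complex.intCast_re, Complex.intCast_im, Complex.conj_re, Complex.conj_im,
    zero_mul, add_zero, neg_zero, mul_neg, neg_mul, neg_neg, zero_add] at him
  simp only [Complex.add_re, Complex.mul_re, Complex.neg_re, Complex.intCast_re, Complex.intCast_im, Complex.conj_re, Complex.conj_im,
    zero_mul, sub_zero, neg_mul, hre] at hreq
  have had : (a : ℝ) = d := mul_right_cancel₀ hy.ne' him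
  rw [← had] at hreq
  have h6 : (a : ℝ) = p * (b + k) := by
    field_simp at hreq
    linarith
  have h7 : a = p * (b + k) := by exact_mod_cast h6
  have h8 : (p : ℤ) ∣ 1 := by
    rw [← hdet, h7]
    exact ⟨(b + k) * d - b * k, by ring⟩
  have h9 : (p : ℤ) ≤ 1 := Int.le_of_dvd (by norm_num) h8
  have hpi : (2 : ℤ) ≤ p := by exact_mod_cast (Fact.out : p.Prime).two_le
  linarith

end Pool.Agent.Lib.H60M
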