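import Pool.Agent.Lib.H60M.E10

/-!
# H60M E11 (M): a test function with nonzero value

PROOF. As Maass.exists_delta, exists_test_pos (AutKernel.lean) with `z0` replaced by `zp p` and SL₂(ℤ) by Γ₀(p): there are `δ ∈ (0, 1)` with `δ ≤ upt (zp) (γ w)` for `γ ≠ ± 1`, and `δ ≤ upt (zp) (γ (J w))` for all `γ ∈ Γ₀(p)`,
for all `w` with `upt (zp) w < δ` (zp_stab, zp_noJ, finite_upt_lt; upt small means close: upt_eq_sinh). `φ(u) = smoothTransition (1 - u/δ)`: `≥ 0`, `> 0` for `u < δ`, `= 0` for `u ≥ δ`. For `upt (zp) w < δ`: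
`aK p φ (zp) w = 2 φ(upt (zp) w)` (the terms `γ = ± 1`), so `φ(upt (zp) w) · aK p φ (zp) w = 2 φ(upt (zp) w)²` for all `w`, and `pp φ (aK (zp) ·)(zp) = 2 ∫ φ(upt (zp) w)² dw > 0` (continuous, nonnegative, positive near `zp`;
volume_pos_of_isOpen).
-/

set_option autoImplicit false

open UpperHalfPlane Complex CongruenceSubgroup Filter Topology MeasureTheory
open scoped MatrixGroups ContDiff Real Modular
open Pool.Agent.Lib.Maass

namespace Pool.Agent.Lib.H60M

variable (p : ℕ) [Fact p.Prime]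

theorem e11_tri {a b w : ℍ} {δ : ℝ} (h1 : upt a w < δ) (h2 : upt b w < δ) : upt a b ≤ 4 * δ * (1 + δ) := by
  rw [upt_eq_sinh] at h1 h2 ⊢
  have hx : 0 ≤ dist a w / 2 := by positivity
  have hy : 0 ≤ dist b w / 2 := by positivity
  have hd : dist a b / 2 ≤ dist a w / 2 + dist b w / 2 := by
    have := dist_triangle a w b
    rw [dist_comm w b] at this
    linarith
  have h3 : Real.sinh (dist a b / 2) ≤ Real.sinh (dist a w / 2 + dist b w / 2) := Real.sinh_le_sinh.mpr hd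
  have h4 : 0 ≤ Real.sinh (dist a b / 2) := Real.sinh_nonneg_iff.mpr (by positivity)
  rw [Real.sinh_add] at h3
  have hc1 := Real.cosh_sq (dist a w / 2)
  have hc2 := Real.cosh_sq (dist b w / 2)
  generalize Real.sinh (dist a w / 2) = s at *
  generalize Real.sinh (dist b w / 2) = t at *
  generalize Real.cosh (dist a w / 2) = c at *
  generalize Real.cosh (dist b w / 2) = e at *
  have hδ : 0 < δ := lt_of_le_of_lt (sq_nonneg s) h1
  have h5 : Real.sinh (dist a b / 2) ^ 2 ≤ (s * e + c * t) ^ 2 := pow_le_pow_left₀ h4 h3 2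
  have h6 : (s * e + c * t) ^ 2 ≤ 2 * (s ^ 2 * e ^ 2 + c ^ 2 * t ^ 2) := by nlinarith [sq_nonneg (s * e - c * t)]
  rw [hc1, hc2] at h6
  have h7 : s ^ 2 * (t ^ 2 + 1) ≤ δ * (δ + 1) :=
    mul_le_mul h1.le (by linarith) (by positivity) hδ.le
  have h8 : (s ^ 2 + 1) * t ^ 2 ≤ (δ + 1) * δ :=
    mul_le_mul (by linarith) h2.le (by positivity) (by positivity)
  linarith

theorem e11_delta : ∃ δ : ℝ, 0 < δ ∧ δ < 1 ∧ ∀ w : ℍ, upt (zp p) w < δ → ∀ γ ∈ Gamma0 p,
    (γ ≠ 1 → γ ≠ -1 → δ ≤ upt (zp p) (γ • w)) ∧ δ ≤ upt (zp p) (γ • (J • w)) := by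
  have hS1 := finite_upt_lt (isCompact_singleton (x := zp p)) (isCompact_singleton (x := zp p))
  have hS2 := finite_upt_lt (isCompact_singleton (x := zp p)) (isCompact_singleton (x := J • zp p))
  set S1 := {γ : SL(2, ℤ) | ∃ z ∈ ({zp p} : Set ℍ), ∃ w ∈ ({zp p} : Set ℍ), upt z (γ • w) < 1} with hS1d
  set S2 := {γ : SL(2, ℤ) | ∃ z ∈ ({zp p} : Set ℍ), ∃ w ∈ ({J • zp p} : Set ℍ), upt z (γ • w) < 1} with hS2d
  have hT1 : (S1 ∩ {γ | γ ∈ Gamma0 p ∧ γ ≠ 1 ∧ γ ≠ -1}).Finite := hS1.subset Set.inter_subset_left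
  have hT2 : (S2 ∩ {γ | γ ∈ Gamma0 p}).Finite := hS2.subset Set.inter_subset_left
  obtain ⟨δ1, hδ1, h1⟩ := exists_pos_le_of_finite hT1 (fun γ => upt (zp p) (γ • zp p)) (by
    rintro γ ⟨-, hγ, hγ1, hγ2⟩
    apply upt_pos
    intro h
    rcases zp_stab p hγ h.symm with h' | h'
    · exact hγ1 h'
    · exact hγ2 h')
  obtain ⟨δ2, hδ2, h2⟩ := exists_pos_le_of_finite hT2 (fun γ => upt (zp p) (γ • (J • zp p))) (by
    rintro γ ⟨-, hγ⟩
    apply upt_pos
    intro h
    exact zp_noJ p hγ h.symm)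
  obtain ⟨η, hη⟩ : ∃ η, η = min (min δ1 δ2) 1 := ⟨_, rfl⟩
  have hη0 : 0 < η := by rw [hη]; positivity
  have hη1 : η ≤ δ1 := by rw [hη]; exact (min_le_left _ _).trans (min_le_left _ _)
  have hη2 : η ≤ δ2 := by rw [hη]; exact (min_le_left _ _).trans (min_le_right _ _)
  have hη3 : η ≤ 1 := by rw [hη]; exact min_le_right _ _
  have hlt : 4 * (η / 16) * (1 + η / 16) < η := by nlinarith
  refine ⟨η / 16, by positivity, by linarith, ?_⟩
  intro w hw γ hγ
  constructor
  · intro hne1 hne2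
    by_contra hcon
    push Not at hcon
    have h3 : upt (γ • zp p) (γ • w) < η / 16 := by
      rw [upt_smul_SL]
      exact hw
    have h4 := lt_of_le_of_lt (e11_tri hcon h3) hlt
    have h5 := h1 γ ⟨⟨zp p, rfl, zp p, rfl, h4.trans_le hη3⟩, hγ, hne1, hne2⟩
    linarith
  · by_contra hcon
    push Not at hcon
    have h3 : upt (γ • (J • zp p)) (γ • (J • w)) < η / 16 := by
      rw [upt_smul_SL, upt_smul]
      exact hw
    have h4 := lt_of_le_of_lt (e11_tri hcon h3) hlt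
    have h5 := h2 γ ⟨⟨zp p, rfl, J • zp p, rfl, h4.trans_le hη3⟩, hγ⟩
    linarith

theorem exists_test_zp : ∃ φ : ℝ → ℝ, IsTest φ ∧ pp φ (fun w => (aK p φ (zp p) w : ℂ)) (zp p) ≠ 0 := by
  obtain ⟨δ, hδ0, hδ1, hev⟩ := e11_delta p
  obtain ⟨φ, hφ⟩ : ∃ φ : ℝ → ℝ, φ = fun u => Real.smoothTransition (1 - u / δ) := ⟨_, rfl⟩
  have hφ0 : ∀ u, δ ≤ u → φ u = 0 := by
    intro u hu
    rw [hφ]
    apply Real.smoothTransition.zero_of_nonpos
    have : 1 ≤ u / δ := (one_le_div hδ0).mpr hu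
    linarith
  have hφpos : ∀ u, u < δ → 0 < φ u := by
    intro u hu
    rw [hφ]
    apply Real.smoothTransition.pos_of_pos
    have : u / δ < 1 := (div_lt_one hδ0).mpr hu
    linarith
  have hT : IsTest φ := by
    refine ⟨?_, fun u hu => hφ0 u (hδ1.le.trans hu)⟩
    rw [hφ]
    exact Real.smoothTransition.contDiff.comp (contDiff_const.sub (contDiff_id.div_const δ))
  refine ⟨φ, hT, ?_⟩
  have hne : (1 : SL(2, ℤ)) ≠ -1 := by
    intro h
    have := congrArg (fun g : SL(2, ℤ) => g 0 0) h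
    simp at this
  have hmem : (-1 : SL(2, ℤ)) ∈ Gamma0 p := by
    rw [Gamma0_mem]
    simp
  have hne' : (⟨1, one_mem _⟩ : Gamma0 p) ≠ ⟨-1, hmem⟩ := fun h => hne (congrArg Subtype.val h)
  have hkey : ∀ w : ℍ, (φ (upt (zp p) w) : ℂ) * (aK p φ (zp p) w : ℂ) = ((2 * φ (upt (zp p) w) ^ 2 : ℝ) : ℂ) := by
    intro w
    by_cases hw : upt (zp p) w < δ
    · have hS : aS p φ (zp p) w = 2 * φ (upt (zp p) w) := by
        unfold aS
        rw [tsum_eq_sum (s := {⟨1, one_mem _⟩, ⟨-1, hmem⟩})]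
        · rw [Finset.sum_pair hne']
          simp only
          rw [one_smul, ModularGroup.SL_neg_smul, one_smul]
          ring
        · intro γ hγ
          simp only [Finset.mem_insert, Finset.mem_singleton, not_or] at hγ
          exact hφ0 _ ((hev w hw γ γ.2).1 (fun h => hγ.1 (Subtype.ext h)) (fun h => hγ.2 (Subtype.ext h)))
      have hS' : aS p φ (zp p) (J • w) = 0 := by
        unfold aS
        rw [← tsum_zero (β := Gamma0 p)]
        exact tsum_congr fun γ => hφ0 _ (hev w hw γ γ.2).2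
      unfold aK
      rw [hS, hS']
      push_cast
      ring
    · rw [hφ0 _ (not_lt.mp hw)]
      simp
  have hpp : pp φ (fun w => (aK p φ (zp p) w : ℂ)) (zp p) = ((∫ w : ℍ, 2 * φ (upt (zp p) w) ^ 2 : ℝ) : ℂ) := by
    unfold pp
    exact (integral_congr_ae (Filter.Eventually.of_forall fun w => hkey w)).trans integral_ofReal
  have hcont : Continuous fun w : ℍ => φ (upt (zp p) w) :=
    (continuous_test_upt hT).comp (Continuous.prodMk_right (zp p))
  have hBM : IsBM fun w : ℍ => (φ (upt (zp p) w) : ℂ) := by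
    obtain ⟨M, hM0, hM⟩ := hT.bdd
    refine ⟨(Complex.continuous_ofReal.comp hcont).measurable, M, fun w => ?_⟩
    rw [Complex.norm_real, Real.norm_eq_abs]
    exact hM _ (upt_nonneg _ _)
  have hint : Integrable fun w : ℍ => 2 * φ (upt (zp p) w) ^ 2 := by
    have h1 := (pp_integrable hT hBM (zp p)).re
    refine (h1.const_mul 2).congr (Filter.Eventually.of_forall fun w => ?_)
    simp
    ring
  have hpos : 0 < ∫ w : ℍ, 2 * φ (upt (zp p) w) ^ 2 := by
    rw [integral_pos_iff_support_of_nonneg (fun w => by positivity) hint]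
    have hopen : IsOpen {w : ℍ | upt (zp p) w < δ} :=
      isOpen_lt (continuous_upt.comp (Continuous.prodMk_right (zp p))) continuous_const
    refine lt_of_lt_of_le (volume_pos_of_isOpen hopen ⟨zp p, ?_⟩) (measure_mono ?_)
    · change upt (zp p) (zp p) < δ
      rw [upt_self]
      exact hδ0
    · intro w hw
      have := hφpos _ hw
      rw [Function.mem_support]
      positivity
  rw [hpp]
  exact_mod_cast hpos.ne'

end Pool.Agent.Lib.H60M
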