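import Pool.Agent.Lib.H60M.E06
import Pool.Agent.Lib.H60M.E07
import Pool.Agent.Lib.H60M.E10

/-!
# H60M E12 (M): the space NS

PROOF. `aK_mem_NS`: `f₀ w = aK p φ (zp) w`: continuous and bounded (aK_continuous, aK_bounded), Γ₀-invariant and odd (aK_symm, aK_smul_left, aK_J_left). `f₀(wf w) = aK (zp) (wf w) = aK (wf zp) w` (aK_wf, wf_wf)
`= aK (J zp) w = - f₀ w` (zp_wf). `uop`: trace_aK with `z = zp`: `∑_i f₀(rep_i w) = autK φ zp w = 0`, because `autK φ (J z) w = - autK φ z w` and `J zp = γ zp` (zp_J, autK_smul_left). `rep_p w = w`, and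
`rep_j w = S T^j w = -1/(w + j) = wf ((w + j)/p)`, so `∑_i f₀(rep_i w) = f₀(w) - ∑_j f₀((w + j)/p)`.
`pp_mem_NS`: pp_isBM; invariance, oddness, wf, uop: pp_smul for the matrices (wf_gl; gFin_smul for `(w + b)/p`; mapGL for γ as in pp_isInv_fun) and linearity (pp_sum).
-/

set_option autoImplicit false

open UpperHalfPlane Complex CongruenceSubgroup Filter Topology MeasureTheory
open scoped MatrixGroups ContDiff Real Modular
open Pool.Agent.Lib.Maass

namespace Pool.Agent.Lib.H60M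

variable (p : ℕ) [Fact p.Prime] {φ : ℝ → ℝ}

theorem e12_coe (b : ℕ) (z : ℍ) : ((ofComplex (((z : ℂ) + b) / p) : ℍ) : ℂ) = ((z : ℂ) + b) / p := by
  have hp : p.Prime := Fact.out
  have h : 0 < (((z : ℂ) + b) / p).im := by
    rw [Complex.div_natCast_im]
    apply div_pos _ (by exact_mod_cast hp.pos)
    simpa using z.im_pos
  rw [ofComplex_apply_of_im_pos h]

/-- `S T^b z = wf ((z + b) / p)`. -/
theorem e12_wf (b : ℕ) (z : ℍ) : (ModularGroup.S * ModularGroup.T ^ b) • z = wf p (ofComplex (((z : ℂ) + b) / p)) := by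
  have hp : p.Prime := Fact.out
  apply UpperHalfPlane.ext
  rw [wf_coe, e12_coe, mul_smul, ← zpow_natCast ModularGroup.T, UpperHalfPlane.modular_T_zpow_smul,
    UpperHalfPlane.modular_S_smul]
  change (-(((((b : ℤ) : ℝ) +ᵥ z : ℍ) : ℂ)))⁻¹ = _
  rw [UpperHalfPlane.coe_vadd]
  have h3 : (p : ℂ) ≠ 0 := by exact_mod_cast hp.ne_zero
  rw [mul_div_cancel₀ _ h3]
  push_cast
  rw [inv_neg, neg_div, one_div, add_comm]

theorem e12_zero (hφ : IsTest φ) (w : ℍ) : autK φ (zp p) w = 0 := by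
  obtain ⟨γ, hγ⟩ := zp_J p
  have h1 := autK_J_left hφ (zp p) w
  rw [← hγ, autK_smul_left hφ] at h1
  linarith

theorem e12_wfaK (φ : ℝ → ℝ) (w : ℍ) : aK p φ (zp p) (wf p w) = -aK p φ (zp p) w := by
  rw [← aK_wf p φ (zp p) (wf p w), wf_wf, zp_wf, aK_J_left]

theorem aK_mem_NS (hφ : IsTest φ) : (fun w => (aK p φ (zp p) w : ℂ)) ∈ NS p := by
  have hp : p.Prime := Fact.out
  refine ⟨⟨?_, ?_⟩, ?_, ?_, ?_, ?_⟩
  · have h1 : Continuous fun w : ℍ => aK p φ (zp p) w := (aK_continuous p hφ).comp (Continuous.prodMk_right (zp p))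
    exact (Complex.continuous_ofReal.comp h1).measurable
  · obtain ⟨C, hC⟩ := aK_bounded p hφ
    refine ⟨C, fun z => ?_⟩
    rw [Complex.norm_real, Real.norm_eq_abs]
    exact hC _ _
  · intro γ hγ z
    simp only
    rw [aK_symm, aK_smul_left p φ hγ, aK_symm]
  · intro z
    simp only
    rw [aK_symm, aK_J_left, aK_symm]
    push_cast
    rfl
  · intro z
    simp only
    rw [e12_wfaK p φ]
    push_cast
    rfl
  · intro z
    have h1 := trace_aK p hφ (zp p) z
    rw [e12_zero p hφ, Fin.sum_univ_castSucc] at h1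
    have h2 : ∀ i : Fin p, aK p φ (zp p) (rep p (Fin.castSucc i) • z) =
        -aK p φ (zp p) (ofComplex (((z : ℂ) + ((i : ℕ) : ℂ)) / p)) := by
      intro i
      have h3 : ((Fin.castSucc i : Fin (p + 1)) : ℕ) ≠ p := by
        rw [Fin.val_castSucc]
        exact i.2.ne
      unfold rep
      rw [if_neg h3, e12_wf p, e12_wfaK p φ]
      rfl
    have h4 : rep p (Fin.last p) = 1 := by
      unfold rep
      rw [if_pos (Fin.val_last p)]
    rw [Finset.sum_congr rfl fun i _ => h2 i, h4, one_smul, Finset.sum_neg_distrib] at h1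
    unfold uop
    rw [Finset.sum_range]
    have h5 : ∑ i : Fin p, aK p φ (zp p) (ofComplex (((z : ℂ) + ((i : ℕ) : ℂ)) / p)) = aK p φ (zp p) z := by linarith
    simp only
    rw [← h5]
    push_cast
    rfl

theorem pp_mem_NS (hφ : IsTest φ) {f : ℍ → ℂ} (hf : f ∈ NS p) : pp φ f ∈ NS p := by
  have hp : p.Prime := Fact.out
  obtain ⟨h1, h2, h3, h4, h5⟩ := hf
  refine ⟨pp_isBM hφ h1, ?_, pp_isOdd_fun h3, ?_, ?_⟩
  · intro γ hγ z
    have h := pp_smul φ f (Matrix.SpecialLinearGroup.mapGL ℝ γ) z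
    rw [show γ • z = (Matrix.SpecialLinearGroup.mapGL ℝ γ) • z from rfl, ← h]
    congr 1
    funext w
    exact h2 γ hγ w
  · intro z
    obtain ⟨g, hg⟩ := wf_gl p
    rw [hg z, ← pp_smul φ f g z]
    have e : (fun w => f (g • w)) = fun w => (-1 : ℂ) * f w := by
      funext w
      rw [← hg w, h4 w, neg_one_mul]
    rw [e, pp_const_mul, neg_one_mul]
  · intro z
    unfold uop
    have e : ∀ b ∈ Finset.range p, pp φ f (ofComplex (((z : ℂ) + b) / p)) = pp φ (fun w => f (gFin p hp b • w)) z := by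
      intro b _
      rw [pp_smul, gFin_smul]
    rw [Finset.sum_congr rfl e, ← pp_sum hφ (Finset.range p) (fun b _ => h1.comp_smul (gFin p hp b)) z]
    congr 1
    funext w
    have h6 := h5 w
    unfold uop at h6
    rw [← h6]
    exact Finset.sum_congr rfl fun b _ => by rw [gFin_smul]

end Pool.Agent.Lib.H60M
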