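import Pool.Agent.Lib.H60M.E06
import Pool.Agent.Lib.H60M.E08

/-!
# H60M E13 (M): the Hilbert space and the operator

PROOFS. `muX_finite`: volume_fd_lt_top, counting measure on a finite type. `kX_meas`: for each `(i, j)` the function is continuous (aK_continuous), `Fin (p + 1)` is discrete. `muX_int`: `∫ ∂(μ.prod count) = ∑_i ∫`
(integral_prod_symm, integral_count / integral_fintype). `muX_unf`: unfold0. `cls_inj`: `f` continuous, Γ₀-invariant, `f(rep_i w) = 0` for a.e. `(w, i)`: every `z ∈ ℍ` is `δ w`, `w ∈ 𝒟`, `δ = γ rep_i`, so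
`{f ≠ 0} ⊆ ∪_{γ, i} γ rep_i {w ∈ 𝒟 : f(rep_i w) ≠ 0}` is a null set (measurePreserving_SL_smul, countable), and open (volume_pos_of_isOpen), so empty.
-/

set_option autoImplicit false

open UpperHalfPlane Complex CongruenceSubgroup Filter Topology MeasureTheory
open scoped MatrixGroups ContDiff Real Modular
open Pool.Agent.Lib.Maass

namespace Pool.Agent.Lib.H60M

variable (p : ℕ) [Fact p.Prime] {φ : ℝ → ℝ}

theorem muX_finite : IsFiniteMeasure (muX p) := by
  unfold muX
  have h1 : IsFiniteMeasure ((volume : Measure ℍ).restrict (𝒟 : Set ℍ)) :=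
    ⟨by rw [Measure.restrict_apply_univ]; exact volume_fd_lt_top⟩
  infer_instance

/-- The kernel on `𝒟 × cosets`. -/
noncomputable def kX (φ : ℝ → ℝ) (x y : ℍ × Fin (p + 1)) : ℝ := aK p φ (rep p x.2 • x.1) (rep p y.2 • y.1)

omit [Fact p.Prime] in
theorem e13_meas : Measurable (fun x : ℍ × Fin (p + 1) => rep p x.2 • x.1) := by
  refine measurable_from_prod_countable_left fun i => ?_
  exact (measurePreserving_SL_smul (rep p i)).measurable

theorem kX_meas (hφ : IsTest φ) : Measurable (Function.uncurry (kX p φ)) := by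
  have h1 : Measurable fun q : (ℍ × Fin (p + 1)) × (ℍ × Fin (p + 1)) =>
      (rep p q.1.2 • q.1.1, rep p q.2.2 • q.2.1) :=
    ((e13_meas p).comp measurable_fst).prodMk ((e13_meas p).comp measurable_snd)
  have h2 : Measurable (Function.uncurry (aK p φ)) := (aK_continuous p hφ).measurable
  have h3 := h2.comp h1
  have e : Function.uncurry (kX p φ) = Function.uncurry (aK p φ) ∘
      fun q : (ℍ × Fin (p + 1)) × (ℍ × Fin (p + 1)) => (rep p q.1.2 • q.1.1, rep p q.2.2 • q.2.1) := by
    funext q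
    simp only [Function.comp_apply, Function.uncurry, kX]
  rw [e]
  exact h3

theorem rep_meas : Measurable (fun x : ℍ × Fin (p + 1) => rep p x.2 • x.1) := e13_meas p

theorem muX_unf (hφ : IsTest φ) {f : ℍ → ℂ} (hf : IsBM f) (hinv : IsInv0 p f) (hodd : IsOddFn f) (z : ℍ) :
    ∫ y, (aK p φ z (rep p y.2 • y.1) : ℂ) * f (rep p y.2 • y.1) ∂(muX p) = 4 * pp φ f z := by
  have hfin := muX_finite p
  obtain ⟨C, hC⟩ := aK_bounded p hφ
  obtain ⟨M, hM⟩ := hf.bdd
  have hint : Integrable (fun y : ℍ × Fin (p + 1) => (aK p φ z (rep p y.2 • y.1) : ℂ) * f (rep p y.2 • y.1)) (muX p) := by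
    refine Integrable.of_bound (C := C * M) ?_ ?_
    · refine Measurable.aestronglyMeasurable ?_
      have h1 : Measurable fun w : ℍ => (aK p φ z w : ℂ) :=
        (Complex.continuous_ofReal.comp ((aK_continuous p hφ).comp (Continuous.prodMk_right z))).measurable
      exact (h1.comp (e13_meas p)).mul (hf.meas.comp (e13_meas p))
    · refine Filter.Eventually.of_forall fun y => ?_
      rw [norm_mul, Complex.norm_real, Real.norm_eq_abs]
      exact mul_le_mul (hC _ _) (hM _) (norm_nonneg _) ((abs_nonneg _).trans (hC z z))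
  rw [← unfold0 p hφ hf hinv hodd z]
  unfold muX at hint ⊢
  rw [integral_prod_symm _ hint, integral_count]

theorem cls_inj {f : ℍ → ℂ} (hf : Continuous f) (hinv : IsInv0 p f) (h0 : ∀ᵐ y ∂(muX p), f (rep p y.2 • y.1) = 0) : f = 0 := by
  have h1 : ∀ᵐ w ∂((volume : Measure ℍ).restrict (𝒟 : Set ℍ)), ∀ i : Fin (p + 1), f (rep p i • w) = 0 := by
    unfold muX at h0
    filter_upwards [Measure.ae_ae_of_ae_prod h0] with w hw i
    rw [Measure.ae_count_iff] at hw
    exact hw i
  rw [ae_restrict_iff' measurableSet_fd, ae_iff] at h1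
  set B : Set ℍ := {w | ¬ (w ∈ (𝒟 : Set ℍ) → ∀ i : Fin (p + 1), f (rep p i • w) = 0)} with hB
  have hopen : IsOpen {z : ℍ | f z ≠ 0} := isOpen_ne_fun hf continuous_const
  have hsub : {z : ℍ | f z ≠ 0} ⊆ ⋃ δ : SL(2, ℤ), (fun z : ℍ => δ • z) ⁻¹' B := by
    intro z hz
    obtain ⟨δ, hδ⟩ := ModularGroup.exists_smul_mem_fd z
    refine Set.mem_iUnion.mpr ⟨δ, ?_⟩
    change ¬ (δ • z ∈ (𝒟 : Set ℍ) → ∀ i : Fin (p + 1), f (rep p i • (δ • z)) = 0)
    intro hcon
    have h2 := hcon hδ
    obtain ⟨⟨γ, i⟩, hγ⟩ := (rep_bij p).2 δ⁻¹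
    simp only at hγ
    apply hz
    have h3 : z = (γ : SL(2, ℤ)) • (rep p i • (δ • z)) := by
      rw [← mul_smul, ← mul_smul, hγ, inv_mul_cancel, one_smul]
    rw [h3, hinv _ γ.2]
    exact h2 i
  have hnull : (volume : Measure ℍ) {z : ℍ | f z ≠ 0} = 0 := by
    refine measure_mono_null hsub ?_
    have := countable_SL2Z
    rw [measure_iUnion_null_iff]
    intro δ
    exact (measurePreserving_SL_smul δ).quasiMeasurePreserving.preimage_null h1
  by_contra hne
  have hex : {z : ℍ | f z ≠ 0}.Nonempty := by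
    by_contra hemp
    rw [Set.not_nonempty_iff_eq_empty] at hemp
    apply hne
    funext z
    by_contra hz
    have : z ∈ {z : ℍ | f z ≠ 0} := hz
    rw [hemp] at this
    exact this
  exact (volume_pos_of_isOpen hopen hex).ne' hnull

end Pool.Agent.Lib.H60M
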