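import Pool.Agent.Lib.H60M.E09
import Pool.Agent.Lib.H60M.E11
import Pool.Agent.Lib.H60M.E12
import Pool.Agent.Lib.H60M.E13

/-!
# H60M E14 (M/L): an eigenfunction in NS

PROOF. `φ` from exists_test_zp. `H = Lp ℂ 2 (muX p)`, `T` from exists_kernel_operator (CompactKernel.lean) with `K = kX p φ` (kX_meas, aK_bounded; symmetric by aK_symm). For `F ∈ H` put
`nice F z = ∫ y, aK p φ z (rep y.2 • y.1) * F y ∂muX`: `|nice F z| ≤ C' ‖F‖`, linear in `F`, so `F_n → F` implies `nice F_n z → nice F z`; `(T F) x = nice F (rep x.2 • x.1)` a.e.; `nice F` is Γ₀-invariant and odd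
(aK_smul_left, aK_J_left) and IsBM (measurable: StronglyMeasurable.integral_prod_right as in Maass.exists_eigV). For `f ∈ NS` let `cls f ∈ H` be the class of `y ↦ f(rep y.2 • y.1)`; `nice (cls f) = 4 pp φ f` (muX_unf), so
`T (cls f) = 4 cls (pp φ f)`. `v = cls f₀`, `f₀ = aK p φ (zp) ·` (aK_mem_NS). `T v = 4 cls (pp φ f₀) ≠ 0`: otherwise `pp φ f₀ = 0` by cls_inj (pp φ f₀ is continuous: pp_contDiffOn), contradiction to the choice of `φ`.
eig_closure: `T u = c u`, `c, u ≠ 0`, `u` in the closure of the span of the `T^(n+1) v`, which are classes of elements of NS (pp_mem_NS). For `h` in the span `nice h ∈ NS` (`nice (cls f) = 4 pp φ f ∈ NS`), and the conditions of NS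
are preserved by pointwise limits (besides IsBM, known for `nice u`), so `nice u ∈ NS`. `f := c⁻¹ nice u`: `u = cls f` a.e. (`T u = c u`), so `c f = nice u = nice (cls f) = 4 pp φ f`, `f ≠ 0`. Eigenvalue `c/4`.
Finite dimension: `{f ∈ NS : pp φ f = (c/4) f} → eigenspace(T, c)`, `f ↦ cls f`, is linear and injective (`cls f = 0 ⇒ 4 pp φ f = nice 0 = 0 ⇒ f = 0`), and the eigenspace of a compact operator for `c ≠ 0` is finite-dimensional
(as in exists_eigenfunction_of_kernel). Model for everything: Maass.exists_eigV in Exists.lean.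
-/

set_option autoImplicit false

open UpperHalfPlane Complex CongruenceSubgroup Filter Topology MeasureTheory
open scoped MatrixGroups ContDiff Real Modular
open Pool.Agent.Lib.Maass

namespace Pool.Agent.Lib.H60M

variable (p : ℕ) [Fact p.Prime]

/-- The eigenspace of `pp φ` in NS. -/
def eigN (φ : ℝ → ℝ) (hφ : IsTest φ) (c : ℂ) : Submodule ℂ (ℍ → ℂ) where
  carrier := {f | f ∈ NS p ∧ pp φ f = c • f}
  zero_mem' := by
    refine ⟨(NS p).zero_mem, ?_⟩
    ext z
    simp [pp]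
  add_mem' := by
    rintro f g ⟨hf, hf'⟩ ⟨hg, hg'⟩
    refine ⟨(NS p).add_mem hf hg, ?_⟩
    rw [pp_add_fun hφ hf.1 hg.1, hf', hg', smul_add]
  smul_mem' := by
    rintro a f ⟨hf, hf'⟩
    refine ⟨(NS p).smul_mem a hf, ?_⟩
    rw [pp_const_smul_fun, hf', smul_comm]

section e14

variable {φ : ℝ → ℝ}

/-- The nice representative of the image of a class. -/
noncomputable def e14_nice (φ : ℝ → ℝ) (F : ℍ × Fin (p + 1) → ℂ) (z : ℍ) : ℂ :=
  ∫ y, (aK p φ z (rep p y.2 • y.1) : ℂ) * F y ∂(muX p)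

theorem e14_memLp {f : ℍ → ℂ} (hf : IsBM f) : MemLp (fun y : ℍ × Fin (p + 1) => f (rep p y.2 • y.1)) 2 (muX p) := by
  have := muX_finite p
  obtain ⟨C, hC⟩ := hf.bdd
  exact MemLp.of_bound (hf.meas.comp (rep_meas p)).aestronglyMeasurable C (Filter.Eventually.of_forall fun y => hC _)

theorem e14_kz (hφ : IsTest φ) (z : ℍ) : IsBM fun w : ℍ => (aK p φ z w : ℂ) := by
  obtain ⟨C, hC⟩ := aK_bounded p hφ
  refine ⟨(Complex.continuous_ofReal.comp ((aK_continuous p hφ).comp (Continuous.prodMk_right z))).measurable, C, fun w => ?_⟩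
  rw [Complex.norm_real, Real.norm_eq_abs]
  exact hC _ _

/-- The class of a function. -/
noncomputable def e14_cls {f : ℍ → ℂ} (hf : IsBM f) : Lp ℂ 2 (muX p) := (e14_memLp p hf).toLp _

theorem e14_cls_ae {f : ℍ → ℂ} (hf : IsBM f) : e14_cls p hf =ᵐ[muX p] fun y => f (rep p y.2 • y.1) :=
  (e14_memLp p hf).coeFn_toLp

theorem e14_nice_eq (hφ : IsTest φ) (F : Lp ℂ 2 (muX p)) (z : ℍ) :
    e14_nice p φ F z = inner ℂ (e14_cls p (e14_kz p hφ z)) F := by
  rw [L2.inner_def]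
  unfold e14_nice
  refine integral_congr_ae ?_
  filter_upwards [e14_cls_ae p (e14_kz p hφ z)] with y hy
  rw [hy, RCLike.inner_apply, Complex.conj_ofReal, mul_comm]

theorem e14_nice_congr (φ : ℝ → ℝ) {F G : ℍ × Fin (p + 1) → ℂ} (h : F =ᵐ[muX p] G) (z : ℍ) :
    e14_nice p φ F z = e14_nice p φ G z := by
  unfold e14_nice
  refine integral_congr_ae ?_
  filter_upwards [h] with y hy
  rw [hy]

theorem e14_nice_cls (hφ : IsTest φ) {f : ℍ → ℂ} (hf : f ∈ NS p) (z : ℍ) :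
    e14_nice p φ (e14_cls p hf.1) z = 4 * pp φ f z := by
  rw [e14_nice_congr p φ (e14_cls_ae p hf.1) z]
  exact muX_unf p hφ hf.1 hf.2.1 hf.2.2.1 z

theorem e14_nice_BM (hφ : IsTest φ) (F : Lp ℂ 2 (muX p)) : IsBM (e14_nice p φ F) := by
  have := muX_finite p
  obtain ⟨C, hC⟩ := aK_bounded p hφ
  have hFint : Integrable F (muX p) := (Lp.memLp F).integrable (by norm_num)
  constructor
  · have h0 : Measurable fun q : ℍ × (ℍ × Fin (p + 1)) => (q.1, rep p q.2.2 • q.2.1) :=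
      measurable_fst.prodMk ((rep_meas p).comp measurable_snd)
    have h1 : Measurable fun q : ℍ × (ℍ × Fin (p + 1)) => ((Function.uncurry (aK p φ)) (q.1, rep p q.2.2 • q.2.1) : ℂ) :=
      Complex.measurable_ofReal.comp ((aK_continuous p hφ).measurable.comp h0)
    have h : StronglyMeasurable (fun q : ℍ × (ℍ × Fin (p + 1)) => (aK p φ q.1 (rep p q.2.2 • q.2.1) : ℂ) * F q.2) :=
      h1.stronglyMeasurable.mul ((Lp.stronglyMeasurable F).comp_measurable measurable_snd)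
    exact (h.integral_prod_right' (ν := muX p)).measurable
  · refine ⟨C * ∫ y, ‖F y‖ ∂(muX p), fun z => ?_⟩
    unfold e14_nice
    rw [← integral_const_mul]
    refine norm_integral_le_of_norm_le (hFint.norm.const_mul C) (Filter.Eventually.of_forall fun w => ?_)
    rw [norm_mul, Complex.norm_real]
    exact mul_le_mul_of_nonneg_right (hC z _) (norm_nonneg _)

/-- `nice F` as a linear map. -/
noncomputable def e14_L (hφ : IsTest φ) : Lp ℂ 2 (muX p) →ₗ[ℂ] (ℍ → ℂ) where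
  toFun F := e14_nice p φ F
  map_add' F G := by
    funext z
    simp only [Pi.add_apply]
    rw [e14_nice_eq p hφ, e14_nice_eq p hφ, e14_nice_eq p hφ, inner_add_right]
  map_smul' a F := by
    funext z
    simp only [Pi.smul_apply, RingHom.id_apply, smul_eq_mul]
    rw [e14_nice_eq p hφ, e14_nice_eq p hφ, inner_smul_right]

theorem e14_cont (hφ : IsTest φ) (z : ℍ) : Continuous fun F : Lp ℂ 2 (muX p) => e14_L p hφ F z := by
  have h : (fun F : Lp ℂ 2 (muX p) => e14_L p hφ F z) = fun F => inner ℂ (e14_cls p (e14_kz p hφ z)) F :=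
    funext fun F => e14_nice_eq p hφ F z
  rw [h]
  exact continuous_const.inner continuous_id

/-- The classes whose nice image satisfies the conditions of `NS`. -/
noncomputable def e14_W (hφ : IsTest φ) : Submodule ℂ (Lp ℂ 2 (muX p)) := (NS p).comap (e14_L p hφ)

theorem e14_mem (hφ : IsTest φ) (F : Lp ℂ 2 (muX p)) (h1 : ∀ z, e14_L p hφ F (wf p z) = -e14_L p hφ F z)
    (h2 : ∀ z, uop p (e14_L p hφ F) z = e14_L p hφ F z) : F ∈ e14_W p hφ := by
  refine ⟨e14_nice_BM p hφ F, ?_, ?_, h1, h2⟩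
  · intro γ hγ z
    show e14_nice p φ F (γ • z) = e14_nice p φ F z
    unfold e14_nice
    simp only [aK_smul_left p φ hγ]
  · intro z
    show e14_nice p φ F (J • z) = -e14_nice p φ F z
    unfold e14_nice
    rw [← integral_neg]
    congr 1
    funext y
    rw [aK_J_left]
    push_cast
    ring

theorem e14_closed (hφ : IsTest φ) : IsClosed (e14_W p hφ : Set (Lp ℂ 2 (muX p))) := by
  have e : (e14_W p hφ : Set (Lp ℂ 2 (muX p))) =
      (⋂ z, {F | e14_L p hφ F (wf p z) = -e14_L p hφ F z}) ∩ ⋂ z, {F | uop p (e14_L p hφ F) z = e14_L p hφ F z} := by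
    ext F
    constructor
    · rintro ⟨_, _, _, h1, h2⟩
      exact ⟨Set.mem_iInter.mpr h1, Set.mem_iInter.mpr h2⟩
    · rintro ⟨h1, h2⟩
      exact e14_mem p hφ F (Set.mem_iInter.mp h1) (Set.mem_iInter.mp h2)
  rw [e]
  refine (isClosed_iInter fun z => ?_).inter (isClosed_iInter fun z => ?_)
  · exact isClosed_eq (e14_cont p hφ _) (e14_cont p hφ _).neg
  · refine isClosed_eq ?_ (e14_cont p hφ _)
    unfold uop
    exact continuous_finsetSum _ fun b _ => e14_cont p hφ _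

theorem e14_pp_cont (hφ : IsTest φ) {f : ℍ → ℂ} (hf : IsBM f) : Continuous (pp φ f) := by
  have h1 := (pp_contDiffOn hφ hf).continuousOn
  have h2 : Continuous fun z : ℍ => (pp φ f ∘ ofComplex) (z : ℂ) :=
    h1.comp_continuous UpperHalfPlane.continuous_coe fun z => z.im_pos
  have h3 : (fun z : ℍ => (pp φ f ∘ ofComplex) (z : ℂ)) = pp φ f := by
    funext z
    simp only [Function.comp_apply, ofComplex_apply]
  rwa [h3] at h2

end e14

theorem exists_eigN : ∃ (φ : ℝ → ℝ) (hφ : IsTest φ) (c : ℂ), c ≠ 0 ∧ Nontrivial (eigN p φ hφ c) ∧ FiniteDimensional ℂ (eigN p φ hφ c) := by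
  obtain ⟨φ, hφ, hne⟩ := exists_test_zp p
  obtain ⟨C, hC⟩ := aK_bounded p hφ
  have hfin := muX_finite p
  obtain ⟨T, hTc, hT, hTs⟩ := exists_kernel_operator (muX p) (kX p φ) (kX_meas p hφ) C (fun x y => hC _ _)
  have hTs := hTs fun x y => aK_symm p φ _ _
  have hTn : ∀ F : Lp ℂ 2 (muX p), T F =ᵐ[muX p] fun x => e14_nice p φ F (rep p x.2 • x.1) := fun F => hT F
  have hTcls : ∀ {f : ℍ → ℂ} (hf : f ∈ NS p), T (e14_cls p hf.1) = (4 : ℂ) • e14_cls p (pp_mem_NS p hφ hf).1 := by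
    intro f hf
    apply Lp.ext
    refine (hTn _).trans ?_
    filter_upwards [Lp.coeFn_smul (4 : ℂ) (e14_cls p (pp_mem_NS p hφ hf).1), e14_cls_ae p (pp_mem_NS p hφ hf).1] with x h1 h2
    rw [h1, Pi.smul_apply, h2, e14_nice_cls p hφ hf, smul_eq_mul]
  have hf0 := aK_mem_NS p hφ
  obtain ⟨v, hv⟩ : ∃ v, v = e14_cls p hf0.1 := ⟨_, rfl⟩
  have hTv : T v ≠ 0 := by
    intro h0
    rw [hv, hTcls hf0] at h0
    have h1 : e14_cls p (pp_mem_NS p hφ hf0).1 = 0 := (smul_eq_zero.mp h0).resolve_left (by norm_num)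
    have h2 := e14_cls_ae p (pp_mem_NS p hφ hf0).1
    rw [h1] at h2
    have h3 := h2.symm.trans (Lp.coeFn_zero ℂ 2 (muX p))
    have h4 := cls_inj p (e14_pp_cont hφ hf0.1) (pp_mem_NS p hφ hf0).2.1 h3
    exact hne (congrFun h4 (zp p))
  obtain ⟨c, u, hc, hu, hTu, hucl⟩ := eig_closure T hTc hTs v hTv
  have hpow : ∀ n : ℕ, ∃ (f : ℍ → ℂ) (hf : f ∈ NS p), ((T : Lp ℂ 2 (muX p) →ₗ[ℂ] Lp ℂ 2 (muX p)) ^ n) v = e14_cls p hf.1 := by
    intro n
    induction n with
    | zero => exact ⟨_, hf0, by rw [pow_zero, hv]; rfl⟩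
    | succ n ih =>
      obtain ⟨f, hf, hn⟩ := ih
      have h4 : (4 : ℂ) • pp φ f ∈ NS p := (NS p).smul_mem _ (pp_mem_NS p hφ hf)
      refine ⟨(4 : ℂ) • pp φ f, h4, ?_⟩
      rw [pow_succ', Module.End.mul_apply, hn]
      exact hTcls hf
  have hle : Submodule.span ℂ (Set.range fun n : ℕ => ((T : Lp ℂ 2 (muX p) →ₗ[ℂ] Lp ℂ 2 (muX p)) ^ (n + 1)) v) ≤ e14_W p hφ := by
    rw [Submodule.span_le]
    rintro _ ⟨n, rfl⟩
    obtain ⟨f, hf, hn⟩ := hpow (n + 1)
    have h4 : (4 : ℂ) • pp φ f ∈ NS p := (NS p).smul_mem _ (pp_mem_NS p hφ hf)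
    show e14_L p hφ _ ∈ NS p
    simp only
    rw [hn]
    have h5 : e14_L p hφ (e14_cls p hf.1) = (4 : ℂ) • pp φ f := by
      funext z
      exact e14_nice_cls p hφ hf z
    rw [h5]
    exact h4
  have huW : u ∈ e14_W p hφ := Submodule.topologicalClosure_minimal _ hle (e14_closed p hφ) hucl
  have hnu : e14_nice p φ u ∈ NS p := huW
  obtain ⟨f, hf⟩ : ∃ f : ℍ → ℂ, f = c⁻¹ • e14_nice p φ u := ⟨_, rfl⟩
  have hfN : f ∈ NS p := by rw [hf]; exact (NS p).smul_mem _ hnu
  have hucls : u = e14_cls p hfN.1 := by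
    apply Lp.ext
    have h1 := hTn u
    rw [hTu] at h1
    filter_upwards [h1, Lp.coeFn_smul c u, e14_cls_ae p hfN.1] with x h2 h3 h4
    rw [h4, hf, Pi.smul_apply, ← h2, h3, Pi.smul_apply, smul_eq_mul, smul_eq_mul, ← mul_assoc, inv_mul_cancel₀ hc, one_mul]
  have hc4 : c / 4 ≠ 0 := div_ne_zero hc (by norm_num)
  refine ⟨φ, hφ, c / 4, hc4, ?_, ?_⟩
  · have hmem : f ∈ eigN p φ hφ (c / 4) := by
      refine ⟨hfN, ?_⟩
      funext z
      have h1 := e14_nice_cls p hφ hfN z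
      rw [← hucls] at h1
      have h2 : c * f z = e14_nice p φ u z := by
        rw [hf, Pi.smul_apply, smul_eq_mul, ← mul_assoc, mul_inv_cancel₀ hc, one_mul]
      rw [Pi.smul_apply, smul_eq_mul]
      linear_combination (-1 / 4 : ℂ) * h1 - (1 / 4 : ℂ) * h2
    refine ⟨⟨⟨f, hmem⟩, 0, fun h => ?_⟩⟩
    have h0 : f = 0 := congrArg Subtype.val h
    apply hu
    rw [hucls, Lp.eq_zero_iff_ae_eq_zero]
    filter_upwards [e14_cls_ae p hfN.1] with x hx
    rw [hx, h0]
    rfl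
  · let Φ0 : eigN p φ hφ (c / 4) →ₗ[ℂ] Lp ℂ 2 (muX p) :=
      { toFun := fun f => e14_cls p f.2.1.1
        map_add' := fun f g => rfl
        map_smul' := fun a f => rfl }
    have hΦ0 : ∀ f : eigN p φ hφ (c / 4), Φ0 f ∈
        Module.End.eigenspace (T : Lp ℂ 2 (muX p) →ₗ[ℂ] Lp ℂ 2 (muX p)) c := by
      intro f
      rw [Module.End.mem_eigenspace_iff]
      have h1 : T (e14_cls p f.2.1.1) = (4 : ℂ) • e14_cls p (pp_mem_NS p hφ f.2.1).1 := hTcls f.2.1
      have h2 : e14_cls p (pp_mem_NS p hφ f.2.1).1 = (c / 4) • e14_cls p f.2.1.1 := by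
        apply Lp.ext
        filter_upwards [Lp.coeFn_smul (c / 4) (e14_cls p f.2.1.1), e14_cls_ae p f.2.1.1, e14_cls_ae p (pp_mem_NS p hφ f.2.1).1] with x h3 h4 h5
        rw [h3, h5, Pi.smul_apply, h4, f.2.2]
        rfl
      show T (e14_cls p f.2.1.1) = c • e14_cls p f.2.1.1
      rw [h1, h2, smul_smul]
      congr 1
      ring
    let Φ := Φ0.codRestrict _ hΦ0
    have hfde : FiniteDimensional ℂ (Module.End.eigenspace (T : Lp ℂ 2 (muX p) →ₗ[ℂ] Lp ℂ 2 (muX p)) c) :=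
      ContinuousLinearMap.finite_dimensional_eigenspace hTc c hc
    refine FiniteDimensional.of_injective Φ ?_
    rw [← LinearMap.ker_eq_bot, LinearMap.ker_eq_bot']
    intro g hg
    have h1 : e14_cls p g.2.1.1 = 0 := congrArg Subtype.val hg
    apply Subtype.ext
    have h2 : ∀ z, 4 * pp φ g.1 z = 0 := by
      intro z
      rw [← e14_nice_cls p hφ g.2.1 z, h1]
      rw [e14_nice_eq p hφ, inner_zero_right]
    funext z
    have h3 := congrFun g.2.2 z
    have h4 := h2 z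
    have h5 : pp φ g.1 z = 0 := (mul_eq_zero.mp h4).resolve_left (by norm_num)
    rw [h5, Pi.smul_apply, smul_eq_mul] at h3
    exact (mul_eq_zero.mp h3.symm).resolve_left hc4

end Pool.Agent.Lib.H60M
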