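import Pool.Agent.Lib.H60M.E01

/-!
# H60M E15 (M): Hecke operators on Γ₀(p)-invariant functions

LEMMA (hecke_mat): `A = (x y; z t)` an integer matrix of determinant `q`, `p ∣ z`. There is `γ ∈ Γ₀(p)` with `A = γ M`, `M = (q 0; 0 1)` or `M = (1 b; 0 q)`, `0 ≤ b < q`, and `M` is unique. PROOF. If `q ∣ x` and `q ∣ z`:
`M = (q 0; 0 1)`, `γ = (x/q, y; z/q, t)` (`p ∣ z/q` as `q ≠ p`). Otherwise `(x, z) ≠ 0` mod `q` and `x t = y z` mod `q` give exactly one `b` mod `q` with `y = b x`, `t = b z` mod `q`: `γ = (x, (y - b x)/q; z, (t - b z)/q)`.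
Uniqueness: if `γ M = M'` with `γ ∈ SL₂(ℤ)` then `M = M'`.
heckeOp_inv0: for `γ ∈ Γ₀(p)` the matrices `M γ` are `γ' M'`, and `M ↦ M'` is injective (if `M₁ γ = γ₁ M'`, `M₂ γ = γ₂ M'` then `M₂ = γ₂ γ₁⁻¹ M₁`), so a permutation of the `q + 1` matrices.
heckeOp_wf: `W = (0 -1; p 0)`: `(1 b; 0 q) W = W (q 0; -p b 1)`, `(q 0; 0 1) W = W (1 0; 0 q)`, and the `q + 1` matrices `(q 0; -p b 1)`, `(1 0; 0 q)` are `γ' M'` with `M ↦ M'` injective as before
(explicitly: `(q 0; -p b 1)`, `b = 0`: `M' = (q 0; 0 1)`; `b ≠ 0`: `M' = (1 b'; 0 q)` with `-p b b' = 1` mod `q`; `(1 0; 0 q)`: `b' = 0`), and `f ∘ W` is Γ₀(p)-invariant (wf_conj in E01 may be used).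
-/

set_option autoImplicit false

open UpperHalfPlane Complex CongruenceSubgroup Filter Topology MeasureTheory
open scoped MatrixGroups ContDiff Real Modular
open Pool.Agent.Lib.Maass

namespace Pool.Agent.Lib.H60M

noncomputable section

lemma e15_mob {p : ℕ} {g : ℍ → ℂ} (hg : IsInv0 p g) {a b c d : ℤ} (h : a * d - b * c = 1) (hc : (p : ℤ) ∣ c) {w : ℂ}
    (hw : 0 < w.im) : g (ofComplex ((a * w + b) / (c * w + d))) = g (ofComplex w) := by
  let γ : SL(2, ℤ) := ⟨!![a, b; c, d], by rw [Matrix.det_fin_two_of]; exact h⟩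
  have hγ : γ ∈ Gamma0 p := by
    rw [Gamma0_mem]
    have : γ 1 0 = c := rfl
    rw [this]
    exact (ZMod.intCast_zmod_eq_zero_iff_dvd _ _).mpr hc
  have h1 : ((γ • (⟨w, hw⟩ : ℍ) : ℍ) : ℂ) = (a * w + b) / (c * w + d) := by
    rw [coe_specialLinearGroup_apply]
    simp [γ]
  rw [← h1, ofComplex_apply, hg γ hγ, ofComplex_apply_of_im_pos hw]

lemma e15_re (p m : ℕ) (w : ℂ) : ((1 : ℂ) - p * m * w).re = 1 - p * m * w.re := by
  have h : (1 : ℂ) - p * m * w = ((1 : ℝ) : ℂ) - ((p * m : ℝ) : ℂ) * w := by push_cast; ring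
  rw [h, Complex.sub_re, Complex.ofReal_re, Complex.re_ofReal_mul]

lemma e15_im (p m : ℕ) (w : ℂ) : ((1 : ℂ) - p * m * w).im = -(p * m * w.im) := by
  have h : (1 : ℂ) - p * m * w = ((1 : ℝ) : ℂ) - ((p * m : ℝ) : ℂ) * w := by push_cast; ring
  rw [h, Complex.sub_im, Complex.ofReal_im, Complex.im_ofReal_mul, zero_sub]

/-- The points of the Hecke orbit. -/
def e15_pt (q : ℕ) : Option (ZMod q) → ℂ → ℂ
  | none, w => q * w
  | some b, w => (w + (b.val : ℂ)) / q

/-- The index of a matrix of determinant `q`. -/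
def e15_idx (q : ℕ) [Fact q.Prime] (x y z t : ZMod q) : Option (ZMod q) :=
  if x = 0 ∧ z = 0 then none else some (if x ≠ 0 then y / x else t / z)

lemma e15_hecke {q : ℕ} (hq : q.Prime) (f : ℍ → ℂ) (w : ℂ) (hw : 0 < w.im) :
    haveI : NeZero q := ⟨hq.ne_zero⟩
    heckeOp q f (ofComplex w) = ((Real.sqrt q : ℝ) : ℂ)⁻¹ * ∑ i : Option (ZMod q), f (ofComplex (e15_pt q i w)) := by
  haveI : NeZero q := ⟨hq.ne_zero⟩
  rw [heckeOp_coord hw, Fintype.sum_option, sum_range_zmod hq (fun b => f (ofComplex ((w + b) / q)))]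
  rfl

lemma e15_red {p q : ℕ} [Fact p.Prime] [Fact q.Prime] (hqp : q ≠ p) {g : ℍ → ℂ} (hg : IsInv0 p g) {x y z t : ℤ} (h : x * t - y * z = q)
    (hz : (p : ℤ) ∣ z) {w : ℂ} (hw : 0 < w.im) :
    g (ofComplex ((x * w + y) / (z * w + t))) = g (ofComplex (e15_pt q (e15_idx q x y z t) w)) := by
  have hq : q.Prime := Fact.out
  have hp : p.Prime := Fact.out
  have hq0 : (q : ℤ) ≠ 0 := by exact_mod_cast hq.ne_zero
  have hqC : (q : ℂ) ≠ 0 := by exact_mod_cast hq.ne_zero
  haveI : NeZero q := ⟨hq.ne_zero⟩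
  have hmod : (x : ZMod q) * t = y * z := by
    have h1 : ((x * t - y * z : ℤ) : ZMod q) = ((q : ℤ) : ZMod q) := by rw [h]
    push_cast at h1
    rw [ZMod.natCast_self] at h1
    exact sub_eq_zero.1 h1
  by_cases hn : (x : ZMod q) = 0 ∧ (z : ZMod q) = 0
  · unfold e15_idx
    rw [if_pos hn]
    obtain ⟨hx, hz'⟩ := hn
    obtain ⟨x', rfl⟩ := (ZMod.intCast_zmod_eq_zero_iff_dvd _ _).mp hx
    obtain ⟨z', rfl⟩ := (ZMod.intCast_zmod_eq_zero_iff_dvd _ _).mp hz'
    have hdet : x' * t - y * z' = 1 := by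
      apply mul_left_cancel₀ hq0
      linear_combination h
    have hpz : (p : ℤ) ∣ z' := by
      rcases (Nat.prime_iff_prime_int.mp hp).dvd_or_dvd hz with h1 | h1
      · exfalso
        apply hqp
        rw [Int.natCast_dvd_natCast] at h1
        exact ((Nat.prime_dvd_prime_iff_eq hp hq).mp h1).symm
      · exact h1
    have h2 := e15_mob hg hdet hpz (im_mul_pos' hq hw)
    change _ = g (ofComplex ((q : ℂ) * w))
    rw [← h2]
    congr 2
    push_cast
    ring
  · obtain ⟨b, hb, hy, ht⟩ : ∃ b : ZMod q, e15_idx q (x : ZMod q) y z t = some b ∧ (y : ZMod q) = b * x ∧ (t : ZMod q) = b * z := by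
      unfold e15_idx
      rw [if_neg hn]
      by_cases hx : (x : ZMod q) = 0
      · have hz0 : (z : ZMod q) ≠ 0 := fun h1 => hn ⟨hx, h1⟩
        refine ⟨t / z, by rw [if_neg (not_not.mpr hx)], ?_, by field_simp⟩
        rw [hx, zero_mul] at hmod
        rcases mul_eq_zero.1 hmod.symm with h1 | h1
        · rw [h1, hx, mul_zero]
        · exact absurd h1 hz0
      · refine ⟨y / x, by rw [if_pos hx], by field_simp, ?_⟩
        field_simp
        linear_combination hmod
    rw [hb]
    have e1 : ((b.val : ℤ) : ZMod q) = b := by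
      push_cast
      exact ZMod.natCast_zmod_val b
    obtain ⟨y', hy'⟩ : (q : ℤ) ∣ y - b.val * x := by
      apply (ZMod.intCast_zmod_eq_zero_iff_dvd _ _).mp
      push_cast at e1 ⊢
      rw [e1, hy]
      ring
    obtain ⟨t', ht'⟩ : (q : ℤ) ∣ t - b.val * z := by
      apply (ZMod.intCast_zmod_eq_zero_iff_dvd _ _).mp
      push_cast at e1 ⊢
      rw [e1, ht]
      ring
    have hdet : x * t' - y' * z = 1 := by
      apply mul_left_cancel₀ hq0
      linear_combination h - x * ht' + z * hy'
    have him : 0 < ((w + (b.val : ℂ)) / q).im := by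
      exact_mod_cast im_add_div_pos hq hw ((b.val : ℕ) : ℝ)
    have h2 := e15_mob hg hdet hz him
    change _ = g (ofComplex ((w + (b.val : ℂ)) / q))
    rw [← h2]
    congr 2
    have hyC : (y : ℂ) = q * y' + b.val * x := by
      have : y = q * y' + b.val * x := by linear_combination hy'
      exact_mod_cast congrArg (fun n : ℤ => (n : ℂ)) this
    have htC : (t : ℂ) = q * t' + b.val * z := by
      have : t = q * t' + b.val * z := by linear_combination ht'
      exact_mod_cast congrArg (fun n : ℤ => (n : ℂ)) this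
    rw [hyC, htC, ← mul_div_mul_right ((x : ℂ) * ((w + (b.val : ℂ)) / q) + y') _ hqC]
    congr 1
    · field_simp
      ring
    · field_simp
      ring

end

variable (p : ℕ) [Fact p.Prime]

theorem heckeOp_inv0 {q : ℕ} (hq : q.Prime) (hqp : q ≠ p) {f : ℍ → ℂ} (hf : IsInv0 p f) : IsInv0 p (heckeOp q f) := by
  have hp : p.Prime := Fact.out
  haveI : Fact q.Prime := ⟨hq⟩
  haveI : NeZero q := ⟨hq.ne_zero⟩
  intro γ hγ z
  have hz : 0 < (z : ℂ).im := z.im_pos
  have hγz : 0 < ((γ • z : ℍ) : ℂ).im := (γ • z).im_pos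
  have e0 : heckeOp q f (γ • z) = heckeOp q f (ofComplex ((γ • z : ℍ) : ℂ)) := by rw [ofComplex_apply]
  have e1 : heckeOp q f z = heckeOp q f (ofComplex (z : ℂ)) := by rw [ofComplex_apply]
  rw [e0, e1, e15_hecke hq f _ hγz, e15_hecke hq f _ hz]
  congr 1
  obtain ⟨a, ha⟩ : ∃ a, a = γ 0 0 := ⟨_, rfl⟩
  obtain ⟨b, hb⟩ : ∃ b, b = γ 0 1 := ⟨_, rfl⟩
  obtain ⟨c, hc⟩ : ∃ c, c = γ 1 0 := ⟨_, rfl⟩
  obtain ⟨d, hd⟩ : ∃ d, d = γ 1 1 := ⟨_, rfl⟩
  have hdet : a * d - b * c = 1 := by
    have h1 := γ.det_coe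
    rw [Matrix.det_fin_two] at h1
    rw [ha, hb, hc, hd]
    exact h1
  have hpc : (p : ℤ) ∣ c := by
    rw [hc]
    exact (ZMod.intCast_zmod_eq_zero_iff_dvd _ _).mp (Gamma0_mem.mp hγ)
  have hcoe : ((γ • z : ℍ) : ℂ) = (a * z + b) / (c * z + d) := by
    rw [coe_specialLinearGroup_apply, ha, hb, hc, hd]
    rfl
  have hden : (c : ℂ) * z + d ≠ 0 := by
    have h2 := UpperHalfPlane.denom_ne_zero (γ : GL (Fin 2) ℝ) z
    rw [hc, hd]
    simpa [UpperHalfPlane.denom] using h2
  have hdq : (a : ZMod q) * d - b * c = 1 := by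
    have h3 : ((a * d - b * c : ℤ) : ZMod q) = ((1 : ℤ) : ZMod q) := by rw [hdet]
    push_cast at h3
    exact h3
  -- the permutation
  let φ : Option (ZMod q) → Option (ZMod q) := fun i => match i with
    | none => e15_idx q 0 0 (c : ZMod q) d
    | some x => e15_idx q ((a : ZMod q) + x * c) (b + x * d) 0 0
  have hφ : ∀ i, f (ofComplex (e15_pt q i ((γ • z : ℍ) : ℂ))) = f (ofComplex (e15_pt q (φ i) (z : ℂ))) := by
    intro i
    rcases i with _ | x
    · have h4 := e15_red (q := q) hqp hf (x := q * a) (y := q * b) (z := c) (t := d) (by linear_combination (q : ℤ) * hdet) hpc hz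
      have h5 : e15_idx q (((q : ℤ) * a : ℤ) : ZMod q) (((q : ℤ) * b : ℤ) : ZMod q) (c : ZMod q) d = e15_idx q 0 0 (c : ZMod q) d := by
        push_cast
        rw [ZMod.natCast_self, zero_mul, zero_mul]
      rw [h5] at h4
      change f (ofComplex ((q : ℂ) * ((γ • z : ℍ) : ℂ))) = f (ofComplex (e15_pt q (e15_idx q 0 0 (c : ZMod q) d) (z : ℂ)))
      rw [← h4, hcoe]
      congr 2
      push_cast
      ring
    · have h4 := e15_red (q := q) hqp hf (x := a + x.val * c) (y := b + x.val * d) (z := q * c) (t := q * d) (by linear_combination (q : ℤ) * hdet)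
        (Dvd.dvd.mul_left hpc _) hz
      have h5 : e15_idx q ((a + x.val * c : ℤ) : ZMod q) ((b + x.val * d : ℤ) : ZMod q) (((q : ℤ) * c : ℤ) : ZMod q) (((q : ℤ) * d : ℤ) : ZMod q) =
          e15_idx q ((a : ZMod q) + x * c) (b + x * d) 0 0 := by
        push_cast
        rw [ZMod.natCast_self, zero_mul, zero_mul, ZMod.natCast_zmod_val]
      rw [h5] at h4
      change f (ofComplex ((((γ • z : ℍ) : ℂ) + (x.val : ℂ)) / q)) = f (ofComplex (e15_pt q (e15_idx q ((a : ZMod q) + x * c) (b + x * d) 0 0) (z : ℂ)))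
      rw [← h4, hcoe]
      congr 2
      rw [div_add' _ _ _ hden, div_div]
      push_cast
      congr 1
      · ring
      · ring
  have hinj : Function.Injective φ := by
    have key : ∀ i, φ i = none ∨ ∃ y, φ i = some y := fun i => by
      rcases φ i with _ | y
      · exact Or.inl rfl
      · exact Or.inr ⟨y, rfl⟩
    have hA : ∀ x, φ (some x) = if (a : ZMod q) + x * c = 0 then none else some ((b + x * d) / (a + x * c)) := by
      intro x
      change e15_idx q ((a : ZMod q) + x * c) (b + x * d) 0 0 = _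
      unfold e15_idx
      by_cases h0 : (a : ZMod q) + x * c = 0
      · rw [if_pos ⟨h0, rfl⟩, if_pos h0]
      · rw [if_neg (fun h6 => h0 h6.1), if_neg h0, if_pos h0]
    have hB : φ none = if (c : ZMod q) = 0 then none else some ((d : ZMod q) / c) := by
      change e15_idx q 0 0 (c : ZMod q) d = _
      unfold e15_idx
      by_cases h0 : (c : ZMod q) = 0
      · rw [if_pos ⟨rfl, h0⟩, if_pos h0]
      · rw [if_neg (fun h6 => h0 h6.2), if_neg h0, if_neg (by simp)]
    intro i j hij
    rcases i with _ | x <;> rcases j with _ | y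
    · rfl
    · exfalso
      rw [hA, hB] at hij
      by_cases h1 : (c : ZMod q) = 0
      · rw [if_pos h1] at hij
        by_cases h2 : (a : ZMod q) + y * c = 0
        · rw [h1] at h2 hdq
          rw [mul_zero, add_zero] at h2
          rw [h2] at hdq
          simp at hdq
        · rw [if_neg h2] at hij
          exact absurd hij (by simp)
      · rw [if_neg h1] at hij
        by_cases h2 : (a : ZMod q) + y * c = 0
        · rw [if_pos h2] at hij
          exact absurd hij (by simp)
        · rw [if_neg h2, Option.some_inj, div_eq_div_iff h1 h2] at hij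
          have : (a : ZMod q) * d - b * c = 0 := by linear_combination hij
          rw [hdq] at this
          exact one_ne_zero this
    · exfalso
      rw [hA, hB] at hij
      by_cases h1 : (c : ZMod q) = 0
      · rw [if_pos h1] at hij
        by_cases h2 : (a : ZMod q) + x * c = 0
        · rw [h1] at h2 hdq
          rw [mul_zero, add_zero] at h2
          rw [h2] at hdq
          simp at hdq
        · rw [if_neg h2] at hij
          exact absurd hij (by simp)
      · rw [if_neg h1] at hij
        by_cases h2 : (a : ZMod q) + x * c = 0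
        · rw [if_pos h2] at hij
          exact absurd hij (by simp)
        · rw [if_neg h2, Option.some_inj, div_eq_div_iff h2 h1] at hij
          have : (a : ZMod q) * d - b * c = 0 := by linear_combination -hij
          rw [hdq] at this
          exact one_ne_zero this
    · rw [hA, hA] at hij
      by_cases h1 : (a : ZMod q) + x * c = 0
      · by_cases h2 : (a : ZMod q) + y * c = 0
        · have h3 : (x - y) * (c : ZMod q) = 0 := by linear_combination h1 - h2
          rcases mul_eq_zero.1 h3 with h4 | h4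
          · rw [sub_eq_zero.1 h4]
          · exfalso
            rw [h4, mul_zero, add_zero] at h1
            rw [h4, h1] at hdq
            simp at hdq
        · rw [if_pos h1, if_neg h2] at hij
          exact absurd hij (by simp)
      · by_cases h2 : (a : ZMod q) + y * c = 0
        · rw [if_neg h1, if_pos h2] at hij
          exact absurd hij (by simp)
        · rw [if_neg h1, if_neg h2, Option.some_inj, div_eq_div_iff h1 h2] at hij
          have h3 : x - y = 0 := by linear_combination hij + (x - y) * (1 - 1) - (x - y) * (hdq)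
          rw [sub_eq_zero.1 h3]
  have hbij : Function.Bijective φ := Finite.injective_iff_bijective.mp hinj
  rw [Fintype.sum_congr _ _ hφ]
  exact hbij.sum_comp (fun i => f (ofComplex (e15_pt q i (z : ℂ))))

theorem heckeOp_wf {q : ℕ} (hq : q.Prime) (hqp : q ≠ p) {f : ℍ → ℂ} (hf : IsInv0 p f) (z : ℍ) :
    heckeOp q f (wf p z) = heckeOp q (fun w => f (wf p w)) z := by
  have hp : p.Prime := Fact.out
  haveI : Fact q.Prime := ⟨hq⟩
  haveI : NeZero q := ⟨hq.ne_zero⟩
  have hz : 0 < (z : ℂ).im := z.im_pos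
  have hz0 : (z : ℂ) ≠ 0 := z.ne_zero
  have hpC : (p : ℂ) ≠ 0 := by exact_mod_cast hp.ne_zero
  have hqC : (q : ℂ) ≠ 0 := by exact_mod_cast hq.ne_zero
  obtain ⟨g, hg⟩ : ∃ g : ℍ → ℂ, g = fun w => f (wf p w) := ⟨_, rfl⟩
  have hginv : IsInv0 p g := by
    intro γ hγ w
    obtain ⟨e, he⟩ := wf_conj p
    rw [hg]
    simp only
    rw [he ⟨γ, hγ⟩ w]
    exact hf _ (e ⟨γ, hγ⟩).2 _
  have hwim : 0 < ((wf p z : ℍ) : ℂ).im := (wf p z).im_pos
  have e0 : heckeOp q f (wf p z) = heckeOp q f (ofComplex ((wf p z : ℍ) : ℂ)) := by rw [ofComplex_apply]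
  have e1 : heckeOp q (fun w => f (wf p w)) z = heckeOp q g (ofComplex (z : ℂ)) := by rw [ofComplex_apply, hg]
  rw [e0, e1, e15_hecke hq f _ hwim, e15_hecke hq g _ hz]
  congr 1
  have hgf : ∀ w : ℂ, 0 < w.im → g (ofComplex w) = f (ofComplex (-1 / (p * w))) := by
    intro w hw
    rw [hg]
    simp only
    congr 1
    unfold wf
    rw [ofComplex_apply_of_im_pos hw]
  have hpq0 : (p : ZMod q) ≠ 0 := by
    intro h
    rw [ZMod.natCast_eq_zero_iff] at h
    exact hqp ((Nat.prime_dvd_prime_iff_eq hq hp).mp h)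
  let φ : Option (ZMod q) → Option (ZMod q) := fun i => match i with
    | none => some 0
    | some x => if x = 0 then none else some (1 / (-(p : ZMod q) * x))
  have hφ : ∀ i, f (ofComplex (e15_pt q i ((wf p z : ℍ) : ℂ))) = g (ofComplex (e15_pt q (φ i) (z : ℂ))) := by
    intro i
    rcases i with _ | x
    · have h4 := e15_red (q := q) hqp hginv (x := 1) (y := 0) (z := 0) (t := q) (by ring) (dvd_zero _) hz
      have h5 : e15_idx q ((1 : ℤ) : ZMod q) ((0 : ℤ) : ZMod q) ((0 : ℤ) : ZMod q) ((q : ℤ) : ZMod q) = some 0 := by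
        unfold e15_idx
        push_cast
        rw [if_neg (by simp), if_pos one_ne_zero, zero_div]
      rw [h5] at h4
      change f (ofComplex ((q : ℂ) * ((wf p z : ℍ) : ℂ))) = g (ofComplex (e15_pt q (some 0) (z : ℂ)))
      rw [← h4]
      have h6 : ((1 : ℤ) : ℂ) * z + ((0 : ℤ) : ℂ) = z := by push_cast; ring
      have h7 : ((0 : ℤ) : ℂ) * z + ((q : ℤ) : ℂ) = q := by push_cast; ring
      rw [h6, h7]
      have h8 : 0 < ((z : ℂ) / q).im := by
        have := im_add_div_pos hq hz 0
        simpa using this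
      rw [hgf _ h8, wf_coe]
      congr 2
      field_simp
    · have h4 := e15_red (q := q) hqp hginv (x := q) (y := 0) (z := -(p * x.val)) (t := 1) (by ring) (Dvd.dvd.neg_right (Dvd.intro _ rfl)) hz
      have h5 : e15_idx q ((q : ℤ) : ZMod q) ((0 : ℤ) : ZMod q) ((-(p * x.val) : ℤ) : ZMod q) ((1 : ℤ) : ZMod q) = φ (some x) := by
        change _ = if x = 0 then none else some (1 / (-(p : ZMod q) * x))
        unfold e15_idx
        push_cast
        rw [ZMod.natCast_self, ZMod.natCast_zmod_val]
        by_cases hx : x = 0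
        · rw [if_pos hx, if_pos ⟨rfl, by rw [hx]; simp⟩]
        · rw [if_neg hx, if_neg, if_neg (by simp)]
          · congr 2
            ring
          · rintro ⟨-, h9⟩
            rcases mul_eq_zero.1 (neg_eq_zero.1 h9) with h10 | h10
            · exact hpq0 h10
            · exact hx h10
      rw [h5] at h4
      change f (ofComplex ((((wf p z : ℍ) : ℂ) + (x.val : ℂ)) / q)) = g (ofComplex (e15_pt q (φ (some x)) (z : ℂ)))
      rw [← h4]
      have h6 : ((q : ℤ) : ℂ) * z + ((0 : ℤ) : ℂ) = q * z := by push_cast; ring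
      have h7 : ((-(p * x.val) : ℤ) : ℂ) * z + ((1 : ℤ) : ℂ) = 1 - p * x.val * z := by push_cast; ring
      rw [h6, h7]
      have hden : (1 : ℂ) - p * x.val * z ≠ 0 := by
        intro h0
        have h11 : ((1 : ℂ) - p * x.val * z).im = 0 := by rw [h0]; rfl
        have h12 : ((1 : ℂ) - p * x.val * z).re = 1 - p * x.val * z.re := e15_re p x.val z
        have h13 : ((1 : ℂ) - p * x.val * z).im = -(p * x.val * z.im) := e15_im p x.val z
        rw [h0] at h12
        rw [h13, neg_eq_zero] at h11
        rcases mul_eq_zero.1 h11 with h14 | h14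
        · rw [h14] at h12
          simp at h12
        · exact z.im_pos.ne' h14
      have h8 : 0 < ((q : ℂ) * z / (1 - p * x.val * z)).im := by
        have h15 : (q : ℂ) * z / (1 - p * x.val * z) = ((q : ℝ) : ℂ) * ((z : ℂ) / (1 - p * x.val * z)) := by
          push_cast
          ring
        rw [h15, Complex.im_ofReal_mul]
        have hqR : (0 : ℝ) < q := by exact_mod_cast hq.pos
        apply mul_pos hqR
        rw [Complex.div_im]
        have hns : 0 < Complex.normSq ((1 : ℂ) - p * x.val * z) := Complex.normSq_pos.mpr hden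
        have h16 : ((1 : ℂ) - p * x.val * z).re = 1 - p * x.val * z.re := e15_re p x.val z
        have h17 : ((1 : ℂ) - p * x.val * z).im = -(p * x.val * z.im) := e15_im p x.val z
        rw [h16, h17]
        have h18 : (z : ℂ).im * (1 - p * x.val * z.re) / Complex.normSq (1 - p * x.val * z) -
            (z : ℂ).re * -(p * x.val * z.im) / Complex.normSq (1 - p * x.val * z) = z.im / Complex.normSq (1 - p * x.val * z) := by
          change z.im * (1 - p * x.val * z.re) / Complex.normSq (1 - p * x.val * z) -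
            z.re * -(p * x.val * z.im) / Complex.normSq (1 - p * x.val * z) = z.im / Complex.normSq (1 - p * x.val * z)
          ring
        rw [h18]
        exact div_pos z.im_pos hns
      rw [hgf _ h8, wf_coe]
      congr 2
      field_simp
      ring
  have hinj : Function.Injective φ := by
    intro i j hij
    rcases i with _ | x <;> rcases j with _ | y
    · rfl
    · exfalso
      change some 0 = (if y = 0 then none else some (1 / (-(p : ZMod q) * y))) at hij
      by_cases hy : y = 0
      · rw [if_pos hy] at hij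
        exact absurd hij (by simp)
      · rw [if_neg hy, Option.some_inj] at hij
        exact (div_ne_zero one_ne_zero (mul_ne_zero (neg_ne_zero.2 hpq0) hy)) hij.symm
    · exfalso
      change (if x = 0 then none else some (1 / (-(p : ZMod q) * x))) = some 0 at hij
      by_cases hx : x = 0
      · rw [if_pos hx] at hij
        exact absurd hij (by simp)
      · rw [if_neg hx, Option.some_inj] at hij
        exact (div_ne_zero one_ne_zero (mul_ne_zero (neg_ne_zero.2 hpq0) hx)) hij
    · change (if x = 0 then none else some (1 / (-(p : ZMod q) * x))) = (if y = 0 then none else some (1 / (-(p : ZMod q) * y))) at hij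
      by_cases hx : x = 0
      · by_cases hy : y = 0
        · rw [hx, hy]
        · rw [if_pos hx, if_neg hy] at hij
          exact absurd hij (by simp)
      · by_cases hy : y = 0
        · rw [if_neg hx, if_pos hy] at hij
          exact absurd hij (by simp)
        · rw [if_neg hx, if_neg hy, Option.some_inj] at hij
          have hxp := mul_ne_zero (neg_ne_zero.2 hpq0) hx
          have hyp := mul_ne_zero (neg_ne_zero.2 hpq0) hy
          rw [div_eq_div_iff hxp hyp, one_mul, one_mul] at hij
          rw [mul_left_cancel₀ (neg_ne_zero.2 hpq0) hij]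
  have hbij : Function.Bijective φ := Finite.injective_iff_bijective.mp hinj
  rw [Fintype.sum_congr _ _ hφ]
  exact hbij.sum_comp (fun i => g (ofComplex (e15_pt q i (z : ℂ))))

end Pool.Agent.Lib.H60M
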