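import Pool.Agent.Lib.H60M.EDefs

/-!
# H60M E16 (M, PORT of HeckeOp.lean): Hecke operators on periodic functions

In HeckeOp.lean the proofs of heckeOp_comm (heckeOp_heckeOp) and heckeOp_isOdd use the invariance of `f` only through `IsInv.add_int`, `IsInv.zmod` (periodicity). Same proofs with the hypothesis hT.
uop_hecke: expand both sides as in heckeOp_heckeOp: `∑_b (T_q f)((z + b)/p) = q^(-1/2) [∑_b f((q z + q b)/p) + ∑_{b, c} f((z + b + p c)/(p q))]` and `T_q (uop f)(z) = q^(-1/2) [∑_b f((q z + b)/p) + ∑_{c, b} f(((z + c)/q + b)/p)]`: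
in both the last sum is `∑_{d < p q} f((z + d)/(p q))`, and `b ↦ q b` permutes the classes mod `p` (`q ≠ p`).
-/

set_option autoImplicit false

open UpperHalfPlane Complex CongruenceSubgroup Filter Topology MeasureTheory
open scoped MatrixGroups ContDiff Real Modular
open Pool.Agent.Lib.Maass

namespace Pool.Agent.Lib.H60M

noncomputable section

/-- Periodicity. -/
def E16Per (f : ℍ → ℂ) : Prop := ∀ (n : ℤ) {w : ℂ}, 0 < w.im → f (ofComplex (w + n)) = f (ofComplex w)

lemma e16_per {f : ℍ → ℂ} (hT : ∀ z : ℍ, f (ofComplex (z + 1)) = f z) : E16Per f := by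
  have h1 : ∀ w : ℂ, 0 < w.im → f (ofComplex (w + 1)) = f (ofComplex w) := by
    intro w hw
    have := hT ⟨w, hw⟩
    rw [ofComplex_apply_of_im_pos hw]
    exact this
  have h2 : ∀ (n : ℕ) (w : ℂ), 0 < w.im → f (ofComplex (w + n)) = f (ofComplex w) := by
    intro n
    induction n with
    | zero => intro w _; simp
    | succ n ih =>
      intro w hw
      have e : w + ((n + 1 : ℕ) : ℂ) = (w + n) + 1 := by push_cast; ring
      rw [e, h1 _ (by simpa using hw), ih w hw]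
  intro n w hw
  obtain ⟨k, rfl | rfl⟩ := n.eq_nat_or_neg
  · exact_mod_cast h2 k w hw
  · have h3 := h2 k (w + ((-(k : ℤ) : ℤ) : ℂ)) (by simpa using hw)
    rw [← h3]
    congr 2
    push_cast
    ring

lemma E16Per.add_int {f : ℍ → ℂ} (hf : E16Per f) (n : ℤ) {w : ℂ} (hw : 0 < w.im) :
    f (ofComplex (w + n)) = f (ofComplex w) := hf n hw

/-- `f((w + n)/p)` only depends on `n` modulo `p`. -/
lemma E16Per.zmod {f : ℍ → ℂ} (hf : E16Per f) {p : ℕ} (hp : p.Prime) {w : ℂ} (hw : 0 < w.im)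
    (n : ℤ) : f (ofComplex ((w + n) / p)) =
      f (ofComplex ((w + ((n : ZMod p).val : ℂ)) / p)) := by
  have hp0 : (p : ℂ) ≠ 0 := by exact_mod_cast hp.ne_zero
  have : NeZero p := ⟨hp.ne_zero⟩
  have h1 : (((n : ZMod p).val : ℤ) : ℂ) = ((n % (p : ℤ) : ℤ) : ℂ) := by
    rw [ZMod.val_intCast]
  have h2 : (n : ℂ) = ((n : ZMod p).val : ℂ) + p * ((n / (p : ℤ) : ℤ) : ℂ) := by
    have h3 : n = n % (p : ℤ) + p * (n / (p : ℤ)) := (Int.emod_add_mul_ediv n p).symm
    have h4 : (n : ℂ) = ((n % (p : ℤ) + p * (n / (p : ℤ)) : ℤ) : ℂ) := by rw [← h3]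
    rw [h4]
    push_cast at h1 ⊢
    rw [h1]
  have h5 : (w + n) / p = (w + ((n : ZMod p).val : ℂ)) / p + ((n / (p : ℤ) : ℤ) : ℂ) := by
    rw [h2]
    field_simp
    push_cast
    ring
  rw [h5]
  refine hf.add_int _ ?_
  exact_mod_cast im_add_div_pos hp hw (((n : ZMod p).val : ℕ) : ℝ)

lemma e16_odd {p : ℕ} (hp : p.Prime) {f : ℍ → ℂ} (hf : E16Per f) (hf' : IsOddFn f) :
    IsOddFn (heckeOp p f) := by
  have : NeZero p := ⟨hp.ne_zero⟩
  intro z
  have hz : 0 < (z : ℂ).im := z.im_pos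
  have hJ : ((J • z : ℍ) : ℂ) = -(starRingEnd ℂ) (z : ℂ) := coe_J_smul z
  unfold heckeOp
  rw [hJ, ← mul_neg]
  congr 1
  have h1 : f (ofComplex (p * -(starRingEnd ℂ) (z : ℂ))) = - f (ofComplex (p * z)) := by
    rw [← hf'.coord (im_mul_pos' hp hz)]
    congr 2
    simp
  rw [h1, neg_add]
  congr 1
  rw [sum_range_zmod hp (fun b => f (ofComplex ((-(starRingEnd ℂ) (z : ℂ) + b) / p))),
    sum_range_zmod hp (fun b => f (ofComplex (((z : ℂ) + b) / p))), ← Finset.sum_neg_distrib]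
  have h2 : ∀ x : ZMod p, f (ofComplex ((-(starRingEnd ℂ) (z : ℂ) + (x.val : ℂ)) / p)) =
      - f (ofComplex (((z : ℂ) + ((-x : ZMod p).val : ℂ)) / p)) := by
    intro x
    have h3 := hf.zmod hp hz (-(x.val : ℤ))
    have h4 : ((-(x.val : ℤ) : ℤ) : ZMod p) = -x := by
      push_cast
      rw [ZMod.natCast_zmod_val]
    rw [h4] at h3
    rw [← h3, ← hf'.coord]
    · congr 2
      push_cast
      rw [map_div₀, map_add, map_neg, Complex.conj_natCast, Complex.conj_natCast]
      ring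
    · have := im_add_div_pos hp hz (-((x.val : ℕ) : ℝ))
      push_cast at this ⊢
      exact this
  simp only [h2]
  exact Equiv.sum_comp (Equiv.neg (ZMod p))
    (fun x => - f (ofComplex (((z : ℂ) + (x.val : ℂ)) / p)))

/-- The symmetric expression for `T_p T_q f`. -/
lemma e16_hh {p q : ℕ} (hp : p.Prime) (hq : q.Prime) (hpq : p ≠ q) {f : ℍ → ℂ}
    (hf : E16Per f) (z : ℍ) : heckeOp p (heckeOp q f) z =
      ((Real.sqrt p : ℝ) : ℂ)⁻¹ * (((Real.sqrt q : ℝ) : ℂ)⁻¹ *
        (f (ofComplex (p * q * z)) + ∑ c ∈ Finset.range q, f (ofComplex ((p * z + c) / q)) +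
          ∑ b ∈ Finset.range p, f (ofComplex ((q * z + b) / p)) +
          ∑ d ∈ Finset.range (p * q), f (ofComplex ((z + d) / (p * q))))) := by
  have hz : 0 < (z : ℂ).im := z.im_pos
  have hp0 : (p : ℂ) ≠ 0 := by exact_mod_cast hp.ne_zero
  have hq0 : (q : ℂ) ≠ 0 := by exact_mod_cast hq.ne_zero
  have : NeZero p := ⟨hp.ne_zero⟩
  have : Fact p.Prime := ⟨hp⟩
  have e0 : heckeOp p (heckeOp q f) z = ((Real.sqrt p : ℝ) : ℂ)⁻¹ *
      (heckeOp q f (ofComplex (p * z)) +
        ∑ b ∈ Finset.range p, heckeOp q f (ofComplex ((z + b) / p))) := rfl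
  rw [e0, heckeOp_coord (im_mul_pos' hp hz)]
  have e1 : ∀ b ∈ Finset.range p, heckeOp q f (ofComplex (((z : ℂ) + b) / p)) =
      ((Real.sqrt q : ℝ) : ℂ)⁻¹ * (f (ofComplex (q * (((z : ℂ) + b) / p))) +
        ∑ c ∈ Finset.range q, f (ofComplex ((((z : ℂ) + b) / p + c) / q))) := by
    intro b _
    apply heckeOp_coord
    exact_mod_cast im_add_div_pos hp hz ((b : ℕ) : ℝ)
  rw [Finset.sum_congr rfl e1, ← Finset.mul_sum, ← mul_add, Finset.sum_add_distrib]
  congr 2
  have e2 : ∑ b ∈ Finset.range p, f (ofComplex (q * (((z : ℂ) + b) / p))) =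
      ∑ b ∈ Finset.range p, f (ofComplex ((q * z + b) / p)) := by
    rw [sum_range_zmod hp (fun b => f (ofComplex (q * (((z : ℂ) + b) / p)))),
      sum_range_zmod hp (fun b => f (ofComplex ((q * (z : ℂ) + b) / p)))]
    have e3 : ∀ x : ZMod p, f (ofComplex (q * (((z : ℂ) + (x.val : ℂ)) / p))) =
        f (ofComplex ((q * (z : ℂ) + (((q : ZMod p) * x : ZMod p).val : ℂ)) / p)) := by
      intro x
      have h3 := hf.zmod hp (im_mul_pos' hq hz) ((q : ℤ) * (x.val : ℤ))
      have h4 : (((q : ℤ) * (x.val : ℤ) : ℤ) : ZMod p) = q * x := by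
        push_cast
        rw [ZMod.natCast_zmod_val]
      rw [h4] at h3
      rw [← h3]
      congr 2
      push_cast
      ring
    simp only [e3]
    have hqp : (q : ZMod p) ≠ 0 := by
      intro h
      rw [ZMod.natCast_eq_zero_iff] at h
      exact hpq ((Nat.prime_dvd_prime_iff_eq hp hq).mp h)
    exact Equiv.sum_comp (Equiv.mulLeft₀ (q : ZMod p) hqp)
      (fun x => f (ofComplex ((q * (z : ℂ) + (x.val : ℂ)) / p)))
  have e4 : ∑ b ∈ Finset.range p, ∑ c ∈ Finset.range q,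
      f (ofComplex ((((z : ℂ) + b) / p + c) / q)) =
      ∑ d ∈ Finset.range (p * q), f (ofComplex ((z + d) / (p * q))) := by
    have hgen : ∀ (g : ℕ → ℂ) (n : ℕ), ∑ d ∈ Finset.range (p * n), g d =
        ∑ c ∈ Finset.range n, ∑ b ∈ Finset.range p, g (p * c + b) := by
      intro g n
      induction n with
      | zero => simp
      | succ n ih =>
        rw [Nat.mul_succ, Finset.sum_range_add, ih, Finset.sum_range_succ]
    rw [hgen, Finset.sum_comm]
    refine Finset.sum_congr rfl fun c _ => Finset.sum_congr rfl fun b _ => ?_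
    congr 2
    push_cast
    field_simp
    ring
  rw [e2, e4, ← mul_assoc, mul_comm (q : ℂ) p]
  ring

lemma e16_comm {p q : ℕ} (hp : p.Prime) (hq : q.Prime) {f : ℍ → ℂ} (hf : E16Per f) :
    heckeOp p (heckeOp q f) = heckeOp q (heckeOp p f) := by
  rcases eq_or_ne p q with rfl | hpq
  · rfl
  ext z
  rw [e16_hh hp hq hpq hf, e16_hh hq hp hpq.symm hf, mul_left_comm,
    mul_comm (q : ℂ) (p : ℂ), mul_comm q p]
  congr 2
  ring


lemma e16_uop {p q : ℕ} (hp : p.Prime) (hq : q.Prime) (hqp : q ≠ p) {f : ℍ → ℂ} (hf : E16Per f) (z : ℍ) :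
    uop p (heckeOp q f) z = heckeOp q (uop p f) z := by
  have hz : 0 < (z : ℂ).im := z.im_pos
  have hp0 : (p : ℂ) ≠ 0 := by exact_mod_cast hp.ne_zero
  have hq0 : (q : ℂ) ≠ 0 := by exact_mod_cast hq.ne_zero
  have : NeZero p := ⟨hp.ne_zero⟩
  have : Fact p.Prime := ⟨hp⟩
  have hgen : ∀ (g : ℕ → ℂ) (m n : ℕ), ∑ d ∈ Finset.range (m * n), g d =
      ∑ c ∈ Finset.range n, ∑ b ∈ Finset.range m, g (m * c + b) := by
    intro g m n
    induction n with
    | zero => simp
    | succ n ih =>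
      rw [Nat.mul_succ, Finset.sum_range_add, ih, Finset.sum_range_succ]
  have e0 : uop p (heckeOp q f) z = ∑ b ∈ Finset.range p, heckeOp q f (ofComplex ((z + b) / p)) := rfl
  have e1 : ∀ b ∈ Finset.range p, heckeOp q f (ofComplex (((z : ℂ) + b) / p)) =
      ((Real.sqrt q : ℝ) : ℂ)⁻¹ * (f (ofComplex (q * (((z : ℂ) + b) / p))) +
        ∑ c ∈ Finset.range q, f (ofComplex ((((z : ℂ) + b) / p + c) / q))) := by
    intro b _
    apply heckeOp_coord
    exact_mod_cast im_add_div_pos hp hz ((b : ℕ) : ℝ)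
  rw [e0, Finset.sum_congr rfl e1, ← Finset.mul_sum, Finset.sum_add_distrib]
  have u1 : ∀ {w : ℂ}, 0 < w.im → uop p f (ofComplex w) = ∑ b ∈ Finset.range p, f (ofComplex ((w + b) / p)) := by
    intro w hw
    unfold uop
    rw [ofComplex_apply_of_im_pos hw]
  have e5 : heckeOp q (uop p f) z = ((Real.sqrt q : ℝ) : ℂ)⁻¹ *
      (uop p f (ofComplex (q * z)) + ∑ c ∈ Finset.range q, uop p f (ofComplex ((z + c) / q))) := rfl
  have e6 : ∀ c ∈ Finset.range q, uop p f (ofComplex (((z : ℂ) + c) / q)) =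
      ∑ b ∈ Finset.range p, f (ofComplex ((((z : ℂ) + c) / q + b) / p)) := by
    intro c _
    apply u1
    exact_mod_cast im_add_div_pos hq hz ((c : ℕ) : ℝ)
  rw [e5, u1 (im_mul_pos' hq hz), Finset.sum_congr rfl e6]
  congr 2
  · rw [sum_range_zmod hp (fun b => f (ofComplex (q * (((z : ℂ) + b) / p)))),
      sum_range_zmod hp (fun b => f (ofComplex ((q * (z : ℂ) + b) / p)))]
    have e3 : ∀ x : ZMod p, f (ofComplex (q * (((z : ℂ) + (x.val : ℂ)) / p))) =
        f (ofComplex ((q * (z : ℂ) + (((q : ZMod p) * x : ZMod p).val : ℂ)) / p)) := by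
      intro x
      have h3 := hf.zmod hp (im_mul_pos' hq hz) ((q : ℤ) * (x.val : ℤ))
      have h4 : (((q : ℤ) * (x.val : ℤ) : ℤ) : ZMod p) = q * x := by
        push_cast
        rw [ZMod.natCast_zmod_val]
      rw [h4] at h3
      rw [← h3]
      congr 2
      push_cast
      ring
    simp only [e3]
    have hqp' : (q : ZMod p) ≠ 0 := by
      intro h
      rw [ZMod.natCast_eq_zero_iff] at h
      exact hqp ((Nat.prime_dvd_prime_iff_eq hp hq).mp h).symm
    exact Equiv.sum_comp (Equiv.mulLeft₀ (q : ZMod p) hqp')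
      (fun x => f (ofComplex ((q * (z : ℂ) + (x.val : ℂ)) / p)))
  · have a1 : ∑ b ∈ Finset.range p, ∑ c ∈ Finset.range q,
        f (ofComplex ((((z : ℂ) + b) / p + c) / q)) =
        ∑ d ∈ Finset.range (p * q), f (ofComplex ((z + d) / (p * q))) := by
      rw [hgen, Finset.sum_comm]
      refine Finset.sum_congr rfl fun c _ => Finset.sum_congr rfl fun b _ => ?_
      congr 2
      push_cast
      field_simp
      ring
    have a2 : ∑ c ∈ Finset.range q, ∑ b ∈ Finset.range p,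
        f (ofComplex ((((z : ℂ) + c) / q + b) / p)) =
        ∑ d ∈ Finset.range (p * q), f (ofComplex ((z + d) / (p * q))) := by
      rw [mul_comm p q, hgen, Finset.sum_comm]
      refine Finset.sum_congr rfl fun c _ => Finset.sum_congr rfl fun b _ => ?_
      congr 2
      push_cast
      field_simp
      ring
    rw [a1, a2]

end

theorem heckeOp_comm' {q r : ℕ} (hq : q.Prime) (hr : r.Prime) {f : ℍ → ℂ} (hT : ∀ z : ℍ, f (ofComplex (z + 1)) = f z) :
    heckeOp q (heckeOp r f) = heckeOp r (heckeOp q f) := by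
  exact e16_comm hq hr (e16_per hT)

theorem heckeOp_odd' {q : ℕ} (hq : q.Prime) {f : ℍ → ℂ} (hT : ∀ z : ℍ, f (ofComplex (z + 1)) = f z) (hf : IsOddFn f) : IsOddFn (heckeOp q f) := by
  exact e16_odd hq (e16_per hT) hf

theorem uop_hecke {p q : ℕ} (hp : p.Prime) (hq : q.Prime) (hqp : q ≠ p) {f : ℍ → ℂ} (hT : ∀ z : ℍ, f (ofComplex (z + 1)) = f z) :
    uop p (heckeOp q f) = heckeOp q (uop p f) := by
  exact funext fun z => e16_uop hp hq hqp (e16_per hT) z

end Pool.Agent.Lib.H60M
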