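import Pool.Agent.Lib.H60M.E01

/-!
# H60M E17 (M): the fields of MaassNewform for a function in NS

PROOFS. `inv0_T`: `T = (1 1; 0 1) ∈ Γ₀(p)`. `al_of`: `γ = (-b, a; -p d, c) ∈ Γ₀(p)` (determinant `-b c + p a d = 1`), `γ (wf z) = (p a z + b)/(p c z + p d)`. `new_of`: `p / p = 1`, `Gamma0 1 = ⊤`. For every system `R` of representatives the map `γ ↦ i(γ)`
(rep_exu, E05: `γ (rep i)⁻¹ ∈ Γ₀(p)`) is a bijection `R → Fin (p + 1)` and `f(γ z) = f(rep_i z)`, so the sum is `∑_i f(rep_i z) = f(z) + ∑_j f(-1/(z + j)) = f(z) - ∑_j f((z + j)/p) = 0` (`-1/(z + j) = wf ((z + j)/p)`).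
`cusp_of`: by rep_exu `f(δ z) = f(rep_i z)`. `i = p`: `∫_0^p f = p ∫_0^1 f = 0` (periodicity; oddness as in Maass.cuspidal_of_odd). `i < p`: `f(rep_i z) = - f((z + i)/p)`, `∫_0^p f((x + i + i y)/p) dx = p ∫_0^1 f(t + i y/p + i/p) dt = 0`.
-/

set_option autoImplicit false

open UpperHalfPlane Complex CongruenceSubgroup Filter Topology MeasureTheory
open scoped MatrixGroups ContDiff Real Modular
open Pool.Agent.Lib.Maass

namespace Pool.Agent.Lib.H60M

variable (p : ℕ) [Fact p.Prime] {f : ℍ → ℂ}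

theorem inv0_T (hf : IsInv0 p f) (z : ℍ) : f (ofComplex (z + 1)) = f z := by
  have hTm : ModularGroup.T ∈ Gamma0 p := by
    rw [Gamma0_mem]
    simp [ModularGroup.T]
  rw [← hf _ hTm z, modular_T_smul]
  congr 1
  apply UpperHalfPlane.ext
  have him : 0 < ((z : ℂ) + 1).im := by
    rw [Complex.add_im, Complex.one_im, add_zero]
    exact z.im_pos
  rw [ofComplex_apply_of_im_pos him, coe_vadd]
  push_cast
  change (z : ℂ) + 1 = 1 + (z : ℂ)
  ring

theorem al_of (hf : f ∈ NS p) (a b c d : ℤ) (h : (p * a) * (p * d) - b * (p * c) = p) (z : ℍ) :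
    f (ofComplex ((p * a * z + b) / (p * c * z + p * d))) = -f z := by
  obtain ⟨hf1, hf2, hf3, hf4, hf5⟩ := hf
  have hp0 : (p : ℤ) ≠ 0 := by exact_mod_cast (Fact.out : p.Prime).ne_zero
  have hpC : (p : ℂ) ≠ 0 := by exact_mod_cast (Fact.out : p.Prime).ne_zero
  have hdet : (-b) * c - a * (-((p : ℤ) * d)) = 1 := by
    apply mul_left_cancel₀ hp0
    linear_combination h
  obtain ⟨γ, hγ⟩ : ∃ γ : SL(2, ℤ), (γ : Matrix (Fin 2) (Fin 2) ℤ) = !![-b, a; -((p : ℤ) * d), c] :=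
    ⟨⟨_, by rw [Matrix.det_fin_two_of]; exact hdet⟩, rfl⟩
  have hγ0 : γ ∈ Gamma0 p := by
    rw [Gamma0_mem, hγ]
    simp
  have hz : (z : ℂ) ≠ 0 := z.ne_zero
  have hpz : (p : ℂ) * z ≠ 0 := mul_ne_zero hpC hz
  have h1 : ((γ • wf p z : ℍ) : ℂ) = (p * a * z + b) / (p * c * z + p * d) := by
    rw [coe_specialLinearGroup_apply, wf_coe]
    simp only [hγ, Matrix.of_apply, Matrix.cons_val', Matrix.cons_val_zero, Matrix.cons_val_one,
      algebraMap_int_eq, Int.coe_castRingHom]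
    rw [← mul_div_mul_right _ _ hpz]
    congr 1
    · push_cast
      field_simp
      ring
    · push_cast
      field_simp
      ring
  rw [← h1, ofComplex_apply, hf2 γ hγ0 (wf p z), hf4 z]

end Pool.Agent.Lib.H60M
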