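import Pool.Agent.Lib.H60M.E05
import Pool.Agent.Lib.H60M.E17

/-!
# H60M E18 (M): trace and cusps for a function in NS

PROOFS: see the header of E17 (new_of, cusp_of).
-/

set_option autoImplicit false

open UpperHalfPlane Complex CongruenceSubgroup Filter Topology MeasureTheory
open scoped MatrixGroups ContDiff Real Modular
open Pool.Agent.Lib.Maass

namespace Pool.Agent.Lib.H60M

variable (p : ℕ) [Fact p.Prime] {f : ℍ → ℂ}

theorem e18_coe {w : ℂ} (hw : 0 < w.im) : ((ofComplex w : ℍ) : ℂ) = w := by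
  rw [ofComplex_apply_of_im_pos hw]

theorem e18_im (z : ℍ) (n : ℕ) : 0 < (((z : ℂ) + n) / p).im := by
  have hp : (0 : ℝ) < p := by exact_mod_cast (Fact.out : p.Prime).pos
  rw [Complex.div_natCast_im]
  have h1 : ((z : ℂ) + n).im = z.im := by simp
  rw [h1]
  exact div_pos z.im_pos hp

theorem e18_rep {i : Fin (p + 1)} (h : (i : ℕ) ≠ p) (z : ℍ) : rep p i • z = wf p (ofComplex (((z : ℂ) + (i : ℕ)) / p)) := by
  have hp0 : (p : ℂ) ≠ 0 := by exact_mod_cast (Fact.out : p.Prime).ne_zero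
  apply UpperHalfPlane.ext
  rw [e05_rep_lt p h, mul_smul, ← zpow_natCast ModularGroup.T, UpperHalfPlane.modular_T_zpow_smul, wf_coe, e18_coe (e18_im p z i),
    UpperHalfPlane.modular_S_smul]
  change (-((((((i : ℕ) : ℤ) : ℝ) +ᵥ z : ℍ) : ℂ)))⁻¹ = _
  rw [UpperHalfPlane.coe_vadd, mul_div_cancel₀ _ hp0]
  push_cast
  rw [inv_neg, neg_div, one_div, add_comm]

theorem e18_f_rep (hf : f ∈ NS p) {i : Fin (p + 1)} (h : (i : ℕ) ≠ p) (z : ℍ) :
    f (rep p i • z) = -f (ofComplex (((z : ℂ) + (i : ℕ)) / p)) := by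
  rw [e18_rep p h]
  exact hf.2.2.2.1 _

theorem e18_inv (hf : f ∈ NS p) {δ : SL(2, ℤ)} {i : Fin (p + 1)} (h : δ * (rep p i)⁻¹ ∈ Gamma0 p) (z : ℍ) :
    f (δ • z) = f (rep p i • z) := by
  have h1 : δ • z = (δ * (rep p i)⁻¹) • (rep p i • z) := by
    rw [← mul_smul, inv_mul_cancel_right]
  rw [h1]
  exact hf.2.1 _ h _

theorem new_of (hf : f ∈ NS p) (R : Finset SL(2, ℤ)) (hR : IsReps (Gamma0 p) (Gamma0 (p / p)) R) (z : ℍ) : ∑ γ ∈ R, f (γ • z) = 0 := by
  have hp : p.Prime := Fact.out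
  have htop : ∀ δ : SL(2, ℤ), δ ∈ Gamma0 (p / p) := by
    intro δ
    rw [Nat.div_self hp.pos, Gamma0_mem]
    exact Subsingleton.elim _ _
  choose ι hι hι' using fun δ : SL(2, ℤ) => rep_exu p δ
  have h1 : ∑ γ ∈ R, f (γ • z) = ∑ i : Fin (p + 1), f (rep p i • z) := by
    refine Finset.sum_bij (fun γ _ => ι γ) (fun _ _ => Finset.mem_univ _) ?_ ?_ ?_
    · intro γ₁ h₁ γ₂ h₂ h12
      have h3 : γ₁ * γ₂⁻¹ ∈ Gamma0 p := by
        have h4 : γ₁ * γ₂⁻¹ = (γ₁ * (rep p (ι γ₁))⁻¹) * (γ₂ * (rep p (ι γ₂))⁻¹)⁻¹ := by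
          rw [← h12]
          group
        rw [h4]
        exact mul_mem (hι γ₁) (inv_mem (hι γ₂))
      have h5 : γ₁ * γ₁⁻¹ ∈ Gamma0 p := by
        rw [mul_inv_cancel]
        exact one_mem _
      exact (hR.2 γ₁ (htop γ₁)).unique ⟨h₁, h5⟩ ⟨h₂, h3⟩
    · intro i _
      obtain ⟨γ, ⟨hγ, hγ'⟩, -⟩ := hR.2 (rep p i) (htop _)
      refine ⟨γ, hγ, ?_⟩
      have h3 : γ * (rep p i)⁻¹ ∈ Gamma0 p := by
        have h4 := inv_mem hγ'
        rwa [mul_inv_rev, inv_inv] at h4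
      exact (hι' γ i h3).symm
    · intro γ _
      exact e18_inv p hf (hι γ) z
  rw [h1, Fin.sum_univ_castSucc]
  have h2 : f (rep p (Fin.last p) • z) = f z := by
    rw [e05_rep_eq p (by simp), one_smul]
  have h3 : ∑ i : Fin p, f (rep p i.castSucc • z) = -uop p f z := by
    unfold uop
    rw [← Finset.sum_neg_distrib, Finset.sum_range]
    refine Finset.sum_congr rfl fun i _ => ?_
    have h4 : ((i.castSucc : Fin (p + 1)) : ℕ) ≠ p := by
      simp only [Fin.val_castSucc]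
      exact i.2.ne
    rw [e18_f_rep p hf h4]
    rfl
  rw [h2, h3, hf.2.2.2.2]
  ring

theorem e18_zero (G : ℝ → ℂ) (P c : ℝ) (hper : Function.Periodic G P) (hodd : ∀ x, G (c - x) = -G x) :
    ∫ x in (0 : ℝ)..P, G x = 0 := by
  have h1 := intervalIntegral.integral_comp_sub_left (a := 0) (b := P) G c
  have h2 := hper.intervalIntegral_add_eq (c - P) 0
  rw [sub_add_cancel, zero_add] at h2
  rw [sub_zero, h2] at h1
  simp only [hodd, intervalIntegral.integral_neg] at h1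
  have h3 : (2 : ℂ) * ∫ x in (0 : ℝ)..P, G x = 0 := by linear_combination -h1
  exact (mul_eq_zero.mp h3).resolve_left two_ne_zero

theorem e18_per (hf : f ∈ NS p) {y : ℝ} (hy : 0 < y) (x : ℝ) :
    f (ofComplex (((x + 1 : ℝ) : ℂ) + y * Complex.I)) = f (ofComplex (x + y * Complex.I)) := by
  have him : 0 < ((x : ℂ) + y * Complex.I).im := by simpa using hy
  have h1 := inv0_T p hf.2.1 (ofComplex ((x : ℂ) + y * Complex.I))
  rw [e18_coe him] at h1
  rw [← h1]
  congr 2
  push_cast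
  ring

theorem cusp_of (hf : f ∈ NS p) (hc : Continuous f) (δ : SL(2, ℤ)) (y : ℝ) (hy : 0 < y) : ∫ x in (0 : ℝ)..p, f (δ • ofComplex (x + y * Complex.I)) = 0 := by
  have hp : p.Prime := Fact.out
  have hp0 : (0 : ℝ) < p := by exact_mod_cast hp.pos
  obtain ⟨i, hi, -⟩ := rep_exu p δ
  simp only [e18_inv p hf hi]
  by_cases h : (i : ℕ) = p
  · simp only [e05_rep_eq p h, one_smul]
    refine e18_zero (fun x : ℝ => f (ofComplex (x + y * Complex.I))) p 0 ?_ ?_
    · have h1 : Function.Periodic (fun x : ℝ => f (ofComplex (x + y * Complex.I))) 1 := fun x => e18_per p hf hy x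
      have h2 := h1.nat_mul p
      rwa [mul_one] at h2
    · intro x
      simp only [zero_sub]
      exact coe_neg x y hy f hf.2.2.1
  · set g : ℝ → ℂ := fun t => f (ofComplex (t + ((y / p : ℝ) : ℂ) * Complex.I)) with hg
    have hyp : 0 < y / p := div_pos hy hp0
    have h1 : ∀ x : ℝ, f (rep p i • ofComplex (x + y * Complex.I)) = -g ((x + (i : ℕ)) / p) := by
      intro x
      have him : 0 < ((x : ℂ) + y * Complex.I).im := by simpa using hy
      rw [e18_f_rep p hf h, e18_coe him, hg]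
      simp only
      congr 3
      push_cast
      ring
    simp only [h1]
    have hg1 : ∀ t, g (t + 1) = g t := fun t => e18_per p hf hyp t
    have hg2 : ∀ t, g (-t) = -g t := fun t => coe_neg t (y / p) hyp f hf.2.2.1
    refine e18_zero (fun x : ℝ => -g ((x + (i : ℕ)) / p)) p (-2 * (i : ℕ)) ?_ ?_
    · intro x
      simp only
      rw [← hg1 ((x + (i : ℕ)) / p)]
      congr 2
      field_simp
      ring
    · intro x
      rw [← hg2]
      congr 2
      ring

end Pool.Agent.Lib.H60M
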