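import Pool.Agent.Lib.H60M.E14
import Pool.Agent.Lib.H60M.E15
import Pool.Agent.Lib.H60M.E16
import Pool.Agent.Lib.H60M.E18

/-!
# H60M E19 (M): existence of an odd newform of level `p`

PROOF. As Maass.exists_odd_heckeMaassForm (Exists.lean): the commuting operators `pp (radLap φ)` and `heckeOp q`, `q ≠ p` prime, on the finite-dimensional space `eigN p φ hφ c` (they preserve NS: pp_mem_NS; heckeOp_isBM, heckeOp_inv0, heckeOp_odd', heckeOp_wf,
uop_hecke; they commute with `pp φ`: pp_comm, heckeOp_pp; with each other: heckeOp_comm', heckeOp_pp). exists_joint_eigenvector. The fields: al_of (`al = -1`), new_of, cusp_of (continuity from the smoothness), and the others as there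
(`hecke q = a q` for `q` prime, `q ≠ p`: `¬ q ∣ p`).
-/

set_option autoImplicit false

open UpperHalfPlane Complex CongruenceSubgroup Filter Topology MeasureTheory
open scoped MatrixGroups ContDiff Real Modular
open Pool.Agent.Lib.Maass

namespace Pool.Agent.Lib.H60M

noncomputable section

/-- `pp ψ` as an endomorphism of `eigN`. -/
def e19_pp (p : ℕ) [Fact p.Prime] {φ : ℝ → ℝ} (hφ : IsTest φ) (c : ℂ) {ψ : ℝ → ℝ} (hψ : IsTest ψ) :
    Module.End ℂ (eigN p φ hφ c) where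
  toFun f := ⟨pp ψ f.1, pp_mem_NS p hψ f.2.1, by
    rw [pp_comm hφ hψ f.2.1.1, f.2.2, pp_const_smul_fun]⟩
  map_add' f g := Subtype.ext (pp_add_fun hψ f.2.1.1 g.2.1.1)
  map_smul' a f := Subtype.ext (pp_const_smul_fun ψ a f.1)

theorem e19_NS (p : ℕ) [Fact p.Prime] {q : ℕ} (hq : q.Prime) (hqp : q ≠ p) {f : ℍ → ℂ} (hf : f ∈ NS p) : heckeOp q f ∈ NS p := by
  have hp : p.Prime := Fact.out
  obtain ⟨h1, h2, h3, h4, h5⟩ := hf
  have hT : ∀ z : ℍ, f (ofComplex (z + 1)) = f z := fun z => inv0_T p h2 z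
  refine ⟨heckeOp_isBM hq h1, heckeOp_inv0 p hq hqp h2, heckeOp_odd' hq hT h3, fun z => ?_, fun z => ?_⟩
  · rw [heckeOp_wf p hq hqp h2]
    have h6 : (fun w => f (wf p w)) = (-1 : ℂ) • f := by
      funext w
      rw [h4]
      simp
    rw [h6, heckeOp_const_smul_fun]
    simp
  · have h6 : uop p f = f := funext h5
    rw [uop_hecke hp hq hqp hT, h6]

/-- `heckeOp q` as an endomorphism of `eigN`. -/
def e19_hecke (p : ℕ) [Fact p.Prime] {φ : ℝ → ℝ} (hφ : IsTest φ) (c : ℂ) (q : {q : ℕ // q.Prime ∧ q ≠ p}) :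
    Module.End ℂ (eigN p φ hφ c) where
  toFun f := ⟨heckeOp q f.1, e19_NS p q.2.1 q.2.2 f.2.1, by
    rw [heckeOp_pp q.2.1 hφ f.2.1.1, f.2.2, heckeOp_const_smul_fun]⟩
  map_add' f g := Subtype.ext (heckeOp_add_fun q f.1 g.1)
  map_smul' a f := Subtype.ext (heckeOp_const_smul_fun q a f.1)

/-- The family of commuting operators. -/
def e19_fam (p : ℕ) [Fact p.Prime] {φ : ℝ → ℝ} (hφ : IsTest φ) (c : ℂ) {ψ : ℝ → ℝ} (hψ : IsTest ψ) :
    Option {q : ℕ // q.Prime ∧ q ≠ p} → Module.End ℂ (eigN p φ hφ c)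
  | none => e19_pp p hφ c hψ
  | some q => e19_hecke p hφ c q

theorem e19_comm (p : ℕ) [Fact p.Prime] {φ : ℝ → ℝ} (hφ : IsTest φ) (c : ℂ) {ψ : ℝ → ℝ} (hψ : IsTest ψ)
    (i j : Option {q : ℕ // q.Prime ∧ q ≠ p}) :
    Commute (e19_fam p hφ c hψ i) (e19_fam p hφ c hψ j) := by
  have h1 : ∀ q : {q : ℕ // q.Prime ∧ q ≠ p}, ∀ f : eigN p φ hφ c,
      e19_pp p hφ c hψ (e19_hecke p hφ c q f) = e19_hecke p hφ c q (e19_pp p hφ c hψ f) := by
    intro q f
    exact Subtype.ext (heckeOp_pp q.2.1 hψ f.2.1.1)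
  have h2 : ∀ q r : {q : ℕ // q.Prime ∧ q ≠ p}, ∀ f : eigN p φ hφ c,
      e19_hecke p hφ c q (e19_hecke p hφ c r f) = e19_hecke p hφ c r (e19_hecke p hφ c q f) := by
    intro q r f
    exact Subtype.ext (heckeOp_comm' q.2.1 r.2.1 fun z => inv0_T p f.2.1.2.1 z)
  rcases i with _ | q <;> rcases j with _ | r
  · exact Commute.refl _
  · exact LinearMap.ext fun f => h1 r f
  · exact LinearMap.ext fun f => (h1 q f).symm
  · exact LinearMap.ext fun f => h2 q r f

theorem exists_odd_newform (p : ℕ) (hp : p.Prime) : ∃ F : MaassNewform p, F.parity = -1 := by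
  classical
  have : Fact p.Prime := ⟨hp⟩
  obtain ⟨φ, hφ, c, hc, hnt, hfd⟩ := exists_eigN p
  obtain ⟨f, hf0, hf⟩ := exists_joint_eigenvector (e19_fam p hφ c hφ.radLap)
    (e19_comm p hφ c hφ.radLap)
  obtain ⟨d, hd⟩ := hf none
  have hd' : pp (Maass.radLap φ) f.1 = d • f.1 := congrArg Subtype.val hd
  have hq : ∀ q : {q : ℕ // q.Prime ∧ q ≠ p}, ∃ a : ℂ, heckeOp q f.1 = a • f.1 := by
    intro q
    obtain ⟨a, ha⟩ := hf (some q)
    exact ⟨a, congrArg Subtype.val ha⟩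
  choose a ha using hq
  obtain ⟨hNS, hf4⟩ := f.2
  obtain ⟨hf1, hf2, hf3, hf5, hf6⟩ := hNS
  have hNS' : f.1 ∈ NS p := f.2.1
  have hfe : f.1 = c⁻¹ • pp φ f.1 := by
    rw [hf4, smul_smul, inv_mul_cancel₀ hc, one_smul]
  have hfeC : (f.1 ∘ ofComplex : ℂ → ℂ) = c⁻¹ • (pp φ f.1 ∘ ofComplex) := by
    conv_lhs => rw [hfe]
    rfl
  have hsmooth : ContDiffOn ℝ ∞ (f.1 ∘ ofComplex) {z : ℂ | 0 < z.im} := by
    rw [hfeC]
    exact (pp_contDiffOn hφ hf1).const_smul c⁻¹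
  have hcont : Continuous f.1 := by
    have h1 : f.1 = fun z : ℍ => (f.1 ∘ ofComplex) (z : ℂ) := by
      funext z
      simp
    rw [h1]
    exact hsmooth.continuousOn.comp_continuous UpperHalfPlane.continuous_coe fun z => z.im_pos
  refine ⟨⟨f.1, -(d / c), -1, fun q => if h : q.Prime ∧ q ≠ p then a ⟨q, h⟩ else 0, fun _ => -1, hsmooth, hf1.bdd,
    ?_, hf2, ?_, ?_, ?_, ?_, ?_, ?_⟩, rfl⟩
  · by_contra hcon
    push Not at hcon
    exact hf0 (Subtype.ext (funext hcon))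
  · intro z
    have hopen : IsOpen {z : ℂ | 0 < z.im} := isOpen_upperHalfPlaneSet
    have h1 : ContDiffAt ℝ 2 (pp φ f.1 ∘ ofComplex) (z : ℂ) :=
      ((pp_contDiffOn hφ hf1).contDiffAt (hopen.mem_nhds z.im_pos)).of_le (by norm_cast)
    rw [hfeC, InnerProductSpace.laplacian_smul _ h1]
    have h2 := pp_laplacian hφ hf1 z
    rw [hd'] at h2
    simp only [Pi.smul_apply, smul_eq_mul] at h2 ⊢
    field_simp
    linear_combination -h2
  · exact fun δ y hy => cusp_of p hNS' hcont δ y hy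
  · intro z
    rw [hf3 z]
    simp
  · intro q hq hqp z
    have hne : q ≠ p := by
      rintro rfl
      exact hqp dvd_rfl
    have := congrFun (ha ⟨q, hq, hne⟩) z
    simpa [hq, hne] using this
  · intro q hq hqp a' b' c' d' h z
    obtain rfl : q = p := (Nat.prime_dvd_prime_iff_eq hq hp).1 hqp
    rw [al_of q hNS' a' b' c' d' h z]
    simp
  · intro q hq hqp R hR z
    obtain rfl : q = p := (Nat.prime_dvd_prime_iff_eq hq hp).1 hqp
    exact new_of q hNS' R hR z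

end

end Pool.Agent.Lib.H60M
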