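import Pool.Agent.Lib.H60M.Defs

/-!
# H60M: definitions for the existence of odd newforms of prime level `p`

`wf p z = -1/(p z)`; `uop p f z = ∑_{b < p} f((z + b)/p)`; `rep p`: the representatives `S T^i` (`i < p`) and `1` (`i = p`) of `Γ₀(p) \ SL₂(ℤ)`;
`aS`, `aK`: the automorphic kernel for `Γ₀(p)` and its odd part; `muX p`: the measure `(vol on 𝒟) × counting` on `ℍ × Fin (p + 1)`;
`NS p`: the bounded measurable functions which are `Γ₀(p)`-invariant, odd, with `f(-1/(p z)) = - f(z)` and `∑_b f((z + b)/p) = f(z)` (so new).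
-/

set_option autoImplicit false

open UpperHalfPlane Complex CongruenceSubgroup Filter Topology MeasureTheory
open scoped MatrixGroups ContDiff Real Modular
open Pool.Agent.Lib.Maass

namespace Pool.Agent.Lib.H60M

noncomputable section

/-- The Fricke involution. -/
def wf (p : ℕ) (z : ℍ) : ℍ := ofComplex (-1 / (p * z))

/-- The operator `U_p` without normalisation. -/
def uop (p : ℕ) (f : ℍ → ℂ) (z : ℍ) : ℂ := ∑ b ∈ Finset.range p, f (ofComplex ((z + b) / p))

/-- Invariance under `Γ₀(p)`. -/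
def IsInv0 (p : ℕ) (f : ℍ → ℂ) : Prop := ∀ γ ∈ Gamma0 p, ∀ z : ℍ, f (γ • z) = f z

/-- Coset representatives of `Γ₀(p) \ SL₂(ℤ)`. -/
def rep (p : ℕ) (i : Fin (p + 1)) : SL(2, ℤ) := if (i : ℕ) = p then 1 else ModularGroup.S * ModularGroup.T ^ (i : ℕ)

/-- The automorphic kernel of `Γ₀(p)`. -/
def aS (p : ℕ) (φ : ℝ → ℝ) (z w : ℍ) : ℝ := ∑' γ : Gamma0 p, φ (upt z ((γ : SL(2, ℤ)) • w))

/-- Its odd part. -/
def aK (p : ℕ) (φ : ℝ → ℝ) (z w : ℍ) : ℝ := aS p φ z w - aS p φ z (J • w)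

/-- The measure on `𝒟 × (Γ₀(p) \ SL₂(ℤ))`. -/
def muX (p : ℕ) : Measure (ℍ × Fin (p + 1)) := (volume.restrict (𝒟 : Set ℍ)).prod Measure.count

/-- The nice odd new functions with Fricke eigenvalue `-1`. -/
def NS (p : ℕ) : Submodule ℂ (ℍ → ℂ) where
  carrier := {f | IsBM f ∧ IsInv0 p f ∧ IsOddFn f ∧ (∀ z, f (wf p z) = -f z) ∧ ∀ z, uop p f z = f z}
  zero_mem' := by
    refine ⟨⟨measurable_const, 0, by simp⟩, fun γ _ z => rfl, fun z => by simp, fun z => by simp, fun z => ?_⟩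
    simp [uop]
  add_mem' := by
    rintro f g ⟨hf1, hf2, hf3, hf4, hf5⟩ ⟨hg1, hg2, hg3, hg4, hg5⟩
    refine ⟨hf1.add hg1, ?_, ?_, ?_, ?_⟩
    · intro γ hγ z
      simp only [Pi.add_apply, hf2 γ hγ z, hg2 γ hγ z]
    · intro z
      simp only [Pi.add_apply, hf3 z, hg3 z]
      ring
    · intro z
      simp only [Pi.add_apply, hf4 z, hg4 z]
      ring
    · intro z
      have h1 := hf5 z
      have h2 := hg5 z
      unfold uop at *
      simp only [Pi.add_apply, Finset.sum_add_distrib, h1, h2]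
  smul_mem' := by
    rintro a f ⟨hf1, hf2, hf3, hf4, hf5⟩
    refine ⟨hf1.const_mul a, ?_, ?_, ?_, ?_⟩
    · intro γ hγ z
      simp only [Pi.smul_apply, hf2 γ hγ z]
    · intro z
      simp only [Pi.smul_apply, hf3 z, smul_neg]
    · intro z
      simp only [Pi.smul_apply, hf4 z, smul_neg]
    · intro z
      have h1 := hf5 z
      unfold uop at *
      simp only [Pi.smul_apply, smul_eq_mul, ← Finset.mul_sum, h1]

/-- The CM point `(1 + i √(4p-1)) / (2p)`, a root of `p z² - z + 1 = 0`. -/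
def zp (p : ℕ) [Fact p.Prime] : ℍ :=
  ⟨⟨1 / (2 * p), Real.sqrt (4 * p - 1) / (2 * p)⟩, by
    have hp : (2 : ℝ) ≤ p := by exact_mod_cast (Fact.out : p.Prime).two_le
    have h1 : 0 < Real.sqrt (4 * p - 1) := Real.sqrt_pos.mpr (by linarith)
    show 0 < Real.sqrt (4 * p - 1) / (2 * p)
    positivity⟩

end

end Pool.Agent.Lib.H60M
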