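import Pool.Agent.Lib.H60M.L11

/-!
# H60M L12: the root number is well defined

PROOF. If `ε` satisfies HasRootNumber with `L, Λ, ν` and `F.rootNumber E` with `L', Λ', ν'`, then `L = L'` (lfun_unique), `ν' = ± ν`, so `Λ G = Λ' G` with the same `G`, which has no
zero on a right half plane, so `Λ = Λ'`. If `ε ≠ ε'` then `Λ = 0` and `L = 0`, against has_root_aux.
-/

set_option autoImplicit false

open UpperHalfPlane Complex CongruenceSubgroup Filter Topology
open scoped MatrixGroups ContDiff Real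
open Pool.Agent.Lib.Maass

namespace Pool.Agent.Lib.H60M

variable {N : ℕ}

theorem root_unique (hN : Squarefree N) (F : MaassNewform N) (hF : F.parity = -1) (E : QuadExt) (ε : ℤ) :
    HasRootNumber F E ε ↔ ε = F.rootNumber E := by
  refine ⟨fun h => ?_, fun h => by rw [h]; exact has_root hN F hF E⟩
  obtain ⟨L, Λ, ν, hL, hΛ, hν, hLΛ, hfe⟩ := h
  obtain ⟨L', Λ', ν', ⟨s₀, hs₀⟩, hL', hΛ', hν', hLΛ', hfe'⟩ := has_root_aux hN F hF E
  have hLL : L' = L := lfun_unique hL' hL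
  subst hLL
  obtain ⟨δ, hδ⟩ : ∃ δ : ℂ, δ = if 0 < E.disc then 1 else 0 := ⟨_, rfl⟩
  have hδre : 0 ≤ δ.re := by
    rw [hδ]
    split_ifs <;> simp
  rw [← hδ] at hLΛ hLΛ'
  obtain ⟨M, hM⟩ : ∃ M : ℕ, M = E.disc.natAbs ^ 2 * (N / Nat.gcd N E.disc.natAbs) := ⟨_, rfl⟩
  have hNpos : 0 < N := Nat.pos_of_ne_zero hN.ne_zero
  have hM0 : ((M : ℝ) : ℂ) ≠ 0 := by
    have hD0 : E.disc.natAbs ≠ 0 := Int.natAbs_ne_zero.mpr (NumberField.discr_ne_zero _)
    have hQ : 0 < N / Nat.gcd N E.disc.natAbs := Nat.div_pos (Nat.gcd_le_left _ hNpos) (Nat.gcd_pos_of_pos_left _ hNpos)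
    have : M ≠ 0 := by
      rw [hM]
      exact mul_ne_zero (pow_ne_zero _ hD0) hQ.ne'
    exact_mod_cast this
  rw [← hM] at hLΛ hLΛ'
  have hcomm : ∀ s : ℂ, (Complex.Gamma ((s + δ + ν') / 2))⁻¹ * (Complex.Gamma ((s + δ - ν') / 2))⁻¹ =
      (Complex.Gamma ((s + δ + ν) / 2))⁻¹ * (Complex.Gamma ((s + δ - ν) / 2))⁻¹ := by
    intro s
    have h1 : ν' ^ 2 = ν ^ 2 := by rw [hν, hν']
    rcases sq_eq_sq_iff_eq_or_eq_neg.1 h1 with h2 | h2
    · rw [h2]
    · rw [h2, sub_neg_eq_add, ← sub_eq_add_neg, mul_comm]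
  have hΛΛ : Λ = Λ' := by
    have hev : ∀ s : ℂ, |ν.re| + 1 < s.re → Λ s = Λ' s := by
      intro s hs
      have hg1 : Complex.Gamma ((s + δ + ν) / 2) ≠ 0 := by
        apply Complex.Gamma_ne_zero_of_re_pos
        rw [Complex.div_ofNat_re, Complex.add_re, Complex.add_re]
        have := neg_abs_le ν.re
        have h3 : 0 < s.re + δ.re + ν.re := by linarith
        exact div_pos h3 (by norm_num)
      have hg2 : Complex.Gamma ((s + δ - ν) / 2) ≠ 0 := by
        apply Complex.Gamma_ne_zero_of_re_pos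
        rw [Complex.div_ofNat_re, Complex.sub_re, Complex.add_re]
        have := le_abs_self ν.re
        have h3 : 0 < s.re + δ.re - ν.re := by linarith
        exact div_pos h3 (by norm_num)
      have h4 := hLΛ' s
      rw [hLΛ s, mul_assoc, mul_assoc (Λ' s * _ * _), hcomm s] at h4
      have hpi : (π : ℂ) ≠ 0 := by exact_mod_cast Real.pi_ne_zero
      have h5 : ((M : ℝ) : ℂ) ^ (-(s / 2)) ≠ 0 := by
        rw [Ne, Complex.cpow_eq_zero_iff]
        exact fun h => hM0 h.1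
      have h6 : (π : ℂ) ^ s ≠ 0 := by
        rw [Ne, Complex.cpow_eq_zero_iff]
        exact fun h => hpi h.1
      exact mul_right_cancel₀ h5 (mul_right_cancel₀ h6 (mul_right_cancel₀ (mul_ne_zero (inv_ne_zero hg1) (inv_ne_zero hg2)) h4))
    have ha : AnalyticOnNhd ℂ Λ Set.univ := fun z _ => hΛ.analyticAt z
    have ha' : AnalyticOnNhd ℂ Λ' Set.univ := fun z _ => hΛ'.analyticAt z
    apply ha.eq_of_eventuallyEq ha' (z₀ := ((|ν.re| + 2 : ℝ) : ℂ))
    have hopen : IsOpen {s : ℂ | |ν.re| + 1 < s.re} := isOpen_lt continuous_const Complex.continuous_re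
    filter_upwards [hopen.mem_nhds (show (((|ν.re| + 2 : ℝ) : ℂ)) ∈ {s : ℂ | |ν.re| + 1 < s.re} by
      change |ν.re| + 1 < (((|ν.re| + 2 : ℝ) : ℂ)).re
      rw [Complex.ofReal_re]
      linarith)] with s hs
    exact hev s hs
  by_contra hne
  apply hs₀
  have h7 : Λ' s₀ = 0 := by
    have h8 := hfe s₀
    rw [hΛΛ, hfe' s₀] at h8
    have h9 : ((F.rootNumber E : ℂ) - ε) * Λ' s₀ = 0 := by rw [sub_mul, h8, sub_self]
    rcases mul_eq_zero.1 h9 with h10 | h10
    · exact absurd (by exact_mod_cast (sub_eq_zero.1 h10).symm) hne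
    · exact h10
  rw [hLΛ' s₀, h7]
  simp

end Pool.Agent.Lib.H60M
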