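import Pool.Agent.Lib.H60M.E19
import Pool.Agent.Lib.H60M.L12

/-!
# H60M: the final theorem
-/

set_option autoImplicit false

open UpperHalfPlane Complex CongruenceSubgroup Filter Topology MeasureTheory
open scoped MatrixGroups ContDiff Real Modular
open Pool.Agent.Lib.Maass

namespace Pool.Agent.Lib.H60M

theorem dplus_lt (N : ℕ) : dplus N < 1 / 2 := by
  unfold dplus
  have : 0 < ∏ q ∈ N.primeFactors, (1 / ((q : ℝ) + 1)) := Finset.prod_pos fun q _ => by positivity
  linarith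

theorem dplus_pos {N : ℕ} (hN : 1 < N) : 0 < dplus N := by
  unfold dplus
  have hp := Nat.minFac_prime hN.ne'
  have hmem : N.minFac ∈ N.primeFactors := Nat.mem_primeFactors.mpr ⟨hp, Nat.minFac_dvd N, by omega⟩
  have h1 : ∏ q ∈ N.primeFactors, (1 / ((q : ℝ) + 1)) ≤ 1 / ((N.minFac : ℝ) + 1) := by
    rw [← Finset.mul_prod_erase _ _ hmem]
    have h2 : ∏ q ∈ N.primeFactors.erase N.minFac, (1 / ((q : ℝ) + 1)) ≤ 1 := by
      apply Finset.prod_le_one
      · intro q _
        positivity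
      · intro q _
        rw [div_le_one (by positivity)]
        have : (0 : ℝ) ≤ q := Nat.cast_nonneg q
        linarith
    exact mul_le_of_le_one_right (by positivity) h2
  have h3 : (1 : ℝ) / ((N.minFac : ℝ) + 1) < 1 := by
    rw [div_lt_one (by positivity)]
    have : (0 : ℝ) < N.minFac := by exact_mod_cast hp.pos
    linarith
  linarith

theorem final :
    (∀ p : ℕ, p.Prime → ∃ F : MaassNewform p, F.parity = -1) ∧
    ∀ N : ℕ, Squarefree N → ∀ F : MaassNewform N, F.parity = -1 →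
      (∀ E : QuadExt, ∃! L : ℂ → ℂ, IsLFunction F E L) ∧
      (∀ (E : QuadExt) (ε : ℤ), HasRootNumber F E ε ↔ ε = F.rootNumber E) ∧
      (∀ (E : QuadExt) (L : ℂ → ℂ), IsLFunction F E L → F.rootNumber E = -1 → L (1 / 2) = 0) ∧
      Tendsto (fun x : ℝ => (Nplus F x : ℝ) / (NN x : ℝ)) atTop (𝓝 (dplus N)) ∧
      dplus N < 1 / 2 ∧
      (∀ ε : ℝ, 0 < ε → ∀ᶠ x : ℝ in atTop, (NF F x : ℝ) / (NN x : ℝ) ≤ dplus N + ε) ∧
      ¬ Tendsto (fun x : ℝ => (NF F x : ℝ) / (NN x : ℝ)) atTop (𝓝 (1 / 2)) := by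
  refine ⟨exists_odd_newform, fun N hN F hF => ?_⟩
  have h1 := nplus_density F
  have h2 := dplus_lt N
  have h3 : ∀ ε : ℝ, 0 < ε → ∀ᶠ x : ℝ in atTop, (NF F x : ℝ) / (NN x : ℝ) ≤ dplus N + ε := by
    intro ε hε
    filter_upwards [(h1.eventually (gt_mem_nhds (show dplus N < dplus N + ε by linarith)))] with x hx
    have h4 : (NF F x : ℝ) ≤ (Nplus F x : ℝ) := by exact_mod_cast nf_le hN F hF x
    exact (div_le_div_of_nonneg_right h4 (Nat.cast_nonneg _)).trans hx.le
  refine ⟨fun E => ?_, root_unique hN F hF, fun E L hL hE => lfun_vanish hN F hF E hE L hL, h1, h2, h3, fun h => ?_⟩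
  · obtain ⟨L, Λ, ν, hL, -⟩ := has_root hN F hF E
    exact ⟨L, hL, fun L' hL' => lfun_unique hL' hL⟩
  · have h5 := h3 ((1 / 2 - dplus N) / 2) (by linarith)
    have h6 := h.eventually (lt_mem_nhds (show dplus N + (1 / 2 - dplus N) / 2 < 1 / 2 by linarith))
    obtain ⟨x, hx1, hx2⟩ := (h5.and h6).exists
    linarith

end Pool.Agent.Lib.H60M
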