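import Pool.Agent.Lib.H60M.V10

/-!
# H60M V12: root numbers, vanishing and densities for all newforms of squarefree level
-/

set_option autoImplicit false

open UpperHalfPlane Complex CongruenceSubgroup Filter Topology
open scoped MatrixGroups ContDiff Real
open Pool.Agent.Lib.Maass

namespace Pool.Agent.Lib.H60M

variable {N : ℕ}

theorem eps_unique (hN : Squarefree N) (F : MaassNewform N) (E : QuadExt) (ε : ℤ) :
    IsRootNumber F E ε ↔ ε = F.eps E := by
  refine ⟨fun h => ?_, fun h => by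
    rw [h]
    obtain ⟨L, Λ, ν, -, h⟩ := all_root_aux hN F E
    exact ⟨L, Λ, ν, h⟩⟩
  obtain ⟨L, Λ, ν, hL, hΛ, hν, hLΛ, hfe⟩ := h
  obtain ⟨L', Λ', ν', ⟨s₀, hs₀⟩, hL', hΛ', hν', hLΛ', hfe'⟩ := all_root_aux hN F E
  have hLL : L' = L := lfun_unique hL' hL
  subst hLL
  obtain ⟨δ, hδ⟩ : ∃ δ : ℂ, δ = F.shift E := ⟨_, rfl⟩
  have hδre : 0 ≤ δ.re := by
    rw [hδ]
    unfold MaassNewform.shift
    split_ifs <;> simp
  rw [← hδ] at hLΛ hLΛ'
  obtain ⟨M, hM⟩ : ∃ M : ℕ, M = E.disc.natAbs ^ 2 * (N / Nat.gcd N E.disc.natAbs) := ⟨_, rfl⟩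
  have hNpos : 0 < N := Nat.pos_of_ne_zero hN.ne_zero
  have hM0 : ((M : ℝ) : ℂ) ≠ 0 := by
    have hD0 : E.disc.natAbs ≠ 0 := Int.natAbs_ne_zero.mpr (NumberField.discr_ne_zero _)
    have hQ : 0 < N / Nat.gcd N E.disc.natAbs := Nat.div_pos (Nat.gcd_le_left _ hNpos) (Nat.gcd_pos_of_pos_left _ hNpos)
    have : M ≠ 0 := by
      rw [hM]
      exact mul_ne_zero (pow_ne_zero _ hD0) hQ.ne'
    exact_mod_cast this
  rw [← hM] at hLΛ hLΛ'
  have hcomm : ∀ s : ℂ, (Complex.Gamma ((s + δ + ν') / 2))⁻¹ * (Complex.Gamma ((s + δ - ν') / 2))⁻¹ =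
      (Complex.Gamma ((s + δ + ν) / 2))⁻¹ * (Complex.Gamma ((s + δ - ν) / 2))⁻¹ := by
    intro s
    have h1 : ν' ^ 2 = ν ^ 2 := by rw [hν, hν']
    rcases sq_eq_sq_iff_eq_or_eq_neg.1 h1 with h2 | h2
    · rw [h2]
    · rw [h2, sub_neg_eq_add, ← sub_eq_add_neg, mul_comm]
  have hΛΛ : Λ = Λ' := by
    have hev : ∀ s : ℂ, |ν.re| + 1 < s.re → Λ s = Λ' s := by
      intro s hs
      have hg1 : Complex.Gamma ((s + δ + ν) / 2) ≠ 0 := by
        apply Complex.Gamma_ne_zero_of_re_pos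
        rw [Complex.div_ofNat_re, Complex.add_re, Complex.add_re]
        have := neg_abs_le ν.re
        have h3 : 0 < s.re + δ.re + ν.re := by linarith
        exact div_pos h3 (by norm_num)
      have hg2 : Complex.Gamma ((s + δ - ν) / 2) ≠ 0 := by
        apply Complex.Gamma_ne_zero_of_re_pos
        rw [Complex.div_ofNat_re, Complex.sub_re, Complex.add_re]
        have := le_abs_self ν.re
        have h3 : 0 < s.re + δ.re - ν.re := by linarith
        exact div_pos h3 (by norm_num)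
      have h4 := hLΛ' s
      rw [hLΛ s, mul_assoc, mul_assoc (Λ' s * _ * _), hcomm s] at h4
      have hpi : (π : ℂ) ≠ 0 := by exact_mod_cast Real.pi_ne_zero
      have h5 : ((M : ℝ) : ℂ) ^ (-(s / 2)) ≠ 0 := by
        rw [Ne, Complex.cpow_eq_zero_iff]
        exact fun h => hM0 h.1
      have h6 : (π : ℂ) ^ s ≠ 0 := by
        rw [Ne, Complex.cpow_eq_zero_iff]
        exact fun h => hpi h.1
      exact mul_right_cancel₀ h5 (mul_right_cancel₀ h6 (mul_right_cancel₀ (mul_ne_zero (inv_ne_zero hg1) (inv_ne_zero hg2)) h4))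
    have ha : AnalyticOnNhd ℂ Λ Set.univ := fun z _ => hΛ.analyticAt z
    have ha' : AnalyticOnNhd ℂ Λ' Set.univ := fun z _ => hΛ'.analyticAt z
    apply ha.eq_of_eventuallyEq ha' (z₀ := ((|ν.re| + 2 : ℝ) : ℂ))
    have hopen : IsOpen {s : ℂ | |ν.re| + 1 < s.re} := isOpen_lt continuous_const Complex.continuous_re
    filter_upwards [hopen.mem_nhds (show (((|ν.re| + 2 : ℝ) : ℂ)) ∈ {s : ℂ | |ν.re| + 1 < s.re} by
      change |ν.re| + 1 < (((|ν.re| + 2 : ℝ) : ℂ)).re
      rw [Complex.ofReal_re]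
      linarith)] with s hs
    exact hev s hs
  by_contra hne
  apply hs₀
  have h7 : Λ' s₀ = 0 := by
    have h8 := hfe s₀
    rw [hΛΛ, hfe' s₀] at h8
    have h9 : ((F.eps E : ℂ) - ε) * Λ' s₀ = 0 := by rw [sub_mul, h8, sub_self]
    rcases mul_eq_zero.1 h9 with h10 | h10
    · exact absurd (by exact_mod_cast (sub_eq_zero.1 h10).symm) hne
    · exact h10
  rw [hLΛ' s₀, h7]
  simp

theorem exists_unique_L (hN : Squarefree N) (F : MaassNewform N) (E : QuadExt) : ∃! L : ℂ → ℂ, IsLFunction F E L := by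
  obtain ⟨L, Λ, ν, -, hL, -⟩ := all_root_aux hN F E
  exact ⟨L, hL, fun L' hL' => lfun_unique hL' hL⟩

theorem eps_vanish (hN : Squarefree N) (F : MaassNewform N) (E : QuadExt) (hE : F.eps E = -1) (L : ℂ → ℂ) (hL : IsLFunction F E L) :
    L (1 / 2) = 0 := by
  obtain ⟨L', Λ, ν, -, h1, -, -, h4, h5⟩ := all_root_aux hN F E
  rw [lfun_unique hL h1, h4]
  have h6 := h5 (1 / 2)
  rw [hE] at h6
  have e1 : (1 : ℂ) - 1 / 2 = 1 / 2 := by norm_num
  rw [e1] at h6
  have h7 : Λ (1 / 2) = 0 := by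
    push_cast at h6
    linear_combination (1 / 2) * h6
  rw [h7]
  simp

theorem card_split (P Q R : QuadExt → Prop) (x : ℝ) (hP : ∀ E, P E → |(E.disc : ℝ)| < x) (h1 : ∀ E, P E ↔ Q E ∨ R E) (h2 : ∀ E, ¬ (Q E ∧ R E)) :
    Nat.card {E : QuadExt // P E} = Nat.card {E : QuadExt // Q E} + Nat.card {E : QuadExt // R E} := by
  have e1 : Nat.card {E : QuadExt // P E} = ({E : QuadExt | P E}).ncard := Nat.card_coe_set_eq {E : QuadExt | P E}
  have e2 : Nat.card {E : QuadExt // Q E} = ({E : QuadExt | Q E}).ncard := Nat.card_coe_set_eq {E : QuadExt | Q E}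
  have e3 : Nat.card {E : QuadExt // R E} = ({E : QuadExt | R E}).ncard := Nat.card_coe_set_eq {E : QuadExt | R E}
  have hd : Disjoint {E : QuadExt | Q E} {E : QuadExt | R E} := by
    rw [Set.disjoint_left]
    intro E hE1 hE2
    exact h2 E ⟨hE1, hE2⟩
  rw [e1, e2, e3, ← Set.ncard_union_eq hd ((QuadExt.finite_disc_lt x).subset fun E h => hP E ((h1 E).2 (Or.inl h)))
    ((QuadExt.finite_disc_lt x).subset fun E h => hP E ((h1 E).2 (Or.inr h)))]
  congr 1
  ext E
  exact h1 E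

theorem npos_density (F : MaassNewform N) : Tendsto (fun x : ℝ => (Npos F x : ℝ) / (NN x : ℝ)) atTop (𝓝 (dpos F)) := by
  have h0 := nplus_density F
  rcases Int.units_eq_one_or F.parity with h | h
  · have e1 : ∀ x : ℝ, (Npos F x : ℝ) = NN x - Nplus F x := by
      intro x
      have h1 : NN x = Nplus F x + Npos F x := by
        unfold NN Nplus Npos
        refine card_split _ _ _ x (fun E h => h) (fun E => ?_) (fun E => ?_)
        · rw [eps_eq, h]
          rcases root_pm F E with h2 | h2 <;> rw [h2] <;> simp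
        · rw [eps_eq, h]
          rcases root_pm F E with h2 | h2 <;> rw [h2] <;> simp
      rw [h1]
      push_cast
      ring
    have hN0 : ∀ᶠ x : ℝ in atTop, (NN x : ℝ) ≠ 0 := by
      have h2 := QuadExt.tendsto_card_disc_lt
      filter_upwards [h2.eventually_gt_atTop 0] with x hx
      exact ne_of_gt hx
    have h3 : Tendsto (fun x : ℝ => 1 - (Nplus F x : ℝ) / (NN x : ℝ)) atTop (𝓝 (1 - dplus N)) := tendsto_const_nhds.sub h0
    have h4 : dpos F = 1 - dplus N := by
      unfold dpos dplus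
      rw [h]
      push_cast
      ring
    rw [h4]
    refine h3.congr' ?_
    filter_upwards [hN0] with x hx
    rw [e1 x, sub_div, div_self hx]
  · have e1 : ∀ x : ℝ, Npos F x = Nplus F x := by
      intro x
      unfold Npos Nplus
      refine Nat.card_congr (Equiv.subtypeEquivRight fun E => ?_)
      rw [eps_eq, h]
      simp
    have h4 : dpos F = dplus N := by
      unfold dpos dplus
      rw [h]
      push_cast
      ring
    rw [h4]
    simp_rw [e1]
    exact h0

theorem npos_split (hN : Squarefree N) (F : MaassNewform N) (x : ℝ) : Npos F x = NF F x + Nvan F x := by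
  classical
  unfold Npos NF Nvan
  have key : ∀ E : QuadExt, (∃ L : ℂ → ℂ, IsLFunction F E L ∧ L (1 / 2) ≠ 0) → F.eps E = 1 := by
    rintro E ⟨L, hL, h1⟩
    rcases eps_pm F E with h2 | h2
    · exact h2
    · exact absurd (eps_vanish hN F E h2 L hL) h1
  refine card_split _ _ _ x (fun E h => h.1) (fun E => ⟨fun h => ?_, fun h => ?_⟩) (fun E h => ?_)
  · obtain ⟨L, hL, -⟩ := exists_unique_L hN F E
    by_cases h2 : L (1 / 2) = 0
    · exact Or.inr ⟨h.1, h.2, L, hL, h2⟩
    · exact Or.inl ⟨h.1, L, hL, h2⟩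
  · rcases h with h | h
    · exact ⟨h.1, key E h.2⟩
    · exact ⟨h.1, h.2.1⟩
  · obtain ⟨⟨-, L, hL, h1⟩, -, -, L', hL', h2⟩ := h
    exact h1 (by rw [lfun_unique hL hL']; exact h2)

end Pool.Agent.Lib.H60M
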