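import Pool.Agent.Lib.H60M.Fin
import Pool.Agent.Lib.H60M.V12

/-!
# H60M: the final theorem for all newforms of squarefree level
-/

set_option autoImplicit false

open UpperHalfPlane Complex CongruenceSubgroup Filter Topology MeasureTheory
open scoped MatrixGroups ContDiff Real Modular
open Pool.Agent.Lib.Maass

namespace Pool.Agent.Lib.H60M

variable {N : ℕ}

theorem fin2_prod_pos (N : ℕ) : 0 < ∏ q ∈ N.primeFactors, (1 / ((q : ℝ) + 1)) := Finset.prod_pos fun q _ => by positivity

theorem dpos_odd (F : MaassNewform N) (hF : F.parity = -1) : dpos F < 1 / 2 := by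
  unfold dpos
  rw [hF]
  have := fin2_prod_pos N
  push_cast
  linarith

theorem dpos_even (F : MaassNewform N) (hF : F.parity = 1) : 1 / 2 < dpos F := by
  unfold dpos
  rw [hF]
  have := fin2_prod_pos N
  push_cast
  linarith

theorem dpos_mem (hN : 1 < N) (F : MaassNewform N) : 0 < dpos F ∧ dpos F < 1 := by
  have h1 := dplus_pos hN
  have h0 := fin2_prod_pos N
  unfold dplus at h1
  rcases Int.units_eq_one_or F.parity with h | h
  · refine ⟨by linarith [dpos_even F h], ?_⟩
    unfold dpos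
    rw [h]
    push_cast
    linarith
  · refine ⟨?_, by linarith [dpos_odd F h]⟩
    unfold dpos
    rw [h]
    push_cast
    linarith

theorem nf_add_nvan (hN : Squarefree N) (F : MaassNewform N) (x : ℝ) :
    (NF F x : ℝ) / (NN x : ℝ) = (Npos F x : ℝ) / (NN x : ℝ) - (Nvan F x : ℝ) / (NN x : ℝ) := by
  rw [npos_split hN F x]
  push_cast
  ring

theorem nf_iff (hN : Squarefree N) (F : MaassNewform N) (d : ℝ) :
    Tendsto (fun x : ℝ => (NF F x : ℝ) / (NN x : ℝ)) atTop (𝓝 d) ↔
      Tendsto (fun x : ℝ => (Nvan F x : ℝ) / (NN x : ℝ)) atTop (𝓝 (dpos F - d)) := by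
  have h0 := npos_density F
  constructor
  · intro h
    refine (h0.sub h).congr fun x => ?_
    rw [nf_add_nvan hN F x]
    ring
  · intro h
    have h1 := h0.sub h
    rw [sub_sub_cancel] at h1
    refine h1.congr fun x => ?_
    rw [nf_add_nvan hN F x]

theorem nf_limsup (hN : Squarefree N) (F : MaassNewform N) (ε : ℝ) (hε : 0 < ε) :
    ∀ᶠ x : ℝ in atTop, (NF F x : ℝ) / (NN x : ℝ) ≤ dpos F + ε := by
  filter_upwards [((npos_density F).eventually (gt_mem_nhds (show dpos F < dpos F + ε by linarith)))] with x hx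
  have h4 : (0 : ℝ) ≤ (Nvan F x : ℝ) / (NN x : ℝ) := by positivity
  rw [nf_add_nvan hN F x]
  linarith

theorem nf_not (hN : Squarefree N) (F : MaassNewform N) (hF : F.parity = -1) :
    ¬ Tendsto (fun x : ℝ => (NF F x : ℝ) / (NN x : ℝ)) atTop (𝓝 (1 / 2)) := by
  intro h
  have h1 := dpos_odd F hF
  have h5 := nf_limsup hN F ((1 / 2 - dpos F) / 2) (by linarith)
  have h6 := h.eventually (lt_mem_nhds (show dpos F + (1 / 2 - dpos F) / 2 < 1 / 2 by linarith))
  obtain ⟨x, hx1, hx2⟩ := (h5.and h6).exists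
  linarith

end Pool.Agent.Lib.H60M
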