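import Pool.Agent.Lib.H60M.CDefs

/-!
# H60M K01 (S/M): sums of periodic functions

PROOF. The number of integers `d` with `|d| < x` in a residue class mod `M` is `2x/M + O(1)` (error at most `2`): the sum over a class is `G i` times this number
(split the integers of the interval into complete blocks of length `M`; the incomplete block has at most `M` elements), so
`|∑ G - 2 x mean| ≤ 2 ∑_{i < M} |G i|` (any constant will do).
-/

set_option autoImplicit false

open Filter Topology

namespace Pool.Agent.Lib.H60M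

theorem k01_block (M : ℕ) (G : ℤ → ℝ) (hG : ∀ d, G (d + M) = G d) (a : ℤ) :
    ∑ i ∈ Finset.range M, G (a + i) = ∑ i ∈ Finset.range M, G i := by
  have hstep : ∀ a : ℤ, ∑ i ∈ Finset.range M, G (a + 1 + i) = ∑ i ∈ Finset.range M, G (a + i) := by
    intro a
    have h1 := Finset.sum_range_succ (fun i : ℕ => G (a + i)) M
    have h2 := Finset.sum_range_succ' (fun i : ℕ => G (a + i)) M
    have h3 : ∑ i ∈ Finset.range M, G (a + 1 + i) = ∑ i ∈ Finset.range M, G (a + ((i + 1 : ℕ) : ℤ)) := by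
      refine Finset.sum_congr rfl fun i _ => ?_
      congr 1
      push_cast
      ring
    rw [h3]
    rw [h1] at h2
    have h4 : G (a + (M : ℤ)) = G (a + ((0 : ℕ) : ℤ)) := by
      rw [hG]
      simp
    linarith
  induction a using Int.induction_on with
  | zero => simp
  | succ i ih => rw [hstep, ih]
  | pred i ih =>
    have h := hstep (-(i : ℤ) - 1)
    rw [sub_add_cancel] at h
    rw [← h, ih]

theorem k01_bound (M : ℕ) (hM : 0 < M) (G : ℤ → ℝ) (hG : ∀ d, G (d + M) = G d) (a : ℤ) (L : ℕ) :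
    |∑ i ∈ Finset.range L, G (a + i) - L * mean M G| ≤ ∑ i ∈ Finset.range M, |G i - mean M G| := by
  have hM' : (M : ℝ) ≠ 0 := by exact_mod_cast hM.ne'
  set F : ℕ → ℝ := fun L => ∑ i ∈ Finset.range L, (G (a + i) - mean M G) with hF
  have hFL : ∀ L, F L = ∑ i ∈ Finset.range L, G (a + i) - L * mean M G := by
    intro L
    rw [hF]
    simp only
    rw [Finset.sum_sub_distrib]
    simp
  have hper : ∀ L, F (M + L) = F L := by
    intro L
    rw [hFL, hFL, Finset.sum_range_add, k01_block M G hG]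
    have h1 : ∑ i ∈ Finset.range M, G i = M * mean M G := by
      unfold mean
      field_simp
    have h2 : ∑ i ∈ Finset.range L, G (a + ((M + i : ℕ) : ℤ)) = ∑ i ∈ Finset.range L, G (a + i) := by
      refine Finset.sum_congr rfl fun i _ => ?_
      rw [← hG (a + i)]
      congr 1
      push_cast
      ring
    rw [h1, h2]
    push_cast
    ring
  have habs : ∑ i ∈ Finset.range M, |G (a + i) - mean M G| = ∑ i ∈ Finset.range M, |G i - mean M G| :=
    k01_block M (fun d => |G d - mean M G|) (fun d => by simp only [hG]) a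
  have hsmall : ∀ L, L < M → |F L| ≤ ∑ i ∈ Finset.range M, |G i - mean M G| := by
    intro L hL
    rw [← habs]
    refine (Finset.abs_sum_le_sum_abs _ _).trans ?_
    exact Finset.sum_le_sum_of_subset_of_nonneg (Finset.range_subset_range.2 hL.le) fun _ _ _ => abs_nonneg _
  have hall : ∀ L, |F L| ≤ ∑ i ∈ Finset.range M, |G i - mean M G| := by
    intro L
    induction L using Nat.strong_induction_on with
    | _ L ih =>
      rcases lt_or_ge L M with h | h
      · exact hsmall L h
      · obtain ⟨K, rfl⟩ := Nat.exists_eq_add_of_le h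
        rw [hper]
        exact ih K (by omega)
  rw [← hFL]
  exact hall L

theorem k01_sum (G : ℤ → ℝ) {x : ℝ} (hx : 0 < x) : ∃ n : ℕ, (n : ℝ) < x ∧ x ≤ n + 1 ∧
    sm (fun _ => True) G x = ∑ i ∈ Finset.range (2 * n + 1), G (-(n : ℤ) + i) := by
  have hc : 0 < ⌈x⌉ := Int.ceil_pos.2 hx
  obtain ⟨n, hn⟩ : ∃ n : ℕ, ⌈x⌉ = n + 1 := ⟨(⌈x⌉ - 1).toNat, by omega⟩
  have h1 : ((n : ℤ) : ℝ) < x := by
    rw [← Int.lt_ceil, hn]
    omega
  have h2 : x ≤ (n : ℝ) + 1 := by
    have := Int.le_ceil x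
    rw [hn] at this
    exact_mod_cast this
  refine ⟨n, by exact_mod_cast h1, h2, ?_⟩
  classical
  unfold sm
  have h3 : (Finset.Icc (-⌈x⌉) ⌈x⌉).filter (fun d : ℤ => |(d : ℝ)| < x ∧ True) =
      (Finset.range (2 * n + 1)).image (fun i : ℕ => -(n : ℤ) + i) := by
    ext d
    simp only [Finset.mem_filter, Finset.mem_Icc, and_true, Finset.mem_image, Finset.mem_range]
    constructor
    · rintro ⟨-, h⟩
      have h4 : |d| < ⌈x⌉ := by
        rw [Int.lt_ceil]
        exact_mod_cast h
      rw [hn, abs_lt] at h4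
      exact ⟨(d + n).toNat, by omega, by omega⟩
    · rintro ⟨i, hi, rfl⟩
      refine ⟨by omega, ?_⟩
      have h4 : |(-(n : ℤ) + i)| ≤ n := by
        rw [abs_le]
        omega
      have h5 : |((-(n : ℤ) + i : ℤ) : ℝ)| ≤ n := by exact_mod_cast h4
      exact lt_of_le_of_lt h5 (by exact_mod_cast h1)
  have h6 := Finset.sum_image (f := G) (s := Finset.range (2 * n + 1)) (g := fun i : ℕ => -(n : ℤ) + i)
    (by
      intro i _ j _ h
      simp only at h
      omega)
  rw [← h6]
  refine Finset.sum_congr ?_ fun _ _ => rfl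
  convert h3

theorem per_sum (M : ℕ) (hM : 0 < M) (G : ℤ → ℝ) (hG : ∀ d, G (d + M) = G d) :
    ∃ C : ℝ, ∀ x : ℝ, 0 < x → |sm (fun _ => True) G x - 2 * x * mean M G| ≤ C := by
  refine ⟨(∑ i ∈ Finset.range M, |G i - mean M G|) + |mean M G|, fun x hx => ?_⟩
  obtain ⟨n, h1, h2, h3⟩ := k01_sum G hx
  rw [h3]
  have h4 := k01_bound M hM G hG (-(n : ℤ)) (2 * n + 1)
  have h5 : |(((2 * n + 1 : ℕ) : ℝ) - 2 * x) * mean M G| ≤ |mean M G| := by
    rw [abs_mul]
    have h6 : |((2 * n + 1 : ℕ) : ℝ) - 2 * x| ≤ 1 := by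
      push_cast
      rw [abs_le]
      constructor <;> linarith
    calc _ ≤ 1 * |mean M G| := mul_le_mul_of_nonneg_right h6 (abs_nonneg _)
      _ = _ := one_mul _
  have h7 : ∑ i ∈ Finset.range (2 * n + 1), G (-(n : ℤ) + i) - 2 * x * mean M G =
      (∑ i ∈ Finset.range (2 * n + 1), G (-(n : ℤ) + i) - ((2 * n + 1 : ℕ) : ℝ) * mean M G) +
        (((2 * n + 1 : ℕ) : ℝ) - 2 * x) * mean M G := by ring
  rw [h7]
  exact (abs_add_le _ _).trans (add_le_add h4 h5)

end Pool.Agent.Lib.H60M
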