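import Pool.Agent.Lib.H60M.CDefs

/-!
# H60M K02 (S/M): the mean of a product (Chinese remainder theorem)

PROOF. `mean M G` is `(1/M) ∑_{a : ZMod M} G a.val`; `ZMod.chineseRemainder`. (`G` periodic mod `M` depends only on the class of `d`.)
Or: `Finset.range (M₁ * M₂)` is in bijection with `range M₁ ×ˢ range M₂` by `i ↦ (i % M₁, i % M₂)` (Nat.chineseRemainder).
-/

set_option autoImplicit false

open Filter Topology

namespace Pool.Agent.Lib.H60M

theorem k02_mod (M : ℕ) (G : ℤ → ℝ) (hG : ∀ d, G (d + M) = G d) (n : ℕ) : G ((n % M : ℕ) : ℤ) = G n := by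
  have h : Function.Periodic G (M : ℤ) := hG
  have h1 := h.int_mul (n / M : ℕ) ((n % M : ℕ) : ℤ)
  rw [← h1]
  congr 1
  have h2 := Nat.mod_add_div n M
  have h3 : ((n % M : ℕ) : ℤ) + M * (n / M : ℕ) = n := by exact_mod_cast h2
  rw [← h3]
  push_cast
  ring

theorem k02_modEq (M : ℕ) (G : ℤ → ℝ) (hG : ∀ d, G (d + M) = G d) {a b : ℕ} (h : a ≡ b [MOD M]) : G a = G b := by
  rw [← k02_mod M G hG a, ← k02_mod M G hG b, h]

theorem mean_mul (M₁ M₂ : ℕ) (h₁ : 0 < M₁) (h₂ : 0 < M₂) (hc : Nat.Coprime M₁ M₂) (G₁ G₂ : ℤ → ℝ) (hG₁ : ∀ d, G₁ (d + M₁) = G₁ d)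
    (hG₂ : ∀ d, G₂ (d + M₂) = G₂ d) : mean (M₁ * M₂) (fun d => G₁ d * G₂ d) = mean M₁ G₁ * mean M₂ G₂ := by
  have h1 : (M₁ : ℝ) ≠ 0 := by exact_mod_cast h₁.ne'
  have h2 : (M₂ : ℝ) ≠ 0 := by exact_mod_cast h₂.ne'
  unfold mean
  rw [div_mul_div_comm, Finset.sum_mul_sum, ← Finset.sum_product']
  push_cast
  congr 1
  refine Finset.sum_nbij' (fun n => (n % M₁, n % M₂)) (fun z => (Nat.chineseRemainder hc z.1 z.2 : ℕ)) ?_ ?_ ?_ ?_ ?_
  · intro n _
    rw [Finset.mem_product, Finset.mem_range, Finset.mem_range]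
    exact ⟨Nat.mod_lt _ h₁, Nat.mod_lt _ h₂⟩
  · intro z _
    rw [Finset.mem_range]
    exact Nat.chineseRemainder_lt_mul hc _ _ h₁.ne' h₂.ne'
  · intro n hn
    rw [Finset.mem_range] at hn
    have h3 := Nat.chineseRemainder_modEq_unique hc (Nat.mod_modEq n M₁).symm (Nat.mod_modEq n M₂).symm
    have h4 := Nat.chineseRemainder_lt_mul hc (n % M₁) (n % M₂) h₁.ne' h₂.ne'
    exact (Nat.ModEq.eq_of_lt_of_lt h3 hn h4).symm
  · rintro ⟨a, b⟩ hab
    rw [Finset.mem_product, Finset.mem_range, Finset.mem_range] at hab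
    have h3 := (Nat.chineseRemainder hc a b).2
    refine Prod.ext ?_ ?_
    · exact (show _ % M₁ = a % M₁ from h3.1).trans (Nat.mod_eq_of_lt hab.1)
    · exact (show _ % M₂ = b % M₂ from h3.2).trans (Nat.mod_eq_of_lt hab.2)
  · intro n _
    simp only
    rw [k02_mod M₁ G₁ hG₁, k02_mod M₂ G₂ hG₂]

/-- PROOF. Induction on the finite set (`mean_mul`; the product of the remaining moduli is coprime to `m q`, and the remaining product is periodic modulo it). -/
theorem mean_prod (P : Finset ℕ) (m : ℕ → ℕ) (hm : ∀ q ∈ P, 0 < m q) (hc : ∀ q ∈ P, ∀ r ∈ P, q ≠ r → Nat.Coprime (m q) (m r)) (G : ℕ → ℤ → ℝ)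
    (hG : ∀ q ∈ P, ∀ d, G q (d + m q) = G q d) : mean (∏ q ∈ P, m q) (fun d => ∏ q ∈ P, G q d) = ∏ q ∈ P, mean (m q) (G q) := by
  induction P using Finset.induction_on with
  | empty => simp [mean]
  | insert q P hq ih =>
    have hm' : ∀ r ∈ P, 0 < m r := fun r hr => hm r (Finset.mem_insert_of_mem hr)
    have hc' : ∀ r ∈ P, ∀ s ∈ P, r ≠ s → Nat.Coprime (m r) (m s) := fun r hr s hs =>
      hc r (Finset.mem_insert_of_mem hr) s (Finset.mem_insert_of_mem hs)
    have hG' : ∀ r ∈ P, ∀ d, G r (d + m r) = G r d := fun r hr => hG r (Finset.mem_insert_of_mem hr)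
    have h1 := ih hm' hc' hG'
    rw [Finset.prod_insert hq, Finset.prod_insert hq, ← h1]
    simp only [Finset.prod_insert hq]
    refine mean_mul (m q) (∏ r ∈ P, m r) (hm q (Finset.mem_insert_self _ _)) (Finset.prod_pos hm')
      (Nat.Coprime.prod_right fun r hr => hc q (Finset.mem_insert_self _ _) r (Finset.mem_insert_of_mem hr) ?_) (G q)
      (fun d => ∏ r ∈ P, G r d) (hG q (Finset.mem_insert_self _ _)) fun d => ?_
    · rintro rfl
      exact hq hr
    · refine Finset.prod_congr rfl fun r hr => ?_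
      have h2 : Function.Periodic (G r) (m r : ℤ) := hG' r hr
      obtain ⟨c, hc2⟩ : m r ∣ ∏ s ∈ P, m s := Finset.dvd_prod_of_mem m hr
      have h3 := h2.int_mul (c : ℤ) d
      rw [← h3]
      congr 1
      rw [hc2]
      push_cast
      ring

end Pool.Agent.Lib.H60M
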