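import Pool.Agent.Lib.H60M.CDefs
import Pool.Agent.Lib.Maass.QuadChar

/-!
# H60M K03 (M): the local means at an odd prime

`kron D p` for an odd prime `p`, `p ∤ D`, is `J(D | p)` = the Legendre symbol; `∑_{a mod p} (a/p) = 0` (`quadraticChar_sum_zero`, `legendreSym`), and the residues
mod `p²` cover every residue mod `p` exactly `p` times. The number of `i < p²` with `p ∣ i` and `¬ p² ∣ i` is `p - 1`; with `¬ p² ∣ i`: `p² - 1`.
-/

set_option autoImplicit false

open Filter Topology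
open Pool.Agent.Lib.Maass (kron)

namespace Pool.Agent.Lib.H60M

theorem k03_range {M : Type} [AddCommMonoid M] (n m : ℕ) (f : ℕ → M) :
    ∑ i ∈ Finset.range (n * m), f i = ∑ k ∈ Finset.range m, ∑ j ∈ Finset.range n, f (n * k + j) := by
  induction m with
  | zero => simp
  | succ m ih => rw [Nat.mul_succ, Finset.sum_range_add, ih, Finset.sum_range_succ]

theorem k03_leg (p : ℕ) (hp : p.Prime) (h2 : p ≠ 2) : ∑ j ∈ Finset.range p, kron (j : ℤ) p = 0 := by
  haveI : Fact p.Prime := ⟨hp⟩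
  have h1 : ∀ j : ℕ, kron (j : ℤ) p = quadraticChar (ZMod p) ((j : ℕ) : ZMod p) := by
    intro j
    unfold kron
    by_cases hj : (p : ℤ) ∣ (j : ℤ)
    · rw [if_pos hj]
      have h3 : ((j : ℕ) : ZMod p) = 0 := by
        rw [ZMod.natCast_eq_zero_iff]
        exact_mod_cast hj
      rw [h3]
      simp
    · rw [if_neg hj, if_neg h2, ← jacobiSym.legendreSym.to_jacobiSym]
      unfold legendreSym
      simp
  have h4 : ∑ j ∈ Finset.range p, kron (j : ℤ) p = ∑ a : ZMod p, quadraticChar (ZMod p) a := by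
    refine Finset.sum_bij (fun (j : ℕ) _ => ((j : ℕ) : ZMod p)) (fun _ _ => Finset.mem_univ _) ?_ ?_ (fun j _ => h1 j)
    · intro a ha b hb hab
      rw [Finset.mem_range] at ha hb
      have h5 := (ZMod.natCast_eq_natCast_iff' a b p).1 hab
      rwa [Nat.mod_eq_of_lt ha, Nat.mod_eq_of_lt hb] at h5
    · intro b _
      exact ⟨b.val, Finset.mem_range.2 b.val_lt, ZMod.natCast_zmod_val b⟩
  rw [h4]
  refine quadraticChar_sum_zero ?_
  rw [ZMod.ringChar_zmod_n]
  exact h2

theorem mean_sf (p : ℕ) (hp : p.Prime) : mean (p ^ 2) (fun d => if ((p : ℤ) ^ 2 ∣ d) then 0 else 1) = 1 - 1 / (p : ℝ) ^ 2 := by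
  unfold mean
  have hp0 : (0 : ℝ) < p := by exact_mod_cast hp.pos
  have h1 : ∑ i ∈ Finset.range (p ^ 2), (if ((p : ℤ) ^ 2 ∣ (i : ℤ)) then (0 : ℝ) else 1) = (p : ℝ) ^ 2 - 1 := by
    have h2 : ∑ i ∈ Finset.range (p ^ 2), (if ((p : ℤ) ^ 2 ∣ (i : ℤ)) then (0 : ℝ) else 1) =
        ∑ i ∈ Finset.range (p ^ 2), (1 - if i = 0 then (1 : ℝ) else 0) := by
      refine Finset.sum_congr rfl fun i hi => ?_
      rw [Finset.mem_range] at hi
      by_cases h0 : i = 0
      · subst h0
        simp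
      · have h3 : ¬ ((p : ℤ) ^ 2 ∣ (i : ℤ)) := by
          intro h
          have h4 : p ^ 2 ∣ i := by exact_mod_cast h
          exact absurd (Nat.le_of_dvd (Nat.pos_of_ne_zero h0) h4) (not_le.2 hi)
        rw [if_neg h3, if_neg h0, sub_zero]
    rw [h2, Finset.sum_sub_distrib, Finset.sum_const, Finset.card_range, Finset.sum_ite_eq',
      if_pos (Finset.mem_range.2 (pow_pos hp.pos 2))]
    simp
  rw [h1]
  push_cast
  field_simp

theorem mean_loc (p : ℕ) (hp : p.Prime) (h2 : p ≠ 2) (u : ℝ) :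
    mean (p ^ 2) (fun d => if ((p : ℤ) ^ 2 ∣ d) then 0 else if ((p : ℤ) ∣ d) then 1 else u * (kron d p : ℝ)) = (1 - 1 / (p : ℝ) ^ 2) * (1 / ((p : ℝ) + 1)) := by
  unfold mean
  have hp0 : (0 : ℝ) < p := by exact_mod_cast hp.pos
  have h1 : ∑ i ∈ Finset.range (p ^ 2), (if ((p : ℤ) ^ 2 ∣ (i : ℤ)) then (0 : ℝ) else if ((p : ℤ) ∣ (i : ℤ)) then 1 else u * (kron i p : ℝ)) =
      (p : ℝ) - 1 := by
    have h3 : ∀ i ∈ Finset.range (p ^ 2), (if ((p : ℤ) ^ 2 ∣ (i : ℤ)) then (0 : ℝ) else if ((p : ℤ) ∣ (i : ℤ)) then 1 else u * (kron i p : ℝ)) =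
        (if i % p = 0 then (1 : ℝ) else 0) - (if i = 0 then (1 : ℝ) else 0) + u * (kron i p : ℝ) := by
      intro i hi
      rw [Finset.mem_range] at hi
      by_cases h0 : i = 0
      · subst h0
        unfold kron
        simp
      · have h3 : ¬ ((p : ℤ) ^ 2 ∣ (i : ℤ)) := by
          intro h
          have h4 : p ^ 2 ∣ i := by exact_mod_cast h
          exact absurd (Nat.le_of_dvd (Nat.pos_of_ne_zero h0) h4) (not_le.2 hi)
        rw [if_neg h3, if_neg h0]
        by_cases h4 : (p : ℤ) ∣ (i : ℤ)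
        · have h5 : i % p = 0 := Nat.mod_eq_zero_of_dvd (by exact_mod_cast h4)
          have h6 : kron (i : ℤ) p = 0 := by
            unfold kron
            rw [if_pos h4]
          rw [if_pos h4, if_pos h5, h6]
          simp
        · have h5 : ¬ i % p = 0 := fun h => h4 (by exact_mod_cast Nat.dvd_of_mod_eq_zero h)
          rw [if_neg h4, if_neg h5]
          ring
    rw [Finset.sum_congr rfl h3, Finset.sum_add_distrib, Finset.sum_sub_distrib, Finset.sum_ite_eq',
      if_pos (Finset.mem_range.2 (pow_pos hp.pos 2)), ← Finset.mul_sum]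
    have h7 : ∑ i ∈ Finset.range (p ^ 2), (if i % p = 0 then (1 : ℝ) else 0) = p := by
      rw [pow_two, k03_range]
      have h8 : ∀ k ∈ Finset.range p, ∑ j ∈ Finset.range p, (if (p * k + j) % p = 0 then (1 : ℝ) else 0) = 1 := by
        intro k _
        have h9 : ∀ j ∈ Finset.range p, (if (p * k + j) % p = 0 then (1 : ℝ) else 0) = if j = 0 then 1 else 0 := by
          intro j hj
          rw [Finset.mem_range] at hj
          rw [Nat.mul_add_mod, Nat.mod_eq_of_lt hj]
        rw [Finset.sum_congr rfl h9, Finset.sum_ite_eq', if_pos (Finset.mem_range.2 hp.pos)]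
      rw [Finset.sum_congr rfl h8]
      simp
    have h8 : ∑ i ∈ Finset.range (p ^ 2), (kron (i : ℤ) p : ℝ) = 0 := by
      rw [pow_two, k03_range]
      refine Finset.sum_eq_zero fun k _ => ?_
      have h9 : ∀ j ∈ Finset.range p, (kron ((p * k + j : ℕ) : ℤ) p : ℝ) = ((kron (j : ℤ) p : ℤ) : ℝ) := by
        intro j _
        congr 1
        unfold kron
        have e1 : (((p * k + j : ℕ) : ℤ)) = (j : ℤ) + p * k := by push_cast; ring
        have e2 : (p : ℤ) ∣ ((p * k + j : ℕ) : ℤ) ↔ (p : ℤ) ∣ (j : ℤ) := by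
          rw [e1]
          exact dvd_add_left (dvd_mul_right _ _)
        have e3 : jacobiSym ((p * k + j : ℕ) : ℤ) p = jacobiSym (j : ℤ) p := by
          rw [jacobiSym.mod_left, jacobiSym.mod_left (j : ℤ), e1]
          congr 1
          exact Int.add_mul_emod_self_left _ _ _
        rw [if_neg h2, if_neg h2, e3]
        by_cases h : (p : ℤ) ∣ (j : ℤ)
        · rw [if_pos h, if_pos (e2.2 h)]
        · rw [if_neg h, if_neg (fun h' => h (e2.1 h'))]
      rw [Finset.sum_congr rfl h9, ← Int.cast_sum, k03_leg p hp h2, Int.cast_zero]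
    rw [h7, h8]
    ring
  rw [h1]
  push_cast
  field_simp
  ring

/-- Periodicity. PROOF. For `p` odd `kron d p` depends only on `d` mod `p` (`jacobiSym.mod_left'`, or `jacobiSym.mod_left`). -/
theorem kron_per (p : ℕ) (hp : p.Prime) (h2 : p ≠ 2) (d : ℤ) : kron (d + (p : ℤ) ^ 2) p = kron d p := by
  unfold kron
  have e2 : (p : ℤ) ∣ d + (p : ℤ) ^ 2 ↔ (p : ℤ) ∣ d := dvd_add_left (dvd_pow_self _ two_ne_zero)
  have e3 : jacobiSym (d + (p : ℤ) ^ 2) p = jacobiSym d p := by
    rw [jacobiSym.mod_left, jacobiSym.mod_left d]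
    congr 1
    rw [pow_two]
    exact Int.add_mul_emod_self_left _ _ _
  rw [if_neg h2, if_neg h2, e3]
  by_cases h : (p : ℤ) ∣ d
  · rw [if_pos h, if_pos (e2.2 h)]
  · rw [if_neg h, if_neg (fun h' => h (e2.1 h'))]

theorem kron_pm (p : ℕ) (hp : p.Prime) (d : ℤ) (h : ¬ (p : ℤ) ∣ d) : kron d p = 1 ∨ kron d p = -1 := by
  unfold kron
  rw [if_neg h]
  split_ifs with h2 h3
  · exact Or.inl rfl
  · exact Or.inr rfl
  · refine jacobiSym.eq_one_or_neg_one ?_
    have h4 : IsCoprime (p : ℤ) d := by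
      rw [Prime.coprime_iff_not_dvd (Nat.prime_iff_prime_int.1 hp)]
      exact h
    exact Int.isCoprime_iff_gcd_eq_one.1 h4.symm

end Pool.Agent.Lib.H60M
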