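import Pool.Agent.Lib.H60M.CDefs
import Pool.Agent.Lib.Maass.QuadChar

/-!
# H60M K04 (S): the local means at 2

`d` mod 16: the classes with `ch2` are 1, 5, 9, 13, 8, 12; `kron d 2` for `d = 1, 5, 9, 13` is `1, -1, 1, -1`. PROOF. Finite sums over `range 16`
(`Finset.sum_range_succ`, `norm_num [ch2, kron]`, `decide`).
-/

set_option autoImplicit false

open Filter Topology
open Pool.Agent.Lib.Maass (kron)

namespace Pool.Agent.Lib.H60M

open Classical in
theorem mean_two : mean 16 (fun d => if ch2 d then 1 else 0) = 3 / 8 := by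
  unfold mean ch2
  simp only [Finset.sum_range_succ, Finset.sum_range_zero]
  norm_num

open Classical in
theorem mean_two_loc (u : ℝ) : mean 16 (fun d => if ch2 d then (if (2 : ℤ) ∣ d then 1 else u * (kron d 2 : ℝ)) else 0) = 3 / 8 * (1 / 3) := by
  unfold mean ch2 kron
  simp only [Finset.sum_range_succ, Finset.sum_range_zero]
  norm_num
  ring

theorem ch2_per (d : ℤ) : ch2 (d + 16) ↔ ch2 d := by
  unfold ch2
  omega

theorem kron_two_per (d : ℤ) : kron (d + 16) 2 = kron d 2 := by
  have h1 : ((2 : ℕ) : ℤ) ∣ d + 16 ↔ ((2 : ℕ) : ℤ) ∣ d := by omega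
  have h2 : (d + 16) % 8 = d % 8 := by omega
  unfold kron
  simp only [h1, h2, if_true]

end Pool.Agent.Lib.H60M
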