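import Pool.Agent.Lib.H60M.CDefs
import Pool.Agent.Lib.Maass.QuadChar

/-!
# H60M K05 (S/M): fundamental discriminants by local conditions

PROOF. `→`: Maass.not_sq_dvd for odd `q` (in QuadChar.lean). At 2: `D % 4 = 1`, or `D = 4 m` with `m % 4 ≠ 0, 1` (otherwise `D = 2² m` and `m = ± 1`-type contradiction:
`IsFund` with `m = 2` gives `2 = 1 ∨ 2 = -1`), so `m % 4 = 2, 3`, `D % 16 = 8, 12`.
`←`: `D = m² D'` with `D' % 4 = 0 ∨ 1`. An odd prime `q ∣ m` gives `q² ∣ D`, no. So `m = ± 2^k`; if `k ≥ 1` then `4 ∣ D`, so `D % 16 = 8` or `12`, `D' = D/4` (k = 1) is `2, 3` mod 4, and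
`k ≥ 2` gives `16 ∣ D`: contradiction. (`D ≠ 0` since `ch2 0` is false.)
-/

set_option autoImplicit false

open Filter Topology
open Pool.Agent.Lib.Maass (IsFund)

namespace Pool.Agent.Lib.H60M

theorem fund_iff (D : ℤ) : IsFund D ↔ D ≠ 1 ∧ ch2 D ∧ ∀ q : ℕ, q.Prime → q ≠ 2 → ¬ (q : ℤ) ^ 2 ∣ D := by
  constructor
  · intro h
    refine ⟨h.2.1, ?_, fun q hq hq2 hd => Maass.not_sq_dvd h hq hq2 (by rwa [← sq])⟩
    unfold ch2
    rcases h.1 with h1 | h1
    · obtain ⟨m, hm⟩ : ∃ m, D = 2 ^ 2 * m := ⟨D / 4, by omega⟩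
      have h2 : ¬ (m % 4 = 0 ∨ m % 4 = 1) := fun h3 => by
        have := h.2.2 2 m hm h3
        omega
      omega
    · exact Or.inl h1
  · rintro ⟨h1, h2, h3⟩
    refine ⟨by unfold ch2 at h2; omega, h1, fun m D' hm hD' => ?_⟩
    by_contra hne
    have h4 : m.natAbs ≠ 1 := fun h => hne (by omega)
    obtain ⟨q, hq, hqm⟩ := Nat.exists_prime_and_dvd h4
    have h5 : (q : ℤ) ∣ m := Int.natCast_dvd.2 hqm
    by_cases hq2 : q = 2
    · subst hq2
      obtain ⟨k, hk⟩ := h5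
      have h6 : D = 4 * (k ^ 2 * D') := by
        rw [hm, hk]
        push_cast
        ring
      have h7 : k ^ 2 * D' % 4 = 0 ∨ k ^ 2 * D' % 4 = 1 := by
        have h8 : k ^ 2 % 4 = 0 ∨ k ^ 2 % 4 = 1 := by
          rcases Int.even_or_odd' k with ⟨c, hc | hc⟩
          · left
            rw [hc, show (2 * c) ^ 2 = 4 * (c ^ 2) by ring]
            omega
          · right
            rw [hc, show (2 * c + 1) ^ 2 = 4 * (c ^ 2 + c) + 1 by ring]
            omega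
        rcases h8 with h8 | h8 <;> rcases hD' with h9 | h9 <;> simp [Int.mul_emod, h8, h9]
      unfold ch2 at h2
      omega
    · exact h3 q hq hq2 ((pow_dvd_pow_of_dvd h5 2).trans ⟨D', hm⟩)

end Pool.Agent.Lib.H60M
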