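import Pool.Agent.Lib.H60M.CDefs

/-!
# H60M K06 (M): the tail of the sieve

PROOF. For `k ≥ 1` the number of `d ≠ 0`, `|d| < x`, `k² ∣ d` is at most `2 x / k²`. The integers of the sum with `q² ∣ d` for some prime `q > y` are counted at most
`∑_{k > y} 2x/k² ≤ 2x/y` times (`∑_{k > y} 1/k² ≤ ∑ (1/(k-1) - 1/k) = 1/y`; only `k ≤ √x` matter, so the sum is finite). `y ≥ 1` a natural number.
-/

set_option autoImplicit false

open Filter Topology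

namespace Pool.Agent.Lib.H60M

theorem k06_count (k : ℕ) (hk : 0 < k) (x : ℝ) (hx : 0 < x) (T : Finset ℤ)
    (hT : ∀ d ∈ T, |(d : ℝ)| < x ∧ d ≠ 0 ∧ (k : ℤ) ^ 2 ∣ d) : (T.card : ℝ) ≤ 2 * x * ((k : ℝ) ^ 2)⁻¹ := by
  have hk' : (0 : ℝ) < (k : ℝ) ^ 2 := by
    have : (0 : ℝ) < k := by exact_mod_cast hk
    positivity
  set n : ℕ := ⌊x * ((k : ℝ) ^ 2)⁻¹⌋₊ with hn
  have hsub : T ⊆ ((Finset.Icc (-(n : ℤ)) n).erase 0).image (fun e : ℤ => (k : ℤ) ^ 2 * e) := by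
    intro d hd
    obtain ⟨h1, h2, e, he⟩ := hT d hd
    rw [Finset.mem_image]
    refine ⟨e, ?_, he.symm⟩
    rw [Finset.mem_erase, Finset.mem_Icc]
    have h3 : e ≠ 0 := by
      rintro rfl
      exact h2 (by rw [he, mul_zero])
    refine ⟨h3, ?_⟩
    have h4 : |(d : ℝ)| = (k : ℝ) ^ 2 * |(e : ℝ)| := by
      rw [he]
      push_cast
      rw [abs_mul, abs_of_pos hk']
    have h5 : (e.natAbs : ℝ) ≤ x * ((k : ℝ) ^ 2)⁻¹ := by
      rw [← div_eq_mul_inv, le_div_iff₀ hk', Nat.cast_natAbs, Int.cast_abs, mul_comm, ← h4]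
      exact h1.le
    have h6 : e.natAbs ≤ n := Nat.le_floor h5
    omega
  have h1 : T.card ≤ 2 * n := by
    refine (Finset.card_le_card hsub).trans (Finset.card_image_le.trans ?_)
    rw [Finset.card_erase_of_mem (by rw [Finset.mem_Icc]; omega), Int.card_Icc]
    omega
  have h2 : (n : ℝ) ≤ x * ((k : ℝ) ^ 2)⁻¹ := Nat.floor_le (by positivity)
  have h3 : (T.card : ℝ) ≤ 2 * n := by exact_mod_cast h1
  linarith

theorem sieve_tail (y : ℕ) (hy : 0 < y) (x : ℝ) (hx : 0 < x) :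
    sm (fun d => d ≠ 0 ∧ ∃ q : ℕ, y < q ∧ (q : ℤ) ^ 2 ∣ d) (fun _ => 1) x ≤ 2 * x / y := by
  classical
  set K : ℕ := max y ⌈x⌉₊ with hK
  have h1 : sm (fun d => d ≠ 0 ∧ ∃ q : ℕ, y < q ∧ (q : ℤ) ^ 2 ∣ d) (fun _ => 1) x ≤
      ∑ k ∈ Finset.Ioc y K, (((Finset.Icc (-⌈x⌉) ⌈x⌉).filter (fun d : ℤ => |(d : ℝ)| < x ∧ d ≠ 0 ∧ (k : ℤ) ^ 2 ∣ d)).card : ℝ) := by
    unfold sm
    rw [Finset.sum_const, nsmul_eq_mul, mul_one, ← Nat.cast_sum]
    have h2 : (Finset.Icc (-⌈x⌉) ⌈x⌉).filter (fun d : ℤ => |(d : ℝ)| < x ∧ (d ≠ 0 ∧ ∃ q : ℕ, y < q ∧ (q : ℤ) ^ 2 ∣ d)) ⊆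
        (Finset.Ioc y K).biUnion fun k => (Finset.Icc (-⌈x⌉) ⌈x⌉).filter (fun d : ℤ => |(d : ℝ)| < x ∧ d ≠ 0 ∧ (k : ℤ) ^ 2 ∣ d) := by
      intro d hd
      rw [Finset.mem_filter] at hd
      obtain ⟨h3, h4, h5, q, h6, h7⟩ := hd
      rw [Finset.mem_biUnion]
      refine ⟨q, ?_, ?_⟩
      · rw [Finset.mem_Ioc]
        refine ⟨h6, le_max_of_le_right ?_⟩
        have h8 : q ^ 2 ≤ d.natAbs := Nat.le_of_dvd (Int.natAbs_pos.2 h5) (by
          have := Int.natAbs_dvd_natAbs.2 h7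
          simpa [Int.natAbs_pow] using this)
        have h9 : (d.natAbs : ℝ) < x := by
          rw [Nat.cast_natAbs, Int.cast_abs]
          exact h4
        have h10 : q ≤ q ^ 2 := Nat.le_self_pow two_ne_zero q
        have h11 : (q : ℝ) ≤ x := by
          have : (q : ℝ) ≤ (d.natAbs : ℝ) := by exact_mod_cast h10.trans h8
          linarith
        exact_mod_cast h11.trans (Nat.le_ceil x)
      · rw [Finset.mem_filter]
        exact ⟨h3, h4, h5, h7⟩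
    exact_mod_cast (Finset.card_le_card h2).trans Finset.card_biUnion_le
  refine h1.trans ?_
  have h2 : ∀ k ∈ Finset.Ioc y K, (((Finset.Icc (-⌈x⌉) ⌈x⌉).filter (fun d : ℤ => |(d : ℝ)| < x ∧ d ≠ 0 ∧ (k : ℤ) ^ 2 ∣ d)).card : ℝ) ≤
      2 * x * ((k : ℝ) ^ 2)⁻¹ := by
    intro k hk
    rw [Finset.mem_Ioc] at hk
    exact k06_count k (by omega) x hx _ fun d hd => (Finset.mem_filter.1 hd).2
  refine (Finset.sum_le_sum h2).trans ?_
  rw [← Finset.mul_sum, div_eq_mul_inv]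
  refine mul_le_mul_of_nonneg_left ?_ (by positivity)
  refine (sum_Ioc_inv_sq_le_sub hy.ne' (le_max_left y ⌈x⌉₊)).trans ?_
  have : (0 : ℝ) ≤ ((max y ⌈x⌉₊ : ℕ) : ℝ)⁻¹ := by positivity
  linarith

end Pool.Agent.Lib.H60M
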