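import Pool.Agent.Lib.H60M.K01
import Pool.Agent.Lib.H60M.K02
import Pool.Agent.Lib.H60M.K03
import Pool.Agent.Lib.H60M.K06

/-!
# H60M K07 (M): the sieve

PROOF. For `y ∈ ℕ` let `P_y` be the set of the primes `q ≤ y`, `q ∤ M`, `Z_y = ∏_{q ∈ P_y} (1 - 1/q²)`: decreasing in `y` and `≥ ∏_{2 ≤ k ≤ y} (1 - 1/k²) ≥ 1/2`
(telescoping `(1 - 1/k²) = (k-1)(k+1)/k²`), so `Z = lim Z_y ≥ 1/2` exists. For fixed `y` the function `G_y(d) = G(d) ∏_{q ∈ P_y} 1[q² ∤ d]` is periodic mod `M ∏ q²` with mean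
`mean G · Z_y` (mean_mul, mean_prod, mean_sf), so `sm True G_y x / x → 2 mean G · Z_y` (per_sum). `|sm (sf M) G x - sm True G_y x| ≤ sup|G| (2x/y + 1)` by sieve_tail (the `d` counted by
one sum and not by the other are divisible by `q²` for a prime `q > y`, or `d = 0`). Let `x → ∞` and then `y → ∞`.
-/

set_option autoImplicit false

open Filter Topology

namespace Pool.Agent.Lib.H60M

/-- The primes up to `y` which do not divide `M`. -/
private def Py (M y : ℕ) : Finset ℕ := (Finset.range (y + 1)).filter (fun q => q.Prime ∧ ¬ q ∣ M)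

private theorem mem_Py {M y q : ℕ} : q ∈ Py M y ↔ q ≤ y ∧ q.Prime ∧ ¬ q ∣ M := by
  unfold Py
  rw [Finset.mem_filter, Finset.mem_range, Nat.lt_succ_iff]

private noncomputable def Zy (M y : ℕ) : ℝ := ∏ q ∈ Py M y, (1 - 1 / (q : ℝ) ^ 2)

private theorem Zy_succ (M y : ℕ) : Zy M (y + 1) =
    Zy M y * (if (y + 1).Prime ∧ ¬ (y + 1) ∣ M then (1 - 1 / ((y + 1 : ℕ) : ℝ) ^ 2) else 1) := by
  unfold Zy Py
  rw [Finset.range_add_one (n := y + 1), Finset.filter_insert]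
  split_ifs with h
  · rw [Finset.prod_insert (by simp)]
    ring
  · ring

private theorem fac_nonneg {k : ℕ} (hk : 1 ≤ k) : 0 ≤ 1 - 1 / (k : ℝ) ^ 2 := by
  have h1 : (1 : ℝ) ≤ k := by exact_mod_cast hk
  have h2 : (1 : ℝ) ≤ (k : ℝ) ^ 2 := one_le_pow₀ h1
  rw [sub_nonneg, div_le_one (by positivity)]
  exact h2

private theorem Zy_nonneg (M y : ℕ) : 0 ≤ Zy M y :=
  Finset.prod_nonneg fun q hq => fac_nonneg (mem_Py.1 hq).2.1.one_le

private theorem Zy_anti (M : ℕ) : Antitone (Zy M) := by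
  refine antitone_nat_of_succ_le fun y => ?_
  rw [Zy_succ]
  refine mul_le_of_le_one_right (Zy_nonneg M y) ?_
  split_ifs
  · have : (0 : ℝ) ≤ 1 / ((y + 1 : ℕ) : ℝ) ^ 2 := by positivity
    linarith
  · exact le_rfl

private theorem Zy_ge (M : ℕ) : ∀ y : ℕ, ((y : ℝ) + 2) / (2 * (y + 1)) ≤ Zy M (y + 1) := by
  intro y
  induction y with
  | zero =>
    have h : Py M 1 = ∅ := by
      ext q
      rw [mem_Py]
      constructor
      · rintro ⟨h1, h2, -⟩
        have := h2.two_le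
        omega
      · intro h
        simp at h
    unfold Zy
    rw [zero_add, h]
    simp
  | succ y ih =>
    rw [Zy_succ]
    have h0 : (0 : ℝ) ≤ y := Nat.cast_nonneg y
    have h1 : (1 - 1 / ((y + 1 + 1 : ℕ) : ℝ) ^ 2) ≤
        (if (y + 1 + 1).Prime ∧ ¬ (y + 1 + 1) ∣ M then (1 - 1 / ((y + 1 + 1 : ℕ) : ℝ) ^ 2) else 1) := by
      split_ifs
      · exact le_rfl
      · have : (0 : ℝ) ≤ 1 / ((y + 1 + 1 : ℕ) : ℝ) ^ 2 := by positivity
        linarith
    have h2 : 0 ≤ (1 - 1 / ((y + 1 + 1 : ℕ) : ℝ) ^ 2) := fac_nonneg (by omega)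
    calc (((y + 1 : ℕ) : ℝ) + 2) / (2 * (((y + 1 : ℕ) : ℝ) + 1))
        = ((y : ℝ) + 2) / (2 * (y + 1)) * (1 - 1 / ((y + 1 + 1 : ℕ) : ℝ) ^ 2) := by
          push_cast
          field_simp
          ring
      _ ≤ Zy M (y + 1) * (1 - 1 / ((y + 1 + 1 : ℕ) : ℝ) ^ 2) := by gcongr
      _ ≤ _ := mul_le_mul_of_nonneg_left h1 (Zy_nonneg _ _)

private theorem Zy_half (M y : ℕ) : 1 / 2 ≤ Zy M y := by
  have h1 := Zy_ge M y
  have h2 := Zy_anti M (Nat.le_succ y)
  have h0 : (0 : ℝ) ≤ y := Nat.cast_nonneg y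
  have h3 : (1 : ℝ) / 2 ≤ ((y : ℝ) + 2) / (2 * (y + 1)) := by
    rw [div_le_div_iff₀ (by norm_num) (by positivity)]
    linarith
  exact h3.trans (h1.trans h2)

/-- The indicator function. -/
private noncomputable def ind (M y : ℕ) (d : ℤ) : ℝ :=
  ∏ q ∈ Py M y, (if ((q : ℤ) ^ 2 ∣ d) then 0 else 1)

private theorem ind_mem (M y : ℕ) (d : ℤ) : 0 ≤ ind M y d ∧ ind M y d ≤ 1 := by
  unfold ind
  constructor
  · exact Finset.prod_nonneg fun q _ => by split_ifs <;> norm_num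
  · exact Finset.prod_le_one (fun q _ => by split_ifs <;> norm_num) fun q _ => by split_ifs <;> norm_num

private theorem per_mul {G : ℤ → ℝ} {M : ℕ} (hG : ∀ d, G (d + M) = G d) (k d : ℤ) : G (d + k * M) = G d := by
  have h : Function.Periodic G (M : ℤ) := hG
  have h1 := h.zsmul k
  rw [smul_eq_mul] at h1
  exact h1 d

private theorem ind_per (M y : ℕ) (d : ℤ) :
    ind M y (d + ((∏ q ∈ Py M y, q ^ 2 : ℕ) : ℤ)) = ind M y d := by
  unfold ind
  refine Finset.prod_congr rfl fun q hq => ?_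
  have h1 : ((q : ℤ) ^ 2) ∣ ((∏ q ∈ Py M y, q ^ 2 : ℕ) : ℤ) := by
    have h := Finset.dvd_prod_of_mem (fun q : ℕ => q ^ 2) hq
    exact_mod_cast h
  simp only [dvd_add_left h1]

private theorem mean_Gy (M : ℕ) (hM : 0 < M) (y : ℕ) (G : ℤ → ℝ) (hG : ∀ d, G (d + M) = G d) :
    mean (M * ∏ q ∈ Py M y, q ^ 2) (fun d => G d * ind M y d) = mean M G * Zy M y := by
  have hpos : ∀ q ∈ Py M y, 0 < q ^ 2 := fun q hq => pow_pos (mem_Py.1 hq).2.1.pos 2
  have h1 := mean_mul M (∏ q ∈ Py M y, q ^ 2) hM (Finset.prod_pos hpos)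
    (Nat.Coprime.prod_right fun q hq => Nat.Coprime.pow_right 2
      (((Nat.Prime.coprime_iff_not_dvd (mem_Py.1 hq).2.1).2 (mem_Py.1 hq).2.2).symm)) G (ind M y) hG (ind_per M y)
  rw [h1]
  congr 1
  have h2 := mean_prod (Py M y) (fun q => q ^ 2) hpos
    (fun q hq r hr hqr => Nat.Coprime.pow 2 2
      ((Nat.coprime_primes (mem_Py.1 hq).2.1 (mem_Py.1 hr).2.1).2 hqr))
    (fun q d => if ((q : ℤ) ^ 2 ∣ d) then 0 else 1) (fun q hq d => by
      have h : ((q : ℤ) ^ 2 ∣ d + ((q ^ 2 : ℕ) : ℤ)) ↔ ((q : ℤ) ^ 2 ∣ d) := by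
        push_cast
        rw [dvd_add_left (dvd_refl _)]
      simp only [h])
  have h3 : ind M y = fun d => ∏ q ∈ Py M y, (if ((q : ℤ) ^ 2 ∣ d) then 0 else 1) := rfl
  rw [h3]
  refine h2.trans ?_
  unfold Zy
  exact Finset.prod_congr rfl fun q hq => mean_sf q (mem_Py.1 hq).2.1

open Classical in
private theorem sm_eq (A : ℤ → Prop) (G : ℤ → ℝ) (x : ℝ) :
    sm A G x = ∑ d ∈ (Finset.Icc (-⌈x⌉) ⌈x⌉).filter (fun d : ℤ => |(d : ℝ)| < x), (if A d then G d else 0) := by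
  unfold sm
  rw [← Finset.sum_filter, Finset.filter_filter]

private theorem compare (M y : ℕ) (hy : 0 < y) (G : ℤ → ℝ) {K : ℝ} (hK0 : 0 ≤ K) (hK : ∀ d, |G d| ≤ K) {x : ℝ}
    (hx : 0 < x) :
    |sm (sf M) G x - sm (fun _ => True) (fun d => G d * ind M y d) x| ≤ K * (1 + 2 * x / y) := by
  classical
  have htail := sieve_tail y hy x hx
  rw [sm_eq] at htail
  have htail' : ∑ d ∈ (Finset.Icc (-⌈x⌉) ⌈x⌉).filter (fun d : ℤ => |(d : ℝ)| < x),
      (if (d ≠ 0 ∧ ∃ q : ℕ, y < q ∧ (q : ℤ) ^ 2 ∣ d) then (1 : ℝ) else 0) ≤ 2 * x / y := by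
    convert htail
  rw [sm_eq, sm_eq, ← Finset.sum_sub_distrib]
  simp only [if_true]
  refine (Finset.abs_sum_le_sum_abs _ _).trans ?_
  have hpt : ∀ d : ℤ, |(if sf M d then G d else 0) - G d * ind M y d| ≤
      K * ((if d = 0 then 1 else 0) + (if (d ≠ 0 ∧ ∃ q : ℕ, y < q ∧ (q : ℤ) ^ 2 ∣ d) then 1 else 0)) := by
    intro d
    obtain ⟨hi0, hi1⟩ := ind_mem M y d
    have hGi : |G d * ind M y d| ≤ K := by
      rw [abs_mul, abs_of_nonneg hi0]
      exact (mul_le_of_le_one_right (abs_nonneg _) hi1).trans (hK d)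
    have hr : (0 : ℝ) ≤ (if d = 0 then 1 else 0) := by split_ifs <;> norm_num
    have hr' : (0 : ℝ) ≤ (if (d ≠ 0 ∧ ∃ q : ℕ, y < q ∧ (q : ℤ) ^ 2 ∣ d) then 1 else 0) := by
      split_ifs <;> norm_num
    by_cases hs : sf M d
    · rw [if_pos hs]
      have h1 : ind M y d = 1 := by
        unfold ind
        refine Finset.prod_eq_one fun q hq => ?_
        rw [if_neg (hs.2 q (mem_Py.1 hq).2.1 (mem_Py.1 hq).2.2)]
      rw [h1, mul_one, sub_self, abs_zero]
      exact mul_nonneg hK0 (add_nonneg hr hr')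
    · rw [if_neg hs, zero_sub, abs_neg]
      by_cases hd : d = 0
      · rw [if_pos hd]
        refine hGi.trans ?_
        nlinarith
      · obtain ⟨q, hq, hqM, hqd⟩ : ∃ q : ℕ, q.Prime ∧ ¬ q ∣ M ∧ (q : ℤ) ^ 2 ∣ d := by
          by_contra hcon
          push Not at hcon
          exact hs ⟨hd, hcon⟩
        by_cases hqy : q ≤ y
        · have h1 : ind M y d = 0 := by
            unfold ind
            refine Finset.prod_eq_zero (mem_Py.2 ⟨hqy, hq, hqM⟩) ?_
            rw [if_pos hqd]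
          rw [h1, mul_zero, abs_zero]
          exact mul_nonneg hK0 (add_nonneg hr hr')
        · rw [if_neg hd, if_pos ⟨hd, q, not_le.1 hqy, hqd⟩]
          linarith
  refine (Finset.sum_le_sum fun d _ => hpt d).trans ?_
  rw [← Finset.mul_sum, Finset.sum_add_distrib]
  refine mul_le_mul_of_nonneg_left (add_le_add ?_ htail') hK0
  rw [Finset.sum_ite_eq']
  split_ifs <;> norm_num

theorem sieve_density (M : ℕ) (hM : 0 < M) : ∃ Z : ℝ, 0 < Z ∧ ∀ G : ℤ → ℝ, (∀ d, G (d + M) = G d) →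
    Tendsto (fun x : ℝ => sm (sf M) G x / x) atTop (𝓝 (2 * Z * mean M G)) := by
  have hbdd : BddBelow (Set.range (Zy M)) := ⟨0, by
    rintro _ ⟨y, rfl⟩
    exact Zy_nonneg M y⟩
  have hlim := tendsto_atTop_ciInf (Zy_anti M) hbdd
  set Z : ℝ := ⨅ y, Zy M y with hZ
  have hZ2 : 1 / 2 ≤ Z := le_ciInf fun y => Zy_half M y
  refine ⟨Z, by linarith, fun G hG => ?_⟩
  -- a bound for G
  obtain ⟨K, hK0, hK⟩ : ∃ K : ℝ, 0 ≤ K ∧ ∀ d, |G d| ≤ K := by
    refine ⟨∑ i ∈ Finset.range M, |G i|, Finset.sum_nonneg fun _ _ => abs_nonneg _, fun d => ?_⟩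
    have hM' : (0 : ℤ) < M := by exact_mod_cast hM
    have h1 : G d = G ((d % M).toNat : ℤ) := by
      rw [Int.toNat_of_nonneg (Int.emod_nonneg _ hM'.ne')]
      have h := per_mul hG (d / M) (d % M)
      rw [← h]
      congr 1
      have := Int.emod_add_mul_ediv d M
      linarith
    rw [h1]
    refine Finset.single_le_sum (f := fun i : ℕ => |G i|) (fun _ _ => abs_nonneg _) ?_
    rw [Finset.mem_range]
    have h2 := Int.emod_lt_of_pos d hM'
    have h3 := Int.emod_nonneg d hM'.ne'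
    omega
  rw [Metric.tendsto_atTop]
  intro ε hε
  -- choice of y
  have h1 : Tendsto (fun y : ℕ => 2 * Zy M y * mean M G) atTop (𝓝 (2 * Z * mean M G)) :=
    (hlim.const_mul 2).mul_const _
  have h2 : Tendsto (fun y : ℕ => 2 * K / (y : ℝ)) atTop (𝓝 0) :=
    tendsto_const_nhds.div_atTop tendsto_natCast_atTop_atTop
  obtain ⟨y, hy1, hy2, hy3⟩ := ((h1.eventually (Metric.ball_mem_nhds _ (show (0 : ℝ) < ε / 4 by positivity))).and
    ((h2.eventually (gt_mem_nhds (show (0 : ℝ) < ε / 4 by positivity))).and (eventually_ge_atTop 1))).exists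
  rw [Real.dist_eq] at hy1
  obtain ⟨C, hC⟩ := per_sum (M * ∏ q ∈ Py M y, q ^ 2)
    (Nat.mul_pos hM (Finset.prod_pos fun q hq => pow_pos (mem_Py.1 hq).2.1.pos 2)) (fun d => G d * ind M y d) (fun d => by
      have e1 : G (d + ((M * ∏ q ∈ Py M y, q ^ 2 : ℕ) : ℤ)) = G d := by
        have h := per_mul hG ((∏ q ∈ Py M y, q ^ 2 : ℕ) : ℤ) d
        rw [← h]
        congr 1
        push_cast
        ring
      have e2 : ind M y (d + ((M * ∏ q ∈ Py M y, q ^ 2 : ℕ) : ℤ)) = ind M y d := by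
        have h := per_mul (ind_per M y) (M : ℤ) d
        rw [← h]
        congr 1
      rw [e1, e2])
  rw [mean_Gy M hM y G hG] at hC
  refine ⟨max 1 ((|C| + K) * 4 / ε + 1), fun x hx => ?_⟩
  have hx1 : (1 : ℝ) ≤ x := (le_max_left _ _).trans hx
  have hx0 : (0 : ℝ) < x := by linarith
  have hx2 : (|C| + K) * 4 / ε + 1 ≤ x := (le_max_right _ _).trans hx
  have hy0 : (0 : ℝ) < y := by exact_mod_cast hy3
  have h3 := compare M y hy3 G hK0 hK hx0
  have h4 := hC x hx0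
  rw [Real.dist_eq]
  have h5 : (|C| + K) / x < ε / 4 := by
    have h : (|C| + K) * 4 / ε < x := by linarith
    rw [div_lt_iff₀ hε] at h
    rw [div_lt_iff₀ hx0]
    linarith
  have h6 : |sm (sf M) G x - 2 * x * (mean M G * Zy M y)| ≤ |C| + K + (2 * K / y) * x := by
    have e : sm (sf M) G x - 2 * x * (mean M G * Zy M y) =
        (sm (sf M) G x - sm (fun _ => True) (fun d => G d * ind M y d) x) +
        (sm (fun _ => True) (fun d => G d * ind M y d) x - 2 * x * (mean M G * Zy M y)) := by ring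
    rw [e]
    refine (abs_add_le _ _).trans ?_
    have h7 := add_le_add h3 (h4.trans (le_abs_self C))
    refine h7.trans (le_of_eq ?_)
    ring
  have e2 : sm (sf M) G x / x - 2 * Z * mean M G =
      (sm (sf M) G x - 2 * x * (mean M G * Zy M y)) / x + (2 * Zy M y * mean M G - 2 * Z * mean M G) := by
    field_simp
    ring
  rw [e2]
  refine (abs_add_le _ _).trans_lt ?_
  have h8 : |(sm (sf M) G x - 2 * x * (mean M G * Zy M y)) / x| ≤ (|C| + K) / x + 2 * K / y := by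
    rw [abs_div, abs_of_pos hx0, div_le_iff₀ hx0]
    refine h6.trans (le_of_eq ?_)
    field_simp
  linarith

end Pool.Agent.Lib.H60M
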