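import Pool.Agent.Lib.H60M.CDefs
import Pool.Agent.Lib.Maass.QuadField
import Pool.Agent.Lib.Maass.Count

/-!
# H60M K08 (M): a quadratic field is determined by its discriminant

PROOF. exists_qdata (QuadField): the ring of integers of `E` is `ℤ + ℤ ω`, `disc = t² - 4n`, where `ω² - t ω + n = 0` (see the structure QData), so `s = 2ω - t` satisfies `s² = disc`, `s ∈ E`,
`s ∉ ℚ` (otherwise `ω ∈ ℚ`, or: disc would be a rational square, so an integer square `m²`, and `IsFund disc` (isFund_discr) with `D' = 1` gives `disc = 1`, excluded).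
So `E = ℚ(s)` (degree 2; IntermediateField.adjoin, finrank) inside `AlgebraicClosure ℚ`. If `disc E = disc E'` then `s² = s'²`, `s = ± s'`, `E = E'`.
-/

set_option autoImplicit false

open Filter Topology
open Pool.Agent.Lib.Maass
open scoped NumberField

namespace Pool.Agent.Lib.H60M

theorem k08_gen (E : QuadExt) : ∃ s : AlgebraicClosure ℚ,
    s ^ 2 = ((E.disc : ℤ) : AlgebraicClosure ℚ) ∧ E.1 = IntermediateField.adjoin ℚ {s} := by
  obtain ⟨q, hq⟩ := exists_qdata E.1 E.2
  have hy : ((2 : ℤ) * q.ω - q.t) ^ 2 = ((NumberField.discr E.1 : ℤ) : 𝓞 E.1) := by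
    rw [hq]
    push_cast
    linear_combination 4 * q.sq
  have htwo : ∀ a : ℤ, (2 : ℤ) * q.ω - q.t = (a : 𝓞 E.1) → False := by
    intro a ha
    have h1 := q.indep (-q.t - a) 2 (by push_cast at ha ⊢; linear_combination ha)
    omega
  obtain ⟨y, hydef⟩ : ∃ y : E.1, algebraMap (𝓞 E.1) E.1 ((2 : ℤ) * q.ω - q.t) = y := ⟨_, rfl⟩
  have hy2 : y ^ 2 = ((NumberField.discr E.1 : ℤ) : E.1) := by
    have h1 := congrArg (algebraMap (𝓞 E.1) E.1) hy
    rw [map_pow, hydef, map_intCast] at h1
    exact h1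
  have hs2 : (y : AlgebraicClosure ℚ) ^ 2 = ((E.disc : ℤ) : AlgebraicClosure ℚ) := by
    have h1 := congrArg (fun z : E.1 => (z : AlgebraicClosure ℚ)) hy2
    simpa [QuadExt.disc] using h1
  refine ⟨(y : AlgebraicClosure ℚ), hs2, ?_⟩
  have hle : IntermediateField.adjoin ℚ {(y : AlgebraicClosure ℚ)} ≤ E.1 := by
    rw [IntermediateField.adjoin_simple_le_iff]
    exact y.2
  have hfin : FiniteDimensional ℚ E.1 := Module.finite_of_finrank_pos (by rw [E.2]; norm_num)
  have hfin' : FiniteDimensional ℚ (IntermediateField.adjoin ℚ {(y : AlgebraicClosure ℚ)}) :=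
    IntermediateField.adjoin.finiteDimensional (by
      apply IsIntegral.of_pow (n := 2) (by norm_num)
      rw [hs2]
      exact map_intCast (algebraMap ℚ (AlgebraicClosure ℚ)) E.disc ▸ isIntegral_algebraMap)
  have hne1 : Module.finrank ℚ (IntermediateField.adjoin ℚ {(y : AlgebraicClosure ℚ)}) ≠ 1 := by
    intro h1
    rw [IntermediateField.finrank_adjoin_simple_eq_one_iff] at h1
    rw [IntermediateField.mem_bot] at h1
    obtain ⟨a, ha⟩ := h1
    have h2 : (a : ℚ) ^ 2 = ((E.disc : ℤ) : ℚ) := by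
      apply (algebraMap ℚ (AlgebraicClosure ℚ)).injective
      rw [map_pow, ha, hs2]
      simp
    have h3 : IsSquare ((E.disc : ℤ) : ℚ) := ⟨a, by rw [← h2]; ring⟩
    rw [Rat.isSquare_intCast_iff] at h3
    obtain ⟨m, hm⟩ := h3
    have h4 : ((2 : ℤ) * q.ω - q.t) ^ 2 = (m : 𝓞 E.1) ^ 2 := by
      rw [hy]
      have h5 : NumberField.discr E.1 = m * m := hm
      rw [h5]; push_cast; ring
    rcases sq_eq_sq_iff_eq_or_eq_neg.mp h4 with h | h
    · exact htwo m h
    · exact htwo (-m) (by rw [h]; push_cast; ring)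
  have hpos : 0 < Module.finrank ℚ (IntermediateField.adjoin ℚ {(y : AlgebraicClosure ℚ)}) :=
    Module.finrank_pos
  symm
  apply IntermediateField.eq_of_le_of_finrank_le hle
  rw [E.2]
  omega

theorem disc_injective : Function.Injective QuadExt.disc := by
  intro E E' h
  obtain ⟨s, hs, hE⟩ := k08_gen E
  obtain ⟨s', hs', hE'⟩ := k08_gen E'
  apply Subtype.ext
  rw [hE, hE']
  have h1 : s ^ 2 = s' ^ 2 := by rw [hs, hs', h]
  rcases sq_eq_sq_iff_eq_or_eq_neg.mp h1 with h2 | h2
  · rw [h2]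
  · apply le_antisymm
    · rw [IntermediateField.adjoin_simple_le_iff, h2]
      exact neg_mem (IntermediateField.mem_adjoin_simple_self ℚ _)
    · rw [IntermediateField.adjoin_simple_le_iff]
      have h3 : s' = - s := by rw [h2]; ring
      rw [h3]
      exact neg_mem (IntermediateField.mem_adjoin_simple_self ℚ _)

end Pool.Agent.Lib.H60M
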