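import Pool.Agent.Lib.H60M.K05
import Pool.Agent.Lib.H60M.K08
import Pool.Agent.Lib.Maass.QuadField
import Pool.Agent.Lib.Maass.Count

/-!
# H60M K09 (M): every fundamental discriminant is the discriminant of a quadratic field

PROOF. `D` is not a square in `ℚ` (an integer which is a rational square is `m²`, `m ∈ ℤ`; `IsFund D` with `D' = 1` gives `m = ± 1`, `D = 1`, excluded). `s` a square root of `D` in
`AlgebraicClosure ℚ`, `E = ℚ(s)` of degree 2 (as in Count.lean: minpoly_sqrtAC, finrank_adjoin_sqrtAC, quadP). `D₁ = disc E` is fundamental (isFund_discr) and `E = ℚ(s₁)`, `s₁² = D₁` (exists_qdata, see K08).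
So `s₁ = a + b s` with rational `a, b`, `s₁² = D₁ ∈ ℚ` gives `a b = 0`, `b ≠ 0` (`s₁ ∉ ℚ`), so `D₁ = b² D`. LEMMA: fundamental `D`, `D₁` with `D₁ = b² D`, `b ∈ ℚ`, are equal:
`b = u/v` in lowest terms, `v² D₁ = u² D`, `u² ∣ D₁`, `v² ∣ D`: write `D₁ = u² t`, `D = v² t`. By K05 (no square of an odd prime) `u, v` are powers of 2 (up to sign), and coprime, so one of them is `± 1`,
say `v = ± 1`: `D = t` is `0` or `1` mod 4 and `D₁ = u² D`, so `IsFund D₁` gives `u = ± 1`.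
-/

set_option autoImplicit false

open Filter Topology
open Pool.Agent.Lib.Maass

namespace Pool.Agent.Lib.H60M

theorem k09_aux {D D₁ : ℤ} (h : IsFund D) (h1 : IsFund D₁) {u v : ℕ} (hc : u.Coprime v)
    (hv : v % 2 = 1) (e : (u : ℤ) ^ 2 * D = (v : ℤ) ^ 2 * D₁) : D = D₁ := by
  have hcop : IsCoprime ((v : ℤ) ^ 2) ((u : ℤ) ^ 2) := by
    apply IsCoprime.pow
    rw [Nat.isCoprime_iff_coprime]
    exact hc.symm
  have hdvd : (v : ℤ) ^ 2 ∣ D := by
    apply hcop.dvd_of_dvd_mul_left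
    rw [e]
    exact dvd_mul_right _ _
  have hv1 : v = 1 := by
    by_contra hne
    obtain ⟨q, hq, hqv⟩ := Nat.exists_prime_and_dvd hne
    have hq2 : q ≠ 2 := by
      rintro rfl
      omega
    apply not_sq_dvd h hq hq2
    apply dvd_trans _ hdvd
    rw [← sq]
    exact pow_dvd_pow_of_dvd (by exact_mod_cast hqv) 2
  subst hv1
  have e' : D₁ = (u : ℤ) ^ 2 * D := by rw [e]; simp
  rcases h1.2.2 u D e' h.1 with h2 | h2 <;> rw [e', h2] <;> ring

theorem k09_eq {D D₁ : ℤ} (h : IsFund D) (h1 : IsFund D₁) (r : ℚ) (e : (D₁ : ℚ) = r ^ 2 * D) :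
    D = D₁ := by
  have hden : (r.den : ℚ) ≠ 0 := by exact_mod_cast r.den_nz
  have e1 : ((r.num.natAbs : ℕ) : ℤ) ^ 2 * D = ((r.den : ℕ) : ℤ) ^ 2 * D₁ := by
    have hr : r * r.den = r.num := Rat.mul_den_eq_num r
    have e2 : (r.num : ℚ) ^ 2 * D = (r.den : ℚ) ^ 2 * D₁ := by
      rw [e, ← hr]; ring
    have e3 : r.num ^ 2 * D = ((r.den : ℕ) : ℤ) ^ 2 * D₁ := by exact_mod_cast e2
    rw [← e3]
    congr 1
    exact Int.natAbs_sq r.num
  have hc : r.num.natAbs.Coprime r.den := r.reduced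
  rcases Nat.mod_two_eq_zero_or_one r.den with h2 | h2
  · have h3 : r.num.natAbs % 2 = 1 := by
      by_contra h4
      have h5 : r.num.natAbs % 2 = 0 := by omega
      have h6 := Nat.dvd_gcd (Nat.dvd_of_mod_eq_zero h5) (Nat.dvd_of_mod_eq_zero h2)
      rw [hc.gcd_eq_one] at h6
      omega
    exact (k09_aux h1 h hc.symm h3 e1.symm).symm
  · exact k09_aux h h1 hc h2 e1

theorem disc_surj (D : ℤ) (h : IsFund D) : ∃ E : QuadExt, E.disc = D := by
  have hnsq : ∀ b : ℚ, b ^ 2 ≠ (D : ℚ) := by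
    intro b hb
    have h3 : IsSquare ((D : ℤ) : ℚ) := ⟨b, by rw [← hb]; ring⟩
    rw [Rat.isSquare_intCast_iff] at h3
    obtain ⟨m, hm⟩ := h3
    rcases h.2.2 m 1 (by rw [hm]; ring) (by norm_num) with h4 | h4
    · apply h.2.1; rw [hm, h4]; norm_num
    · apply h.2.1; rw [hm, h4]; norm_num
  obtain ⟨s, hs⟩ : ∃ s : AlgebraicClosure ℚ, s ^ 2 = (D : AlgebraicClosure ℚ) :=
    IsAlgClosed.exists_pow_nat_eq (D : AlgebraicClosure ℚ) (n := 2) (by norm_num)
  have hint : IsIntegral ℚ s :=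
    ⟨Polynomial.X ^ 2 - Polynomial.C (D : ℚ), Polynomial.monic_X_pow_sub_C _ (by norm_num),
      by rw [Polynomial.eval₂_sub, Polynomial.eval₂_pow, Polynomial.eval₂_X, Polynomial.eval₂_C, hs]; simp⟩
  have hmin : minpoly ℚ s = Polynomial.X ^ 2 - Polynomial.C (D : ℚ) := by
    symm
    apply minpoly.eq_of_irreducible_of_monic
    · exact X_pow_sub_C_irreducible_of_prime Nat.prime_two hnsq
    · rw [map_sub, map_pow, Polynomial.aeval_X, Polynomial.aeval_C, hs]; simp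
    · exact Polynomial.monic_X_pow_sub_C _ (by norm_num)
  have hfin : Module.finrank ℚ (IntermediateField.adjoin ℚ {s}) = 2 := by
    rw [IntermediateField.adjoin.finrank hint, hmin, Polynomial.natDegree_X_pow_sub_C]
  obtain ⟨E, hE⟩ : ∃ E : QuadExt, E.1 = IntermediateField.adjoin ℚ {s} := ⟨⟨_, hfin⟩, rfl⟩
  refine ⟨E, ?_⟩
  obtain ⟨s₁, hs₁, hE₁⟩ := k08_gen E
  have hF1 : IsFund E.disc := isFund_discr E.1 E.2
  set D₁ : ℤ := E.disc with hD₁
  have hnsq₁ : ∀ b : ℚ, b ^ 2 ≠ (D₁ : ℚ) := by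
    intro b hb
    have h3 : IsSquare ((D₁ : ℤ) : ℚ) := ⟨b, by rw [← hb]; ring⟩
    rw [Rat.isSquare_intCast_iff] at h3
    obtain ⟨m, hm⟩ := h3
    rcases hF1.2.2 m 1 (by rw [hm]; ring) (by norm_num) with h4 | h4
    · apply hF1.2.1; rw [hm, h4]; norm_num
    · apply hF1.2.1; rw [hm, h4]; norm_num
  have hFD : FiniteDimensional ℚ E.1 := Module.finite_of_finrank_pos (by rw [E.2]; norm_num)
  have hsE : s ∈ E.1 := by rw [hE]; exact IntermediateField.mem_adjoin_simple_self ℚ _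
  have hs₁E : s₁ ∈ E.1 := by rw [hE₁]; exact IntermediateField.mem_adjoin_simple_self ℚ _
  let v : Fin 3 → E.1 := ![1, ⟨s, hsE⟩, ⟨s₁, hs₁E⟩]
  have hv : ¬ LinearIndependent ℚ v := by
    intro hli
    have := hli.fintype_card_le_finrank
    rw [E.2] at this
    simp at this
  rw [Fintype.not_linearIndependent_iff] at hv
  obtain ⟨g, hg, i, hi⟩ := hv
  have hg' : (g 0 : ℚ) • (1 : AlgebraicClosure ℚ) + g 1 • s + g 2 • s₁ = 0 := by
    have := congrArg (fun x : E.1 => (x : AlgebraicClosure ℚ)) hg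
    simpa [Fin.sum_univ_three, v] using this
  simp only [Algebra.smul_def, mul_one] at hg'
  set A := algebraMap ℚ (AlgebraicClosure ℚ) with hA
  have hAinj : Function.Injective A := A.injective
  have hAD : A (D : ℚ) = s ^ 2 := by rw [hs]; simp
  have hAD₁ : A (D₁ : ℚ) = s₁ ^ 2 := by rw [hs₁]; simp
  have hg2 : g 2 ≠ 0 := by
    intro h0
    rw [h0, map_zero, zero_mul, add_zero] at hg'
    have h1 : A (g 1 ^ 2 * D) = A (g 0 ^ 2) := by
      rw [map_mul, hAD, map_pow, map_pow]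
      linear_combination (A (g 1) * s - A (g 0)) * hg'
    have h2 := hAinj h1
    by_cases hg1 : g 1 = 0
    · have h3 : g 0 = 0 := by
        rw [hg1] at h2
        have h3 : g 0 ^ 2 = 0 := by rw [← h2]; ring
        exact pow_eq_zero_iff (two_ne_zero) |>.mp h3
      fin_cases i
      · exact hi h3
      · exact hi hg1
      · exact hi h0
    · apply hnsq (g 0 / g 1)
      rw [div_pow, ← h2]
      field_simp
  have hg0 : g 0 = 0 := by
    by_contra h0
    -- `s₁` is rational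
    have h1 : A (g 1 ^ 2 * D - g 0 ^ 2 - g 2 ^ 2 * D₁) = A (2 * g 0 * g 2) * s₁ := by
      simp only [map_sub, map_mul, map_pow, hAD, hAD₁, map_ofNat]
      linear_combination (A (g 1) * s - A (g 0) - A (g 2) * s₁) * hg'
    have h2 : (2 * g 0 * g 2) ^ 2 * D₁ = (g 1 ^ 2 * D - g 0 ^ 2 - g 2 ^ 2 * D₁) ^ 2 := by
      apply hAinj
      rw [map_pow, h1, map_mul, map_pow, hAD₁]
      ring
    apply hnsq₁ ((g 1 ^ 2 * D - g 0 ^ 2 - g 2 ^ 2 * D₁) / (2 * g 0 * g 2))
    rw [div_pow, ← h2]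
    field_simp
  have h1 : (D₁ : ℚ) = (g 1 / g 2) ^ 2 * D := by
    have h2 : g 1 ^ 2 * (D : ℚ) = g 2 ^ 2 * D₁ := by
      apply hAinj
      rw [hg0, map_zero, zero_add] at hg'
      simp only [map_mul, map_pow, hAD, hAD₁]
      linear_combination (A (g 1) * s - A (g 2) * s₁) * hg'
    rw [div_pow, div_mul_eq_mul_div, h2]
    field_simp
  exact (k09_eq h hF1 _ h1).symm

end Pool.Agent.Lib.H60M
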