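import Pool.Agent.Lib.H60M.K07
import Pool.Agent.Lib.H60M.K04
import Pool.Agent.Lib.H60M.K05
import Pool.Agent.Lib.H60M.K08
import Pool.Agent.Lib.H60M.K09

/-!
# H60M K10 (M): sums over quadratic fields as sums over fundamental discriminants

PROOF. `E ↦ E.disc` is a bijection from `QuadExt` to `{D | IsFund D}` (K08, K09, isFund_discr). The set of the `E` with `|disc| < x` is finite (QuadExt.finite_disc_lt).
-/

set_option autoImplicit false

open Filter Topology
open Pool.Agent.Lib.Maass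

namespace Pool.Agent.Lib.H60M

theorem card_quad (P : ℤ → Prop) (x : ℝ) :
    (Nat.card {E : QuadExt // |(E.disc : ℝ)| < x ∧ P E.disc} : ℝ) = sm (fun D => IsFund D ∧ P D) (fun _ => 1) x := by
  classical
  unfold sm
  rw [Finset.sum_const, nsmul_eq_mul, mul_one]
  set T : Finset ℤ := (Finset.Icc (-⌈x⌉) ⌈x⌉).filter (fun d : ℤ => |(d : ℝ)| < x ∧ (IsFund d ∧ P d)) with hT
  have hmem : ∀ d : ℤ, d ∈ T ↔ |(d : ℝ)| < x ∧ IsFund d ∧ P d := by
    intro d
    rw [hT, Finset.mem_filter, Finset.mem_Icc]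
    refine ⟨fun h => h.2, fun h => ⟨?_, h⟩⟩
    have h1 : |d| < ⌈x⌉ := by
      rw [Int.lt_ceil]
      exact_mod_cast h.1
    rw [abs_lt] at h1
    exact ⟨h1.1.le, h1.2.le⟩
  have h1 : Nat.card {E : QuadExt // |(E.disc : ℝ)| < x ∧ P E.disc} = Nat.card T := by
    refine Nat.card_congr (Equiv.ofBijective
      (fun E => (⟨E.1.disc, (hmem _).2 ⟨E.2.1, isFund_discr E.1.1 E.1.2, E.2.2⟩⟩ : T)) ⟨?_, ?_⟩)
    · intro E E' h
      apply Subtype.ext
      exact disc_injective (congrArg Subtype.val h)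
    · rintro ⟨d, hd⟩
      obtain ⟨h2, h3, h4⟩ := (hmem d).1 hd
      obtain ⟨E, hE⟩ := disc_surj d h3
      refine ⟨⟨E, by rw [hE]; exact ⟨h2, h4⟩⟩, ?_⟩
      apply Subtype.ext
      exact hE
  rw [h1, Nat.card_eq_fintype_card, Fintype.card_coe]
  refine congrArg (fun s : Finset ℤ => (s.card : ℝ)) ?_
  rw [hT]
  ext d
  simp only [Finset.mem_filter]

end Pool.Agent.Lib.H60M
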