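import Pool.Agent.Lib.H60M.K10

/-!
# H60M K11 (M): the two densities

`h w N D = ∏_{q ∣ N} (1 if q ∣ D, w q · kron D q otherwise)`.
PROOF. `M = 16 ∏_{q ∣ N, q ≠ 2} q²`, `P = N.primeFactors.erase 2`. By fund_iff (K05) `IsFund D ↔ D ≠ 1 ∧ sf M D ∧ ch2 D ∧ ∀ q ∈ P, ¬ q² ∣ D`
(a prime divides `M` iff it is `2` or in `P`). The term `D = 1` changes the sums by at most `1`.
(a) `G(D) = 1[ch2 D] ∏_{q ∈ P} 1[q² ∤ D]`: mean `3/8 ∏_{q ∈ P} (1 - 1/q²) > 0` (mean_two, mean_sf, mean_mul, mean_prod).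
(b) `G'(D) = 1[ch2 D] (2-part of h) ∏_{q ∈ P} (1[q² ∤ D] · q-part of h)`: mean `3/8 (1/3 if 2 ∣ N) ∏_{q ∈ P} (1 - 1/q²) (1/(q+1))` (mean_two_loc, mean_loc).
sieve_density for both, with the same `M` and so the same `Z`: the quotient of the sums tends to the quotient of the means.
`A = 2 Z · 3/8 ∏_{q ∈ P} (1 - 1/q²)`.
-/

set_option autoImplicit false

open Filter Topology
open Pool.Agent.Lib.Maass

namespace Pool.Agent.Lib.H60M

private theorem k11_per {G : ℤ → ℝ} {M : ℕ} (hG : ∀ d, G (d + M) = G d) {M' : ℕ} (h : M ∣ M') (d : ℤ) :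
    G (d + M') = G d := by
  obtain ⟨k, rfl⟩ := h
  have h : Function.Periodic G (M : ℤ) := hG
  have h1 := h.zsmul (k : ℤ)
  rw [smul_eq_mul] at h1
  have h2 := h1 d
  rw [← h2]
  congr 1
  push_cast
  ring

/-- The odd prime factors. -/
private def Pod (N : ℕ) : Finset ℕ := N.primeFactors.erase 2

private theorem mem_Pod {N q : ℕ} : q ∈ Pod N ↔ q ≠ 2 ∧ q ∈ N.primeFactors := by
  unfold Pod
  rw [Finset.mem_erase]

private theorem Pod_prime {N q : ℕ} (h : q ∈ Pod N) : q.Prime := Nat.prime_of_mem_primeFactors (mem_Pod.1 h).2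

/-- The modulus. -/
private def Md (N : ℕ) : ℕ := 16 * ∏ q ∈ Pod N, q ^ 2

private theorem Md_pos (N : ℕ) : 0 < Md N :=
  Nat.mul_pos (by norm_num) (Finset.prod_pos fun _ hq => pow_pos (Pod_prime hq).pos 2)

private theorem dvd_Md {N q : ℕ} (hq : q.Prime) (h : q ∣ Md N) : q = 2 ∨ q ∈ Pod N := by
  unfold Md at h
  rcases (Nat.Prime.dvd_mul hq).1 h with h | h
  · left
    have h1 : q ∣ 2 ^ 4 := by simpa using h
    exact (Nat.prime_dvd_prime_iff_eq hq Nat.prime_two).1 (hq.dvd_of_dvd_pow h1)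
  · right
    obtain ⟨r, hr, hqr⟩ := (Prime.dvd_finsetProd_iff hq.prime _).1 h
    have h1 := (Nat.prime_dvd_prime_iff_eq hq (Pod_prime hr)).1 (hq.dvd_of_dvd_pow hqr)
    rwa [h1]

private theorem sq_dvd_Md {N q : ℕ} (h : q ∈ Pod N) : q ^ 2 ∣ Md N :=
  Dvd.dvd.mul_left (Finset.dvd_prod_of_mem (fun q : ℕ => q ^ 2) h) _

private theorem mean_gen (N : ℕ) (a : ℤ → ℝ) (b : ℕ → ℤ → ℝ) (ha : ∀ d, a (d + 16) = a d)
    (hb : ∀ q ∈ Pod N, ∀ d, b q (d + (q : ℤ) ^ 2) = b q d) :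
    mean (Md N) (fun d => a d * ∏ q ∈ Pod N, b q d) = mean 16 a * ∏ q ∈ Pod N, mean (q ^ 2) (b q) := by
  have hpos : ∀ q ∈ Pod N, 0 < q ^ 2 := fun q hq => pow_pos (Pod_prime hq).pos 2
  have hb' : ∀ q ∈ Pod N, ∀ d, b q (d + ((q ^ 2 : ℕ) : ℤ)) = b q d := fun q hq d => by
    push_cast
    exact hb q hq d
  have h1 := mean_mul 16 (∏ q ∈ Pod N, q ^ 2) (by norm_num) (Finset.prod_pos hpos)
    (Nat.Coprime.prod_right fun q hq => by
      have h2 : Nat.Coprime 2 q := (Nat.coprime_primes Nat.prime_two (Pod_prime hq)).2 (Ne.symm (mem_Pod.1 hq).1)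
      have h3 : (16 : ℕ) = 2 ^ 4 := by norm_num
      rw [h3]
      exact Nat.Coprime.pow 4 2 h2) a (fun d => ∏ q ∈ Pod N, b q d) ha (fun d =>
      Finset.prod_congr rfl fun q hq => k11_per (hb' q hq) (Finset.dvd_prod_of_mem (fun q : ℕ => q ^ 2) hq) d)
  have h2 := mean_prod (Pod N) (fun q => q ^ 2) hpos
    (fun q hq r hr hqr => Nat.Coprime.pow 2 2 ((Nat.coprime_primes (Pod_prime hq) (Pod_prime hr)).2 hqr)) b hb'
  rw [← h2]
  exact h1

private theorem per_gen (N : ℕ) (a : ℤ → ℝ) (b : ℕ → ℤ → ℝ) (ha : ∀ d, a (d + 16) = a d)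
    (hb : ∀ q ∈ Pod N, ∀ d, b q (d + (q : ℤ) ^ 2) = b q d) (d : ℤ) :
    a (d + (Md N : ℕ)) * ∏ q ∈ Pod N, b q (d + (Md N : ℕ)) = a d * ∏ q ∈ Pod N, b q d := by
  have ha' : ∀ d, a (d + ((16 : ℕ) : ℤ)) = a d := ha
  have h16 : 16 ∣ Md N := Dvd.intro (∏ q ∈ Pod N, q ^ 2) rfl
  rw [k11_per ha' h16 d]
  congr 1
  refine Finset.prod_congr rfl fun q hq => ?_
  have hb' : ∀ d, b q (d + ((q ^ 2 : ℕ) : ℤ)) = b q d := fun d => by
    push_cast
    exact hb q hq d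
  exact k11_per hb' (sq_dvd_Md hq) d

open Classical in
private theorem k11_sm (A : ℤ → Prop) (G : ℤ → ℝ) (x : ℝ) :
    sm A G x = ∑ d ∈ (Finset.Icc (-⌈x⌉) ⌈x⌉).filter (fun d : ℤ => |(d : ℝ)| < x), (if A d then G d else 0) := by
  unfold sm
  rw [← Finset.sum_filter, Finset.filter_filter]

open Classical in
/-- Two sums which differ in the term `D = 1` only. -/
private theorem k11_lim {A A' : ℤ → Prop} {G G' : ℤ → ℝ} {c : ℝ}
    (h : ∀ D, D ≠ 1 → (if A D then G D else 0) = (if A' D then G' D else 0))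
    (hl : Tendsto (fun x : ℝ => sm A' G' x / x) atTop (𝓝 c)) : Tendsto (fun x : ℝ => sm A G x / x) atTop (𝓝 c) := by
  set K : ℝ := |(if A 1 then G 1 else 0) - (if A' 1 then G' 1 else 0)| with hK
  have h1 : ∀ x : ℝ, |sm A G x - sm A' G' x| ≤ K := by
    intro x
    rw [k11_sm, k11_sm, ← Finset.sum_sub_distrib]
    refine (Finset.abs_sum_le_sum_abs _ _).trans ?_
    have h2 : ∀ d : ℤ, |(if A d then G d else 0) - (if A' d then G' d else 0)| = if d = 1 then K else 0 := by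
      intro d
      by_cases hd : d = 1
      · subst hd
        rw [if_pos rfl]
      · rw [if_neg hd, h d hd, sub_self, abs_zero]
    rw [Finset.sum_congr rfl fun d _ => h2 d, Finset.sum_ite_eq']
    split_ifs
    · exact le_rfl
    · exact abs_nonneg _
  have h3 : Tendsto (fun x : ℝ => (sm A G x - sm A' G' x) / x) atTop (𝓝 0) := by
    have h4 : Tendsto (fun x : ℝ => K / x) atTop (𝓝 0) := tendsto_const_nhds.div_atTop tendsto_id
    refine squeeze_zero_norm' ?_ h4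
    filter_upwards [eventually_gt_atTop 0] with x hx
    rw [Real.norm_eq_abs, abs_div, abs_of_pos hx]
    gcongr
    exact h1 x
  have h5 := hl.add h3
  rw [add_zero] at h5
  refine h5.congr fun x => ?_
  ring

private theorem fund_iff' (N : ℕ) {D : ℤ} (hD : D ≠ 1) :
    IsFund D ↔ sf (Md N) D ∧ ch2 D ∧ ∀ q ∈ Pod N, ¬ (q : ℤ) ^ 2 ∣ D := by
  rw [fund_iff]
  constructor
  · rintro ⟨-, h2, h3⟩
    refine ⟨⟨?_, fun q hq hqM => ?_⟩, h2, fun q hq => h3 q (Pod_prime hq) (mem_Pod.1 hq).1⟩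
    · rintro rfl
      unfold ch2 at h2
      norm_num at h2
    · refine h3 q hq ?_
      rintro rfl
      exact hqM (Dvd.intro_left (8 * ∏ q ∈ Pod N, q ^ 2) (by unfold Md; ring))
  · rintro ⟨h1, h2, h3⟩
    refine ⟨hD, h2, fun q hq hq2 => ?_⟩
    by_cases hqM : q ∣ Md N
    · rcases dvd_Md hq hqM with h | h
      · exact absurd h hq2
      · exact h3 q h
    · exact h1.2 q hq hqM

/-- The product of the local weights. -/
noncomputable def hw (w : ℕ → ℤˣ) (N : ℕ) (D : ℤ) : ℤ :=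
  ∏ q ∈ N.primeFactors, (if (q : ℤ) ∣ D then 1 else (w q : ℤ) * kron D q)

theorem two_densities (w : ℕ → ℤˣ) (N : ℕ) : ∃ A : ℝ, 0 < A ∧
    Tendsto (fun x : ℝ => sm (fun D => IsFund D) (fun _ => 1) x / x) atTop (𝓝 A) ∧
    Tendsto (fun x : ℝ => sm (fun D => IsFund D) (fun D => (hw w N D : ℝ)) x / x) atTop (𝓝 (A * ∏ q ∈ N.primeFactors, (1 / ((q : ℝ) + 1)))) := by
  classical
  obtain ⟨Z, hZ, hden⟩ := sieve_density (Md N) (Md_pos N)
  -- the local functions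
  set a : ℤ → ℝ := fun d => if ch2 d then 1 else 0 with ha
  set b : ℕ → ℤ → ℝ := fun q d => if ((q : ℤ) ^ 2 ∣ d) then 0 else 1 with hb
  set a' : ℤ → ℝ := fun d => if ch2 d then (if 2 ∈ N.primeFactors then
    (if (2 : ℤ) ∣ d then 1 else ((w 2 : ℤ) : ℝ) * (kron d 2 : ℝ)) else 1) else 0 with ha'
  set b' : ℕ → ℤ → ℝ := fun q d => if ((q : ℤ) ^ 2 ∣ d) then 0 else if ((q : ℤ) ∣ d) then 1 else
    ((w q : ℤ) : ℝ) * (kron d q : ℝ) with hb'
  have hdv : ∀ (q : ℕ) (d : ℤ), ((q : ℤ) ^ 2 ∣ d + (q : ℤ) ^ 2) ↔ ((q : ℤ) ^ 2 ∣ d) := fun q d =>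
    dvd_add_left (dvd_refl _)
  have hdv1 : ∀ (q : ℕ) (d : ℤ), ((q : ℤ) ∣ d + (q : ℤ) ^ 2) ↔ ((q : ℤ) ∣ d) := fun q d =>
    dvd_add_left (dvd_pow_self _ (by norm_num))
  have hdv2 : ∀ d : ℤ, ((2 : ℤ) ∣ d + 16) ↔ ((2 : ℤ) ∣ d) := fun d => dvd_add_left (by norm_num)
  have pa : ∀ d, a (d + 16) = a d := fun d => by
    simp only [ha, ch2_per]
  have pa' : ∀ d, a' (d + 16) = a' d := fun d => by
    simp only [ha', ch2_per, hdv2, kron_two_per]
  have pb : ∀ q ∈ Pod N, ∀ d, b q (d + (q : ℤ) ^ 2) = b q d := fun q _ d => by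
    simp only [hb, hdv]
  have pb' : ∀ q ∈ Pod N, ∀ d, b' q (d + (q : ℤ) ^ 2) = b' q d := fun q hq d => by
    simp only [hb', hdv, hdv1, kron_per q (Pod_prime hq) (mem_Pod.1 hq).1]
  have mG : mean (Md N) (fun d => a d * ∏ q ∈ Pod N, b q d) = 3 / 8 * ∏ q ∈ Pod N, (1 - 1 / (q : ℝ) ^ 2) := by
    rw [mean_gen N a b pa pb]
    congr 1
    · exact mean_two
    · exact Finset.prod_congr rfl fun q hq => mean_sf q (Pod_prime hq)
  have ma' : mean 16 a' = 3 / 8 * (if 2 ∈ N.primeFactors then 1 / 3 else 1) := by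
    by_cases h2 : 2 ∈ N.primeFactors
    · simp only [ha', if_pos h2]
      exact mean_two_loc _
    · simp only [ha', if_neg h2]
      rw [mul_one]
      exact mean_two
  have mG' : mean (Md N) (fun d => a' d * ∏ q ∈ Pod N, b' q d) =
      (3 / 8 * ∏ q ∈ Pod N, (1 - 1 / (q : ℝ) ^ 2)) * ∏ q ∈ N.primeFactors, (1 / ((q : ℝ) + 1)) := by
    rw [mean_gen N a' b' pa' pb', ma']
    have e1 : ∏ q ∈ Pod N, mean (q ^ 2) (b' q) = ∏ q ∈ Pod N, ((1 - 1 / (q : ℝ) ^ 2) * (1 / ((q : ℝ) + 1))) :=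
      Finset.prod_congr rfl fun q hq => mean_loc q (Pod_prime hq) (mem_Pod.1 hq).1 _
    rw [e1, Finset.prod_mul_distrib]
    have e2 : ∏ q ∈ N.primeFactors, (1 / ((q : ℝ) + 1)) =
        (if 2 ∈ N.primeFactors then 1 / 3 else 1) * ∏ q ∈ Pod N, (1 / ((q : ℝ) + 1)) := by
      by_cases h2 : 2 ∈ N.primeFactors
      · rw [if_pos h2, Pod, ← Finset.mul_prod_erase _ _ h2]
        norm_num
      · rw [if_neg h2, Pod, Finset.erase_eq_of_notMem h2, one_mul]
    rw [e2]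
    ring
  have hpr : 0 < ∏ q ∈ Pod N, (1 - 1 / (q : ℝ) ^ 2) := by
    refine Finset.prod_pos fun q hq => ?_
    have h1 : (2 : ℝ) ≤ q := by exact_mod_cast (Pod_prime hq).two_le
    rw [sub_pos, div_lt_one (by positivity)]
    nlinarith
  refine ⟨2 * Z * (3 / 8 * ∏ q ∈ Pod N, (1 - 1 / (q : ℝ) ^ 2)), by positivity, ?_, ?_⟩
  · have h1 := hden (fun d => a d * ∏ q ∈ Pod N, b q d) (per_gen N a b pa pb)
    rw [mG] at h1
    refine k11_lim (fun D hD => ?_) h1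
    have hf := fund_iff' N hD
    by_cases hF : IsFund D
    · obtain ⟨h2, h3, h4⟩ := hf.1 hF
      rw [if_pos hF, if_pos h2]
      simp only [ha, hb]
      rw [if_pos h3, one_mul]
      refine (Finset.prod_eq_one fun q hq => ?_).symm
      rw [if_neg (h4 q hq)]
    · rw [if_neg hF]
      split_ifs with h2
      · simp only [ha, hb]
        by_cases h3 : ch2 D
        · obtain ⟨q, hq, hqD⟩ : ∃ q ∈ Pod N, (q : ℤ) ^ 2 ∣ D := by
            by_contra hcon
            push Not at hcon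
            exact hF (hf.2 ⟨h2, h3, hcon⟩)
          rw [Finset.prod_eq_zero hq (by rw [if_pos hqD]), mul_zero]
        · rw [if_neg h3, zero_mul]
      · rfl
  · have h1 := hden (fun d => a' d * ∏ q ∈ Pod N, b' q d) (per_gen N a' b' pa' pb')
    rw [mG'] at h1
    rw [mul_assoc]
    refine k11_lim (fun D hD => ?_) h1
    have hf := fund_iff' N hD
    by_cases hF : IsFund D
    · obtain ⟨h2, h3, h4⟩ := hf.1 hF
      rw [if_pos hF, if_pos h2]
      have e3 : ∏ q ∈ Pod N, b' q D = ∏ q ∈ Pod N, (if ((q : ℤ) ∣ D) then 1 else ((w q : ℤ) : ℝ) * (kron D q : ℝ)) := by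
        refine Finset.prod_congr rfl fun q hq => ?_
        simp only [hb']
        rw [if_neg (h4 q hq)]
      have e4 : (hw w N D : ℝ) = ∏ q ∈ N.primeFactors, (if ((q : ℤ) ∣ D) then 1 else ((w q : ℤ) : ℝ) * (kron D q : ℝ)) := by
        unfold hw
        push_cast
        rfl
      rw [e3, e4]
      simp only [ha']
      rw [if_pos h3]
      by_cases h5 : 2 ∈ N.primeFactors
      · rw [if_pos h5, Pod, ← Finset.mul_prod_erase _ _ h5]
        rfl
      · rw [if_neg h5, Pod, Finset.erase_eq_of_notMem h5, one_mul]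
    · rw [if_neg hF]
      split_ifs with h2
      · by_cases h3 : ch2 D
        · obtain ⟨q, hq, hqD⟩ : ∃ q ∈ Pod N, (q : ℤ) ^ 2 ∣ D := by
            by_contra hcon
            push Not at hcon
            exact hF (hf.2 ⟨h2, h3, hcon⟩)
          rw [Finset.prod_eq_zero hq (by simp only [hb']; rw [if_pos hqD]), mul_zero]
        · simp only [ha']
          rw [if_neg h3, zero_mul]
      · rfl

/-- PROOF. A product of `± 1` (kron_pm, K03). -/
theorem hw_pm (w : ℕ → ℤˣ) (N : ℕ) (D : ℤ) : hw w N D = 1 ∨ hw w N D = -1 := by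
  unfold hw
  refine Finset.prod_induction _ (fun z : ℤ => z = 1 ∨ z = -1) ?_ (Or.inl rfl) ?_
  · rintro a b (rfl | rfl) (rfl | rfl) <;> simp
  · intro q hq
    split_ifs with h
    · exact Or.inl rfl
    · rcases kron_pm q (Nat.prime_of_mem_primeFactors hq) D h with h1 | h1 <;>
        rcases Int.units_eq_one_or (w q) with h2 | h2 <;> simp [h1, h2]

end Pool.Agent.Lib.H60M
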