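import Pool.Agent.Lib.H60M.K11
import Pool.Agent.Lib.H60M.Defs

/-!
# H60M K12 (S/M): the density of root number `+1`

PROOF. `F.rootNumber E = - hw F.al N E.disc` (etaQ_eq_kron), and `= ± 1` (hw_pm); the number of `E` with root number `1` is the sum of `(1 - hw)/2` over the fundamental discriminants (card_quad with
`P D = (hw D = -1)`, and `NN x` = card_quad with `P = True`; the indicator of `hw = -1` is `(1 - hw)/2`). two_densities.
-/

set_option autoImplicit false

open Filter Topology
open Pool.Agent.Lib.Maass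

namespace Pool.Agent.Lib.H60M

theorem k12_root {N : ℕ} (F : MaassNewform N) (E : QuadExt) : F.rootNumber E = -hw F.al N E.disc := by
  unfold MaassNewform.rootNumber hw
  congr 1
  refine Finset.prod_congr rfl fun q hq => ?_
  rw [etaQ_eq_kron E.1 E.2 (Nat.prime_of_mem_primeFactors hq)]
  rfl

theorem root_pm {N : ℕ} (F : MaassNewform N) (E : QuadExt) : F.rootNumber E = 1 ∨ F.rootNumber E = -1 := by
  rw [k12_root]
  rcases hw_pm F.al N E.disc with h | h <;> rw [h] <;> simp

theorem k12_sum (w : ℕ → ℤˣ) (N : ℕ) (x : ℝ) : sm (fun D => IsFund D ∧ hw w N D = -1) (fun _ => 1) x =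
    (sm (fun D => IsFund D) (fun _ => 1) x - sm (fun D => IsFund D) (fun D => (hw w N D : ℝ)) x) / 2 := by
  classical
  unfold sm
  rw [← Finset.sum_sub_distrib, Finset.sum_div, Finset.sum_filter, Finset.sum_filter]
  refine Finset.sum_congr rfl fun d _ => ?_
  by_cases h : |(d : ℝ)| < x ∧ IsFund d
  · rw [if_pos h]
    rcases hw_pm w N d with h1 | h1
    · rw [if_neg (by rintro ⟨-, -, h2⟩; rw [h1] at h2; omega), h1]
      norm_num
    · rw [if_pos ⟨h.1, h.2, h1⟩, h1]
      norm_num
  · rw [if_neg h, if_neg (fun h2 => h ⟨h2.1, h2.2.1⟩)]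

theorem nplus_density {N : ℕ} (F : MaassNewform N) : Tendsto (fun x : ℝ => (Nplus F x : ℝ) / (NN x : ℝ)) atTop (𝓝 (dplus N)) := by
  obtain ⟨A, hA, h1, h2⟩ := two_densities F.al N
  have e1 : ∀ x : ℝ, (Nplus F x : ℝ) = (sm (fun D => IsFund D) (fun _ => 1) x -
      sm (fun D => IsFund D) (fun D => (hw F.al N D : ℝ)) x) / 2 := by
    intro x
    rw [← k12_sum, ← card_quad]
    unfold Nplus
    congr 1
    refine Nat.card_congr (Equiv.subtypeEquivRight fun E => ?_)
    rw [k12_root, neg_eq_iff_eq_neg]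
  have e2 : ∀ x : ℝ, (NN x : ℝ) = sm (fun D => IsFund D) (fun _ => 1) x := by
    intro x
    have h3 := card_quad (fun _ => True) x
    simp only [and_true] at h3
    exact h3
  have h4 : Tendsto (fun x : ℝ => ((sm (fun D => IsFund D) (fun _ => 1) x / x -
      sm (fun D => IsFund D) (fun D => (hw F.al N D : ℝ)) x / x) / 2) / (sm (fun D => IsFund D) (fun _ => 1) x / x)) atTop
      (𝓝 (((A - A * ∏ q ∈ N.primeFactors, (1 / ((q : ℝ) + 1))) / 2) / A)) := ((h1.sub h2).div_const 2).div h1 hA.ne'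
  have h5 : ((A - A * ∏ q ∈ N.primeFactors, (1 / ((q : ℝ) + 1))) / 2) / A = dplus N := by
    unfold dplus
    field_simp
  rw [h5] at h4
  refine h4.congr' ?_
  filter_upwards [eventually_gt_atTop 0] with x hx
  rw [e1, e2, ← sub_div, div_right_comm _ x (2 : ℝ), div_div_div_cancel_right₀ hx.ne']

end Pool.Agent.Lib.H60M
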