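import Pool.Agent.Lib.H60M.Defs

/-!
# H60M L01 (M): Atkin-Lehner operators for composite `Q ∣ N`

PROOF. Induction on the number of prime factors of `Q` (N squarefree, so `Q` squarefree; strong induction on `Q`). `Q = 1`: the matrix is `(a b; N c d) ∈ Γ₀(N)` (map_smul', `coe_specialLinearGroup_apply`,
as in the proof of Maass.fricke_aux). `Q = p Q'`, `p` prime, `p ∤ Q'`: choose an integer matrix `A_p = (p a₁ b₁; N c₁ p d₁)` of determinant `p` (exists: `gcd(p, N/p) = 1`, Bezout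
`p x - (N/p) y = 1`, take `a₁ = x, d₁ = 1, b₁ = y, c₁ = 1`). Then `A_Q' := A_p⁻¹ A = (1/p) (p d₁ , -b₁; -N c₁, p a₁)(Q a, b; N c, Q d)` has entries
`Q' p d₁ a - b₁ (N/p) c` (divisible by `Q'` as `Q' ∣ N/p`), `d₁ b - b₁ Q' d`, `N (-c₁ Q' a + a₁ c)`, `-(N/p) c₁ b + a₁ Q d` (divisible by `Q'`), determinant `Q'`. So
`f(A z) = f(A_p (A_Q' z)) = w_p f(A_Q' z) = w_p alQ(Q') f(z)`. All points stay in the upper half-plane (determinants are positive).
-/

set_option autoImplicit false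

open UpperHalfPlane Complex CongruenceSubgroup Filter Topology
open scoped MatrixGroups ContDiff Real
open Pool.Agent.Lib.Maass

namespace Pool.Agent.Lib.H60M

variable {N : ℕ}

/-- The eigenvalue of `W_Q`. -/
def alQ (F : MaassNewform N) (Q : ℕ) : ℤ := ∏ p ∈ Q.primeFactors, (F.al p : ℤ)

theorem l01_den (C D : ℤ) (z : ℍ) (h : C ≠ 0 ∨ D ≠ 0) : (C : ℂ) * z + D ≠ 0 := by
  intro h0
  have h1 := congrArg Complex.im h0
  have h2 : (C : ℝ) * z.im = 0 := by
    simpa using h1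
  have h3 : (C : ℝ) = 0 := by
    rcases mul_eq_zero.1 h2 with h3 | h3
    · exact h3
    · exact absurd h3 z.im_pos.ne'
  have h4 : C = 0 := by exact_mod_cast h3
  rw [h4, Int.cast_zero, zero_mul, zero_add] at h0
  have h5 : D = 0 := by exact_mod_cast h0
  rcases h with h | h
  · exact h h4
  · exact h h5

theorem l01_ne {A B C D : ℤ} (h : 0 < A * D - B * C) : C ≠ 0 ∨ D ≠ 0 := by
  by_contra hc
  rw [not_or, not_not, not_not] at hc
  rw [hc.1, hc.2, mul_zero, mul_zero, sub_zero] at h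
  exact lt_irrefl _ h

theorem l01_im {A B C D : ℤ} (h : 0 < A * D - B * C) (z : ℍ) : 0 < (((A : ℂ) * z + B) / ((C : ℂ) * z + D)).im := by
  have hd := l01_den C D z (l01_ne h)
  have hn : 0 < Complex.normSq ((C : ℂ) * z + D) := Complex.normSq_pos.2 hd
  have e : (((A : ℂ) * z + B) / ((C : ℂ) * z + D)).im = ((A * D - B * C : ℤ) : ℝ) * z.im / Complex.normSq ((C : ℂ) * z + D) := by
    rw [Complex.div_im]
    have e1 : ((A : ℂ) * z + B).im = (A : ℝ) * z.im := by simp
    have e2 : ((C : ℂ) * z + D).im = (C : ℝ) * z.im := by simp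
    have e3 : ((A : ℂ) * z + B).re = (A : ℝ) * z.re + B := by simp
    have e4 : ((C : ℂ) * z + D).re = (C : ℝ) * z.re + D := by simp
    rw [e1, e2, e3, e4]
    push_cast
    ring
  rw [e]
  have h1 : (0 : ℝ) < ((A * D - B * C : ℤ) : ℝ) := by exact_mod_cast h
  have := z.im_pos
  positivity

theorem l01_main (hN : Squarefree N) (F : MaassNewform N) (Q : ℕ) : Q ∣ N → ∀ (a b c d : ℤ), (Q * a) * (Q * d) - b * (N * c) = Q → ∀ (z : ℍ),
    F.toFun (ofComplex ((Q * a * z + b) / (N * c * z + Q * d))) = (alQ F Q : ℂ) * F.toFun z := by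
  have hN0 : N ≠ 0 := hN.ne_zero
  induction Q using induction_on_primes with
  | zero =>
    intro h
    exact absurd (zero_dvd_iff.1 h) hN0
  | one =>
    intro _ a b c d h z
    have hdet : Matrix.det !![a, b; (N : ℤ) * c, d] = 1 := by
      rw [Matrix.det_fin_two_of]
      rw [Nat.cast_one] at h
      linear_combination h
    obtain ⟨γ, hγ⟩ : ∃ γ : SL(2, ℤ), (γ : Matrix (Fin 2) (Fin 2) ℤ) = !![a, b; (N : ℤ) * c, d] := ⟨⟨_, hdet⟩, rfl⟩
    have hmem : γ ∈ Gamma0 N := by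
      rw [Gamma0_mem]
      have e : γ.1 1 0 = (N : ℤ) * c := by
        rw [hγ]
        rfl
      rw [e]
      push_cast
      rw [ZMod.natCast_self, zero_mul]
    have h1 : (alQ F 1 : ℂ) = 1 := by
      simp [alQ]
    rw [h1, one_mul, ← F.map_smul' γ hmem z]
    congr 1
    apply UpperHalfPlane.ext
    have him := l01_im (A := a) (B := b) (C := N * c) (D := d) (by rw [Nat.cast_one] at h; linarith) z
    have e0 : (((1 : ℕ) : ℂ) * a * z + b) / (N * c * z + ((1 : ℕ) : ℂ) * d) = ((a : ℂ) * z + b) / (((N * c : ℤ) : ℂ) * z + d) := by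
      push_cast
      ring
    rw [e0, ofComplex_apply_of_im_pos him, coe_specialLinearGroup_apply]
    simp only [hγ, Matrix.of_apply, Matrix.cons_val', Matrix.cons_val_zero, Matrix.cons_val_one,
      algebraMap_int_eq, Int.coe_castRingHom]
    push_cast
    rfl
  | prime_mul p Q' hp ih =>
    intro hQ a b c d h z
    have hpN : p ∣ N := (Dvd.intro _ rfl).trans hQ
    have hQN : Q' ∣ N := (Dvd.intro_left _ rfl).trans hQ
    obtain ⟨M', hM'⟩ := hQ
    have hsq : Squarefree (p * Q') := hN.squarefree_of_dvd (Dvd.intro _ hM'.symm)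
    have hcop : Nat.Coprime p Q' := (Nat.squarefree_mul_iff.1 hsq).1
    have hcopM : Nat.Coprime p (Q' * M') := by
      have h1 : Squarefree (p * (Q' * M')) := by
        rw [← mul_assoc, ← hM']
        exact hN
      exact (Nat.squarefree_mul_iff.1 h1).1
    obtain ⟨x, y, hxy⟩ : ∃ x y : ℤ, (p : ℤ) * x - (Q' * M' : ℤ) * y = 1 := by
      have h1 := (Nat.isCoprime_iff_coprime.2 hcopM)
      obtain ⟨u, v, huv⟩ := h1
      refine ⟨u, -v, ?_⟩
      push_cast at huv
      linear_combination huv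
    have hpz : (p : ℤ) ≠ 0 := by exact_mod_cast hp.ne_zero
    have hQz : (Q' : ℤ) ≠ 0 := by
      have : Q' ≠ 0 := by
        rintro rfl
        rw [mul_zero, zero_mul] at hM'
        exact hN0 hM'
      exact_mod_cast this
    have hNz : (N : ℤ) = p * Q' * M' := by
      rw [hM']
      push_cast
      ring
    have hNc : (N : ℂ) = p * Q' * M' := by exact_mod_cast hNz
    have h1 : (p * Q' * a * d - b * M' * c : ℤ) = 1 := by
      apply mul_left_cancel₀ (mul_ne_zero hpz hQz)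
      rw [hNz] at h
      push_cast at h
      linear_combination h
    have hdet2 : (Q' * (p * a - y * M' * c)) * (Q' * (x * p * d - M' * b)) - (b - y * Q' * d) * (N * (-Q' * a + x * c)) = (Q' : ℤ) := by
      rw [hNz]
      linear_combination (Q' * (p * x - Q' * M' * y) : ℤ) * h1 + (Q' : ℤ) * hxy
    have ih1 := ih hQN (p * a - y * M' * c) (b - y * Q' * d) (-Q' * a + x * c) (x * p * d - M' * b) hdet2 z
    have hdet1 : ((p : ℤ) * x) * (p * 1) - y * (N * 1) = p := by
      rw [hNz]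
      linear_combination (p : ℤ) * hxy
    have hal := F.al' p hp hpN x y 1 1 hdet1 (ofComplex (((Q' : ℂ) * ((p * a - y * M' * c : ℤ) : ℂ) * z + ((b - y * Q' * d : ℤ) : ℂ)) /
      (N * ((-Q' * a + x * c : ℤ) : ℂ) * z + Q' * ((x * p * d - M' * b : ℤ) : ℂ))))
    rw [ih1] at hal
    have hal2 : (alQ F (p * Q') : ℂ) = ((F.al p : ℤ) : ℂ) * (alQ F Q' : ℂ) := by
      have e : alQ F (p * Q') = (F.al p : ℤ) * alQ F Q' := by
        rw [alQ, alQ, hcop.primeFactors_mul, Finset.prod_union hcop.disjoint_primeFactors, hp.primeFactors, Finset.prod_singleton]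
      rw [e, Int.cast_mul]
    rw [hal2, mul_assoc (((F.al p : ℤ) : ℂ)) _ _, ← hal]
    congr 2
    have hpos : 0 < (Q' * (p * a - y * M' * c)) * (Q' * (x * p * d - M' * b)) - (b - y * Q' * d) * (N * (-Q' * a + x * c)) := by
      rw [hdet2]
      exact lt_of_le_of_ne (Int.natCast_nonneg _) hQz.symm
    have him := l01_im hpos z
    have hden := l01_den _ _ z (l01_ne hpos)
    have hpos2 : 0 < (((p * Q' : ℕ) : ℤ) * a) * (((p * Q' : ℕ) : ℤ) * d) - b * (N * c) := by
      rw [h]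
      push_cast
      exact lt_of_le_of_ne (by positivity) (mul_ne_zero hpz hQz).symm
    have hden2 := l01_den _ _ z (l01_ne hpos2)
    have e1 : ((Q' : ℂ) * ((p * a - y * M' * c : ℤ) : ℂ) * z + ((b - y * Q' * d : ℤ) : ℂ)) /
      (N * ((-Q' * a + x * c : ℤ) : ℂ) * z + Q' * ((x * p * d - M' * b : ℤ) : ℂ)) =
      (((Q' * (p * a - y * M' * c) : ℤ) : ℂ) * z + ((b - y * Q' * d : ℤ) : ℂ)) /
      (((N * (-Q' * a + x * c) : ℤ) : ℂ) * z + ((Q' * (x * p * d - M' * b) : ℤ) : ℂ)) := by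
      push_cast
      ring
    rw [e1, ofComplex_apply_of_im_pos him]
    have hxyC : (p : ℂ) * x - (Q' * M' : ℂ) * y = 1 := by exact_mod_cast hxy
    have e2 : (p : ℂ) * x * ((((Q' * (p * a - y * M' * c) : ℤ) : ℂ) * z + ((b - y * Q' * d : ℤ) : ℂ)) /
      (((N * (-Q' * a + x * c) : ℤ) : ℂ) * z + ((Q' * (x * p * d - M' * b) : ℤ) : ℂ))) + y =
      (((p * Q' : ℕ) : ℂ) * a * z + b) / (((N * (-Q' * a + x * c) : ℤ) : ℂ) * z + ((Q' * (x * p * d - M' * b) : ℤ) : ℂ)) := by
      rw [eq_div_iff hden, add_mul, mul_assoc ((p : ℂ) * x), div_mul_cancel₀ _ hden]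
      push_cast
      rw [hNc]
      linear_combination ((p : ℂ) * Q' * a * z + b) * hxyC
    have e3 : (N : ℂ) * ((1 : ℤ) : ℂ) * ((((Q' * (p * a - y * M' * c) : ℤ) : ℂ) * z + ((b - y * Q' * d : ℤ) : ℂ)) /
      (((N * (-Q' * a + x * c) : ℤ) : ℂ) * z + ((Q' * (x * p * d - M' * b) : ℤ) : ℂ))) + p * ((1 : ℤ) : ℂ) =
      (N * c * z + ((p * Q' : ℕ) : ℂ) * d) / (((N * (-Q' * a + x * c) : ℤ) : ℂ) * z + ((Q' * (x * p * d - M' * b) : ℤ) : ℂ)) := by
      rw [eq_div_iff hden, add_mul, mul_assoc ((N : ℂ) * ((1 : ℤ) : ℂ)), div_mul_cancel₀ _ hden]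
      push_cast
      rw [hNc]
      linear_combination ((p : ℂ) * Q' * M' * c * z + p * Q' * d) * hxyC
    rw [e2, e3, div_div_div_cancel_right₀ hden]

theorem al_comp (hN : Squarefree N) (F : MaassNewform N) (Q : ℕ) (hQ : Q ∣ N) (a b c d : ℤ) (h : (Q * a) * (Q * d) - b * (N * c) = Q) (z : ℍ) :
    F.toFun (ofComplex ((Q * a * z + b) / (N * c * z + Q * d))) = (alQ F Q : ℂ) * F.toFun z :=
  l01_main hN F Q hQ a b c d h z

end Pool.Agent.Lib.H60M
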