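import Pool.Agent.Lib.H60M.Defs

/-!
# H60M L02 (M): the operator `U_p` on a newform

PROOF. `N = p M`, `gcd(p, M) = 1`. Choose integers `x, y` with `p x - M y = 1` and `A = (p x, y; N, p)` (`a = x, b = y, c = 1, d = 1`: determinant `p² x - y N = p`). For `j < p` let
`γ_j = (x, x j + y; M, M j + p) ∈ Γ₀(M)` (`= A (1 j; 0 p)/p`, determinant `x (M j + p) - (x j + y) M = 1`), so `F(γ_j z) = F(A((z + j)/p)) = w_p F((z + j)/p)` (al').
`R = {1} ∪ {γ_j : j < p}` satisfies IsReps (Gamma0 N) (Gamma0 M) R: the lower left entry of `γ_j γ_i⁻¹` is `M (M i + p) - (M j + p) M = M² (i - j)`, divisible by `p M` iff `p ∣ i - j`; of `γ_j` it is `M`.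
For `δ = (*, *; M z', t) ∈ Γ₀(M)`: if `p ∣ z'` then `δ ∈ Γ₀(N)`; otherwise the lower left entry of `δ γ_j⁻¹` is `M z' (M j + p) - t M = M (z' M j + z' p - t)`, divisible by `p M` iff `z' M j = t` mod `p`: exactly
one `j` (and then `δ ∉ Γ₀(N)`). new' for `R`: `F(z) + w_p ∑_j F((z + j)/p) = 0`, multiply by `w_p` (`w_p² = 1`).
-/

set_option autoImplicit false

open UpperHalfPlane Complex CongruenceSubgroup Filter Topology
open scoped MatrixGroups ContDiff Real
open Pool.Agent.Lib.Maass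

namespace Pool.Agent.Lib.H60M

variable {N : ℕ}

theorem l02_mem (N : ℕ) (γ : SL(2, ℤ)) : γ ∈ Gamma0 N ↔ (N : ℤ) ∣ γ 1 0 := by
  rw [Gamma0_mem]
  exact ZMod.intCast_zmod_eq_zero_iff_dvd _ _

theorem l02_entry (δ γ : SL(2, ℤ)) : (δ * γ⁻¹) 1 0 = δ 1 0 * γ 1 1 - δ 1 1 * γ 1 0 := by
  rw [Matrix.SpecialLinearGroup.coe_mul, Matrix.SpecialLinearGroup.coe_inv, Matrix.adjugate_fin_two, Matrix.mul_apply, Fin.sum_univ_two]
  simp [Matrix.of_apply]
  ring

/-- The representatives. -/
def l02_g (x y M p : ℤ) (h : p * x - M * y = 1) (j : ℕ) : SL(2, ℤ) :=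
  ⟨!![x, x * j + y; M, M * j + p], by
    rw [Matrix.det_fin_two_of]
    linear_combination h⟩

theorem l02_reps (p M : ℕ) (hp : p.Prime) (hM : M ≠ 0) (hc : Nat.Coprime p M) (x y : ℤ) (h : (p : ℤ) * x - M * y = 1) [DecidableEq SL(2, ℤ)] :
    IsReps (Gamma0 (p * M)) (Gamma0 M) (insert 1 ((Finset.range p).image (l02_g x y M p h))) := by
  have hMz : (M : ℤ) ≠ 0 := by exact_mod_cast hM
  have hpz : (p : ℤ) ≠ 0 := by exact_mod_cast hp.ne_zero
  have hpp : Prime (p : ℤ) := Nat.prime_iff_prime_int.1 hp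
  have hpM : ¬ (p : ℤ) ∣ M := by
    intro hd
    have := Int.natCast_dvd_natCast.1 hd
    exact hp.one_lt.ne' (Nat.eq_one_of_dvd_coprimes hc dvd_rfl this)
  have g10 : ∀ j : ℕ, (l02_g x y M p h j) 1 0 = (M : ℤ) := fun _ => rfl
  have g11 : ∀ j : ℕ, (l02_g x y M p h j) 1 1 = (M : ℤ) * j + p := fun _ => rfl
  constructor
  · intro γ hγ
    rw [Finset.mem_insert, Finset.mem_image] at hγ
    rcases hγ with rfl | ⟨j, _, rfl⟩
    · exact one_mem _
    · rw [l02_mem, g10]
  · intro δ hδ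
    rw [l02_mem] at hδ
    obtain ⟨z', hz'⟩ := hδ
    have hdet : δ 0 0 * δ 1 1 - δ 0 1 * (M * z') = 1 := by
      have := Matrix.det_fin_two δ.1
      rw [δ.2] at this
      rw [← hz']
      exact this.symm
    have key1 : ((p * M : ℕ) : ℤ) ∣ (δ * (1 : SL(2, ℤ))⁻¹) 1 0 ↔ (p : ℤ) ∣ z' := by
      rw [inv_one, mul_one, hz', Nat.cast_mul, mul_comm (p : ℤ)]
      exact mul_dvd_mul_iff_left hMz
    have key : ∀ j : ℕ, (((p * M : ℕ) : ℤ) ∣ (δ * (l02_g x y M p h j)⁻¹) 1 0) ↔ (p : ℤ) ∣ z' * M * j - δ 1 1 := by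
      intro j
      rw [l02_entry, g10, g11, hz']
      have e : (M : ℤ) * z' * (M * j + p) - δ 1 1 * M = M * ((z' * M * j - δ 1 1) + p * z') := by ring
      rw [e, Nat.cast_mul, mul_comm (p : ℤ), mul_dvd_mul_iff_left hMz]
      exact (dvd_add_left (Dvd.intro _ rfl))
    by_cases hz : (p : ℤ) ∣ z'
    · refine ⟨1, ⟨Finset.mem_insert_self _ _, (l02_mem _ _).2 (key1.2 hz)⟩, ?_⟩
      rintro γ ⟨hγ, hγ2⟩
      rw [Finset.mem_insert, Finset.mem_image] at hγ
      rcases hγ with rfl | ⟨j, _, rfl⟩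
      · rfl
      · exfalso
        rw [l02_mem, key] at hγ2
        have h1 : (p : ℤ) ∣ δ 1 1 := by
          have h2 : (p : ℤ) ∣ z' * M * j := Dvd.dvd.mul_right (Dvd.dvd.mul_right hz _) _
          have h3 := dvd_sub h2 hγ2
          rwa [sub_sub_cancel] at h3
        have h4 : (p : ℤ) ∣ 1 := by
          rw [← hdet]
          exact dvd_sub (Dvd.dvd.mul_left h1 _) (Dvd.dvd.mul_left (Dvd.dvd.mul_left hz _) _)
        exact hpp.not_isUnit (isUnit_of_dvd_one h4)
    · have hu : IsCoprime (z' * M : ℤ) (p : ℤ) := by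
        refine IsCoprime.symm ((Prime.coprime_iff_not_dvd hpp).2 fun hd => ?_)
        rcases hpp.dvd_or_dvd hd with hd | hd
        · exact hz hd
        · exact hpM hd
      obtain ⟨u, v, huv⟩ := hu
      set j0 : ℤ := (u * δ 1 1) % p with hj0
      have hj0n : 0 ≤ j0 := Int.emod_nonneg _ hpz
      have hj0p : j0 < p := Int.emod_lt_of_pos _ (by exact_mod_cast hp.pos)
      obtain ⟨j, hj⟩ := Int.eq_ofNat_of_zero_le hj0n
      have hjp : j < p := by
        rw [hj] at hj0p
        exact_mod_cast hj0p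
      have hjd : (p : ℤ) ∣ z' * M * j - δ 1 1 := by
        have h1 : (p : ℤ) ∣ j - u * δ 1 1 := by
          have h2 : (j : ℤ) = (u * δ 1 1) % p := by rw [← hj0]; exact hj.symm
          rw [h2]
          exact (Int.dvd_neg.1 (by rw [neg_sub]; exact Int.dvd_self_sub_emod))
        have e : z' * M * j - δ 1 1 = z' * M * (j - u * δ 1 1) - p * (v * δ 1 1) := by
          linear_combination (δ 1 1) * huv
        rw [e]
        exact dvd_sub (Dvd.dvd.mul_left h1 _) (Dvd.intro _ rfl)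
      refine ⟨l02_g x y M p h j, ⟨Finset.mem_insert_of_mem (Finset.mem_image_of_mem _ (Finset.mem_range.2 hjp)),
        (l02_mem _ _).2 ((key j).2 hjd)⟩, ?_⟩
      rintro γ ⟨hγ, hγ2⟩
      rw [Finset.mem_insert, Finset.mem_image] at hγ
      rcases hγ with rfl | ⟨i, hi, rfl⟩
      · exact absurd (key1.1 ((l02_mem _ _).1 hγ2)) hz
      · rw [l02_mem, key] at hγ2
        have h3 : (p : ℤ) ∣ z' * M * (i - j) := by
          have := dvd_sub hγ2 hjd
          have e : z' * M * i - δ 1 1 - (z' * M * j - δ 1 1) = z' * M * (i - j) := by ring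
          rwa [e] at this
        have h4 : (p : ℤ) ∣ (i - j : ℤ) := by
          rcases hpp.dvd_or_dvd h3 with hd | hd
          · rcases hpp.dvd_or_dvd hd with hd | hd
            · exact absurd hd hz
            · exact absurd hd hpM
          · exact hd
        have h5 : (i : ℤ) = j := by
          have h6 : |(i - j : ℤ)| < p := by
            rw [Finset.mem_range] at hi
            rw [abs_lt]
            constructor <;> omega
          have := Int.eq_zero_of_abs_lt_dvd h4 h6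
          linarith
        have h7 : i = j := by exact_mod_cast h5
        rw [h7]

theorem up_rel (hN : Squarefree N) (F : MaassNewform N) (p : ℕ) (hp : p.Prime) (hpN : p ∣ N) (z : ℍ) :
    ∑ b ∈ Finset.range p, F.toFun (ofComplex ((z + b) / p)) = -((F.al p : ℤ) : ℂ) * F.toFun z := by
  classical
  obtain ⟨M, hM⟩ := hpN
  have hN0 : N ≠ 0 := hN.ne_zero
  have hM0 : M ≠ 0 := by
    rintro rfl
    rw [mul_zero] at hM
    exact hN0 hM
  have hc : Nat.Coprime p M := by
    rw [hM] at hN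
    exact (Nat.squarefree_mul_iff.1 hN).1
  obtain ⟨x, y, hxy⟩ : ∃ x y : ℤ, (p : ℤ) * x - M * y = 1 := by
    obtain ⟨u, v, huv⟩ := Nat.isCoprime_iff_coprime.2 hc
    exact ⟨u, -v, by linear_combination huv⟩
  have hNM : N / p = M := by
    rw [hM]
    exact Nat.mul_div_cancel_left M hp.pos
  have hR := F.new' p hp ⟨M, hM⟩ (insert 1 ((Finset.range p).image (l02_g x y M p hxy))) (by
    rw [hNM]
    have e : Gamma0 N = Gamma0 (p * M) := by rw [hM]
    rw [e]
    exact l02_reps p M hp hM0 hc x y hxy) z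
  have hMz : (M : ℤ) ≠ 0 := by exact_mod_cast hM0
  have hinj : Set.InjOn (l02_g x y M p hxy) (Finset.range p) := by
    intro i _ j _ hij
    have h1 : (l02_g x y M p hxy i) 1 1 = (l02_g x y M p hxy j) 1 1 := by rw [hij]
    have h2 : (M : ℤ) * i + p = M * j + p := h1
    have h3 : (M : ℤ) * i = M * j := by linarith
    have h4 := mul_left_cancel₀ hMz h3
    exact_mod_cast h4
  have hnot : (1 : SL(2, ℤ)) ∉ (Finset.range p).image (l02_g x y M p hxy) := by
    intro hm
    rw [Finset.mem_image] at hm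
    obtain ⟨j, _, hj⟩ := hm
    have h1 : (l02_g x y M p hxy j) 1 0 = (1 : SL(2, ℤ)) 1 0 := by rw [hj]
    have h2 : (M : ℤ) = 0 := h1
    exact hMz h2
  rw [Finset.sum_insert hnot, Finset.sum_image hinj, one_smul] at hR
  have hpc : (p : ℂ) ≠ 0 := by exact_mod_cast hp.ne_zero
  have hpr : (0 : ℝ) < p := by exact_mod_cast hp.pos
  have hNc : (N : ℂ) = p * M := by
    rw [hM]
    push_cast
    ring
  have hterm : ∀ j : ℕ, F.toFun (l02_g x y M p hxy j • z) = ((F.al p : ℤ) : ℂ) * F.toFun (ofComplex ((z + j) / p)) := by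
    intro j
    have him : 0 < (((z : ℂ) + j) / p).im := by
      have e : (((z : ℂ) + j) / p) = ((1 / p : ℝ) : ℂ) * ((z : ℂ) + j) := by
        push_cast
        field_simp
      have e2 : ((z : ℂ) + j).im = z.im := by simp
      rw [e, Complex.im_ofReal_mul, e2]
      have := z.im_pos
      positivity
    rw [← F.al' p hp ⟨M, hM⟩ x y 1 1 (by
      rw [hM]
      push_cast
      linear_combination (p : ℤ) * hxy)]
    congr 1
    have hg : ((l02_g x y M p hxy j • z : ℍ) : ℂ) = ((p : ℂ) * x * (ofComplex (((z : ℂ) + j) / p)) + y) /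
        (N * ((1 : ℤ) : ℂ) * (ofComplex (((z : ℂ) + j) / p)) + p * ((1 : ℤ) : ℂ)) := by
      rw [ofComplex_apply_of_im_pos him, coe_specialLinearGroup_apply]
      have e00 : (l02_g x y M p hxy j) 0 0 = x := rfl
      have e01 : (l02_g x y M p hxy j) 0 1 = x * j + y := rfl
      have e10 : (l02_g x y M p hxy j) 1 0 = (M : ℤ) := rfl
      have e11 : (l02_g x y M p hxy j) 1 1 = (M : ℤ) * j + p := rfl
      rw [e00, e01, e10, e11]
      simp only [algebraMap_int_eq, Int.coe_castRingHom]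
      push_cast
      rw [hNc, mul_one, mul_one]
      have e1 : (p : ℂ) * x * (((z : ℂ) + j) / p) = x * ((z : ℂ) + j) := by
        field_simp
      have e2 : (p : ℂ) * M * (((z : ℂ) + j) / p) = M * ((z : ℂ) + j) := by
        field_simp
      rw [e1, e2]
      congr 1 <;> ring
    rw [← hg]
    exact (ofComplex_apply _).symm
  rw [Finset.sum_congr rfl fun j _ => hterm j, ← Finset.mul_sum] at hR
  have hal : (((F.al p : ℤ) : ℂ)) * ((F.al p : ℤ) : ℂ) = 1 := by
    have : ((F.al p : ℤ)) * (F.al p : ℤ) = 1 := by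
      rw [← Units.val_mul, Int.units_mul_self, Units.val_one]
    exact_mod_cast this
  linear_combination ((F.al p : ℤ) : ℂ) * hR - (∑ b ∈ Finset.range p, F.toFun (ofComplex ((z + b) / p))) * hal

end Pool.Agent.Lib.H60M
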