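import Pool.Agent.Lib.Maass.EulerProd

/-!
# H60M L04 (M, PORT of Maass/EulerProd.lean): multiplicativity and the Euler product

Copy of `Maass.mul_of_hecke_recursion` and `Maass.twisted_euler_product` (EulerProd.lean) with the factor `e q ∈ {0, 1}` in the recursion.
-/

set_option autoImplicit false

open Complex Filter Topology

namespace Pool.Agent.Lib.H60M

/-- The Hecke recursion implies multiplicativity. -/
theorem l04_mul {ee lam a : ℕ → ℂ} (h1 : a 1 = 1)
    (hrec : ∀ p n : ℕ, p.Prime → 0 < n →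
      a (p * n) + ee p * (if p ∣ n then a (n / p) else 0) = lam p * a n) :
    ∀ m : ℕ, 0 < m → ∀ n : ℕ, 0 < n → Nat.Coprime m n → a (m * n) = a m * a n := by
  intro m
  induction m using Nat.strong_induction_on with
  | _ m ih =>
    intro hm n hn hcop
    rcases Nat.eq_or_lt_of_le (Nat.succ_le_of_lt hm) with h | h
    · have hm1 : m = 1 := h.symm
      subst hm1
      rw [one_mul, h1, one_mul]
    · obtain ⟨p, hp, k, rfl⟩ := Nat.exists_prime_and_dvd (show m ≠ 1 by omega)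
      have hp0 := hp.pos
      have hk0 : 0 < k := Nat.pos_of_ne_zero (by rintro rfl; simp at hm)
      have hklt : k < p * k := by
        have := hp.two_le
        nlinarith
      have hcopk : Nat.Coprime k n := Nat.Coprime.coprime_mul_left hcop
      have hcopp : Nat.Coprime p n := Nat.Coprime.coprime_mul_right hcop
      have ihk := ih k hklt hk0 n hn hcopk
      have e1 := hrec p (k * n) hp (Nat.mul_pos hk0 hn)
      have e2 := hrec p k hp hk0
      rw [← mul_assoc] at e1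
      by_cases hpk : p ∣ k
      · obtain ⟨l, rfl⟩ := hpk
        have hl0 : 0 < l := Nat.pos_of_ne_zero (by rintro rfl; simp at hk0)
        have hllt : l < p * (p * l) := by
          have := hp.two_le
          nlinarith
        have hcopl : Nat.Coprime l n := Nat.Coprime.coprime_mul_left hcopk
        have ihl := ih l hllt hl0 n hn hcopl
        rw [if_pos (Dvd.intro l rfl), Nat.mul_div_cancel_left _ hp0] at e2
        rw [if_pos (Dvd.intro (l * n) (by ring)), mul_assoc p l n, Nat.mul_div_cancel_left _ hp0,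
          ← mul_assoc p l n, ihk, ihl] at e1
        linear_combination e1 - a n * e2
      · have hpkn : ¬ p ∣ k * n := by
          intro hd
          rcases (hp.dvd_mul).mp hd with h' | h'
          · exact hpk h'
          · exact hp.one_lt.ne' (Nat.Coprime.eq_one_of_dvd hcopp h')
        rw [if_neg hpk, mul_zero, add_zero] at e2
        rw [if_neg hpkn, mul_zero, add_zero, ihk] at e1
        rw [e1, e2]; ring

/-- The Dirichlet series with coefficients satisfying the Hecke recursion, twisted by a Dirichlet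
character, converges absolutely for `Re s > 3/2` and has a degree two Euler product. -/
theorem l04_euler {ee lam a : ℕ → ℂ} (h1 : a 1 = 1)
    (hrec : ∀ p n : ℕ, p.Prime → 0 < n →
      a (p * n) + ee p * (if p ∣ n then a (n / p) else 0) = lam p * a n)
    (hb : ∃ C : ℝ, ∀ n : ℕ, ‖a n‖ ≤ C * Real.sqrt n)
    {q : ℕ} (χ : DirichletCharacter ℂ q) (s : ℂ) (hs : 3 / 2 < s.re) :
    LSeriesSummable (fun n => a n * χ n) s ∧
    HasProd (fun p : Nat.Primes =>
      (1 - lam p * χ (p : ℕ) * ((p : ℕ) : ℂ) ^ (-s) +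
        ee p * χ (p : ℕ) ^ 2 * (((p : ℕ) : ℂ) ^ (-s)) ^ 2)⁻¹) (LSeries (fun n => a n * χ n) s) := by
  have hsum : LSeriesSummable (fun n => a n * χ n) s := by
    obtain ⟨C, hC⟩ := hb
    refine LSeriesSummable_of_le_const_mul_rpow (x := 3 / 2) hs ⟨C, fun n _ => ?_⟩
    have h2 : ‖χ (n : ZMod q)‖ ≤ 1 := χ.norm_le_one _
    have h3 := hC n
    have h4 : ((n : ℝ)) ^ ((3 : ℝ) / 2 - 1) = Real.sqrt n := by
      rw [Real.sqrt_eq_rpow]; norm_num
    rw [h4, norm_mul]
    calc ‖a n‖ * ‖χ (n : ZMod q)‖ ≤ ‖a n‖ * 1 := by gcongr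
      _ ≤ _ := by rw [mul_one]; exact h3
  refine ⟨hsum, ?_⟩
  set f : ℕ → ℂ := LSeries.term (fun n => a n * χ n) s with hf
  have hf0 : f 0 = 0 := LSeries.term_zero _ _
  have hfn : ∀ n : ℕ, n ≠ 0 → f n = a n * (χ n * (n : ℂ) ^ (-s)) := by
    intro n hn
    rw [hf, LSeries.term_of_ne_zero hn, Complex.cpow_neg, div_eq_mul_inv, mul_assoc]
  have hf1 : f 1 = 1 := by
    rw [hfn 1 one_ne_zero, h1]; simp
  have hmul : ∀ {m n : ℕ}, Nat.Coprime m n → f (m * n) = f m * f n := by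
    intro m n hmn
    rcases Nat.eq_zero_or_pos m with rfl | hm
    · rw [zero_mul, hf0, zero_mul]
    rcases Nat.eq_zero_or_pos n with rfl | hn
    · rw [mul_zero, hf0, mul_zero]
    rw [hfn _ (Nat.mul_pos hm hn).ne', hfn m hm.ne', hfn n hn.ne',
      l04_mul h1 hrec m hm n hn hmn]
    have h5 : ((m * n : ℕ) : ℂ) ^ (-s) = (m : ℂ) ^ (-s) * (n : ℂ) ^ (-s) := by
      rw [Nat.cast_mul, Complex.natCast_mul_natCast_cpow]
    rw [h5, Nat.cast_mul, map_mul]
    ring
  have hsumn : Summable (fun n => ‖f n‖) := hsum.norm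
  have hprod := EulerProduct.eulerProduct_hasProd hf1 hmul hsumn hf0
  have hloc : ∀ p : Nat.Primes, ∑' e : ℕ, f ((p : ℕ) ^ e) =
      (1 - lam p * χ (p : ℕ) * ((p : ℕ) : ℂ) ^ (-s) +
        ee p * χ (p : ℕ) ^ 2 * (((p : ℕ) : ℂ) ^ (-s)) ^ 2)⁻¹ := by
    intro p
    have hp := p.2
    set x : ℂ := χ (p : ℕ) * ((p : ℕ) : ℂ) ^ (-s) with hx
    set b : ℕ → ℂ := fun e => a ((p : ℕ) ^ e) with hbdef
    have hfe : ∀ e : ℕ, f ((p : ℕ) ^ e) = b e * x ^ e := by
      intro e
      have hne : (p : ℕ) ^ e ≠ 0 := pow_ne_zero _ hp.ne_zero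
      rw [hfn _ hne, hbdef, hx, mul_pow]
      have h6 : (((p : ℕ) ^ e : ℕ) : ℂ) ^ (-s) = (((p : ℕ) : ℂ) ^ (-s)) ^ e := by
        clear hne
        induction e with
        | zero => simp
        | succ e ih =>
          rw [pow_succ, pow_succ, Nat.cast_mul, Complex.natCast_mul_natCast_cpow, ih]
      rw [h6, Nat.cast_pow, map_pow]
    have hb0 : b 0 = 1 := by simp [hbdef, h1]
    have hb1 : b 1 = lam p * b 0 := by
      have := hrec p 1 hp one_pos
      rw [mul_one, if_neg (by rw [Nat.dvd_one]; exact hp.one_lt.ne'), mul_zero, add_zero] at this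
      simpa [hbdef] using this
    have hb2 : ∀ e, b (e + 2) + ee p * b e = lam p * b (e + 1) := by
      intro e
      have := hrec p ((p : ℕ) ^ (e + 1)) hp (pow_pos hp.pos _)
      rw [if_pos (dvd_pow_self _ (Nat.succ_ne_zero e))] at this
      have e3 : (p : ℕ) * (p : ℕ) ^ (e + 1) = (p : ℕ) ^ (e + 2) := by ring
      have e4 : (p : ℕ) ^ (e + 1) / (p : ℕ) = (p : ℕ) ^ e := by
        rw [pow_succ]; exact Nat.mul_div_cancel _ hp.pos
      rw [e3, e4] at this
      exact this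
    have hS : Summable (fun e : ℕ => b e * x ^ e) := by
      have hinj : Function.Injective (fun e : ℕ => (p : ℕ) ^ e) := Nat.pow_right_injective hp.two_le
      have := (hsumn.comp_injective hinj).of_norm
      refine this.congr fun e => ?_
      rw [hfe]
    simp_rw [hfe]
    have hS1 : Summable (fun e : ℕ => b (e + 1) * x ^ (e + 1)) :=
      (summable_nat_add_iff (f := fun e : ℕ => b e * x ^ e) 1).mpr hS
    have hS2 : Summable (fun e : ℕ => b (e + 2) * x ^ (e + 2)) :=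
      (summable_nat_add_iff (f := fun e : ℕ => b e * x ^ e) 2).mpr hS
    set S : ℂ := ∑' e : ℕ, b e * x ^ e with hSdef
    have e1 : S = b 0 * x ^ 0 + ∑' e : ℕ, b (e + 1) * x ^ (e + 1) := hS.tsum_eq_zero_add
    have e2 : ∑' e : ℕ, b (e + 1) * x ^ (e + 1) =
        b 1 * x ^ 1 + ∑' e : ℕ, b (e + 2) * x ^ (e + 2) := hS1.tsum_eq_zero_add
    have e3 : ∑' e : ℕ, b (e + 2) * x ^ (e + 2) =
        lam p * x * (∑' e : ℕ, b (e + 1) * x ^ (e + 1)) - ee p * x ^ 2 * S := by
      rw [← tsum_mul_left, ← tsum_mul_left, ← (hS1.mul_left _).tsum_sub (hS.mul_left _)]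
      apply tsum_congr
      intro e
      have := hb2 e
      linear_combination x ^ (e + 2) * this
    have hkey : S * (1 - lam p * χ (p : ℕ) * ((p : ℕ) : ℂ) ^ (-s) +
        ee p * χ (p : ℕ) ^ 2 * (((p : ℕ) : ℂ) ^ (-s)) ^ 2) = 1 := by
      have e4 : lam p * χ (p : ℕ) * ((p : ℕ) : ℂ) ^ (-s) = lam p * x := by rw [hx]; ring
      have e5 : ee p * χ (p : ℕ) ^ 2 * (((p : ℕ) : ℂ) ^ (-s)) ^ 2 = ee p * x ^ 2 := by rw [hx]; ring
      rw [e4, e5]
      rw [e3] at e2
      rw [hb0] at hb1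
      rw [hb0] at e1
      rw [hb1] at e2
      have e6 : ∑' e : ℕ, b (e + 1) * x ^ (e + 1) = S - 1 := by linear_combination -e1
      rw [e6] at e2
      linear_combination e2
    exact eq_inv_of_mul_eq_one_left hkey
  have h7 : (fun p : Nat.Primes => ∑' e : ℕ, f ((p : ℕ) ^ e)) = fun p : Nat.Primes =>
      (1 - lam p * χ (p : ℕ) * ((p : ℕ) : ℂ) ^ (-s) +
        ee p * χ (p : ℕ) ^ 2 * (((p : ℕ) : ℂ) ^ (-s)) ^ 2)⁻¹ := funext hloc
  rw [h7] at hprod
  exact hprod

theorem euler' {e l a : ℕ → ℂ} (he : ∀ q : ℕ, e q = 0 ∨ e q = 1) (h1 : a 1 = 1)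
    (hrec : ∀ q n : ℕ, q.Prime → 0 < n → a (q * n) + e q * (if q ∣ n then a (n / q) else 0) = l q * a n)
    (hb : ∃ C : ℝ, ∀ n : ℕ, ‖a n‖ ≤ C * Real.sqrt n)
    {D : ℕ} (χ : DirichletCharacter ℂ D) (s : ℂ) (hs : 3 / 2 < s.re) :
    LSeriesSummable (fun n => a n * χ n) s ∧
    HasProd (fun q : Nat.Primes =>
      (1 - l q * χ (q : ℕ) * ((q : ℕ) : ℂ) ^ (-s) +
        e q * χ (q : ℕ) ^ 2 * (((q : ℕ) : ℂ) ^ (-s)) ^ 2)⁻¹) (LSeries (fun n => a n * χ n) s) := by
  exact l04_euler h1 hrec hb χ s hs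

end Pool.Agent.Lib.H60M
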