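import Pool.Agent.Lib.H60M.L01

/-!
# H60M L05 (M, PORT of Maass.fricke_aux, Maass.twist_fricke): the twisted form and `W`

PROOF. `Q = N / gcd(N, D)`, so `N ∣ Q D`. For `a, b ∈ ZMod D` with `Q a b = -1`: with `Q a.val b.val + 1 = D k`, the integer matrix `A = (Q b.val, -k; Q D, -Q a.val)` has determinant
`-Q² a b + k Q D = Q` and lower left entry divisible by `N`, so it is of the form of al_comp (`a ← b.val, b ← -k, N c = Q D, d ← -a.val`), and `A (z + a.val/D) = b.val/D - 1/(Q D² z)`: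
`F(b.val/D +ᵥ (-1/(Q D² z))) = alQ Q · F(a.val/D +ᵥ z)`. Then sum as in twist_fricke: `u ↦ -(Q u)⁻¹` on the units mod `D` (`Q` is a unit mod `D`: `N` squarefree, so `gcd(Q, D) = 1`),
`χ(b) = χ(-Q) χ(a)` for `b = -(Q a)⁻¹` and `χ² = 1`.
-/

set_option autoImplicit false

open UpperHalfPlane Complex CongruenceSubgroup Filter Topology
open scoped MatrixGroups ContDiff Real
open Pool.Agent.Lib.Maass

namespace Pool.Agent.Lib.H60M

variable {N : ℕ}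

theorem l05_im_pos {M : ℝ} (hM : 0 < M) (z : ℍ) : 0 < (-1 / (((M : ℝ) : ℂ) * z)).im := by
  have hz : 0 < Complex.normSq (z : ℂ) := Complex.normSq_pos.mpr (UpperHalfPlane.ne_zero z)
  have hMC : (M : ℂ) ≠ 0 := by exact_mod_cast hM.ne'
  have hz0 : (z : ℂ) ≠ 0 := UpperHalfPlane.ne_zero z
  have e : (-1 / ((M : ℂ) * z)) = ((1 / M : ℝ) : ℂ) * (-(z : ℂ)⁻¹) := by
    push_cast
    field_simp
  rw [e, Complex.im_ofReal_mul, Complex.neg_im, Complex.inv_im]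
  have := z.im_pos
  have h2 : (z : ℂ).im = z.im := rfl
  rw [h2, neg_div, neg_neg]
  positivity

theorem l05_cop (hN : Squarefree N) (D : ℕ) : Nat.Coprime (N / Nat.gcd N D) D := by
  have hN0 : N ≠ 0 := hN.ne_zero
  set g := Nat.gcd N D with hg
  have hgN : g ∣ N := Nat.gcd_dvd_left _ _
  obtain ⟨Q, hQ⟩ := hgN
  have hg0 : 0 < g := Nat.pos_of_ne_zero (by rintro h0; rw [h0, zero_mul] at hQ; exact hN0 hQ)
  have hQ' : N / g = Q := by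
    rw [hQ]; exact Nat.mul_div_cancel_left Q hg0
  rw [hQ']
  have h1 : Nat.gcd Q D ∣ g := Nat.dvd_gcd (dvd_trans (Nat.gcd_dvd_left _ _) (hQ ▸ dvd_mul_left _ _)) (Nat.gcd_dvd_right _ _)
  have h2 : Nat.gcd Q D * Nat.gcd Q D ∣ N := by
    rw [hQ]; exact mul_dvd_mul h1 (Nat.gcd_dvd_left _ _)
  exact Nat.isUnit_iff.mp (hN _ h2)

theorem l05_aux (hN : Squarefree N) (F : MaassNewform N) {D : ℕ} [NeZero D] {a b : ZMod D}
    (hab : ((N / Nat.gcd N D : ℕ) : ZMod D) * a * b = -1) (z : ℍ) :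
    F.toFun (((b.val : ℝ) / D) +ᵥ ofComplex (-1 / (((((N / Nat.gcd N D : ℕ) : ℝ) * (D : ℝ) ^ 2 : ℝ) : ℂ) * z))) =
      (alQ F (N / Nat.gcd N D) : ℂ) * F.toFun (((a.val : ℝ) / D) +ᵥ z) := by
  have hN0 : N ≠ 0 := hN.ne_zero
  have hD : (D : ℂ) ≠ 0 := by exact_mod_cast NeZero.ne D
  have hDR : (0 : ℝ) < D := by exact_mod_cast Nat.pos_of_ne_zero (NeZero.ne D)
  obtain ⟨Q, hQdef⟩ : ∃ Q, N / Nat.gcd N D = Q := ⟨_, rfl⟩
  rw [hQdef] at hab ⊢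
  obtain ⟨c, hc⟩ : ∃ c, D = Nat.gcd N D * c := Nat.gcd_dvd_right N D
  have hNQ : N = Nat.gcd N D * Q := by
    rw [← hQdef]; exact (Nat.mul_div_cancel' (Nat.gcd_dvd_left _ _)).symm
  have hQN : Q ∣ N := ⟨Nat.gcd N D, by rw [mul_comm]; exact hNQ⟩
  have hQ0 : 0 < Q := Nat.pos_of_ne_zero (by rintro rfl; rw [mul_zero] at hNQ; exact hN0 hNQ)
  have hNc : (N : ℤ) * c = Q * D := by
    have : N * c = Q * D := by
      calc N * c = (Nat.gcd N D * Q) * c := by rw [← hNQ]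
        _ = Q * (Nat.gcd N D * c) := by ring
        _ = Q * D := by rw [← hc]
    exact_mod_cast this
  obtain ⟨k, hk⟩ : ∃ k : ℤ, (Q * a.val * b.val + 1 : ℤ) = D * k := by
    have h : (((Q * a.val * b.val + 1 : ℤ)) : ZMod D) = 0 := by
      push_cast
      simp [hab]
    exact (ZMod.intCast_zmod_eq_zero_iff_dvd _ _).mp h
  have hdet : ((Q : ℤ) * (b.val : ℤ)) * (Q * (-(a.val : ℤ))) - (-k) * (N * (c : ℤ)) = Q := by
    rw [hNc]
    linear_combination (-(Q : ℤ)) * hk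
  have hal := al_comp hN F Q hQN (b.val : ℤ) (-k) (c : ℤ) (-(a.val : ℤ)) hdet (((a.val : ℝ) / D) +ᵥ z)
  rw [← hal]
  congr 1
  have hM : (0 : ℝ) < (Q : ℝ) * (D : ℝ) ^ 2 := by
    have : (0 : ℝ) < Q := by exact_mod_cast hQ0
    positivity
  have hpos : 0 < ((Q : ℤ) * (b.val : ℤ)) * (Q * (-(a.val : ℤ))) - (-k) * (N * (c : ℤ)) := by
    rw [hdet]; exact_mod_cast hQ0
  have him := l01_im hpos (((a.val : ℝ) / D) +ᵥ z)
  have hz : (z : ℂ) ≠ 0 := UpperHalfPlane.ne_zero z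
  have hQC : (Q : ℂ) ≠ 0 := by exact_mod_cast hQ0.ne'
  have hkC : ((Q : ℂ) * (a.val : ℂ) * b.val + 1) = D * k := by exact_mod_cast hk
  have hNcC : (N : ℂ) * c = Q * D := by exact_mod_cast hNc
  have e1 : ((Q : ℂ) * ((b.val : ℤ) : ℂ) * (((((a.val : ℝ) / D) +ᵥ z : ℍ)) : ℂ) + ((-k : ℤ) : ℂ)) /
      (N * ((c : ℤ) : ℂ) * ((((a.val : ℝ) / D) +ᵥ z : ℍ) : ℂ) + Q * ((-(a.val : ℤ) : ℤ) : ℂ)) =
      ((((Q : ℤ) * (b.val : ℤ) : ℤ) : ℂ) * ((((a.val : ℝ) / D) +ᵥ z : ℍ) : ℂ) + ((-k : ℤ) : ℂ)) /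
      (((N * (c : ℤ) : ℤ) : ℂ) * ((((a.val : ℝ) / D) +ᵥ z : ℍ) : ℂ) + ((Q * (-(a.val : ℤ)) : ℤ) : ℂ)) := by
    push_cast
    ring
  apply UpperHalfPlane.ext
  rw [e1, ofComplex_apply_of_im_pos him, coe_vadd, ofComplex_apply_of_im_pos (l05_im_pos hM z)]
  dsimp only
  rw [coe_vadd]
  push_cast
  rw [hNcC]
  have h1 : (Q : ℂ) * D * ((a.val : ℂ) / D + z) + Q * -(a.val : ℂ) = Q * D * z := by
    field_simp
    ring
  rw [h1]
  field_simp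
  linear_combination -hkC

theorem twist_al (hN : Squarefree N) (F : MaassNewform N) {D : ℕ} [NeZero D] (χ : DirichletCharacter ℂ D) (hχ : χ ^ 2 = 1) (z : ℍ) :
    twist F.toFun χ (ofComplex (-1 / (((((N / Nat.gcd N D : ℕ) : ℝ) * (D : ℝ) ^ 2 : ℝ) : ℂ) * z))) =
      (alQ F (N / Nat.gcd N D) : ℂ) * χ ((N / Nat.gcd N D : ℕ) : ZMod D) * χ (-1) * twist F.toFun χ z := by
  have hcop := l05_cop hN D
  have haux := fun (a b : ZMod D) (hab : ((N / Nat.gcd N D : ℕ) : ZMod D) * a * b = -1) => l05_aux hN F hab z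
  generalize N / Nat.gcd N D = Q at hcop haux ⊢
  obtain ⟨uQ, huQ⟩ : ∃ uQ : (ZMod D)ˣ, (uQ : ZMod D) = (Q : ZMod D) := ⟨ZMod.unitOfCoprime Q hcop, ZMod.coe_unitOfCoprime _ _⟩
  unfold twist
  rw [sum_eq_sum_units _ (fun b hb => by rw [MulChar.map_nonunit _ hb, zero_mul]),
    sum_eq_sum_units _ (fun b hb => by rw [MulChar.map_nonunit _ hb, zero_mul]), Finset.mul_sum]
  refine Fintype.sum_equiv ((Equiv.mulLeft uQ).trans ((Equiv.inv _).trans (Equiv.neg _))) _ _ fun u => ?_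
  simp only [Equiv.trans_apply, Equiv.inv_apply, Equiv.neg_apply, Equiv.coe_mulLeft]
  have h1 : (Q : ZMod D) * ((-(uQ * u)⁻¹ : (ZMod D)ˣ) : ZMod D) * (u : ZMod D) = -1 := by
    rw [← huQ]
    have h0 : (uQ * (-(uQ * u)⁻¹) * u : (ZMod D)ˣ) = -1 := by
      rw [mul_neg, neg_mul, mul_inv_rev]
      congr 1
      rw [mul_comm u⁻¹ uQ⁻¹, ← mul_assoc, mul_inv_cancel, one_mul, inv_mul_cancel]
    rw [← Units.val_mul, ← Units.val_mul, h0]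
    simp
  have h2 := haux _ _ h1
  rw [h2]
  have h3 : χ ((-(uQ * u)⁻¹ : (ZMod D)ˣ) : ZMod D) = χ (-1) * χ (Q : ZMod D) * χ (u : ZMod D) := by
    have h4 : χ ((-(uQ * u)⁻¹ : (ZMod D)ˣ) : ZMod D) = χ (-1) * χ⁻¹ ((uQ * u : (ZMod D)ˣ) : ZMod D) := by
      rw [MulChar.inv_apply, Ring.inverse_unit, ← map_mul]
      congr 1
      simp
    rw [h4, inv_eq_self_of_sq hχ, Units.val_mul, map_mul, huQ, mul_assoc]
  have h5 : χ (-1) * χ (-1) = 1 := by rw [← map_mul]; simp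
  have h6 : χ (Q : ZMod D) * χ (Q : ZMod D) = 1 := by
    rw [← huQ, ← MulChar.mul_apply, ← pow_two, hχ, MulChar.one_apply_coe]
  rw [h3]
  linear_combination (-(χ (u : ZMod D) * (alQ F Q : ℂ) * F.toFun ((((((-(uQ * u)⁻¹ : (ZMod D)ˣ) : ZMod D)).val : ℝ) / D) +ᵥ z))) * (χ (-1) * χ (-1)) * h6
    - (χ (u : ZMod D) * (alQ F Q : ℂ) * F.toFun ((((((-(uQ * u)⁻¹ : (ZMod D)ˣ) : ZMod D)).val : ℝ) / D) +ᵥ z)) * h5

end Pool.Agent.Lib.H60M
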