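import Pool.Agent.Lib.Maass.LFun

/-!
# H60M L07 (M, PORT of Maass.entire_of_functional_equation, LFun.lean): the completed L-function

Copy of `Maass.entire_of_functional_equation` with `q = √M` and sign `ε = ± 1` (WeakFEPair with this ε), `Λ = 2 π^δ P.Λ`; keep the functional equation `P.functional_equation` instead of its value at `1/2`.
-/

set_option autoImplicit false

open Complex Filter Topology MeasureTheory
open scoped Real
open Pool.Agent.Lib.Maass Set

namespace Pool.Agent.Lib.H60M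

theorem entire_fe {b : ℕ → ℂ} (hb : ∃ C : ℝ, ∀ n : ℕ, ‖b n‖ ≤ C * Real.sqrt n) (ν : ℂ) (δ : ℕ) (M : ℝ) (hM : 0 < M) (ε : ℂ) (hε : ε = 1 ∨ ε = -1)
    (hfe : ∀ y : ℝ, 0 < y →
      (Real.sqrt (1 / (M * y)) : ℝ) * ∑' n : ℕ, b n * ((n * (1 / (M * y)) : ℝ) : ℂ) ^ δ * besselPhi ν (n * (1 / (M * y))) =
        ε * ((Real.sqrt y : ℝ) * ∑' n : ℕ, b n * ((n * y : ℝ) : ℂ) ^ δ * besselPhi ν (n * y))) :
    ∃ L Λ : ℂ → ℂ, Differentiable ℂ L ∧ Differentiable ℂ Λ ∧
      (∀ s : ℂ, L s = Λ s * (M : ℂ) ^ (-(s / 2)) * (π : ℂ) ^ s * (Complex.Gamma ((s + δ + ν) / 2))⁻¹ * (Complex.Gamma ((s + δ - ν) / 2))⁻¹) ∧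
      (∀ s : ℂ, Λ (1 - s) = ε * Λ s) ∧ ∀ s : ℂ, 3 / 2 < s.re → L s = LSeries b s := by
  have hε0 : ε ≠ 0 := by rcases hε with h | h <;> rw [h] <;> norm_num
  obtain ⟨C, hC⟩ := hb
  -- functional equation for `ltheta`
  obtain ⟨q, hq, hqM⟩ : ∃ q : ℝ, 0 < q ∧ q ^ 2 = M := ⟨Real.sqrt M, Real.sqrt_pos.mpr hM, Real.sq_sqrt hM.le⟩
  have hfe' : ∀ y : ℝ, 0 < y → ((Real.sqrt (1 / (q ^ 2 * y)) : ℝ) : ℂ) *
      ltheta b ν δ (1 / (q ^ 2 * y)) = ε * (((Real.sqrt y : ℝ) : ℂ) * ltheta b ν δ y) := by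
    intro y hy
    have h := hfe y hy
    rw [← hqM] at h
    simp only [ltheta, lpsi, ← mul_assoc] at h ⊢
    exact h
  set f : ℝ → ℂ := fun x => ltheta b ν δ (q⁻¹ * x) with hf
  have hqi : 0 < q⁻¹ := inv_pos.mpr hq
  have hfcont : ContinuousOn f (Ioi 0) := by
    refine (ltheta_continuousOn hC ν δ).comp (by fun_prop) ?_
    intro x hx
    exact mul_pos hqi hx
  have hfint : LocallyIntegrableOn f (Ioi 0) := hfcont.locallyIntegrableOn measurableSet_Ioi
  have hffe : ∀ x ∈ Ioi (0 : ℝ), f (1 / x) = (ε * ((x ^ (1 : ℝ) : ℝ) : ℂ)) • f x := by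
    intro x hx
    have hx0 : 0 < x := hx
    have h1 := hfe' (q⁻¹ * x) (mul_pos hqi hx0)
    have e1 : 1 / (q ^ 2 * (q⁻¹ * x)) = q⁻¹ * (1 / x) := by field_simp
    rw [e1] at h1
    have e2 : Real.sqrt (q⁻¹ * x) = Real.sqrt (q⁻¹ * (1 / x)) * x := by
      rw [← Real.sqrt_sq hx0.le, ← Real.sqrt_mul (by positivity), Real.sqrt_sq hx0.le]
      congr 1
      field_simp
    rw [e2] at h1
    have h2 : ((Real.sqrt (q⁻¹ * (1 / x)) : ℝ) : ℂ) ≠ 0 := by
      have : 0 < Real.sqrt (q⁻¹ * (1 / x)) := Real.sqrt_pos.mpr (by positivity)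
      exact_mod_cast this.ne'
    rw [Real.rpow_one, smul_eq_mul]
    apply mul_left_cancel₀ h2
    rw [hf]
    simp only
    rw [h1]
    push_cast
    ring
  have hftop : ∀ r : ℝ, (fun x => f x - 0) =O[atTop] (fun x : ℝ => x ^ r) := by
    intro r
    simp only [sub_zero]
    obtain ⟨K, hK⟩ := ltheta_decay hC ν δ
    have h1 : f =O[atTop] (fun x : ℝ => Real.exp (-(2 * q⁻¹) * x)) := by
      refine Asymptotics.IsBigO.of_bound K ?_
      filter_upwards [eventually_ge_atTop q] with x hx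
      have hx1 : 1 ≤ q⁻¹ * x := by
        rw [inv_mul_eq_div, le_div_iff₀ hq]; linarith
      rw [Real.norm_of_nonneg (Real.exp_pos _).le]
      refine (hK _ hx1).trans (le_of_eq ?_)
      congr 2
      ring
    exact h1.trans (isLittleO_exp_neg_mul_rpow_atTop (by positivity) r).isBigO
  let P : WeakFEPair ℂ :=
    { f := f, g := f, k := 1, ε := ε, f₀ := 0, g₀ := 0, hf_int := hfint, hg_int := hfint,
      hk := one_pos, hε := hε0, h_feq := hffe, hf_top := hftop, hg_top := hftop }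
  have hP : IsStrongFEPair P := ⟨rfl, rfl⟩
  have hΛ : ∀ s, P.Λ s = mellin f s := fun s => congrFun hP.Λ_eq s
  have hΛd : Differentiable ℂ P.Λ := hP.differentiable_Λ
  have hΛfe : ∀ s, P.Λ (1 - s) = ε * P.Λ s := by
    intro s
    have h1 := P.functional_equation s
    have h2 : P.symm.Λ s = P.Λ s := by
      rw [hP.symm_Λ_eq, hΛ]
    rw [h2] at h1
    have e1 : ((P.k : ℝ) : ℂ) - s = 1 - s := by
      simp only [P, Complex.ofReal_one]
    rw [e1] at h1
    have e2 : P.ε = ε := rfl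
    rw [e2, smul_eq_mul] at h1
    exact h1
  have hπ : (π : ℂ) ≠ 0 := by exact_mod_cast Real.pi_ne_zero
  have hqc : (q : ℂ) ≠ 0 := by exact_mod_cast hq.ne'
  have hGd : Differentiable ℂ (fun s : ℂ => (Complex.Gamma s)⁻¹) := Complex.differentiable_one_div_Gamma
  set L : ℂ → ℂ := fun s => P.Λ s * (q : ℂ) ^ (-s) * (2 * (π : ℂ) ^ (s + δ)) *
    (Complex.Gamma ((s + δ + ν) / 2))⁻¹ * (Complex.Gamma ((s + δ - ν) / 2))⁻¹ with hL
  have hLd : Differentiable ℂ L := by
    rw [hL]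
    refine Differentiable.mul (Differentiable.mul (Differentiable.mul (Differentiable.mul hΛd ?_)
      ?_) ?_) ?_
    · exact Differentiable.const_cpow differentiable_neg (Or.inl hqc)
    · exact (Differentiable.const_cpow (by fun_prop) (Or.inl hπ)).const_mul 2
    · exact hGd.comp (by fun_prop : Differentiable ℂ fun s : ℂ => (s + δ + ν) / 2)
    · exact hGd.comp (by fun_prop : Differentiable ℂ fun s : ℂ => (s + δ - ν) / 2)
  have hLbig : ∀ s : ℂ, 3 / 2 < s.re → |ν.re| < s.re → L s = LSeries b s := by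
    intro s hs hs'
    have hs2 : |ν.re| < (s + δ).re := by
      rw [Complex.add_re, Complex.natCast_re]
      have : (0 : ℝ) ≤ δ := by positivity
      linarith
    have h1 : P.Λ s = (q : ℂ) ^ s * (LSeries b s * (1 / 2 * (π : ℂ) ^ (-(s + δ)) *
        Complex.Gamma ((s + δ + ν) / 2) * Complex.Gamma ((s + δ - ν) / 2))) := by
      rw [hΛ, hf, mellin_comp_mul_left (ltheta b ν δ) s hqi, ltheta_mellin hC ν δ hs hs',
        (lpsi_hasMellin ν δ s hs2).2, smul_eq_mul]
      congr 1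
      rw [Complex.ofReal_inv, Complex.inv_cpow _ _ (by rw [Complex.arg_ofReal_of_nonneg hq.le]; exact Real.pi_pos.ne),
        Complex.cpow_neg, inv_inv]
    have hg1 : Complex.Gamma ((s + δ + ν) / 2) ≠ 0 := by
      apply Complex.Gamma_ne_zero_of_re_pos
      simp only [Complex.div_ofNat_re, Complex.add_re] at hs2 ⊢
      linarith [neg_abs_le ν.re]
    have hg2 : Complex.Gamma ((s + δ - ν) / 2) ≠ 0 := by
      apply Complex.Gamma_ne_zero_of_re_pos
      simp only [Complex.div_ofNat_re, Complex.add_re, Complex.sub_re] at hs2 ⊢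
      linarith [le_abs_self ν.re]
    rw [hL]
    simp only
    rw [h1, Complex.cpow_neg, Complex.cpow_neg]
    have hq1 : (q : ℂ) ^ s ≠ 0 := by
      rw [Ne, Complex.cpow_eq_zero_iff]; tauto
    have hp1 : (π : ℂ) ^ (s + δ) ≠ 0 := by
      rw [Ne, Complex.cpow_eq_zero_iff]; tauto
    field_simp
  refine ⟨L, fun s => 2 * (π : ℂ) ^ (δ : ℂ) * P.Λ s, hLd, hΛd.const_mul _, ?_, ?_, ?_⟩
  · intro s
    rw [hL]
    simp only
    have h1 : (M : ℂ) ^ (-(s / 2)) = (q : ℂ) ^ (-s) := by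
      rw [← hqM, Complex.ofReal_pow, ← Complex.cpow_nat_mul']
      · congr 1
        push_cast
        ring
      · rw [Complex.arg_ofReal_of_nonneg hq.le]
        simp [Real.pi_pos]
      · rw [Complex.arg_ofReal_of_nonneg hq.le]
        simp [Real.pi_pos.le]
    have h2 : (π : ℂ) ^ (s + δ) = (π : ℂ) ^ s * (π : ℂ) ^ (δ : ℂ) := Complex.cpow_add _ _ hπ
    rw [h1, h2]
    ring
  · intro s
    simp only
    rw [hΛfe]
    ring
  · -- identity theorem
    have habs : LSeries.abscissaOfAbsConv b ≤ ((1 / 2 : ℝ) : EReal) + 1 := by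
      refine LSeries.abscissaOfAbsConv_le_of_le_const_mul_rpow ⟨C, fun n _ => ?_⟩
      rw [← Real.sqrt_eq_rpow]; exact hC n
    have hU : {s : ℂ | (3 / 2 : ℝ) < s.re} ⊆ {s : ℂ | LSeries.abscissaOfAbsConv b < s.re} := by
      intro s hs
      have hs' : (3 / 2 : ℝ) < s.re := hs
      have h2 : ((1 / 2 : ℝ) : EReal) + 1 = ((3 / 2 : ℝ) : EReal) := by
        rw [← EReal.coe_one, ← EReal.coe_add]; norm_num
      rw [h2] at habs
      exact lt_of_le_of_lt habs (by exact_mod_cast hs')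
    have han1 : AnalyticOnNhd ℂ (LSeries b) {s : ℂ | (3 / 2 : ℝ) < s.re} :=
      (LSeries_analyticOnNhd b).mono hU
    have han2 : AnalyticOnNhd ℂ L {s : ℂ | (3 / 2 : ℝ) < s.re} := fun s _ => hLd.analyticAt s
    have hpre : IsPreconnected {s : ℂ | (3 / 2 : ℝ) < s.re} :=
      (convex_halfSpace_re_gt (3 / 2)).isPreconnected
    set s₀ : ℂ := ((max (3 / 2) |ν.re| + 1 : ℝ) : ℂ) with hs₀
    have hs₀re : s₀.re = max (3 / 2) |ν.re| + 1 := by rw [hs₀, Complex.ofReal_re]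
    have hs₀mem : s₀ ∈ {s : ℂ | (3 / 2 : ℝ) < s.re} := by
      show (3 / 2 : ℝ) < s₀.re
      rw [hs₀re]
      have := le_max_left (3 / 2 : ℝ) |ν.re|
      linarith
    have hev : L =ᶠ[𝓝 s₀] LSeries b := by
      have hopen : IsOpen {s : ℂ | max (3 / 2) |ν.re| < s.re} :=
        isOpen_lt continuous_const Complex.continuous_re
      have hmem : s₀ ∈ {s : ℂ | max (3 / 2) |ν.re| < s.re} := by
        show max (3 / 2) |ν.re| < s₀.re
        rw [hs₀re]; linarith
      filter_upwards [hopen.mem_nhds hmem] with s hs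
      have hs' : max (3 / 2) |ν.re| < s.re := hs
      exact hLbig s (lt_of_le_of_lt (le_max_left _ _) hs') (lt_of_le_of_lt (le_max_right _ _) hs')
    have := han2.eqOn_of_preconnected_of_eventuallyEq han1 hpre hs₀mem hev
    intro s hs
    exact this hs

end Pool.Agent.Lib.H60M
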