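import Pool.Agent.Lib.Maass.QuadField

/-!
# H60M L08 (M): the parity of the quadratic character

PROOF. Choose a prime `p` with `p = -1` mod `8 |D|` (Dirichlet: Nat.forall_exists_prime_gt_and_eq_mod or Nat.setOf_prime_and_eq_mod_infinite). Then `χ(-1) = χ(p) = kron D p = J(D | p)` (`p ∤ D`, `p` odd).
* `D` odd (`D = 1` mod 4): Maass.recip: `J(D | p) = J(p | |D|) = J(-1 | |D|)` (`p = -1` mod `|D|`) = `χ₄(|D|)`: `1` for `D > 0` (`|D| = 1` mod 4), `-1` for `D < 0` (`|D| = 3` mod 4).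
* `D = 4 m` with `m = 3` mod 4: `J(D | p) = J(m | p) = J(-1 | p) J(-m | p)`, `-m = 1` mod 4: `J(-m | p) = J(p | |m|) = J(-1 | |m|)`, `J(-1 | p) = -1` (`p = 7` mod 8): `D > 0`: `|m| = 3` mod 4: `(-1)(-1) = 1`;
  `D < 0`: `|m| = 1` mod 4: `-1`.
* `D = 8 m`, `m` odd: `J(2 | p) = 1` (`p = 7` mod 8), so `J(D | p) = J(m | p)`, computed as above (`m = 1` or `3` mod 4): `= 1` for `m > 0`, `-1` for `m < 0`.
(In all cases: for odd `m`, `J(m | p) = 1` for `m > 0` and `-1` for `m < 0` when `p = -1` mod `8 |m|`.)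
-/

set_option autoImplicit false

open NumberField
open Pool.Agent.Lib.Maass
open scoped NumberTheorySymbols

namespace Pool.Agent.Lib.H60M

theorem l08_odd {m p : ℕ} (hm : m % 2 = 1) (h4 : p % 4 = 3) (hd : m ∣ p + 1) : J((m : ℤ) | p) = 1 := by
  have hmod : ((p : ℤ)) % (m : ℤ) = (-1 : ℤ) % (m : ℤ) := by
    apply Int.ModEq.symm
    rw [Int.modEq_iff_dvd]
    have : ((p : ℤ) - -1) = ((p + 1 : ℕ) : ℤ) := by push_cast; ring
    rw [this]
    exact_mod_cast hd
  have hpm : J((p : ℤ) | m) = ZMod.χ₄ m := by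
    rw [jacobiSym.mod_left' hmod, jacobiSym.at_neg_one (Nat.odd_iff.mpr hm)]
  rcases (by omega : m % 4 = 1 ∨ m % 4 = 3) with h1 | h1
  · rw [jacobiSym.quadratic_reciprocity_one_mod_four h1 (Nat.odd_iff.mpr (by omega)), hpm,
      ZMod.χ₄_nat_one_mod_four h1]
  · rw [jacobiSym.quadratic_reciprocity_three_mod_four h1 h4, hpm, ZMod.χ₄_nat_three_mod_four h1]
    norm_num

theorem l08_nat {p : ℕ} (h8 : p % 8 = 7) : ∀ n : ℕ, n ≠ 0 → n ∣ p + 1 → J((n : ℤ) | p) = 1 := by
  intro n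
  induction n using Nat.strong_induction_on with
  | _ n ih =>
    intro hn hd
    rcases Nat.mod_two_eq_zero_or_one n with h | h
    · obtain ⟨k, rfl⟩ := Nat.dvd_of_mod_eq_zero h
      have hk : k ≠ 0 := by rintro rfl; exact hn rfl
      have h1 := ih k (by omega) hk (dvd_trans (dvd_mul_left _ _) hd)
      push_cast
      rw [jacobiSym.mul_left, h1, mul_one, jacobiSym.at_two (Nat.odd_iff.mpr (by omega)),
        ZMod.χ₈_nat_eq_if_mod_eight, if_neg (by omega), if_pos (Or.inr h8)]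
    · exact l08_odd h (by omega) hd

theorem chi_parity {D : ℤ} (h : IsFund D) (χ : DirichletCharacter ℂ D.natAbs) (hp : ∀ p : ℕ, p.Prime → χ (p : ZMod D.natAbs) = ((kron D p : ℤ) : ℂ)) :
    (0 < D → χ.Even) ∧ (D < 0 → χ.Odd) := by
  have hD0 := isFund_ne_zero h
  have hN0 : D.natAbs ≠ 0 := Int.natAbs_ne_zero.mpr hD0
  obtain ⟨p, hgt, hpp, hmod⟩ := Nat.forall_exists_prime_gt_and_zmodEq D.natAbs
    (q := 8 * D.natAbs) (a := -1) (by omega) isCoprime_one_left.neg_left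
  have hdvd : 8 * D.natAbs ∣ p + 1 := by
    have h1 := hmod.symm.dvd
    have : ((p : ℤ) - -1) = ((p + 1 : ℕ) : ℤ) := by push_cast; ring
    rw [this] at h1
    exact_mod_cast h1
  have h8 : p % 8 = 7 := by
    obtain ⟨k, hk⟩ := dvd_trans (dvd_mul_right 8 D.natAbs) hdvd
    omega
  have hdD : D.natAbs ∣ p + 1 := dvd_trans (dvd_mul_left _ _) hdvd
  have hchi : χ (p : ZMod D.natAbs) = χ (-1) := by
    congr 1
    have h1 : ((p + 1 : ℕ) : ZMod D.natAbs) = 0 := by
      rw [ZMod.natCast_eq_zero_iff]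
      exact hdD
    push_cast at h1
    linear_combination h1
  have hnd : ¬ (p : ℤ) ∣ D := by
    intro h1
    have h2 := Int.natCast_dvd.mp h1
    have h3 := Nat.le_of_dvd (Nat.pos_of_ne_zero hN0) h2
    omega
  have hk : kron D p = J(D | p) := by
    unfold kron
    rw [if_neg hnd, if_neg (by omega)]
  have hJ := l08_nat h8 D.natAbs hN0 hdD
  have hχ := hp p hpp
  rw [hchi, hk] at hχ
  constructor
  · intro hpos
    have h1 : ((D.natAbs : ℕ) : ℤ) = D := by omega
    rw [h1] at hJ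
    unfold DirichletCharacter.Even
    rw [hχ, hJ]
    norm_num
  · intro hneg
    have h1 : D = -((D.natAbs : ℕ) : ℤ) := by omega
    have h2 : J(D | p) = -1 := by
      rw [h1, jacobiSym.neg _ (Nat.odd_iff.mpr (by omega)), hJ,
        ZMod.χ₄_nat_three_mod_four (by omega)]
      norm_num
    unfold DirichletCharacter.Odd
    rw [hχ, h2]
    norm_num

end Pool.Agent.Lib.H60M
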