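import Pool.Agent.Lib.H60M.L01

/-!
# H60M L09 (S/M): the sign

PROOF. `N` squarefree, `Q = N / gcd(N, |D|)`: the prime factors of `Q` are the `q ∣ N` with `q ∤ D`; `Q` is the product of its prime factors, `χ(Q) = ∏ χ(q) = ∏ etaQ`. The factors with `q ∣ D` of rootNumber are `1`.
-/

set_option autoImplicit false

open UpperHalfPlane Complex CongruenceSubgroup Filter Topology
open scoped MatrixGroups ContDiff Real
open Pool.Agent.Lib.Maass

namespace Pool.Agent.Lib.H60M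

variable {N : ℕ}

theorem l09_pf (hN : Squarefree N) (D : ℤ) :
    (N / Nat.gcd N D.natAbs).primeFactors = N.primeFactors.filter (fun q : ℕ => ¬ (q : ℤ) ∣ D) := by
  have hN0 : N ≠ 0 := hN.ne_zero
  set g := Nat.gcd N D.natAbs with hg
  have hgN : g ∣ N := Nat.gcd_dvd_left _ _
  obtain ⟨Q, hQ⟩ := hgN
  have hg0 : 0 < g := Nat.pos_of_ne_zero (by rintro h0; rw [h0, zero_mul] at hQ; exact hN0 hQ)
  have hQ' : N / g = Q := by
    rw [hQ]; exact Nat.mul_div_cancel_left Q hg0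
  have hQ0 : Q ≠ 0 := by rintro rfl; rw [mul_zero] at hQ; exact hN0 hQ
  rw [hQ']
  ext q
  rw [Nat.mem_primeFactors, Finset.mem_filter, Nat.mem_primeFactors]
  constructor
  · rintro ⟨hq, hqQ, -⟩
    refine ⟨⟨hq, hQ ▸ dvd_mul_of_dvd_right hqQ _, hN0⟩, ?_⟩
    intro h1
    have h2 : q ∣ D.natAbs := Int.natCast_dvd.mp h1
    have h3 : q ∣ g := Nat.dvd_gcd (hQ ▸ dvd_mul_of_dvd_right hqQ _) h2
    have h4 : q * q ∣ N := by rw [hQ]; exact mul_dvd_mul h3 hqQ
    have h5 := hN q h4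
    exact hq.one_lt.ne' (Nat.isUnit_iff.mp h5)
  · rintro ⟨⟨hq, hqN, -⟩, h1⟩
    refine ⟨hq, ?_, hQ0⟩
    rw [hQ] at hqN
    rcases (hq.dvd_mul).mp hqN with h2 | h2
    · exfalso
      apply h1
      apply Int.natCast_dvd.mpr
      exact dvd_trans h2 (Nat.gcd_dvd_right _ _)
    · exact h2

theorem sign_eq (hN : Squarefree N) (F : MaassNewform N) (E : QuadExt) (χ : DirichletCharacter ℂ E.disc.natAbs)
    (hχ : ∀ p : ℕ, p.Prime → χ (p : ZMod E.disc.natAbs) = ((etaQ E.1 p : ℤ) : ℂ)) :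
    -((alQ F (N / Nat.gcd N E.disc.natAbs) : ℂ) * χ ((N / Nat.gcd N E.disc.natAbs : ℕ) : ZMod E.disc.natAbs)) = (F.rootNumber E : ℂ) := by
  have hpf := l09_pf hN E.disc
  set Q := N / Nat.gcd N E.disc.natAbs with hQ
  have hQN : Q ∣ N := Nat.div_dvd_of_dvd (Nat.gcd_dvd_left _ _)
  have hQsq : Squarefree Q := hN.squarefree_of_dvd hQN
  have h1 : χ ((Q : ℕ) : ZMod E.disc.natAbs) = ∏ p ∈ Q.primeFactors, ((etaQ E.1 p : ℤ) : ℂ) := by
    conv_lhs => rw [← Nat.prod_primeFactors_of_squarefree hQsq]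
    rw [Nat.cast_prod, map_prod]
    apply Finset.prod_congr rfl
    intro p hp
    exact hχ p (Nat.prime_of_mem_primeFactors hp)
  have h2 : (F.rootNumber E : ℂ) = -∏ p ∈ Q.primeFactors, (((F.al p : ℤ) : ℂ) * ((etaQ E.1 p : ℤ) : ℂ)) := by
    unfold MaassNewform.rootNumber
    rw [hpf, Finset.prod_filter]
    push_cast
    congr 1
    apply Finset.prod_congr rfl
    intro p hp
    split_ifs with h3
    · rfl
    · rfl
  rw [h1, h2, alQ, Finset.prod_mul_distrib]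
  push_cast
  rfl

end Pool.Agent.Lib.H60M
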