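import Pool.Agent.Lib.H60M.L02
import Pool.Agent.Lib.H60M.L03
import Pool.Agent.Lib.H60M.L04
import Pool.Agent.Lib.H60M.L05
import Pool.Agent.Lib.H60M.L06
import Pool.Agent.Lib.H60M.L07
import Pool.Agent.Lib.H60M.L08
import Pool.Agent.Lib.H60M.L09
import Pool.Agent.Lib.H60M.K12

/-!
# H60M L10 (M): the functional equation of the twisted L-functions of an odd newform

PROOF. `D = |disc E|`, `χ` from exists_quadratic_character. `e q = 0` for `q ∣ N`, `1` otherwise, `l q = F.ev q`: hypothesis hh of fourier' is hecke' for `q ∤ N` and up_rel for `q ∣ N` (`ev q = -w_q/√q`).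
fourier', euler' (the Euler factor is `eulerFactor F E s q`), theta_fe with `M = (N/gcd(N,D)) D²`, `κ = alQ · χ(N/gcd(N, D))` (twist_al), `δ = 1` iff `disc > 0` (chi_parity; etaQ_eq_kron), so the sign is
`-κ = F.rootNumber E` (sign_eq), `± 1` (root_pm); entire_fe.
-/

set_option autoImplicit false

open UpperHalfPlane Complex CongruenceSubgroup Filter Topology
open scoped MatrixGroups ContDiff Real
open Pool.Agent.Lib.Maass

namespace Pool.Agent.Lib.H60M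

variable {N : ℕ}

theorem has_root_aux (hN : Squarefree N) (F : MaassNewform N) (hF : F.parity = -1) (E : QuadExt) :
    ∃ (L Λ : ℂ → ℂ) (ν : ℂ), (∃ s, L s ≠ 0) ∧ IsLFunction F E L ∧ Differentiable ℂ Λ ∧ ν ^ 2 = 1 / 4 - F.lam ∧
    (∀ s : ℂ, L s = Λ s * (((E.disc.natAbs ^ 2 * (N / Nat.gcd N E.disc.natAbs) : ℕ) : ℝ) : ℂ) ^ (-(s / 2)) * (π : ℂ) ^ s *
      (Complex.Gamma ((s + (if 0 < E.disc then 1 else 0) + ν) / 2))⁻¹ * (Complex.Gamma ((s + (if 0 < E.disc then 1 else 0) - ν) / 2))⁻¹) ∧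
    ∀ s : ℂ, Λ (1 - s) = (F.rootNumber E : ℂ) * Λ s := by
  classical
  obtain ⟨χ, hprim, -, hχ, hχp⟩ := exists_quadratic_character E.1 E.2
  have hD0 : E.disc ≠ 0 := NumberField.discr_ne_zero _
  have hDne : NeZero E.disc.natAbs := ⟨by rw [Int.natAbs_ne_zero]; exact hD0⟩
  change DirichletCharacter ℂ E.disc.natAbs at χ
  have hNpos : 0 < N := Nat.pos_of_ne_zero hN.ne_zero
  obtain ⟨D, hDdef⟩ : ∃ D : ℕ, D = E.disc.natAbs := ⟨_, rfl⟩
  have hDpos : 0 < E.disc.natAbs := Nat.pos_of_ne_zero (NeZero.ne _)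
  have hQ : 0 < N / Nat.gcd N E.disc.natAbs := Nat.div_pos (Nat.gcd_le_left _ hNpos) (Nat.gcd_pos_of_pos_left _ hNpos)
  have hM : (0 : ℝ) < ((N / Nat.gcd N E.disc.natAbs : ℕ) : ℝ) * (E.disc.natAbs : ℝ) ^ 2 := by
    have h1 : (0 : ℝ) < ((N / Nat.gcd N E.disc.natAbs : ℕ) : ℝ) := by exact_mod_cast hQ
    have h2 : (0 : ℝ) < (E.disc.natAbs : ℝ) := by exact_mod_cast hDpos
    positivity
  have hT : ∀ z : ℍ, F.toFun (ofComplex (z + 1)) = F.toFun z := by
    intro z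
    have hTm : ModularGroup.T ∈ Gamma0 N := by
      rw [Gamma0_mem]
      simp [ModularGroup.T]
    rw [← F.map_smul' _ hTm z, modular_T_smul]
    congr 1
    apply UpperHalfPlane.ext
    have him : 0 < ((z : ℂ) + 1).im := by
      rw [Complex.add_im, Complex.one_im, add_zero]
      exact z.im_pos
    rw [ofComplex_apply_of_im_pos him, coe_vadd]
    push_cast
    change (z : ℂ) + 1 = 1 + (z : ℂ)
    ring
  have hodd : ∀ z : ℍ, F.toFun (J • z) = -F.toFun z := by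
    intro z
    rw [F.map_J' z, hF]
    simp
  have hh : ∀ q : ℕ, q.Prime → ∀ z : ℍ,
      ((Real.sqrt q : ℝ) : ℂ)⁻¹ * ((if q ∣ N then (0 : ℂ) else 1) * F.toFun (ofComplex (q * z)) +
        ∑ b ∈ Finset.range q, F.toFun (ofComplex ((z + b) / q))) = F.ev q * F.toFun z := by
    intro q hq z
    unfold MaassNewform.ev
    by_cases hqN : q ∣ N
    · rw [if_pos hqN, if_pos hqN, up_rel hN F q hq hqN z]
      ring
    · rw [if_neg hqN, if_neg hqN, one_mul]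
      exact F.hecke' q hq hqN z
  obtain ⟨a, c, ν, hc, hν, ha1, hrec, hb, hexp⟩ := fourier' (e := fun q => if q ∣ N then (0 : ℂ) else 1) (l := F.ev) F.smooth' F.bounded'
    F.ne_zero' hT F.laplace' hodd (fun q => by by_cases h : q ∣ N <;> simp [h]) hh
  have hb' : ∃ C : ℝ, ∀ n : ℕ, ‖a n * χ n‖ ≤ C * Real.sqrt n := by
    obtain ⟨C, hC⟩ := hb
    refine ⟨C, fun n => ?_⟩
    rw [norm_mul]
    exact (mul_le_of_le_one_right (norm_nonneg _) (χ.norm_le_one _)).trans (hC n)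
  have hpar := chi_parity (isFund_discr E.1 E.2) χ (fun p hp => by rw [hχp p hp, etaQ_eq_kron E.1 E.2 hp])
  obtain ⟨δ, hδdef⟩ : ∃ δ : ℕ, δ = if 0 < E.disc then 1 else 0 := ⟨_, rfl⟩
  have hδ : (χ.Even ∧ δ = 1) ∨ (χ.Odd ∧ δ = 0) := by
    rcases lt_or_gt_of_ne hD0 with h | h
    · exact Or.inr ⟨hpar.2 h, by rw [hδdef, if_neg (by omega)]⟩
    · exact Or.inl ⟨hpar.1 h, by rw [hδdef, if_pos h]⟩
  have hsign := sign_eq hN F E χ (fun p hp => hχp p hp)
  have hfe : ∀ y : ℝ, 0 < y → (Real.sqrt (1 / ((((N / Nat.gcd N E.disc.natAbs : ℕ) : ℝ) * (E.disc.natAbs : ℝ) ^ 2) * y)) : ℝ) *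
      ∑' n : ℕ, (a n * χ n) * ((n * (1 / ((((N / Nat.gcd N E.disc.natAbs : ℕ) : ℝ) * (E.disc.natAbs : ℝ) ^ 2) * y)) : ℝ) : ℂ) ^ δ *
        besselPhi ν (n * (1 / ((((N / Nat.gcd N E.disc.natAbs : ℕ) : ℝ) * (E.disc.natAbs : ℝ) ^ 2) * y))) =
      (F.rootNumber E : ℂ) * ((Real.sqrt y : ℝ) * ∑' n : ℕ, (a n * χ n) * ((n * y : ℝ) : ℂ) ^ δ * besselPhi ν (n * y)) := by
    intro y hy
    rw [← hsign]
    exact theta_fe F.smooth' hc hb hexp χ hprim hχ _ hM _ (fun z => twist_al hN F χ hχ z) δ hδ y hy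
  obtain ⟨L, Λ, hL, hΛ, hLΛ, hfun, hser⟩ := entire_fe (b := fun n => a n * χ n) hb' ν δ _ hM (F.rootNumber E : ℂ)
    (by rcases root_pm F E with h | h <;> rw [h] <;> simp) hfe
  have hne : ∃ s, L s ≠ 0 := by
    have hsum := (euler' (e := fun q => if q ∣ N then (0 : ℂ) else 1) (l := F.ev) (fun q => by by_cases h : q ∣ N <;> simp [h]) ha1 hrec hb χ 2
      (by norm_num)).1
    have hab : LSeries.abscissaOfAbsConv (fun n => a n * χ n) < ⊤ :=
      lt_of_le_of_lt hsum.abscissaOfAbsConv_le (EReal.coe_lt_top _)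
    have h1 := LSeries.tendsto_atTop hab
    have h2 : a 1 * χ ((1 : ℕ) : ZMod E.disc.natAbs) = 1 := by
      rw [ha1, Nat.cast_one, map_one, mul_one]
    rw [h2] at h1
    have h3 : ∀ᶠ x : ℝ in atTop, LSeries (fun n => a n * χ n) x ≠ 0 := h1.eventually_ne one_ne_zero
    obtain ⟨x, hx1, hx2⟩ := (h3.and (eventually_gt_atTop (3 / 2 : ℝ))).exists
    exact ⟨(x : ℂ), by rw [hser _ (by simpa using hx2)]; exact hx1⟩
  refine ⟨L, Λ, ν, hne, ⟨hL, fun s hs => ?_⟩, hΛ, hν, fun s => ?_, hfun⟩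
  · rw [hser s hs]
    have h1 := (euler' (e := fun q => if q ∣ N then (0 : ℂ) else 1) (l := F.ev) (fun q => by by_cases h : q ∣ N <;> simp [h]) ha1 hrec hb χ s hs).2
    have h2 : eulerFactor F E s = fun q : Nat.Primes =>
        (1 - F.ev q * χ (q : ℕ) * ((q : ℕ) : ℂ) ^ (-s) +
          (if (q : ℕ) ∣ N then (0 : ℂ) else 1) * χ (q : ℕ) ^ 2 * (((q : ℕ) : ℂ) ^ (-s)) ^ 2)⁻¹ := by
      funext q
      unfold eulerFactor
      have h3 : χ ((q : ℕ) : ZMod E.disc.natAbs) = ((etaQ E.1 q : ℤ) : ℂ) := hχp q q.2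
      rw [h3]
      by_cases hqN : (q : ℕ) ∣ N
      · rw [if_pos hqN, if_pos hqN]
        congr 1
        ring
      · rw [if_neg hqN, if_neg hqN]
        congr 1
        ring
    rw [h2]
    exact h1
  · rw [hLΛ s]
    have h4 : (((E.disc.natAbs ^ 2 * (N / Nat.gcd N E.disc.natAbs) : ℕ) : ℝ) : ℂ) =
        ((((N / Nat.gcd N E.disc.natAbs : ℕ) : ℝ) * (E.disc.natAbs : ℝ) ^ 2 : ℝ) : ℂ) := by
      push_cast
      ring
    have h5 : ((δ : ℕ) : ℂ) = if 0 < E.disc then 1 else 0 := by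
      rw [hδdef]
      split_ifs <;> simp
    rw [h4, h5]

theorem has_root (hN : Squarefree N) (F : MaassNewform N) (hF : F.parity = -1) (E : QuadExt) : HasRootNumber F E (F.rootNumber E) := by
  obtain ⟨L, Λ, ν, -, h⟩ := has_root_aux hN F hF E
  exact ⟨L, Λ, ν, h⟩

end Pool.Agent.Lib.H60M
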