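import Pool.Agent.Lib.H60M.L10

/-!
# H60M L11: consequences for odd newforms
-/

set_option autoImplicit false

open UpperHalfPlane Complex CongruenceSubgroup Filter Topology
open scoped MatrixGroups ContDiff Real
open Pool.Agent.Lib.Maass

namespace Pool.Agent.Lib.H60M

variable {N : ℕ}

/-- L11 (S). PROOF. Maass.eq_of_hasProd. -/
theorem lfun_unique {F : MaassNewform N} {E : QuadExt} {L₁ L₂ : ℂ → ℂ} (h₁ : IsLFunction F E L₁) (h₂ : IsLFunction F E L₂) : L₁ = L₂ :=
  eq_of_hasProd h₁.1 h₂.1 h₁.2 h₂.2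

theorem lfun_vanish (hN : Squarefree N) (F : MaassNewform N) (hF : F.parity = -1) (E : QuadExt) (hE : F.rootNumber E = -1) (L : ℂ → ℂ) (hL : IsLFunction F E L) :
    L (1 / 2) = 0 := by
  obtain ⟨L', Λ, ν, h1, -, -, h4, h5⟩ := has_root hN F hF E
  rw [lfun_unique hL h1, h4]
  have h6 := h5 (1 / 2)
  rw [hE] at h6
  have e1 : (1 : ℂ) - 1 / 2 = 1 / 2 := by norm_num
  rw [e1] at h6
  have h7 : Λ (1 / 2) = 0 := by
    push_cast at h6
    have h8 : (2 : ℂ) * Λ (1 / 2) = 0 := by linear_combination h6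
    simpa using h8
  rw [h7]
  ring

theorem nf_le (hN : Squarefree N) (F : MaassNewform N) (hF : F.parity = -1) (x : ℝ) : NF F x ≤ Nplus F x := by
  unfold NF Nplus
  have hfin : Finite {E : QuadExt // |(E.disc : ℝ)| < x ∧ F.rootNumber E = 1} :=
    ((QuadExt.finite_disc_lt x).subset fun E h => h.1).to_subtype
  refine Nat.card_le_card_of_injective (fun E => ⟨E.1, E.2.1, ?_⟩) ?_
  · obtain ⟨E, h1, L, hL, h2⟩ := E
    rcases root_pm F E with h | h
    · exact h
    · exact absurd (lfun_vanish hN F hF E h L hL) h2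
  · rintro ⟨E, h⟩ ⟨E', h'⟩ he
    simp only [Subtype.mk.injEq] at he
    exact Subtype.ext he

end Pool.Agent.Lib.H60M
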