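import Pool.Agent.Lib.Maass.Fourier

/-!
# H60M V03: the Fourier expansion of even forms (port of L03)
-/

set_option autoImplicit false

open UpperHalfPlane Complex Filter Topology MeasureTheory
open scoped MatrixGroups ContDiff Real
open Pool.Agent.Lib.Maass

namespace Pool.Agent.Lib.H60M


/-- The data of `fourier'` as a structure. -/
structure V03D where
  toFun : ℍ → ℂ
  lam : ℂ
  hecke : ℕ → ℂ
  ee : ℕ → ℂ
  smooth' : ContDiffOn ℝ ∞ (toFun ∘ ofComplex) {z : ℂ | 0 < z.im}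
  bounded' : ∃ C : ℝ, ∀ z : ℍ, ‖toFun z‖ ≤ C
  ne_zero' : ∃ z : ℍ, toFun z ≠ 0
  per' : ∀ z : ℍ, toFun (ofComplex (z + 1)) = toFun z
  laplace' : ∀ z : ℍ, -(z.im : ℂ) ^ 2 * Laplacian.laplacian (toFun ∘ ofComplex) (z : ℂ) = lam * toFun z
  even' : ∀ z : ℍ, toFun (J • z) = toFun z
  cusp' : ∀ y : ℝ, 0 < y → ∫ x in (0 : ℝ)..1, toFun (ofComplex (x + y * Complex.I)) = 0
  hecke' : ∀ q : ℕ, q.Prime → ∀ z : ℍ,
      ((Real.sqrt q : ℝ) : ℂ)⁻¹ * (ee q * toFun (ofComplex (q * z)) + ∑ b ∈ Finset.range q, toFun (ofComplex ((z + b) / q))) = hecke q * toFun z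

noncomputable section

namespace V03D

variable (F : V03D)

/-- The form as a function on `ℂ`. -/
def gg : ℂ → ℂ := F.toFun ∘ ofComplex

lemma gg_coe (z : ℍ) : F.gg (z : ℂ) = F.toFun z := by
  simp [gg]

lemma gg_contDiffOn : ContDiffOn ℝ ∞ F.gg UH := F.smooth'

lemma gg_per : ∀ z ∈ UH, F.gg (z + 1) = F.gg z := by
  intro z hz
  have h := F.per' ⟨z, hz⟩
  rw [← F.gg_coe ⟨z, hz⟩] at h
  exact h

lemma gg_even (hF : True) (x : ℝ) {y : ℝ} (hy : 0 < y) :
    F.gg (pt (-x) y) = F.gg (pt x y) := by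
  have h := F.even' ⟨pt x y, pt_mem hy⟩
  rw [← F.gg_coe, ← F.gg_coe, coe_J_smul] at h
  have e : -(starRingEnd ℂ) (((⟨pt x y, pt_mem hy⟩ : ℍ) : ℂ)) = pt (-x) y := by
    change -(starRingEnd ℂ) (pt x y) = pt (-x) y
    simp [pt]
    ring
  rw [e] at h
  rw [h]

lemma gg_laplace : ∀ z ∈ UH, -(z.im : ℂ) ^ 2 * Laplacian.laplacian F.gg z = F.lam * F.gg z := by
  intro z hz
  have := F.laplace' ⟨z, hz⟩
  rw [← F.gg_coe] at this
  exact this

lemma gg_cont_left {y : ℝ} (hy : 0 < y) : Continuous (fun x : ℝ => F.gg (pt x y)) :=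
  contOn_left F.gg_contDiffOn.continuousOn hy

lemma gg_per_left {y : ℝ} (hy : 0 < y) (x : ℝ) : F.gg (pt (x + 1) y) = F.gg (pt x y) := by
  have h := F.gg_per (pt x y) (pt_mem hy)
  rw [← h]
  congr 1
  simp [pt]
  ring

lemma gg_bound : ∃ C : ℝ, 0 ≤ C ∧ ∀ z ∈ UH, ‖F.gg z‖ ≤ C := by
  obtain ⟨C, hC⟩ := F.bounded'
  refine ⟨C, (norm_nonneg _).trans (hC ⟨Complex.I, by simp⟩), fun z hz => ?_⟩
  have := hC ⟨z, hz⟩
  rwa [← F.gg_coe] at this

/-- Evenness of the Fourier coefficients. -/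
lemma cf_neg (hF : True) (n : ℤ) {y : ℝ} (hy : 0 < y) :
    cf F.gg (-n) y = cf F.gg n y := by
  unfold cf
  set Φ : ℝ → ℂ := fun x => F.gg (pt x y) * ech n x with hΦ
  have hper : Function.Periodic Φ 1 := by
    intro x
    rw [hΦ]
    simp only
    have := ech_add_int n x 1
    push_cast at this
    rw [this, F.gg_per_left hy]
  have h1 : ∀ x : ℝ, F.gg (pt x y) * ech (-n) x = Φ (-x) := by
    intro x
    rw [hΦ]
    simp only
    rw [F.gg_even hF x hy]
    have : ech (-n) x = ech n (-x) := by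
      unfold ech; congr 1; push_cast; ring
    rw [this]
  simp_rw [h1]
  rw [intervalIntegral.integral_comp_neg]
  have := hper.intervalIntegral_add_eq (-1) 0
  simpa using this

lemma cf_zero (hF : True) {y : ℝ} (hy : 0 < y) : cf F.gg 0 y = 0 := by
  unfold cf
  rw [← F.cusp' y hy]
  congr 1
  funext x
  have e1 : ech 0 x = 1 := by
    unfold ech
    simp
  rw [e1, mul_one]
  rfl

lemma cf_bound : ∃ C : ℝ, 0 ≤ C ∧ ∀ (n : ℤ) (y : ℝ), 0 < y → ‖cf F.gg n y‖ ≤ C := by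
  obtain ⟨C, hC0, hC⟩ := F.gg_bound
  refine ⟨C, hC0, fun n y hy => ?_⟩
  have := intervalIntegral.norm_integral_le_of_norm_le_const (a := 0) (b := 1) (C := C)
    (f := fun x => F.gg (pt x y) * ech n x) (fun x _ => by
      rw [norm_mul, norm_ech, mul_one]
      exact hC _ (pt_mem hy))
  simpa [cf] using this

/-- The Hecke relation for the Fourier coefficients. -/
lemma cf_hecke {p : ℕ} (hp : p.Prime) (n : ℤ) {y : ℝ} (hy : 0 < y) :
    ((Real.sqrt p : ℝ) : ℂ)⁻¹ * (F.ee p * (if (p : ℤ) ∣ n then cf F.gg (n / p) (p * y) else 0) +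
      p * cf F.gg (p * n) (y / p)) = F.hecke p * cf F.gg n y := by
  have hp0 : 0 < p := hp.pos
  have hpR : (0 : ℝ) < p := by exact_mod_cast hp0
  have hpC : (p : ℂ) ≠ 0 := by exact_mod_cast hp0.ne'
  have hpy : 0 < (p : ℝ) * y := by positivity
  have hyp : 0 < y / (p : ℝ) := by positivity
  have h1 := coeff_mul (F.gg_cont_left hpy) (F.gg_per_left hpy) n hp0
  have h2 := sum_shift (F.gg_cont_left hyp) n hp0
  unfold cf
  rw [← h1, ← h2]
  have hpt : ∀ x : ℝ, ((Real.sqrt p : ℝ) : ℂ)⁻¹ * (F.ee p * F.gg (pt (p * x) (p * y)) +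
      ∑ b ∈ Finset.range p, F.gg (pt ((x + b) / p) (y / p))) = F.hecke p * F.gg (pt x y) := by
    intro x
    have h := F.hecke' p hp ⟨pt x y, pt_mem hy⟩
    rw [← F.gg_coe ⟨pt x y, pt_mem hy⟩] at h
    have e1 : (p : ℂ) * ((⟨pt x y, pt_mem hy⟩ : ℍ) : ℂ) = pt (p * x) (p * y) := by
      change (p : ℂ) * pt x y = _
      simp [pt]
      ring
    have e2 : ∀ b : ℕ, (((⟨pt x y, pt_mem hy⟩ : ℍ) : ℂ) + b) / p = pt ((x + b) / p) (y / p) := by
      intro b
      change (pt x y + b) / p = _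
      simp [pt]
      ring
    rw [e1] at h
    simp_rw [e2] at h
    exact h
  have i1 : IntervalIntegrable (fun x : ℝ => F.gg (pt (p * x) (p * y)) * ech n x) volume 0 1 :=
    (((F.gg_cont_left hpy).comp (continuous_const.mul continuous_id)).mul
      (continuous_ech n)).intervalIntegrable _ _
  have i2 : ∀ b ∈ Finset.range p, IntervalIntegrable
      (fun x : ℝ => F.gg (pt ((x + b) / p) (y / p)) * ech n x) volume 0 1 := fun b _ =>
    (((F.gg_cont_left hyp).comp ((continuous_id.add continuous_const).div_const _)).mul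
      (continuous_ech n)).intervalIntegrable _ _
  have i3 : IntervalIntegrable (fun x : ℝ => ∑ b ∈ Finset.range p,
      F.gg (pt ((x + b) / p) (y / p)) * ech n x) volume 0 1 := by
    refine Continuous.intervalIntegrable (continuous_finsetSum _ fun b _ => ?_) _ _
    exact ((F.gg_cont_left hyp).comp ((continuous_id.add continuous_const).div_const _)).mul
      (continuous_ech n)
  rw [← intervalIntegral.integral_finsetSum i2, ← intervalIntegral.integral_const_mul (F.ee p),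
    ← intervalIntegral.integral_add (i1.const_mul (F.ee p)) i3,
    ← intervalIntegral.integral_const_mul, ← intervalIntegral.integral_const_mul]
  congr 1
  ext x
  rw [← Finset.sum_mul, ← mul_assoc (F.ee p), ← add_mul, ← mul_assoc, hpt x, mul_assoc]

/-- The Fourier coefficients of non-negative index. -/
def W (n : ℕ) (y : ℝ) : ℂ := cf F.gg n y

lemma W_hecke {p : ℕ} (hp : p.Prime) (n : ℕ) {y : ℝ} (hy : 0 < y) :
    ((Real.sqrt p : ℝ) : ℂ)⁻¹ * (F.ee p * (if p ∣ n then F.W (n / p) (p ^ 2 * y) else 0) +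
      p * F.W (p * n) y) = F.hecke p * F.W n (p * y) := by
  have hp0 : 0 < p := hp.pos
  have hpR : (0 : ℝ) < p := by exact_mod_cast hp0
  have h := F.cf_hecke hp n (y := p * y) (by positivity)
  have e1 : (p : ℝ) * (p * y) = p ^ 2 * y := by ring
  have e2 : (p : ℝ) * y / p = y := by field_simp
  rw [e1, e2] at h
  have e3 : ((p : ℤ) ∣ (n : ℤ)) ↔ p ∣ n := Int.natCast_dvd_natCast
  simp only [e3] at h
  unfold W
  push_cast
  exact h

/-- `W n` is `α` times the dilate of `W 1`, up to `√n`. -/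
def Rel (n : ℕ) (α : ℂ) : Prop :=
  ∀ y : ℝ, 0 < y → ((Real.sqrt n : ℝ) : ℂ) * F.W n y = α * F.W 1 (n * y)

lemma rel_one : F.Rel 1 1 := by
  intro y hy
  simp

lemma rel_step {p n : ℕ} (hp : p.Prime) {α β : ℂ} (hα : F.Rel n α)
    (hβ : p ∣ n → F.Rel (n / p) β) :
    F.Rel (p * n) (F.hecke p * α - F.ee p * (if p ∣ n then β else 0)) := by
  intro y hy
  have hp0 : 0 < p := hp.pos
  have hpR : (0 : ℝ) < p := by exact_mod_cast hp0
  have h := F.W_hecke hp n hy
  have hs : Real.sqrt p ≠ 0 := (Real.sqrt_pos.2 hpR).ne'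
  have hsC : ((Real.sqrt p : ℝ) : ℂ) ≠ 0 := by exact_mod_cast hs
  have hss : ((Real.sqrt p : ℝ) : ℂ) * ((Real.sqrt p : ℝ) : ℂ) = p := by
    rw [← Complex.ofReal_mul, Real.mul_self_sqrt hpR.le]
    simp
  have hsr : Real.sqrt ((p * n : ℕ) : ℝ) = Real.sqrt p * Real.sqrt n := by
    push_cast
    rw [Real.sqrt_mul hpR.le]
  have hα' := hα (p * y) (by positivity)
  have e1 : (n : ℝ) * (p * y) = ((p * n : ℕ) : ℝ) * y := by push_cast; ring
  rw [e1] at hα'
  rw [hsr]
  push_cast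
  rw [show (p : ℝ) * n * y = ((p * n : ℕ) : ℝ) * y by push_cast; ring]
  apply mul_left_cancel₀ hsC
  split_ifs at h ⊢ with hd
  · have hβ' := hβ hd (p ^ 2 * y) (by positivity)
    obtain ⟨m, rfl⟩ := hd
    rw [Nat.mul_div_cancel_left _ hp0] at hβ' h
    have e2 : (m : ℝ) * (p ^ 2 * y) = ((p * (p * m) : ℕ) : ℝ) * y := by push_cast; ring
    rw [e2] at hβ'
    have hr : Real.sqrt ((p * m : ℕ) : ℝ) = Real.sqrt p * Real.sqrt m := by
      push_cast
      rw [Real.sqrt_mul hpR.le]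
    rw [hr] at hα' ⊢
    push_cast at hα' hβ' ⊢
    field_simp at h
    generalize ((Real.sqrt p : ℝ) : ℂ) = s at *
    generalize ((Real.sqrt m : ℝ) : ℂ) = r at *
    linear_combination (s * r) * h + s * hα' * F.hecke p - s * F.ee p * hβ' +
      (s * r * F.W (p * (p * m)) y) * hss
  · field_simp at h
    generalize ((Real.sqrt p : ℝ) : ℂ) = s at *
    generalize ((Real.sqrt n : ℝ) : ℂ) = r at *
    linear_combination r * h + s * hα' * F.hecke p + (r * F.W (p * n) y) * hss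

lemma rel_exists : ∀ n : ℕ, 0 < n → ∃ α : ℂ, F.Rel n α := by
  intro n
  induction n using Nat.strong_induction_on with
  | _ n ih =>
    intro hn
    rcases Nat.lt_or_ge 1 n with h1 | h1
    · have hp : (Nat.minFac n).Prime := Nat.minFac_prime (by omega)
      obtain ⟨m, hm⟩ := Nat.minFac_dvd n
      set p := Nat.minFac n with hpdef
      have hm0 : 0 < m := by
        rcases Nat.eq_zero_or_pos m with h | h
        · rw [h, mul_zero] at hm; omega
        · exact h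
      have hmn : m < n := by
        rw [hm]
        have := hp.two_le
        nlinarith
      obtain ⟨α, hα⟩ := ih m hmn hm0
      by_cases hd : p ∣ m
      · have hd0 : 0 < m / p := Nat.div_pos (Nat.le_of_dvd hm0 hd) hp.pos
        obtain ⟨β, hβ⟩ := ih (m / p) ((Nat.div_le_self m p).trans_lt hmn) hd0
        exact ⟨_, hm ▸ F.rel_step hp hα (fun _ => hβ)⟩
      · exact ⟨_, hm ▸ F.rel_step (β := 0) hp hα (fun h => absurd h hd)⟩
    · have : n = 1 := by omega
      subst this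
      exact ⟨1, F.rel_one⟩

/-- The first Fourier coefficient is not identically zero. -/
lemma W_one_ne_zero (hF : True) : ∃ y : ℝ, 0 < y ∧ F.W 1 y ≠ 0 := by
  by_contra hcon
  push Not at hcon
  have hW : ∀ (n : ℕ) (y : ℝ), 0 < y → F.W n y = 0 := by
    intro n y hy
    rcases Nat.eq_zero_or_pos n with rfl | hn
    · exact F.cf_zero hF hy
    · obtain ⟨α, hα⟩ := F.rel_exists n hn
      have h := hα y hy
      have hnR : (0 : ℝ) < n := by exact_mod_cast hn
      rw [hcon _ (by positivity), mul_zero] at h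
      rcases mul_eq_zero.1 h with h1 | h1
      · exfalso
        have : Real.sqrt n = 0 := by exact_mod_cast h1
        exact (Real.sqrt_pos.2 hnR).ne' this
      · exact h1
  have hcf : ∀ (n : ℤ) (y : ℝ), 0 < y → cf F.gg n y = 0 := by
    intro n y hy
    obtain ⟨k, rfl | rfl⟩ := n.eq_nat_or_neg
    · exact hW k y hy
    · rw [F.cf_neg hF k hy]
      exact hW k y hy
  obtain ⟨z, hz⟩ := F.ne_zero'
  apply hz
  have hy := z.im_pos
  have h := hasSum_fourier (F.gg_cont_left hy) (F.gg_per_left hy) (by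
    have : (fun n : ℤ => ∫ t in (0 : ℝ)..1, F.gg (pt t z.im) * ech n t) = fun _ => 0 := by
      ext n; exact hcf n _ hy
    rw [this]
    exact summable_zero) z.re
  have h2 : (fun n : ℤ => (∫ t in (0 : ℝ)..1, F.gg (pt t z.im) * ech n t) * ech (-n) z.re) =
      fun _ => 0 := by
    ext n
    have : ∫ t in (0 : ℝ)..1, F.gg (pt t z.im) * ech n t = 0 := hcf n _ hy
    rw [this, zero_mul]
  rw [h2] at h
  have h3 := h.unique hasSum_zero
  rw [← F.gg_coe]
  rw [← h3]
  congr 1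
  exact (Complex.re_add_im (z : ℂ)).symm

end V03D

/-- Fourier–Bessel expansion: with `a n` the normalised Hecke–Fourier coefficients,
`F(x + i y) = c √y ∑_{n ≥ 1} a n Φ_ν(n y) cos (2 π n x)`. -/
theorem v03_fourier (F : V03D) (hF : True) :
    ∃ (a : ℕ → ℂ) (c ν : ℂ), c ≠ 0 ∧ ν ^ 2 = 1 / 4 - F.lam ∧ a 1 = 1 ∧
      (∀ p n : ℕ, p.Prime → 0 < n →
        a (p * n) + F.ee p * (if p ∣ n then a (n / p) else 0) = F.hecke p * a n) ∧
      (∃ C : ℝ, ∀ n : ℕ, ‖a n‖ ≤ C * Real.sqrt n) ∧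
      (∀ x y : ℝ, 0 < y →
        HasSum (fun n : ℕ => c * (Real.sqrt y : ℝ) * a n * besselPhi ν (n * y) *
          (Real.cos (2 * π * n * x) : ℝ)) (F.toFun (ofComplex (x + y * Complex.I)))) := by
  obtain ⟨y₀, hy₀, hW0⟩ := F.W_one_ne_zero hF
  -- the coefficients
  set a : ℕ → ℂ := fun n => ((Real.sqrt n : ℝ) : ℂ) * F.W n (y₀ / n) / F.W 1 y₀ with ha
  have huniq : ∀ n : ℕ, 0 < n → ∀ α : ℂ, F.Rel n α → α = a n := by
    intro n hn α hα
    have hnR : (0 : ℝ) < n := by exact_mod_cast hn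
    have h := hα (y₀ / n) (by positivity)
    have e : (n : ℝ) * (y₀ / n) = y₀ := by field_simp
    rw [e] at h
    rw [ha]
    simp only
    rw [h]
    field_simp
  have hrel : ∀ n : ℕ, 0 < n → F.Rel n (a n) := by
    intro n hn
    obtain ⟨α, hα⟩ := F.rel_exists n hn
    rw [← huniq n hn α hα]
    exact hα
  have ha1 : a 1 = 1 := (huniq 1 one_pos 1 F.rel_one).symm
  have hrec : ∀ p n : ℕ, p.Prime → 0 < n →
      a (p * n) + F.ee p * (if p ∣ n then a (n / p) else 0) = F.hecke p * a n := by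
    intro p n hp hn
    have h := huniq (p * n) (Nat.mul_pos hp.pos hn) _ (F.rel_step hp (hrel n hn)
      (β := a (n / p)) (fun hd => hrel (n / p) (Nat.div_pos (Nat.le_of_dvd hn hd) hp.pos)))
    rw [← h]
    ring
  obtain ⟨C, hC0, hC⟩ := F.cf_bound
  have hbound : ∀ n : ℕ, ‖a n‖ ≤ C / ‖F.W 1 y₀‖ * Real.sqrt n := by
    intro n
    rw [ha]
    simp only
    rcases Nat.eq_zero_or_pos n with rfl | hn
    · simp
    · have hnR : (0 : ℝ) < n := by exact_mod_cast hn
      rw [norm_div, norm_mul, Complex.norm_real, Real.norm_of_nonneg (Real.sqrt_nonneg _)]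
      have h1 : ‖F.W n (y₀ / n)‖ ≤ C := hC n _ (by positivity)
      have h2 : 0 < ‖F.W 1 y₀‖ := norm_pos_iff.2 hW0
      rw [div_mul_eq_mul_div, mul_comm C]
      gcongr
  -- the Bessel function
  obtain ⟨ν, hν⟩ : ∃ ν : ℂ, ν ^ 2 = 1 / 4 - F.lam := by
    obtain ⟨ν, hν⟩ := IsAlgClosed.exists_pow_nat_eq (1 / 4 - F.lam) (n := 2) (by norm_num)
    exact ⟨ν, hν⟩
  obtain ⟨W1, W2, hd1, hd2, hode⟩ := cf_ode F.gg_contDiffOn F.gg_per F.gg_laplace 1
  obtain ⟨c', hc'⟩ := whittaker_unique hν hd1 hd2 (fun y hy => by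
    have := hode y hy
    simpa using this) ⟨C, fun y hy => hC 1 y hy⟩
  have hc'W : ∀ y : ℝ, 0 < y → F.W 1 y = c' * (Real.sqrt y : ℝ) * besselPhi ν y := by
    intro y hy
    have := hc' y hy
    simpa [V03D.W] using this
  have hc'0 : c' ≠ 0 := by
    rintro rfl
    apply hW0
    rw [hc'W y₀ hy₀]
    ring
  have hWn : ∀ (n : ℕ) (y : ℝ), 0 < y → F.W n y = c' * (Real.sqrt y : ℝ) * a n * besselPhi ν (n * y) := by
    intro n y hy
    rcases Nat.eq_zero_or_pos n with rfl | hn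
    · have h1 : F.W 0 y = 0 := F.cf_zero hF hy
      rw [h1, ha]
      simp
    · have hnR : (0 : ℝ) < n := by exact_mod_cast hn
      have h := hrel n hn y hy
      rw [hc'W _ (by positivity), Real.sqrt_mul hnR.le] at h
      have hs : ((Real.sqrt n : ℝ) : ℂ) ≠ 0 := by exact_mod_cast (Real.sqrt_pos.2 hnR).ne'
      apply mul_left_cancel₀ hs
      rw [h]
      push_cast
      ring
  refine ⟨a, 2 * c', ν, by
    simp [hc'0], hν, ha1, hrec, ⟨_, hbound⟩, fun x y hy => ?_⟩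
  -- summability
  obtain ⟨B, A, hA, hB⟩ := besselPhi_bound ν
  have hB0 : 0 ≤ B := by
    have := (norm_nonneg _).trans (hB 1 one_pos)
    rw [Real.one_rpow, mul_one] at this
    exact nonneg_of_mul_nonneg_left this (Real.exp_pos _)
  have hsumN : Summable (fun n : ℕ => F.W n y) := by
    have hr : ‖Real.exp (-(5 * y))‖ < 1 := by
      rw [Real.norm_of_nonneg (Real.exp_pos _).le, Real.exp_lt_one_iff]
      linarith
    have hs := (summable_pow_mul_geometric_of_norm_lt_one 1 hr).mul_left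
      (‖c'‖ * Real.sqrt y * (C / ‖F.W 1 y₀‖) * (B * y ^ (-A)))
    refine Summable.of_norm_bounded hs fun n => ?_
    rcases Nat.eq_zero_or_pos n with rfl | hn
    · have h1 : F.W 0 y = 0 := F.cf_zero hF hy
      rw [h1]
      simp
    · have hnR : (1 : ℝ) ≤ n := by exact_mod_cast hn
      have hn0 : (0 : ℝ) < n := by linarith
      rw [hWn n y hy, norm_mul, norm_mul, norm_mul, Complex.norm_real,
        Real.norm_of_nonneg (Real.sqrt_nonneg _)]
      have h1 := hbound n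
      have h2 := hB (n * y) (by positivity)
      have h3 : ((n : ℝ) * y) ^ (-A) ≤ y ^ (-A) :=
        Real.rpow_le_rpow_of_nonpos hy (by nlinarith) (by linarith)
      have h4 : Real.exp (-(5 * (n * y))) = Real.exp (-(5 * y)) ^ n := by
        rw [← Real.exp_nat_mul]
        congr 1
        ring
      have h5 : Real.sqrt n ≤ n := by
        rw [Real.sqrt_le_left (by linarith)]
        nlinarith
      have h6 : 0 ≤ C / ‖F.W 1 y₀‖ := by positivity
      have h7 : ‖besselPhi ν (n * y)‖ ≤ B * y ^ (-A) * Real.exp (-(5 * y)) ^ n := by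
        rw [← h4]
        refine h2.trans ?_
        gcongr
      have h8 : ‖a n‖ ≤ C / ‖F.W 1 y₀‖ * n := h1.trans (by gcongr)
      calc ‖c'‖ * Real.sqrt y * ‖a n‖ * ‖besselPhi ν (n * y)‖
          ≤ ‖c'‖ * Real.sqrt y * (C / ‖F.W 1 y₀‖ * n) *
            (B * y ^ (-A) * Real.exp (-(5 * y)) ^ n) := by gcongr
        _ = _ := by ring
  have hsum : Summable (fun n : ℤ => ∫ t in (0 : ℝ)..1, F.gg (pt t y) * ech n t) := by
    have h1 : Summable (fun n : ℤ => cf F.gg n y) := by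
      refine Summable.of_nat_of_neg hsumN ?_
      have : (fun n : ℕ => cf F.gg (-(n : ℤ)) y) = fun n : ℕ => F.W n y := by
        ext n; exact F.cf_neg hF n hy
      rw [this]
      exact hsumN
    exact h1
  have hfs := hasSum_fourier (F.gg_cont_left hy) (F.gg_per_left hy) hsum x
  have h := hfs.nat_add_neg
  have h0 : (∫ t in (0 : ℝ)..1, F.gg (pt t y) * ech 0 t) = 0 := F.cf_zero hF hy
  rw [h0, zero_mul, add_zero] at h
  have hval : F.gg (pt x y) = F.toFun (ofComplex (x + y * Complex.I)) := rfl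
  rw [hval] at h
  convert h using 1
  ext n
  have e1 : ∫ t in (0 : ℝ)..1, F.gg (pt t y) * ech (n : ℤ) t = F.W n y := rfl
  have e2 : ∫ t in (0 : ℝ)..1, F.gg (pt t y) * ech (-(n : ℤ)) t = F.W n y := F.cf_neg hF n hy
  rw [e1, e2, hWn n y hy]
  have e3 : ech (-(n : ℤ)) x + ech (n : ℤ) x = 2 * (Real.cos (2 * π * n * x) : ℝ) := by
    unfold ech
    rw [Complex.ofReal_cos, Complex.cos]
    push_cast
    have e4 : -(2 * (π : ℂ) * Complex.I * -(n : ℂ) * x) = 2 * π * n * x * Complex.I := by ring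
    have e5 : -(2 * (π : ℂ) * Complex.I * (n : ℂ) * x) = -(2 * π * n * x) * Complex.I := by ring
    rw [e4, e5]
    ring
  rw [neg_neg]
  linear_combination (-(c' * (Real.sqrt y : ℝ) * a n * besselPhi ν (n * y))) * e3

end

theorem fourier_even {f : ℍ → ℂ} {lam : ℂ} {e : ℕ → ℂ} {l : ℕ → ℂ}
    (hsm : ContDiffOn ℝ ∞ (f ∘ ofComplex) {z : ℂ | 0 < z.im}) (hb : ∃ C : ℝ, ∀ z : ℍ, ‖f z‖ ≤ C) (hne : ∃ z : ℍ, f z ≠ 0)
    (hT : ∀ z : ℍ, f (ofComplex (z + 1)) = f z)
    (hlap : ∀ z : ℍ, -(z.im : ℂ) ^ 2 * Laplacian.laplacian (f ∘ ofComplex) (z : ℂ) = lam * f z)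
    (heven : ∀ z : ℍ, f (J • z) = f z) (hcusp : ∀ y : ℝ, 0 < y → ∫ x in (0 : ℝ)..1, f (ofComplex (x + y * Complex.I)) = 0) (he : ∀ q : ℕ, e q = 0 ∨ e q = 1)
    (hh : ∀ q : ℕ, q.Prime → ∀ z : ℍ,
      ((Real.sqrt q : ℝ) : ℂ)⁻¹ * (e q * f (ofComplex (q * z)) + ∑ b ∈ Finset.range q, f (ofComplex ((z + b) / q))) = l q * f z) :
    ∃ (a : ℕ → ℂ) (c ν : ℂ), c ≠ 0 ∧ ν ^ 2 = 1 / 4 - lam ∧ a 1 = 1 ∧
      (∀ q n : ℕ, q.Prime → 0 < n → a (q * n) + e q * (if q ∣ n then a (n / q) else 0) = l q * a n) ∧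
      (∃ C : ℝ, ∀ n : ℕ, ‖a n‖ ≤ C * Real.sqrt n) ∧
      (∀ x y : ℝ, 0 < y →
        HasSum (fun n : ℕ => c * (Real.sqrt y : ℝ) * a n * besselPhi ν (n * y) *
          (Real.cos (2 * π * n * x) : ℝ)) (f (ofComplex (x + y * Complex.I)))) := by
  exact v03_fourier ⟨f, lam, l, e, hsm, hb, hne, hT, hlap, heven, hcusp, hh⟩ trivial

end Pool.Agent.Lib.H60M
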