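import Pool.Agent.Lib.H60M.L06

/-!
# H60M V06: the functional equation of the theta series of an even form (port of L06)
-/

set_option autoImplicit false

open UpperHalfPlane Complex Filter Topology MeasureTheory
open scoped MatrixGroups ContDiff Real
open Pool.Agent.Lib.Maass

namespace Pool.Agent.Lib.H60M

lemma v06_sum_cos {q : ℕ} [NeZero q] {χ : DirichletCharacter ℂ q} (hprim : χ.IsPrimitive)
    (hχ : χ ^ 2 = 1) (n : ℕ) (x : ℝ) :
    ∑ b : ZMod q, χ b * ((Real.cos (2 * π * n * (x + (b.val : ℝ) / q)) : ℝ) : ℂ) =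
      gaussSum χ (ZMod.stdAddChar (N := q)) / 2 * χ n *
        (cexp (2 * π * Complex.I * n * x) + χ (-1) * cexp (-(2 * π * Complex.I * n * x))) := by
  have hq : (q : ℂ) ≠ 0 := by exact_mod_cast NeZero.ne q
  set g := gaussSum χ (ZMod.stdAddChar (N := q)) with hg
  have key : ∀ m : ZMod q, ∑ b : ZMod q, χ b * ZMod.stdAddChar (m * b) = χ m * g := by
    intro m
    have h := gaussSum_mulShift_of_isPrimitive (ZMod.stdAddChar (N := q)) hprim m
    rw [inv_eq_self_of_sq hχ] at h
    rw [hg, ← h]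
    simp only [gaussSum, AddChar.mulShift_apply]
  have hb : ∀ b : ZMod q, ∀ k : ℤ, ZMod.stdAddChar ((k : ZMod q) * b) =
      cexp (2 * π * Complex.I * k * b.val / q) := by
    intro b k
    have : ((k : ZMod q) * b) = ((k * (b.val : ℤ) : ℤ) : ZMod q) := by
      push_cast
      rw [ZMod.natCast_val, ZMod.cast_id', id_eq]
    rw [this, ZMod.stdAddChar_coe]
    congr 1
    push_cast
    ring
  have e : ∀ b : ZMod q, χ b * ((Real.cos (2 * π * n * (x + (b.val : ℝ) / q)) : ℝ) : ℂ) =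
      (1 / 2) * cexp (2 * π * Complex.I * n * x) * (χ b * ZMod.stdAddChar ((n : ZMod q) * b)) +
      (1 / 2) * cexp (-(2 * π * Complex.I * n * x)) *
        (χ b * ZMod.stdAddChar ((-n : ZMod q) * b)) := by
    intro b
    have h1 := hb b n
    have h2 := hb b (-n)
    push_cast at h1 h2
    rw [h1, h2]
    push_cast
    rw [Complex.cos]
    have e1 : cexp (-(2 * π * n * (x + b.val / q)) * Complex.I) =
        cexp (-(2 * π * Complex.I * n * x)) * cexp (2 * π * Complex.I * (-n) * b.val / q) := by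
      rw [← Complex.exp_add]
      congr 1
      field_simp
      ring
    have e2 : cexp (2 * π * n * (x + b.val / q) * Complex.I) =
        cexp (2 * π * Complex.I * n * x) * cexp (2 * π * Complex.I * n * b.val / q) := by
      rw [← Complex.exp_add]
      congr 1
      field_simp
    rw [e1, e2]
    ring
  simp_rw [e]
  rw [Finset.sum_add_distrib, ← Finset.mul_sum, ← Finset.mul_sum, key, key]
  have : χ (-(n : ZMod q)) = χ (-1) * χ n := by
    rw [← map_mul]; simp
  rw [this]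
  ring

lemma v06_hasSum_twist {f : ℍ → ℂ} {a : ℕ → ℂ} {c ν : ℂ}
    (hexp : ∀ x y : ℝ, 0 < y →
        HasSum (fun n : ℕ => c * (Real.sqrt y : ℝ) * a n * besselPhi ν (n * y) *
          (Real.cos (2 * π * n * x) : ℝ)) (f (ofComplex (x + y * Complex.I))))
    {q : ℕ} [NeZero q] {χ : DirichletCharacter ℂ q} (hprim : χ.IsPrimitive) (hχ : χ ^ 2 = 1)
    (x y : ℝ) (hy : 0 < y) :
    HasSum (fun n : ℕ => c * (Real.sqrt y : ℝ) * a n * besselPhi ν (n * y) *
      (gaussSum χ (ZMod.stdAddChar (N := q)) / 2 * χ n *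
        (cexp (2 * π * Complex.I * n * x) + χ (-1) * cexp (-(2 * π * Complex.I * n * x)))))
      (twist f χ (ofComplex (x + y * Complex.I))) := by
  have h : ∀ b ∈ (Finset.univ : Finset (ZMod q)),
      HasSum (fun n : ℕ => χ b * (c * (Real.sqrt y : ℝ) * a n * besselPhi ν (n * y) *
        (Real.cos (2 * π * n * (x + (b.val : ℝ) / q)) : ℝ)))
        (χ b * f (((b.val : ℝ) / q) +ᵥ ofComplex (x + y * Complex.I))) := by
    intro b _
    have h1 := (hexp (x + (b.val : ℝ) / q) y hy).mul_left (χ b)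
    have h2 : ofComplex (((x + (b.val : ℝ) / q : ℝ) : ℂ) + y * Complex.I) =
        ((b.val : ℝ) / q) +ᵥ ofComplex (x + y * Complex.I) := by
      apply UpperHalfPlane.ext
      rw [coe_vadd, ofComplex_apply_of_im_pos (by simpa using hy),
        ofComplex_apply_of_im_pos (by simpa using hy)]
      push_cast
      ring
    rw [h2] at h1
    exact h1
  have h3 := hasSum_sum h
  unfold twist
  refine h3.congr_fun ?_ |> fun h => h
  intro n
  rw [← v06_sum_cos hprim hχ n x, Finset.mul_sum]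
  refine Finset.sum_congr rfl fun b _ => ?_
  ring

theorem theta_fe_even {f : ℍ → ℂ} (hsm : ContDiffOn ℝ ∞ (f ∘ ofComplex) {z : ℂ | 0 < z.im}) {a : ℕ → ℂ} {c ν : ℂ} (hc : c ≠ 0)
    (ha : ∃ C : ℝ, ∀ n : ℕ, ‖a n‖ ≤ C * Real.sqrt n)
    (hexp : ∀ x y : ℝ, 0 < y →
        HasSum (fun n : ℕ => c * (Real.sqrt y : ℝ) * a n * besselPhi ν (n * y) *
          (Real.cos (2 * π * n * x) : ℝ)) (f (ofComplex (x + y * Complex.I))))
    {D : ℕ} [NeZero D] (χ : DirichletCharacter ℂ D) (hprim : χ.IsPrimitive) (hχ : χ ^ 2 = 1) (M : ℝ) (hM : 0 < M) (κ : ℂ)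
    (hfr : ∀ z : ℍ, twist f χ (ofComplex (-1 / ((M : ℂ) * z))) = κ * χ (-1) * twist f χ z) (δ : ℕ) (hδ : (χ.Odd ∧ δ = 1) ∨ (χ.Even ∧ δ = 0)) (y : ℝ) (hy : 0 < y) :
    (Real.sqrt (1 / (M * y)) : ℝ) * ∑' n : ℕ, (a n * χ n) * ((n * (1 / (M * y)) : ℝ) : ℂ) ^ δ * besselPhi ν (n * (1 / (M * y))) =
      κ * ((Real.sqrt y : ℝ) * ∑' n : ℕ, (a n * χ n) * ((n * y : ℝ) : ℂ) ^ δ * besselPhi ν (n * y)) := by
  have hMC : (M : ℂ) ≠ 0 := by exact_mod_cast hM.ne'
  have hg := gaussSum_ne_zero hprim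
  set g := gaussSum χ (ZMod.stdAddChar (N := D)) with hgdef
  have hinv : ∀ y : ℝ, 0 < y → 0 < 1 / (M * y) := fun y hy => by positivity
  rcases hδ with ⟨hodd, rfl⟩ | ⟨hev, rfl⟩
  · -- odd character, `δ = 1`
    have hev' : χ (-1) = -1 := hodd
    obtain ⟨c1, hc1⟩ : ∃ c1, c1 = c * Complex.I := ⟨_, rfl⟩
    have hc10 : c1 ≠ 0 := by rw [hc1]; exact mul_ne_zero hc Complex.I_ne_zero
    -- the derivative in `x` at `0`
    have hD : ∀ y : ℝ, 0 < y → HasDerivAt
        (fun t : ℝ => twist f χ (ofComplex (t + y * Complex.I)))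
        (∑' n : ℕ, c1 * (Real.sqrt y : ℝ) * a n * besselPhi ν (n * y) *
          (g * χ n) * ((2 * π * n : ℝ) : ℂ)) 0 := by
      intro y hy
      have hs := summable_deriv_bound ha ν hy
      have h1 : ∀ t : ℝ, twist f χ (ofComplex (t + y * Complex.I)) =
          ∑' n : ℕ, c1 * (Real.sqrt y : ℝ) * a n * besselPhi ν (n * y) *
            (g * χ n) * ((Real.sin (2 * π * n * t) : ℝ) : ℂ) := by
        intro t
        rw [← (v06_hasSum_twist hexp hprim hχ t y hy).tsum_eq]
        congr 1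
        funext n
        rw [hev', ← hgdef]
        have e2 : ((Real.sin (2 * π * n * t) : ℝ) : ℂ) =
            (cexp (2 * π * Complex.I * n * t) - 1 * cexp (-(2 * π * Complex.I * n * t))) /
              (2 * Complex.I) := by
          push_cast
          rw [Complex.sin]
          have e3 : (-(2 * π * n * t : ℂ)) * Complex.I = -(2 * π * Complex.I * n * t) := by ring
          have e4 : (2 * π * n * t : ℂ) * Complex.I = 2 * π * Complex.I * n * t := by ring
          rw [e3, e4]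
          field_simp
          rw [Complex.I_sq]
          ring
        rw [e2, hc1]
        field_simp
        ring
      have h2 : (fun t : ℝ => twist f χ (ofComplex (t + y * Complex.I))) =
          fun t : ℝ => ∑' n : ℕ, c1 * (Real.sqrt y : ℝ) * a n * besselPhi ν (n * y) *
            (g * χ n) * ((Real.sin (2 * π * n * t) : ℝ) : ℂ) := funext h1
      rw [h2]
      have hu : Summable fun n : ℕ => (‖c1‖ * Real.sqrt y * (2 * π) * ‖g‖) *
          ((n : ℝ) * (‖a n‖ * ‖besselPhi ν (n * y)‖)) := hs.mul_left _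
      have h3 := hasDerivAt_tsum (𝕜 := ℝ)
        (g := fun (n : ℕ) (t : ℝ) => c1 * (Real.sqrt y : ℝ) * a n * besselPhi ν (n * y) *
            (g * χ n) * ((Real.sin (2 * π * n * t) : ℝ) : ℂ))
        (g' := fun (n : ℕ) (t : ℝ) => c1 * (Real.sqrt y : ℝ) * a n * besselPhi ν (n * y) *
            (g * χ n) * ((Real.cos (2 * π * n * t) * (2 * π * n) : ℝ) : ℂ))
        (y₀ := 0) hu ?_ ?_ ?_ 0
      · refine h3.congr_deriv ?_
        congr 1
        funext n
        simp
      · intro n t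
        refine HasDerivAt.const_mul _ ?_
        have h4 : HasDerivAt (fun t : ℝ => 2 * π * n * t) (2 * π * n) t := by
          simpa using (hasDerivAt_id t).const_mul (2 * π * n)
        exact (h4.sin).ofReal_comp
      · intro n t
        simp only [norm_mul, Complex.norm_real]
        have hcos : ‖Real.cos (2 * π * n * t)‖ ≤ 1 := by
          rw [Real.norm_eq_abs]; exact Real.abs_cos_le_one _
        have hchi : ‖χ n‖ ≤ 1 := χ.norm_le_one _
        have hpi : ‖(π : ℝ)‖ = π := Real.norm_of_nonneg Real.pi_pos.le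
        have hn : ‖(n : ℝ)‖ = n := Real.norm_of_nonneg (Nat.cast_nonneg _)
        have h2n : ‖(2 : ℝ)‖ = 2 := by norm_num
        have hsq : ‖Real.sqrt y‖ = Real.sqrt y := Real.norm_of_nonneg (Real.sqrt_nonneg _)
        rw [hpi, hn, h2n, hsq]
        have hpi0 := Real.pi_pos
        calc ‖c1‖ * Real.sqrt y * ‖a n‖ * ‖besselPhi ν (n * y)‖ * (‖g‖ * ‖χ n‖) *
              (‖Real.cos (2 * π * n * t)‖ * (2 * π * n))
            ≤ ‖c1‖ * Real.sqrt y * ‖a n‖ * ‖besselPhi ν (n * y)‖ * (‖g‖ * 1) *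
              (1 * (2 * π * n)) := by gcongr
          _ = _ := by ring
      · have : (fun n : ℕ => c1 * (Real.sqrt y : ℝ) * a n * besselPhi ν (n * y) *
            (g * χ n) * ((Real.sin (2 * π * n * 0) : ℝ) : ℂ)) = fun _ => 0 := by
          funext n; simp
        rw [this]
        exact summable_zero
    set DD : ℝ → ℂ := fun y => ∑' n : ℕ, c1 * (Real.sqrt y : ℝ) * a n * besselPhi ν (n * y) *
          (g * χ n) * ((2 * π * n : ℝ) : ℂ) with hDdef
    set G : ℂ → ℂ := fun w => twist f χ (ofComplex w) with hG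
    have hGdiff : ∀ w : ℂ, 0 < w.im → DifferentiableAt ℝ G w := l06_diff hsm χ
    set y' : ℝ := 1 / (M * y) with hy'def
    have hy' : 0 < y' := hinv y hy
    have hyC : (y : ℂ) ≠ 0 := by exact_mod_cast hy.ne'
    -- derivative of the path `t ↦ t + y' i`
    have hp1 : HasDerivAt (fun t : ℝ => (t : ℂ) + y' * Complex.I) 1 0 := by
      simpa using (Complex.ofRealCLM.hasDerivAt (x := (0 : ℝ))).add_const ((y' : ℂ) * Complex.I)
    have hG1 : HasFDerivAt G (fderiv ℝ G (((0 : ℝ) : ℂ) + y' * Complex.I))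
        (((0 : ℝ) : ℂ) + y' * Complex.I) := (hGdiff _ (by simpa using hy')).hasFDerivAt
    have hG2 := hG1.comp_hasDerivAt (0 : ℝ) hp1
    have hL1 : (fderiv ℝ G (((0 : ℝ) : ℂ) + y' * Complex.I)) 1 = DD y' :=
      hG2.unique (hD y' hy')
    -- derivative of the path `t ↦ -1/(M (t + y i))`
    have hp2 : HasDerivAt (fun t : ℝ => (-1 : ℂ) / ((M : ℂ) * ((t : ℂ) + y * Complex.I)))
        ((-(1 / (M * y ^ 2)) : ℝ) : ℂ) 0 := by
      have hb1 : HasDerivAt (fun t : ℝ => (t : ℂ) + y * Complex.I) 1 0 := by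
        simpa using (Complex.ofRealCLM.hasDerivAt (x := (0 : ℝ))).add_const ((y : ℂ) * Complex.I)
      have hb2 := hb1.const_mul (M : ℂ)
      have hne : (M : ℂ) * (((0 : ℝ) : ℂ) + y * Complex.I) ≠ 0 := by
        simp [hMC, hyC]
      have hb3 := (hasDerivAt_const (0 : ℝ) (-1 : ℂ)).div hb2 hne
      refine hb3.congr_deriv ?_
      push_cast
      rw [zero_add]
      field_simp
      rw [Complex.I_sq]
      ring
    have hpt : (-1 : ℂ) / ((M : ℂ) * (((0 : ℝ) : ℂ) + y * Complex.I)) =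
        ((0 : ℝ) : ℂ) + y' * Complex.I := by
      rw [hy'def]
      push_cast
      rw [zero_add, zero_add]
      field_simp
      rw [Complex.I_sq]
    have hG1' : HasFDerivAt G (fderiv ℝ G (((0 : ℝ) : ℂ) + y' * Complex.I))
        ((-1 : ℂ) / ((M : ℂ) * (((0 : ℝ) : ℂ) + y * Complex.I))) := by
      rw [hpt]; exact hG1
    have hG3 := hG1'.comp_hasDerivAt (0 : ℝ) hp2
    have hfun : (G ∘ fun t : ℝ => (-1 : ℂ) / ((M : ℂ) * ((t : ℂ) + y * Complex.I))) =
        fun t : ℝ => -κ * twist f χ (ofComplex (t + y * Complex.I)) := by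
      funext t
      have h := hfr (ofComplex (t + y * Complex.I))
      rw [coe_ofComplex_add t y hy, hev'] at h
      rw [Function.comp_apply]
      rw [show -κ * twist f χ (ofComplex (t + y * Complex.I)) = κ * -1 * twist f χ (ofComplex (t + y * Complex.I)) by ring]
      exact h
    rw [hfun] at hG3
    have hL2 : (fderiv ℝ G (((0 : ℝ) : ℂ) + y' * Complex.I))
        ((-(1 / (M * y ^ 2)) : ℝ) : ℂ) = -κ * DD y := hG3.unique ((hD y hy).const_mul (-κ))
    rw [clm_ofReal, hL1] at hL2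
    -- express `DD` through the theta-type series
    have hDH : ∀ y : ℝ, 0 < y → DD y = (2 * π * c1 * g / y) *
        ((Real.sqrt y : ℝ) * ∑' n : ℕ, (a n * χ n) * ((n * y : ℝ) : ℂ) ^ 1 *
            besselPhi ν (n * y)) := fun y hy => deriv_series_eq a (fun n => χ n) c1 g ν hy
    rw [hDH y hy, hDH y' hy'] at hL2
    have hpiC : (π : ℂ) ≠ 0 := by exact_mod_cast Real.pi_ne_zero
    have hne : 2 * (π : ℂ) * c1 * g / y ≠ 0 :=
      div_ne_zero (mul_ne_zero (mul_ne_zero (mul_ne_zero two_ne_zero hpiC) hc10) hg) hyC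
    apply mul_left_cancel₀ hne
    have e5 : ((-(1 / (M * y ^ 2)) : ℝ) : ℂ) * (2 * π * c1 * g / (y' : ℂ)) =
        -(2 * π * c1 * g / y) := by
      rw [hy'def]
      push_cast
      field_simp
    linear_combination ((Real.sqrt y' : ℝ) * ∑' n : ℕ, (a n * χ n) * ((n * y' : ℝ) : ℂ) ^ 1 *
            besselPhi ν (n * y')) * e5 - hL2
  · -- even character, `δ = 0`
    have hev' : χ (-1) = 1 := hev
    have h1 : ∀ y : ℝ, 0 < y → twist f χ (ofComplex (((0 : ℝ) : ℂ) + y * Complex.I)) =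
        (c * g) * ((Real.sqrt y : ℝ) * ∑' n : ℕ, (a n * χ n) *
          ((n * y : ℝ) : ℂ) ^ 0 * besselPhi ν (n * y)) := by
      intro y hy
      rw [← (v06_hasSum_twist hexp hprim hχ 0 y hy).tsum_eq, ← mul_assoc, ← tsum_mul_left]
      congr 1
      funext n
      rw [hev', ← hgdef]
      simp only [ofReal_zero, mul_zero, neg_zero, Complex.exp_zero, pow_zero]
      ring
    have h2 := hfr (ofComplex (((0 : ℝ) : ℂ) + y * Complex.I))
    have e0 : -1 / ((M : ℂ) * ((ofComplex (((0 : ℝ) : ℂ) + y * Complex.I) : ℍ) : ℂ)) =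
        ((0 : ℝ) : ℂ) + ((1 / (M * y) : ℝ) : ℂ) * Complex.I := by
      have hyC : (y : ℂ) ≠ 0 := by exact_mod_cast hy.ne'
      rw [coe_ofComplex_add 0 y hy]
      push_cast
      rw [zero_add, zero_add]
      field_simp
      rw [Complex.I_sq]
    rw [e0, h1 _ (hinv y hy), h1 y hy, hev'] at h2
    have hne : c * g ≠ 0 := mul_ne_zero hc hg
    apply mul_left_cancel₀ hne
    linear_combination h2

end Pool.Agent.Lib.H60M
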